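import Mathlib

namespace Pool.Agent.P.MP_d124bf_nt

/-- `digit n i` is the binary digit `a_{n,i}` of the 2-adic integer `-3^{-i}`: the residue of
`-3^{-i}` modulo `2^(n+1)`, taken in `[0, 2^(n+1))`, divided by `2^n` and rounded down. -/
def digit (n i : ℕ) : ℕ := (-((3 : ZMod (2 ^ (n + 1))) ^ i)⁻¹).val / 2 ^ n

/-- `x_{[i,k]} = x_i + ... + x_k` -/
def tail {k : ℕ} (x : Fin k → ℕ) (i : Fin k) : ℕ := ∑ j ∈ Finset.univ.filter (fun j => i ≤ j), x j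

/-- `Syr_{k,p}(x_1, ..., x_k)`; the index `i : Fin k` stands for `i + 1`. -/
def Syr (k p : ℕ) (x : Fin k → ℕ) : ℤ :=
  -3 ^ k * ∑ i : Fin k, ∑ t ∈ Finset.range p, (2 : ℤ) ^ t * (digit (t + tail x i) (i + 1) : ℤ)

/-- The Fourier coefficient at `ξ` of the law of `Syr_{k,p}(x) mod 2^p`, where the `x_i = y_i + 1`
are independent and geometric with mean `μ`, written out as the sum over all outcomes. -/
noncomputable def coeff (μ : ℝ) (k p : ℕ) (ξ : ℤ) : ℂ :=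
  ∑' y : Fin k → ℕ, ((∏ i, μ⁻¹ * (1 - μ⁻¹) ^ (y i) : ℝ) : ℂ) *
    Complex.exp (-2 * Real.pi * Complex.I * ξ * ((Syr k p (fun i => y i + 1) % 2 ^ p : ℤ) : ℂ) / 2 ^ p)

end Pool.Agent.P.MP_d124bf_nt
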