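import Pool.Agent.P.MP_d124bf_nt.Ex

/-!
The abstract system: a majorant `N` of the Fourier coefficient along a Bernoulli lattice path and
an array `ψ` of reals modulo one with `ψ u l = 2 ψ u (l+1) = 3 ψ (u+1) l`.
-/

namespace Pool.Agent.P.MP_d124bf_nt

/-- congruence modulo one -/
def Eqv (x y : ℝ) : Prop := ∃ n : ℤ, x = y + n

/-- distance to the integers at least `e` -/
def Far (e x : ℝ) : Prop := ∀ n : ℤ, e ≤ |x - n|

theorem Eqv.refl (x : ℝ) : Eqv x x := ⟨0, by simp⟩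

theorem Eqv.symm {x y : ℝ} (h : Eqv x y) : Eqv y x := by
  obtain ⟨n, rfl⟩ := h
  exact ⟨-n, by push_cast; ring⟩

theorem Eqv.trans {x y z : ℝ} (h : Eqv x y) (h' : Eqv y z) : Eqv x z := by
  obtain ⟨n, rfl⟩ := h
  obtain ⟨m, rfl⟩ := h'
  exact ⟨m + n, by push_cast; ring⟩

theorem Eqv.mul_int {x y : ℝ} (h : Eqv x y) (k : ℤ) : Eqv (k * x) (k * y) := by
  obtain ⟨n, rfl⟩ := h
  exact ⟨k * n, by push_cast; ring⟩

theorem Eqv.mul_pow {x y : ℝ} (h : Eqv x y) (b k : ℕ) : Eqv ((b : ℝ) ^ k * x) ((b : ℝ) ^ k * y) := by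
  have := h.mul_int ((b : ℤ) ^ k)
  push_cast at this
  exact this

theorem Eqv.of_eq {x y z : ℝ} (h : Eqv x y) (e : y = z) : Eqv x z := e ▸ h

theorem Far.of_eqv {e x y : ℝ} (h : Far e y) (hxy : Eqv x y) : Far e x := by
  obtain ⟨n, rfl⟩ := hxy
  intro m
  have := h (m - n)
  push_cast at this
  rwa [show y + n - m = y - (m - n) by ring]

theorem Far.add_small {e x d t : ℝ} (h : Far e x) (hd : |d| ≤ t) : Far (e - t) (x + d) := by
  intro n
  have h1 := h n
  have h2 : |x - n| ≤ |x + d - n| + |d| := by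
    have := abs_sub (x + d - n) d
    rwa [show x + d - n - d = x - n by ring] at this
  linarith

theorem Far.mono {e e' x : ℝ} (h : Far e x) (he : e' ≤ e) : Far e' x := fun n => he.trans (h n)

theorem far_half : Far (1 / 2) (1 / 2) := by
  intro n
  rcases le_or_gt n 0 with h | h
  · have : (n : ℝ) ≤ 0 := by exact_mod_cast h
    rw [abs_of_nonneg (by linarith)]; linarith
  · have : (1 : ℝ) ≤ n := by exact_mod_cast h
    rw [abs_of_nonpos (by linarith)]; linarith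

theorem far_of_abs {e v : ℝ} (h1 : e ≤ |v|) (h2 : |v| ≤ 1 / 2) : Far e v := by
  intro n
  rcases eq_or_ne n 0 with rfl | h
  · simpa using h1
  · have h3 : (1 : ℝ) ≤ |(n : ℝ)| := by
      rw [← Int.cast_abs]; exact_mod_cast Int.one_le_abs h
    have h4 : |(n : ℝ)| ≤ |v| + |v - n| := by
      have := abs_sub v (v - n)
      rwa [show v - (v - n) = n by ring] at this
    linarith

structure Sys (q c : ℝ) (N ψ : ℕ → ℕ → ℝ) : Prop where
  nn : ∀ u l, 0 ≤ N u l
  le1 : ∀ u l, N u l ≤ 1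
  unit : ∀ u l, N (u + 1) l ≤ q * N u (l + 1) + (1 - q) * N (u + 1) (l + 1)
  gain : ∀ u l, 4 ≤ u → Far (1 / 8) (ψ u l) →
    N u l ≤ Ex q 4 (fun d => N (u - d) (l + 4)) - c * N (u - 1) (l + 4)
  two : ∀ u l, Eqv (ψ u l) (2 * ψ u (l + 1))
  three : ∀ u l, Eqv (ψ u l) (3 * ψ (u + 1) l)
  low : ∀ u l, 1 ≤ u → Far (1 / 3 ^ u) (ψ u l)
  zero : ∀ l, Eqv (ψ 0 l) 0

variable {q c : ℝ} {N ψ : ℕ → ℕ → ℝ}

theorem Sys.two_pow (S : Sys q c N ψ) (u l y : ℕ) : Eqv (ψ u l) (2 ^ y * ψ u (l + y)) := by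
  induction y with
  | zero => simpa using Eqv.refl _
  | succ y ih =>
    have := (S.two u (l + y)).mul_pow 2 y
    push_cast at this
    exact (ih.trans this).of_eq (by rw [add_assoc]; ring)

theorem Sys.three_pow (S : Sys q c N ψ) (u l y : ℕ) : Eqv (ψ u l) (3 ^ y * ψ (u + y) l) := by
  induction y with
  | zero => simpa using Eqv.refl _
  | succ y ih =>
    have := (S.three (u + y) l).mul_pow 3 y
    push_cast at this
    exact (ih.trans this).of_eq (by rw [add_assoc]; ring)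

theorem Sys.three_sub (S : Sys q c N ψ) {u D : ℕ} (h : D ≤ u) (l : ℕ) :
    Eqv (ψ (u - D) l) (3 ^ D * ψ u l) := by
  have := S.three_pow (u - D) l D
  rwa [Nat.sub_add_cancel h] at this

/-- comparison with a stopped walk -/
theorem Sys.cmp (S : Sys q c N ψ) (h0 : 0 ≤ q) (h1 : q ≤ 1) {Q : ℝ} {g : ℕ → ℝ} {u D1 L : ℕ}
    (hu : D1 + 1 ≤ u) (hQ : ∀ l', N (u - (D1 + 1)) l' ≤ Q) (hg : ∀ D ≤ D1, N (u - D) L ≤ g D)
    (hg' : ∀ D, D1 < D → Q ≤ g D) :
    ∀ h D0 l, D0 ≤ D1 + 1 → l + h = L → N (u - D0) l ≤ Ex q h (fun D => g (D0 + D)) := by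
  have stop : ∀ h l, N (u - (D1 + 1)) l ≤ Ex q h (fun D => g (D1 + 1 + D)) := by
    intro h l
    have := Ex_mono h0 h1 h (f := fun _ => Q) (g := fun D => g (D1 + 1 + D))
      (fun i => hg' _ (by omega))
    rw [Ex_const] at this
    exact (hQ l).trans this
  intro h
  induction h with
  | zero =>
    intro D0 l hD hl
    rcases eq_or_lt_of_le hD with rfl | hlt
    · exact stop 0 l
    · have : l = L := by omega
      subst this
      simpa [Ex] using hg D0 (by omega)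
  | succ h ih =>
    intro D0 l hD hl
    rcases eq_or_lt_of_le hD with rfl | hlt
    · exact stop _ l
    · have e : u - D0 = u - (D0 + 1) + 1 := by omega
      have h2 := S.unit (u - (D0 + 1)) l
      rw [← e] at h2
      have i1 := ih (D0 + 1) (l + 1) (by omega) (by omega)
      have i2 := ih D0 (l + 1) (by omega) (by omega)
      rw [Ex_succ]
      have e2 : (fun i => g (D0 + (i + 1))) = fun i => g (D0 + 1 + i) := by
        funext i; congr 1; ring
      rw [e2]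
      have := mul_le_mul_of_nonneg_left i1 h0
      have := mul_le_mul_of_nonneg_left i2 (sub_nonneg.2 h1)
      linarith

/-- the free walk -/
theorem Sys.walk (S : Sys q c N ψ) (h0 : 0 ≤ q) (h1 : q ≤ 1) :
    ∀ h u l, h ≤ u → N u l ≤ Ex q h (fun D => N (u - D) (l + h)) := by
  intro h
  induction h with
  | zero => intro u l _; simp [Ex]
  | succ h ih =>
    intro u l hu
    obtain ⟨u, rfl⟩ : ∃ u', u = u' + 1 := ⟨u - 1, by omega⟩
    have h2 := S.unit u l
    have i1 := ih u (l + 1) (by omega)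
    have i2 := ih (u + 1) (l + 1) (by omega)
    rw [Ex_succ]
    have e2 : (fun i => N (u + 1 - (i + 1)) (l + (h + 1))) = fun i => N (u - i) (l + 1 + h) := by
      funext i; congr 1 <;> omega
    have e3 : l + (h + 1) = l + 1 + h := by ring
    rw [e2, e3]
    have := mul_le_mul_of_nonneg_left i1 h0
    have := mul_le_mul_of_nonneg_left i2 (sub_nonneg.2 h1)
    linarith

/-- one block of four steps against a majorant; `w` is the indicator of a white test -/
theorem Sys.block (S : Sys q c N ψ) (h0 : 0 ≤ q) (h1 : q ≤ 1) (hc : c ≤ 4 * q * (1 - q) ^ 3)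
    {u l : ℕ} (hu : 4 ≤ u) {w : ℝ} (hw : w = 0 ∨ (w = 1 ∧ Far (1 / 8) (ψ u l))) {g : ℕ → ℝ}
    (hg : ∀ d ≤ 4, N (u - d) (l + 4) ≤ g d) :
    N u l ≤ (1 - q) ^ 4 * g 0 + (4 * q * (1 - q) ^ 3 - c * w) * g 1 + 6 * q ^ 2 * (1 - q) ^ 2 * g 2
      + 4 * q ^ 3 * (1 - q) * g 3 + q ^ 4 * g 4 := by
  have hq : 0 ≤ 1 - q := sub_nonneg.2 h1
  have key : N u l ≤ Ex q 4 (fun d => N (u - d) (l + 4)) - c * w * N (u - 1) (l + 4) := by
    rcases hw with rfl | ⟨rfl, hw⟩
    · simpa using S.walk h0 h1 4 u l hu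
    · simpa using S.gain u l hu hw
  have hcw : 0 ≤ 4 * q * (1 - q) ^ 3 - c * w := by
    have : 0 ≤ 4 * q * (1 - q) ^ 3 := by positivity
    rcases hw with rfl | ⟨rfl, _⟩ <;> linarith
  rw [Ex_four] at key
  have a0 := mul_le_mul_of_nonneg_left (hg 0 (by omega)) (show 0 ≤ (1 - q) ^ 4 by positivity)
  have a1 := mul_le_mul_of_nonneg_left (hg 1 (by omega)) hcw
  have a2 := mul_le_mul_of_nonneg_left (hg 2 (by omega))
    (show 0 ≤ 6 * q ^ 2 * (1 - q) ^ 2 by positivity)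
  have a3 := mul_le_mul_of_nonneg_left (hg 3 (by omega))
    (show 0 ≤ 4 * q ^ 3 * (1 - q) by positivity)
  have a4 := mul_le_mul_of_nonneg_left (hg 4 (by omega)) (show 0 ≤ q ^ 4 by positivity)
  linarith

theorem Sys.white (S : Sys q c N ψ) (h0 : 0 ≤ q) (h1 : q ≤ 1) (hc : c ≤ 4 * q * (1 - q) ^ 3)
    {u l thr : ℕ} {B : ℝ} (hu : thr + 4 ≤ u) (hB : ∀ u' l', thr ≤ u' → N u' l' ≤ B)
    (hw : Far (1 / 8) (ψ u l)) : N u l ≤ (1 - c) * B := by
  have := S.block h0 h1 hc (u := u) (l := l) (by omega) (w := 1) (Or.inr ⟨rfl, hw⟩)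
    (g := fun _ => B) (fun d hd => hB _ _ (by omega))
  refine this.trans (le_of_eq ?_)
  ring

theorem Av_add (L : List ℕ) (f g : ℕ → ℝ) (D : ℕ) :
    Av L (fun i => f i + g i) D = Av L f D + Av L g D := by
  simpa using Av_lin L 1 1 f g D

theorem Av_smul (L : List ℕ) (a : ℝ) (f : ℕ → ℝ) (D : ℕ) :
    Av L (fun i => a * f i) D = a * Av L f D := by
  simpa using Av_lin L a 0 f f D

end Pool.Agent.P.MP_d124bf_nt
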