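import Pool.Agent.P.MP_d124bf_nt.Defs
import Pool.Agent.P.MP_d124bf_nt.Sys

/-!
Arithmetic of the digits of `-3^{-i}`.
-/

namespace Pool.Agent.P.MP_d124bf_nt

def rr (i s : ℕ) : ℕ := (-((3 : ZMod (2 ^ s)) ^ i)⁻¹).val

theorem rr_lt (i s : ℕ) : rr i s < 2 ^ s := by
  have : NeZero (2 ^ s) := ⟨by positivity⟩
  exact ZMod.val_lt _

theorem cop (i s : ℕ) : Nat.Coprime (3 ^ i) (2 ^ s) := Nat.Coprime.pow i s (by norm_num)

theorem rr_dvd (i s : ℕ) : 2 ^ s ∣ 3 ^ i * rr i s + 1 := by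
  have : NeZero (2 ^ s) := ⟨by positivity⟩
  rw [← ZMod.natCast_eq_zero_iff]
  have := ZMod.coe_mul_inv_eq_one (3 ^ i) (cop i s)
  push_cast at this ⊢
  rw [rr, ZMod.natCast_zmod_val, mul_neg, this]
  ring

theorem rr_uniq {i s r : ℕ} (h1 : r < 2 ^ s) (h2 : 2 ^ s ∣ 3 ^ i * r + 1) : r = rr i s := by
  have h3 : 3 ^ i * r + 1 ≡ 3 ^ i * rr i s + 1 [MOD 2 ^ s] :=
    ((Nat.modEq_zero_iff_dvd).2 h2).trans ((Nat.modEq_zero_iff_dvd).2 (rr_dvd i s)).symm
  have h4 := Nat.ModEq.cancel_left_of_coprime (cop i s).symm (Nat.ModEq.add_right_cancel' 1 h3)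
  exact Nat.ModEq.eq_of_lt_of_lt h4 h1 (rr_lt i s)

theorem rr_succ (i s : ℕ) : rr i (s + 1) = rr i s + 2 ^ s * digit s i := by
  have h1 : rr i (s + 1) % 2 ^ s = rr i s := by
    apply rr_uniq (Nat.mod_lt _ (by positivity))
    have h2 : 2 ^ s ∣ 3 ^ i * rr i (s + 1) + 1 := (pow_dvd_pow 2 (by omega)).trans (rr_dvd i (s + 1))
    have h3 : 3 ^ i * rr i (s + 1) + 1
        = 3 ^ i * (rr i (s + 1) % 2 ^ s) + 1 + 2 ^ s * (3 ^ i * (rr i (s + 1) / 2 ^ s)) := by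
      conv_lhs => rw [← Nat.mod_add_div (rr i (s + 1)) (2 ^ s)]
      ring
    rw [h3] at h2
    exact (Nat.dvd_add_left (Dvd.intro _ rfl)).1 h2
  rw [← h1]
  exact (Nat.mod_add_div _ _).symm

theorem digit_le (s i : ℕ) : digit s i ≤ 1 := by
  have h1 := rr_lt i (s + 1)
  rw [rr_succ, pow_succ] at h1
  by_contra h
  have : 2 ^ s * 2 ≤ 2 ^ s * digit s i := Nat.mul_le_mul_left _ (by omega)
  omega

def mm (i s : ℕ) : ℕ := (3 ^ i * rr i s + 1) / 2 ^ s

theorem mm_spec (i s : ℕ) : 2 ^ s * mm i s = 3 ^ i * rr i s + 1 := Nat.mul_div_cancel' (rr_dvd i s)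

theorem mm_succ (i s : ℕ) : mm i s + 3 ^ i * digit s i = 2 * mm i (s + 1) := by
  apply Nat.eq_of_mul_eq_mul_left (show 0 < 2 ^ s by positivity)
  have h1 := mm_spec i (s + 1)
  rw [rr_succ, pow_succ] at h1
  rw [mul_add, mm_spec, ← mul_assoc (2 ^ s) 2, h1]
  ring

theorem mm_pos (i s : ℕ) : 0 < mm i s := by
  have := mm_spec i s
  rcases Nat.eq_zero_or_pos (mm i s) with h | h
  · rw [h] at this; omega
  · exact h

theorem mm_lt {i : ℕ} (hi : 1 ≤ i) (s : ℕ) : mm i s < 3 ^ i := by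
  apply Nat.lt_of_mul_lt_mul_left (a := 2 ^ s)
  rw [mm_spec]
  have h1 : rr i s + 1 ≤ 2 ^ s := rr_lt i s
  have h2 : 1 < 3 ^ i := Nat.one_lt_pow (by omega) (by norm_num)
  have := Nat.mul_le_mul_left (3 ^ i) h1
  rw [mul_add, mul_one] at this
  rw [mul_comm (2 ^ s)]
  omega

theorem mm_not_dvd {i : ℕ} (hi : 1 ≤ i) (s : ℕ) : ¬ (3 : ℤ) ∣ (mm i s : ℤ) := by
  intro h
  have h1 : 3 ∣ mm i s := by exact_mod_cast h
  have h2 : 3 ∣ 3 ^ i * rr i s + 1 := mm_spec i s ▸ h1.mul_left _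
  have h3 : 3 ∣ 3 ^ i * rr i s := (dvd_pow_self 3 (by omega)).mul_right _
  have := (Nat.dvd_add_right h3).1 h2
  omega

theorem mm_level (i s : ℕ) : ∃ t : ℤ, (mm (i + 1) s : ℤ) = mm i s + 3 ^ i * t := by
  have h1 : (2 : ℤ) ^ s * mm (i + 1) s = 3 ^ (i + 1) * rr (i + 1) s + 1 := by
    exact_mod_cast mm_spec (i + 1) s
  have h2 : (2 : ℤ) ^ s * mm i s = 3 ^ i * rr i s + 1 := by exact_mod_cast mm_spec i s
  have h3 : (3 : ℤ) ^ i ∣ 2 ^ s * ((mm (i + 1) s : ℤ) - mm i s) :=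
    ⟨3 * rr (i + 1) s - rr i s, by rw [mul_sub, h1, h2]; ring⟩
  have h4 : IsCoprime ((3 : ℤ) ^ i) (2 ^ s) := by
    have := Nat.isCoprime_iff_coprime.2 (cop i s)
    push_cast at this
    exact this
  obtain ⟨t, ht⟩ := h4.dvd_of_dvd_mul_left h3
  exact ⟨t, by linarith⟩

def DD (p i s : ℕ) : ℤ := ∑ t ∈ Finset.range p, (2 : ℤ) ^ t * (digit (t + s) i : ℤ)

theorem mm_succ' (i s : ℕ) : (mm i s : ℤ) + 3 ^ i * digit s i = 2 * mm i (s + 1) := by
  exact_mod_cast mm_succ i s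

theorem DD_spec (p i s : ℕ) : 3 ^ i * DD p i s = 2 ^ p * (mm i (s + p) : ℤ) - mm i s := by
  induction p with
  | zero => simp [DD]
  | succ p ih =>
    have h := mm_succ' i (s + p)
    rw [DD, Finset.sum_range_succ, ← DD, mul_add, ih, add_comm p s, ← add_assoc, pow_succ]
    linear_combination (2 : ℤ) ^ p * h

theorem DD_succ (p i s : ℕ) :
    DD p i s + 2 ^ p * digit (s + p) i = digit s i + 2 * DD p i (s + 1) := by
  apply mul_left_cancel₀ (show (3 : ℤ) ^ i ≠ 0 by positivity)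
  have h1 := DD_spec p i s
  have h2 := DD_spec p i (s + 1)
  have h3 := mm_succ' i s
  have h4 := mm_succ' i (s + p)
  rw [show s + 1 + p = s + p + 1 by ring] at h2
  linear_combination h1 - 2 * h2 - h3 + (2 : ℤ) ^ p * h4

/-- the array attached to a unit `z`, a number `a` of dead columns and an offset `P` -/
noncomputable def psi (z : ℤ) (a P u l : ℕ) : ℝ := z * mm (a + u) (l + P) / 3 ^ u

theorem psi_two (z : ℤ) (a P u l : ℕ) : Eqv (psi z a P u l) (2 * psi z a P u (l + 1)) := by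
  refine ⟨-(z * 3 ^ a * digit (l + P) (a + u)), ?_⟩
  have h : (mm (a + u) (l + P) : ℝ) + 3 ^ (a + u) * digit (l + P) (a + u)
      = 2 * mm (a + u) (l + P + 1) := by exact_mod_cast mm_succ (a + u) (l + P)
  rw [psi, psi, show l + 1 + P = l + P + 1 by ring]
  push_cast
  field_simp
  rw [pow_add] at h
  linear_combination (z : ℝ) * h

theorem psi_three (z : ℤ) (a P u l : ℕ) : Eqv (psi z a P u l) (3 * psi z a P (u + 1) l) := by
  obtain ⟨t, ht⟩ := mm_level (a + u) (l + P)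
  refine ⟨-(z * 3 ^ a * t), ?_⟩
  have h : (mm (a + u + 1) (l + P) : ℝ) = mm (a + u) (l + P) + 3 ^ (a + u) * t := by
    exact_mod_cast ht
  rw [psi, psi, ← add_assoc, h]
  push_cast
  field_simp
  ring

theorem psi_low {z : ℤ} (hz : ¬ (3 : ℤ) ∣ z) (a P u l : ℕ) (hu : 1 ≤ u) :
    Far (1 / 3 ^ u) (psi z a P u l) := by
  intro n
  have h1 : z * mm (a + u) (l + P) - 3 ^ u * n ≠ 0 := by
    intro h
    have h2 : (3 : ℤ) ∣ z * mm (a + u) (l + P) := by
      rw [sub_eq_zero.1 h]; exact (dvd_pow_self 3 (by omega)).mul_right _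
    rcases (Int.prime_three.dvd_or_dvd h2) with h3 | h3
    · exact hz h3
    · exact mm_not_dvd (by omega) _ h3
  have h2 : (1 : ℝ) ≤ |((z * mm (a + u) (l + P) - 3 ^ u * n : ℤ) : ℝ)| := by
    rw [← Int.cast_abs]; exact_mod_cast Int.one_le_abs h1
  have e : psi z a P u l - n = ((z * mm (a + u) (l + P) - 3 ^ u * n : ℤ) : ℝ) / 3 ^ u := by
    rw [psi]; push_cast; field_simp
  rw [e, abs_div, abs_of_pos (show (0 : ℝ) < 3 ^ u by positivity)]
  gcongr

theorem psi_zero (z : ℤ) (a P l : ℕ) : Eqv (psi z a P 0 l) 0 :=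
  ⟨z * mm a (l + P), by simp [psi]⟩

theorem theta_step {j : ℕ} (s : ℕ) :
    (mm j (s + 1) : ℝ) / 3 ^ j - digit s j = ((mm j s : ℝ) / 3 ^ j - digit s j) / 2 := by
  have h : (mm j s : ℝ) + 3 ^ j * digit s j = 2 * mm j (s + 1) := by exact_mod_cast mm_succ j s
  field_simp
  linarith

theorem theta_abs {j : ℕ} (hj : 1 ≤ j) (s s' : ℕ) : |(mm j s : ℝ) / 3 ^ j - digit s' j| < 1 := by
  have h1 : (0 : ℝ) < (mm j s : ℝ) / 3 ^ j := by
    have := mm_pos j s
    positivity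
  have h2 : (mm j s : ℝ) / 3 ^ j < 1 := by
    rw [div_lt_one (by positivity)]
    exact_mod_cast mm_lt hj s
  have h3 : (digit s' j : ℝ) ≤ 1 := by exact_mod_cast digit_le s' j
  have h4 : (0 : ℝ) ≤ digit s' j := by positivity
  rw [abs_lt]
  constructor <;> linarith

/-- the phase difference between the levels `s` and `s + 1` in column `j` -/
noncomputable def dl (η : ℤ) (p j s : ℕ) : ℝ := η / 2 ^ p * DD p j s - η / 2 ^ p * DD p j (s + 1)

theorem caseA {η : ℤ} {p j l : ℕ} (hj : 1 ≤ j) (hη : Far (1 / 10) ((η : ℝ) / 2 ^ p))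
    (hw : Far (1 / 8) (psi 1 0 4 j l)) :
    Far (1 / 30) (dl η p j (l + 1)) ∨ Far (1 / 30) (dl η p j (l + 2)) ∨
      Far (1 / 30) (dl η p j (l + 3)) := by
  by_contra hcon
  simp only [not_or] at hcon
  obtain ⟨c1, c2, c3⟩ := hcon
  have step : ∀ s, ¬ Far (1 / 30) (dl η p j s) → ¬ Far (1 / 30) (dl η p j (s + 1)) →
      digit s j = digit (s + 1) j := by
    intro s d1 d2
    simp only [Far, not_forall, not_le] at d1 d2
    obtain ⟨n1, hn1⟩ := d1
    obtain ⟨n2, hn2⟩ := d2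
    have e1 : (DD p j s : ℝ) + 2 ^ p * digit (s + p) j = digit s j + 2 * DD p j (s + 1) := by
      exact_mod_cast DD_succ p j s
    have e2 : (DD p j (s + 1) : ℝ) + 2 ^ p * digit (s + 1 + p) j
        = digit (s + 1) j + 2 * DD p j (s + 1 + 1) := by
      exact_mod_cast DD_succ p j (s + 1)
    have e3 : dl η p j s - 2 * dl η p j (s + 1) = η / 2 ^ p * ((digit s j : ℝ) - digit (s + 1) j)
        + η * ((digit (s + 1 + p) j : ℝ) - digit (s + p) j) := by
      rw [dl, dl]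
      field_simp
      linear_combination (η : ℝ) * e1 - (η : ℝ) * e2
    rw [abs_lt] at hn1 hn2
    by_contra hne
    have a1 := digit_le s j
    have a2 := digit_le (s + 1) j
    rcases (show (digit s j = 1 ∧ digit (s + 1) j = 0) ∨ (digit s j = 0 ∧ digit (s + 1) j = 1) by
      omega) with ⟨b1, b2⟩ | ⟨b1, b2⟩
    · have := hη (n1 - 2 * n2 - η * ((digit (s + 1 + p) j : ℤ) - digit (s + p) j))
      rw [b1, b2] at e3
      push_cast at this e3
      rw [le_abs] at this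
      rcases this with h | h <;> linarith [hn1.1, hn1.2, hn2.1, hn2.2]
    · have := hη (-(n1 - 2 * n2 - η * ((digit (s + 1 + p) j : ℤ) - digit (s + p) j)))
      rw [b1, b2] at e3
      push_cast at this e3
      rw [le_abs] at this
      rcases this with h | h <;> linarith [hn1.1, hn1.2, hn2.1, hn2.2]
  have s1 := step (l + 1) c1 c2
  have s2 := step (l + 2) c2 c3
  have t1 := theta_step (j := j) (l + 1)
  have t2 := theta_step (j := j) (l + 2)
  have t3 := theta_step (j := j) (l + 3)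
  have t0 := theta_abs hj (l + 1) (l + 1)
  have e1 : l + 1 + 1 = l + 2 := rfl
  have e2 : l + 2 + 1 = l + 3 := rfl
  have e3 : l + 3 + 1 = l + 4 := rfl
  rw [e1] at s1 t1
  rw [e2] at s2 t2
  rw [e3] at t3
  rw [← s2, ← s1] at t3
  rw [← s1] at t2
  have := hw (digit (l + 1) j)
  simp only [psi, zero_add, Int.cast_one, one_mul, Int.cast_natCast] at this
  rw [t3, t2, t1, abs_div, abs_div, abs_div, abs_two] at this
  linarith

theorem caseB {z : ℤ} {a p u l : ℕ} (hu : 1 ≤ u) (hη : |((3 ^ a * z : ℤ) : ℝ) / 2 ^ p| ≤ 1 / 10)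
    (hw : Far (1 / 8) (psi z a (4 + p) u l)) : Far (1 / 30) (dl (3 ^ a * z) p (a + u) (l + 3)) := by
  set j := a + u with hj
  have t3 := theta_step (j := j) (l + 3)
  have t0 := theta_abs (j := j) (by omega) (l + 3) (l + 3)
  set lam : ℝ := ((3 ^ a * z : ℤ) : ℝ) / 2 ^ p with hlam
  have hs : |-(lam * ((mm j (l + 3 + 1) : ℝ) / 3 ^ j - digit (l + 3) j))| ≤ 1 / 20 := by
    rw [abs_neg, abs_mul, t3, abs_div _ (2 : ℝ), abs_two]
    have := mul_le_mul hη (show |(mm j (l + 3) : ℝ) / 3 ^ j - digit (l + 3) j| / 2 ≤ 1 / 2 by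
      linarith) (by positivity) (by norm_num)
    linarith
  refine ((hw.add_small hs).mono (by norm_num)).of_eqv ⟨-(3 ^ a * z * digit (l + 3 + p) j), ?_⟩
  have e1 : (3 : ℝ) ^ j * DD p j (l + 3) = 2 ^ p * (mm j (l + 3 + p) : ℝ) - mm j (l + 3) := by
    exact_mod_cast DD_spec p j (l + 3)
  have e2 : (3 : ℝ) ^ j * DD p j (l + 3 + 1)
      = 2 ^ p * (mm j (l + 3 + 1 + p) : ℝ) - mm j (l + 3 + 1) := by
    exact_mod_cast DD_spec p j (l + 3 + 1)
  have e3 : (mm j (l + 3) : ℝ) + 3 ^ j * digit (l + 3) j = 2 * mm j (l + 3 + 1) := by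
    exact_mod_cast mm_succ j (l + 3)
  have e4 : (mm j (l + 3 + p) : ℝ) + 3 ^ j * digit (l + 3 + p) j = 2 * mm j (l + 3 + p + 1) := by
    exact_mod_cast mm_succ j (l + 3 + p)
  rw [show l + 3 + 1 + p = l + 3 + p + 1 by ring] at e2
  have f1 : (DD p j (l + 3) : ℝ) = (2 ^ p * (mm j (l + 3 + p) : ℝ) - mm j (l + 3)) / 3 ^ j := by
    rw [← e1]; field_simp
  have f2 : (DD p j (l + 3 + 1) : ℝ)
      = (2 ^ p * (mm j (l + 3 + p + 1) : ℝ) - mm j (l + 3 + 1)) / 3 ^ j := by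
    rw [← e2]; field_simp
  have f3 : (mm j (l + 3) : ℝ) = 2 * mm j (l + 3 + 1) - 3 ^ j * digit (l + 3) j := by linarith
  have f4 : (mm j (l + 3 + p) : ℝ) = 2 * mm j (l + 3 + p + 1) - 3 ^ j * digit (l + 3 + p) j := by
    linarith
  rw [dl, psi, ← hj, show l + (4 + p) = l + 3 + p + 1 by ring, f1, f2, f3, f4, hlam]
  have h3 : (3 : ℝ) ^ j = 3 ^ a * 3 ^ u := by rw [hj, pow_add]
  rw [h3]
  push_cast
  field_simp
  ring

end Pool.Agent.P.MP_d124bf_nt
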