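import Pool.Agent.P.MP_d124bf_nt.Arith

/-!
The Fourier coefficient as the value at `(k, 0)` of a solution of a two-term recursion, and the
reduction to the abstract system.
-/

namespace Pool.Agent.P.MP_d124bf_nt

open Complex

noncomputable def FF (q : ℝ) (E : ℕ → ℕ → ℂ) : ℕ → ℕ → ℂ
  | 0, _ => 1
  | j + 1, l => ∑' n : ℕ, ((q * (1 - q) ^ n : ℝ) : ℂ) * (E (j + 1) (l + n + 1) * FF q E j (l + n + 1))

theorem FF_realize : True := by have := @FF.eq_def; trivial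

variable {q : ℝ} {E : ℕ → ℕ → ℂ}

theorem geo_hasSum (h0 : 0 < q) (h1 : q < 1) : HasSum (fun n : ℕ => q * (1 - q) ^ n) 1 := by
  have := (hasSum_geometric_of_lt_one (show 0 ≤ 1 - q by linarith) (by linarith)).mul_left q
  rwa [sub_sub_cancel, mul_inv_cancel₀ h0.ne'] at this

theorem term_norm (h0 : 0 < q) (h1 : q < 1) {x : ℂ} (hx : ‖x‖ ≤ 1) (n : ℕ) :
    ‖((q * (1 - q) ^ n : ℝ) : ℂ) * x‖ ≤ q * (1 - q) ^ n := by
  have : 0 ≤ q * (1 - q) ^ n := mul_nonneg h0.le (pow_nonneg (by linarith) _)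
  rw [norm_mul, Complex.norm_real, Real.norm_of_nonneg this]
  exact mul_le_of_le_one_right this hx

theorem FF_norm (h0 : 0 < q) (h1 : q < 1) (hE : ∀ j s, ‖E j s‖ = 1) (j l : ℕ) : ‖FF q E j l‖ ≤ 1 := by
  induction j generalizing l with
  | zero => simp [FF]
  | succ j ih =>
    rw [FF]
    exact tsum_of_norm_bounded (geo_hasSum h0 h1)
      (fun n => term_norm h0 h1 (by rw [norm_mul, hE, one_mul]; exact ih _) n)

theorem FF_rec (h0 : 0 < q) (h1 : q < 1) (hE : ∀ j s, ‖E j s‖ = 1) (j l : ℕ) :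
    FF q E (j + 1) l = q * (E (j + 1) (l + 1) * FF q E j (l + 1)) + (1 - q) * FF q E (j + 1) (l + 1) := by
  have hs : Summable (fun n : ℕ => ((q * (1 - q) ^ n : ℝ) : ℂ) *
      (E (j + 1) (l + n + 1) * FF q E j (l + n + 1))) :=
    Summable.of_norm_bounded (geo_hasSum h0 h1).summable
      (fun n => term_norm h0 h1 (by rw [norm_mul, hE, one_mul]; exact FF_norm h0 h1 hE _ _) n)
  rw [FF, hs.tsum_eq_zero_add, FF, ← tsum_mul_left]
  congr 1
  · simp
  · apply tsum_congr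
    intro n
    rw [show l + (n + 1) + 1 = l + 1 + n + 1 by ring]
    push_cast
    ring

theorem tail_last {j : ℕ} (x : Fin (j + 1) → ℕ) : tail x (Fin.last j) = x (Fin.last j) := by
  rw [tail, Finset.sum_filter, Fin.sum_univ_castSucc]
  simp [Fin.castSucc_lt_last, not_le.2]

theorem tail_castSucc {j : ℕ} (x : Fin (j + 1) → ℕ) (i : Fin j) :
    tail x i.castSucc = tail (fun i => x i.castSucc) i + x (Fin.last j) := by
  rw [tail, tail, Finset.sum_filter, Finset.sum_filter, Fin.sum_univ_castSucc]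
  simp [Fin.le_last]

theorem FF_hasSum (h0 : 0 < q) (h1 : q < 1) (hE : ∀ j s, ‖E j s‖ = 1) (j : ℕ) :
    Summable (fun y : Fin j → ℕ => ∏ i, q * (1 - q) ^ (y i)) ∧
    ∀ l, ∑' y : Fin j → ℕ, ((∏ i, q * (1 - q) ^ (y i) : ℝ) : ℂ) *
      ∏ i : Fin j, E (i + 1) (l + tail (fun i => y i + 1) i) = FF q E j l := by
  have hw : ∀ n : ℕ, 0 ≤ q * (1 - q) ^ n := fun n => mul_nonneg h0.le (pow_nonneg (by linarith) _)
  induction j with
  | zero => exact ⟨Summable.of_finite, fun l => by simp [FF]⟩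
  | succ j ih =>
    obtain ⟨ih1, ih2⟩ := ih
    have hs : Summable (fun z : ℕ × (Fin j → ℕ) => q * (1 - q) ^ z.1 * ∏ i, q * (1 - q) ^ (z.2 i)) :=
      (geo_hasSum h0 h1).summable.mul_of_nonneg ih1 hw
        (fun y => Finset.prod_nonneg (fun i _ => hw _))
    refine ⟨?_, fun l => ?_⟩
    · rw [← (Fin.snocEquiv (fun _ : Fin (j + 1) => ℕ)).summable_iff]
      refine hs.congr (fun z => ?_)
      simp [Fin.prod_univ_castSucc, Fin.snocEquiv, mul_comm]
    · rw [← (Fin.snocEquiv (fun _ : Fin (j + 1) => ℕ)).tsum_eq]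
      have e : ∀ z : ℕ × (Fin j → ℕ),
          ((∏ i, q * (1 - q) ^ ((Fin.snocEquiv (fun _ : Fin (j + 1) => ℕ)) z i) : ℝ) : ℂ) *
            ∏ i : Fin (j + 1), E (i + 1)
              (l + tail (fun i => (Fin.snocEquiv (fun _ : Fin (j + 1) => ℕ)) z i + 1) i)
          = ((q * (1 - q) ^ z.1 : ℝ) : ℂ) * E (j + 1) (l + z.1 + 1) *
            (((∏ i, q * (1 - q) ^ (z.2 i) : ℝ) : ℂ) *
              ∏ i : Fin j, E (i + 1) (l + z.1 + 1 + tail (fun i => z.2 i + 1) i)) := by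
        intro z
        rw [Fin.prod_univ_castSucc, Fin.prod_univ_castSucc, tail_last]
        simp only [tail_castSucc, Fin.snocEquiv, Equiv.coe_fn_mk, Fin.snoc_castSucc, Fin.snoc_last,
          Fin.val_castSucc, Fin.val_last]
        have e2 : ∀ i : Fin j, l + (tail (fun i => z.2 i + 1) i + (z.1 + 1))
            = l + z.1 + 1 + tail (fun i => z.2 i + 1) i := fun i => by ring
        simp only [e2]
        rw [← add_assoc l z.1 1]
        push_cast
        ring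
      rw [tsum_congr e, Summable.tsum_prod, FF]
      · apply tsum_congr
        intro n
        dsimp only
        rw [tsum_mul_left, ih2, mul_assoc]
      · refine Summable.of_norm_bounded hs (fun z => ?_)
        rw [norm_mul, norm_mul, norm_mul, hE, norm_prod, Complex.norm_real, Complex.norm_real,
          Real.norm_of_nonneg (hw _), Real.norm_of_nonneg (Finset.prod_nonneg (fun i _ => hw _))]
        simp [hE]

noncomputable def ee (x : ℝ) : ℂ := Complex.exp (2 * Real.pi * Complex.I * x)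

theorem ee_norm (x : ℝ) : ‖ee x‖ = 1 := by
  rw [ee, show 2 * Real.pi * Complex.I * x = ((2 * Real.pi * x : ℝ) : ℂ) * Complex.I by
    push_cast; ring]
  exact Complex.norm_exp_ofReal_mul_I _

theorem ee_add (x y : ℝ) : ee (x + y) = ee x * ee y := by
  rw [ee, ee, ee, ← Complex.exp_add]; congr 1; push_cast; ring

theorem ee_eqv {x y : ℝ} (h : Eqv x y) : ee x = ee y := by
  obtain ⟨n, rfl⟩ := h
  rw [ee_add]
  have : ee n = 1 := by
    rw [ee, show 2 * Real.pi * Complex.I * ((n : ℝ) : ℂ) = n * (2 * Real.pi * Complex.I) by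
      push_cast; ring]
    exact Complex.exp_int_mul_two_pi_mul_I n
  rw [this, mul_one]

theorem ee_sum {ι : Type*} (s : Finset ι) (f : ι → ℝ) : ee (∑ i ∈ s, f i) = ∏ i ∈ s, ee (f i) := by
  classical
  induction s using Finset.induction_on with
  | empty => simp [ee]
  | insert a s ha ih => rw [Finset.sum_insert ha, Finset.prod_insert ha, ee_add, ih]

theorem ee_pair {x y : ℝ} (h : Far (1 / 30) (x - y)) : ‖ee x + ee y‖ ≤ 2 - 1 / 250 := by
  set t := x - y - round (x - y) with ht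
  have h1 : 1 / 30 ≤ |t| := h _
  have h2 : |t| ≤ 1 / 2 := abs_sub_round _
  have e1 : ee x + ee y = ee y * (1 + ee t) := by
    rw [mul_add, mul_one, ← ee_add, add_comm]
    congr 1
    exact ee_eqv ⟨round (x - y), by rw [ht]; ring⟩
  have e2 : ‖1 + ee t‖ ^ 2 = 2 + 2 * Real.cos (2 * Real.pi * t) := by
    rw [ee, show 2 * Real.pi * Complex.I * t = ((2 * Real.pi * t : ℝ) : ℂ) * Complex.I by
      push_cast; ring, Complex.sq_norm, Complex.normSq_apply, add_re, add_im,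
      Complex.exp_ofReal_mul_I_re, Complex.exp_ofReal_mul_I_im]
    have := Real.sin_sq_add_cos_sq (2 * Real.pi * t)
    simp only [one_re, one_im]
    nlinarith
  have h3 : Real.cos (2 * Real.pi * t) ≤ 1 - 2 / Real.pi ^ 2 * (2 * Real.pi * t) ^ 2 := by
    apply Real.cos_le_one_sub_mul_cos_sq
    rw [abs_mul, abs_of_pos (show 0 < 2 * Real.pi by positivity)]
    nlinarith [Real.pi_pos]
  have h4 : 2 / Real.pi ^ 2 * (2 * Real.pi * t) ^ 2 = 8 * |t| ^ 2 := by
    rw [sq_abs]; field_simp; ring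
  rw [e1, norm_mul, ee_norm, one_mul]
  apply le_of_sq_le_sq _ (by norm_num)
  nlinarith

theorem FF_four (h0 : 0 < q) (h1 : q < 1) (hE : ∀ j s, ‖E j s‖ = 1) (i l : ℕ) {g : ℝ}
    (hg : ‖E (i + 4) (l + 1) + E (i + 4) (l + 2) + E (i + 4) (l + 3) + E (i + 4) (l + 4)‖ ≤ 4 - g) :
    ‖FF q E (i + 4) l‖ ≤ Ex q 4 (fun d => ‖FF q E (i + 4 - d) (l + 4)‖)
      - q * (1 - q) ^ 3 * g * ‖FF q E (i + 3) (l + 4)‖ := by
  have r := FF_rec h0 h1 hE
  have hq : 0 ≤ 1 - q := by linarith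
  have e : FF q E (i + 4) l = (((1 - q) ^ 4 : ℝ) : ℂ) * FF q E (i + 4) (l + 4)
      + ((q * (1 - q) ^ 3 : ℝ) : ℂ) * ((E (i + 4) (l + 1) + E (i + 4) (l + 2) + E (i + 4) (l + 3)
        + E (i + 4) (l + 4)) * FF q E (i + 3) (l + 4))
      + ((q ^ 2 * (1 - q) ^ 2 : ℝ) : ℂ) * ((E (i + 4) (l + 1) * E (i + 3) (l + 2)
        + E (i + 4) (l + 1) * E (i + 3) (l + 3) + E (i + 4) (l + 1) * E (i + 3) (l + 4)
        + E (i + 4) (l + 2) * E (i + 3) (l + 3) + E (i + 4) (l + 2) * E (i + 3) (l + 4)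
        + E (i + 4) (l + 3) * E (i + 3) (l + 4)) * FF q E (i + 2) (l + 4))
      + ((q ^ 3 * (1 - q) : ℝ) : ℂ) * ((E (i + 4) (l + 1) * E (i + 3) (l + 2) * E (i + 2) (l + 3)
        + E (i + 4) (l + 1) * E (i + 3) (l + 2) * E (i + 2) (l + 4)
        + E (i + 4) (l + 1) * E (i + 3) (l + 3) * E (i + 2) (l + 4)
        + E (i + 4) (l + 2) * E (i + 3) (l + 3) * E (i + 2) (l + 4)) * FF q E (i + 1) (l + 4))
      + ((q ^ 4 : ℝ) : ℂ) * ((E (i + 4) (l + 1) * E (i + 3) (l + 2) * E (i + 2) (l + 3)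
        * E (i + 1) (l + 4)) * FF q E i (l + 4)) := by
    rw [r (i + 3) l, r (i + 2) (l + 1), r (i + 3) (l + 1), r (i + 1) (l + 1 + 1), r (i + 2) (l + 1 + 1),
      r (i + 3) (l + 1 + 1), r i (l + 1 + 1 + 1), r (i + 1) (l + 1 + 1 + 1), r (i + 2) (l + 1 + 1 + 1),
      r (i + 3) (l + 1 + 1 + 1)]
    push_cast
    simp only [add_assoc, Nat.reduceAdd]
    ring
  have nm : ∀ (a : ℝ) (S x : ℂ) (b : ℝ), 0 ≤ a → ‖S‖ ≤ b → ‖(a : ℂ) * (S * x)‖ ≤ a * b * ‖x‖ := by
    intro a S x b ha hS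
    rw [norm_mul, norm_mul, Complex.norm_real, Real.norm_of_nonneg ha, mul_assoc]
    gcongr
  have n2 : ∀ a b c d, ‖E a b * E c d‖ ≤ 1 := fun a b c d => by rw [norm_mul, hE, hE, one_mul]
  have n3 : ∀ a b c d e f, ‖E a b * E c d * E e f‖ ≤ 1 := fun a b c d e f => by
    rw [norm_mul, norm_mul, hE, hE, hE]; norm_num
  have n4 : ∀ a b c d e f g h, ‖E a b * E c d * E e f * E g h‖ ≤ 1 := fun a b c d e f g h => by
    rw [norm_mul, norm_mul, norm_mul, hE, hE, hE, hE]; norm_num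
  have n0 : ‖(((1 - q) ^ 4 : ℝ) : ℂ) * FF q E (i + 4) (l + 4)‖ ≤ (1 - q) ^ 4 * ‖FF q E (i + 4) (l + 4)‖ := by
    rw [norm_mul, Complex.norm_real, Real.norm_of_nonneg (by positivity)]
  rw [e, Ex_four]
  refine (norm_add_le_of_le (norm_add_le_of_le (norm_add_le_of_le (norm_add_le_of_le n0
    (nm _ _ _ _ (by positivity) hg))
    (nm _ _ _ _ (by positivity) (norm_add_le_of_le (norm_add_le_of_le (norm_add_le_of_le
      (norm_add_le_of_le (norm_add_le_of_le (n2 ..) (n2 ..)) (n2 ..)) (n2 ..)) (n2 ..)) (n2 ..))))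
    (nm _ _ _ _ (by positivity) (norm_add_le_of_le (norm_add_le_of_le (norm_add_le_of_le
      (n3 ..) (n3 ..)) (n3 ..)) (n3 ..))))
    (nm _ _ _ _ (by positivity) (n4 ..))).trans (le_of_eq ?_)
  rw [show i + 4 - 0 = i + 4 from rfl, show i + 4 - 1 = i + 3 from rfl,
    show i + 4 - 2 = i + 2 from rfl, show i + 4 - 3 = i + 1 from rfl, show i + 4 - 4 = i from rfl]
  ring

theorem four_phase {x1 x2 x3 x4 : ℝ}
    (h : Far (1 / 30) (x1 - x2) ∨ Far (1 / 30) (x2 - x3) ∨ Far (1 / 30) (x3 - x4)) :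
    ‖ee x1 + ee x2 + ee x3 + ee x4‖ ≤ 4 - 1 / 250 := by
  have n := fun x => (ee_norm x).le
  rcases h with h | h | h
  · exact (norm_add_le_of_le (norm_add_le_of_le (ee_pair h) (n _)) (n _)).trans (by norm_num)
  · rw [add_assoc (ee x1)]
    exact (norm_add_le_of_le (norm_add_le_of_le (n _) (ee_pair h)) (n _)).trans (by norm_num)
  · rw [add_assoc (ee x1 + ee x2)]
    exact (norm_add_le_of_le (norm_add_le_of_le (n _) (n _)) (ee_pair h)).trans (by norm_num)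

noncomputable def EE (η : ℤ) (p j s : ℕ) : ℂ := ee (η / 2 ^ p * DD p j s)

theorem sys_of (h0 : 0 < q) (h1 : q < 1) (η z : ℤ) (hz : ¬ (3 : ℤ) ∣ z) (p a P : ℕ)
    (hw : ∀ u l, 1 ≤ u → Far (1 / 8) (psi z a P u l) → Far (1 / 30) (dl η p (a + u) (l + 1)) ∨
      Far (1 / 30) (dl η p (a + u) (l + 2)) ∨ Far (1 / 30) (dl η p (a + u) (l + 3))) :
    Sys q (q * (1 - q) ^ 3 * (1 / 250)) (fun u l => ‖FF q (EE η p) (a + u) l‖) (psi z a P) := by
  have hE : ∀ j s, ‖EE η p j s‖ = 1 := fun j s => ee_norm _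
  refine ⟨fun u l => norm_nonneg _, fun u l => FF_norm h0 h1 hE _ _, fun u l => ?_,
    fun u l hu hf => ?_, psi_two z a P, psi_three z a P, psi_low hz a P, psi_zero z a P⟩
  · rw [← add_assoc, FF_rec h0 h1 hE]
    refine (norm_add_le _ _).trans (le_of_eq ?_)
    rw [norm_mul, norm_mul, norm_mul, hE, one_mul, Complex.norm_real, Real.norm_of_nonneg h0.le,
      show (1 : ℂ) - q = ((1 - q : ℝ) : ℂ) by push_cast; ring, Complex.norm_real,
      Real.norm_of_nonneg (by linarith)]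
  · obtain ⟨i, rfl⟩ : ∃ i, u = i + 4 := ⟨u - 4, by omega⟩
    have := FF_four h0 h1 hE (a + i) l (g := 1 / 250)
      (four_phase (by simpa only [dl, add_assoc] using hw (i + 4) l (by omega) hf))
    rw [Ex_four] at this ⊢
    exact this

theorem coeff_eq {μ : ℝ} (hμ : 1 < μ) (k p : ℕ) (ξ η n : ℤ) (hη : η = ξ * 3 ^ k + 2 ^ p * n) :
    coeff μ k p ξ = FF μ⁻¹ (EE η p) k 0 := by
  have h0 : 0 < μ⁻¹ := by positivity
  have h1 : μ⁻¹ < 1 := inv_lt_one_of_one_lt₀ hμ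
  rw [← (FF_hasSum (E := EE η p) h0 h1 (fun j s => ee_norm _) k).2 0, coeff]
  apply tsum_congr
  intro y
  congr 1
  simp only [EE, zero_add]
  rw [← ee_sum]
  set x : Fin k → ℕ := fun i => y i + 1
  set T : ℤ := ∑ i : Fin k, DD p (i + 1) (tail x i) with hT
  have hS : Syr k p x = -3 ^ k * T := rfl
  have e1 : Complex.exp (-2 * Real.pi * Complex.I * ξ * ((Syr k p x % 2 ^ p : ℤ) : ℂ) / 2 ^ p)
      = ee (-(ξ * ((Syr k p x % 2 ^ p : ℤ) : ℝ) / 2 ^ p)) := by
    rw [ee]; congr 1; push_cast; ring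
  rw [e1]
  apply ee_eqv
  refine ⟨ξ * (Syr k p x / 2 ^ p) - n * T, ?_⟩
  rw [← Finset.mul_sum, Int.emod_def, hη]
  have : (∑ i : Fin k, (DD p (i + 1) (tail x i) : ℝ)) = T := by rw [hT]; push_cast; rfl
  rw [this]
  have hS' : ((Syr k p x : ℤ) : ℝ) = -3 ^ k * T := by rw [hS]; push_cast; ring
  push_cast
  rw [hS']
  field_simp
  ring

/-- reduction of the Fourier coefficient to the abstract system -/
theorem reduction {μ : ℝ} (hμ : 1 < μ) {k p : ℕ} {ξ : ℤ} (hp : p ≤ k) (hξ0 : 0 < ξ)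
    (hξ1 : ξ < 2 ^ p) : ∃ (N ψ : ℕ → ℕ → ℝ) (u : ℕ),
      Sys μ⁻¹ (μ⁻¹ * (1 - μ⁻¹) ^ 3 * (1 / 250)) N ψ ∧ k ≤ 3 * u ∧ ‖coeff μ k p ξ‖ = N u 0 := by
  have h0 : 0 < μ⁻¹ := by positivity
  have h1 : μ⁻¹ < 1 := inv_lt_one_of_one_lt₀ hμ
  by_cases hA : Far (1 / 10) (((ξ * 3 ^ k : ℤ) : ℝ) / 2 ^ p)
  · refine ⟨_, _, k, sys_of h0 h1 (ξ * 3 ^ k) 1 (by norm_num) p 0 4 (fun u l hu hf => ?_), by omega, ?_⟩
    · rw [zero_add]; exact caseA hu hA hf
    · rw [coeff_eq hμ k p ξ (ξ * 3 ^ k) 0 (by ring), zero_add]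
  · simp only [Far, not_forall, not_le] at hA
    obtain ⟨n, hn⟩ := hA
    set η : ℤ := ξ * 3 ^ k + 2 ^ p * (-n) with hη
    have hη1 : |(η : ℝ) / 2 ^ p| < 1 / 10 := by
      have : (η : ℝ) / 2 ^ p = ((ξ * 3 ^ k : ℤ) : ℝ) / 2 ^ p - n := by
        rw [hη]; push_cast; field_simp; ring
      rwa [this]
    have hη0 : η ≠ 0 := by
      intro h
      have h2 : (2 : ℤ) ^ p ∣ ξ * 3 ^ k := ⟨n, by linarith⟩
      have h3 : IsCoprime ((2 : ℤ) ^ p) (3 ^ k) := by
        have := Nat.isCoprime_iff_coprime.2 (cop k p).symm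
        push_cast at this
        exact this
      have := Int.le_of_dvd hξ0 (h3.dvd_of_dvd_mul_right h2)
      omega
    obtain ⟨a, z, hz, haz⟩ := WfDvdMonoid.max_power_factor hη0 Int.prime_three.irreducible
    have hz0 : z ≠ 0 := by rintro rfl; exact hz (dvd_zero _)
    have ha : 3 * a ≤ 2 * k := by
      have h2 : (3 : ℝ) ^ a ≤ 2 ^ k := by
        rw [abs_div, abs_of_pos (show (0 : ℝ) < 2 ^ p by positivity), div_lt_iff₀ (by positivity),
          haz] at hη1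
        push_cast at hη1
        rw [abs_mul, abs_of_pos (show (0 : ℝ) < 3 ^ a by positivity)] at hη1
        have h3 : (1 : ℝ) ≤ |(z : ℝ)| := by
          rw [← Int.cast_abs]; exact_mod_cast Int.one_le_abs hz0
        have h4 : (2 : ℝ) ^ p ≤ 2 ^ k := pow_le_pow_right₀ (by norm_num) hp
        have h5 : (0 : ℝ) < 3 ^ a := by positivity
        have h6 : (0 : ℝ) < 2 ^ p := by positivity
        nlinarith
      have h3 : 3 ^ a ≤ 2 ^ k := by exact_mod_cast h2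
      have h4 : 2 ^ (3 * a) ≤ 2 ^ (2 * k) := by
        calc 2 ^ (3 * a) = 8 ^ a := by rw [pow_mul]; norm_num
          _ ≤ 9 ^ a := Nat.pow_le_pow_left (by norm_num) a
          _ = (3 ^ a) ^ 2 := by rw [← pow_mul, mul_comm, pow_mul]; norm_num
          _ ≤ (2 ^ k) ^ 2 := Nat.pow_le_pow_left h3 2
          _ = 2 ^ (2 * k) := by rw [← pow_mul, mul_comm]
      exact (Nat.pow_le_pow_iff_right (by norm_num)).1 h4
    refine ⟨_, _, k - a, sys_of h0 h1 η z hz p a (4 + p) (fun u l hu hf => ?_), by omega, ?_⟩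
    · right; right
      rw [haz] at hη1 ⊢
      exact caseB hu hη1.le hf
    · rw [coeff_eq hμ k p ξ η (-n) hη, show a + (k - a) = k by omega]

end Pool.Agent.P.MP_d124bf_nt
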