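import Pool.Agent.P.MP_d124bf_nt.Rec

/-!
One block for a family of systems, and the chain of blocks.
-/

namespace Pool.Agent.P.MP_d124bf_nt

open Finset

variable {q c : ℝ}

theorem blockG (h0 : 0 < q) (hq : q * Real.log 3 < Real.log 2) (hc0 : 0 < c)
    (hc : c ≤ 4 * q * (1 - q) ^ 3) (hc1 : c ≤ 1) :
    ∃ n0 m0 : ℕ, 1 ≤ n0 ∧ 2 ≤ m0 ∧ ∀ (ι : Type) (N ψ : ι → ℕ → ℕ → ℝ) (T : Finset ι),
      (∀ i ∈ T, Sys q c (N i) (ψ i)) → ∀ u l : ℕ, 9 ≤ u / m0 → Conf ψ T u l 1 →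
      ∃ U : ι → ℝ, ∃ Z : Finset (ℕ × ℕ), (∀ i ∈ T, 0 ≤ U i ∧ U i ≤ 1) ∧ ∑ i ∈ T, U i ^ n0 ≤ 12 ∧
        (∀ s ∈ Z, u / m0 ≤ s.1 ∧ s.1 ≤ u) ∧ Z.card ≤ u ^ 2 ∧
        ∀ i ∈ T, N i u l ≤ U i * ∑ s ∈ Z, N i s.1 s.2 + 3 * (1 / 2) ^ (u / m0) := by
  obtain ⟨x, y, hx, hx3, hy, hy2, hxy, -⟩ := exists_xy h0 hq
  have h1 : q < 1 := by
    have l2 : 0 < Real.log 2 := Real.log_pos (by norm_num)
    have : Real.log 2 < Real.log 3 := Real.log_lt_log (by norm_num) (by norm_num)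
    nlinarith
  set a := q * x + 1 - q with ha
  have a1 : 1 ≤ a := by rw [ha]; nlinarith
  have a3 : a ≤ 3 := by rw [ha]; nlinarith
  have y0 : 0 < y := by linarith
  have x0 : 0 < x := by linarith
  have a0 : 0 < a := by linarith
  have r1 : a / y < 1 := (div_lt_one y0).2 hy
  obtain ⟨m1, hm1⟩ := small_pow (a := a / y) (by positivity) r1 (e := 1 / 18) (by norm_num)
  obtain ⟨m0, hm0⟩ : ∃ m0, m0 = m1 + 2 := ⟨_, rfl⟩
  have hm := hm1 m0 (by omega)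
  have m2 : 2 ≤ m0 := by omega
  obtain ⟨n0, hn0, H⟩ := flat h0 h1 hc0 hc hc1 hx hx3 hy hxy (4 * m0) (by omega)
  refine ⟨n0, m0, hn0, m2, fun ι N ψ T hS u l ht hC => ?_⟩
  obtain ⟨t, htu⟩ : ∃ t, t = u / m0 := ⟨_, rfl⟩
  rw [← htu] at ht ⊢
  have u1 : m0 * t ≤ u := by rw [htu]; exact Nat.mul_div_le u m0
  have u2 : u < m0 * (t + 1) := by rw [htu]; exact Nat.lt_mul_div_succ u (by omega)
  have u3 : 2 * t ≤ u := (Nat.mul_le_mul_right t m2).trans u1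
  obtain ⟨g, rfl⟩ : ∃ g, t = 4 + g := ⟨t - 4, by omega⟩
  have u4 : 2 * u ≤ 4 * m0 * g := by
    have : m0 * (2 * (4 + g + 1)) ≤ m0 * (4 * g) := Nat.mul_le_mul_left _ (by omega)
    nlinarith
  obtain ⟨R, r2, r3, r4, r5⟩ : ∃ R : ℕ, 3 ^ u ≤ 2 ^ (R + 1) ∧ 2 ^ R ≤ 3 ^ u ∧ u ≤ R + 1 ∧ R + 1 ≤ 2 * u := by
    have b1 : 2 ^ Nat.log 2 (3 ^ u) ≤ 3 ^ u := Nat.pow_log_le_self 2 (by positivity)
    have b2 : 3 ^ u < 2 ^ (Nat.log 2 (3 ^ u) + 1) := Nat.lt_pow_succ_log_self (by norm_num) _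
    refine ⟨Nat.log 2 (3 ^ u), b2.le, b1, ?_, ?_⟩
    · exact (Nat.pow_le_pow_iff_right (by norm_num)).1
        ((Nat.pow_le_pow_left (by norm_num : 2 ≤ 3) u).trans b2.le)
    · refine (Nat.pow_lt_pow_iff_right (a := 2) (by norm_num)).1 (lt_of_le_of_lt b1 ?_)
      rw [pow_mul]
      exact Nat.pow_lt_pow_left (by norm_num) (by omega)
  have r6 := hxy _ _ r3
  have r7 : (3 : ℝ) ^ u ≤ 2 ^ (R + 1) := by exact_mod_cast r2
  clear r2 r3 hxy
  obtain ⟨E, hE⟩ : ∃ E, E = l + (R + 1) := ⟨_, rfl⟩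
  set W : ℕ → ℕ → ℝ := fun u' l' => x ^ (4 + g) * a ^ (E + 4 + g) / (x ^ u' * a ^ l') with hW
  have W0 : ∀ u' l', 0 ≤ W u' l' := fun u' l' => by simp only [hW]; positivity
  have W1 : ∀ u' l', W (u' + 1) l' = q * W u' (l' + 1) + (1 - q) * W (u' + 1) (l' + 1) := by
    intro u' l'
    simp only [hW, pow_succ]
    field_simp
    rw [ha]; ring
  have W2 : ∀ u' ≤ 4 + g, ∀ l' ≤ E + 4 + g, 1 ≤ W u' l' := by
    intro u' hu l' hl
    simp only [hW]
    rw [one_le_div (by positivity)]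
    exact mul_le_mul (pow_le_pow_right₀ hx.le hu) (pow_le_pow_right₀ a1 hl) (by positivity)
      (by positivity)
  have W3 : W u l ≤ 2 * (1 / 2) ^ (4 + g) := by
    have e1 : W u l = x ^ (4 + g) * a ^ (4 + g) * ((a / y) ^ (R + 1) * (y * (y ^ R / x ^ u))) := by
      simp only [hW]
      rw [hE, div_pow]
      field_simp
      ring
    have e2 : x ^ (4 + g) * a ^ (4 + g) ≤ 9 ^ (4 + g) := by
      rw [← mul_pow]
      exact pow_le_pow_left₀ (by positivity) (by nlinarith) _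
    have e3 : (a / y) ^ (R + 1) ≤ (1 / 18) ^ (4 + g) := by
      refine (pow_le_pow_of_le_one (by positivity) r1.le (u1.trans r4)).trans ?_
      rw [pow_mul]
      exact pow_le_pow_left₀ (by positivity) hm _
    have e4 : y * (y ^ R / x ^ u) ≤ 2 * 1 :=
      mul_le_mul hy2 ((div_le_one (by positivity)).2 r6) (by positivity) (by norm_num)
    rw [e1]
    refine (mul_le_mul e2 (mul_le_mul e3 e4 (by positivity) (by positivity)) (by positivity)
      (by positivity)).trans (le_of_eq ?_)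
    rw [← mul_assoc, ← mul_pow]
    norm_num [mul_comm]
  set Z := Icc (4 + g) u ×ˢ Icc E (E + 4 + g) with hZ
  set N' : ι → ℕ → ℕ → ℝ := fun i u l => max (N i u l - W u l) 0 with hN'
  set B : ι → ℝ := fun i => ∑ s ∈ Z, N i s.1 s.2 + (1 / 2) ^ (4 + g) with hB
  have S' : ∀ i ∈ T, Sys q c (N' i) (ψ i) := fun i hi => (hS i hi).trunc h0.le h1.le hc W0 W1 hc0.le
  have z : ∀ i ∈ T, ∀ u' ≤ 4 + g, ∀ l' ≤ E + 4 + g, N' i u' l' = 0 := fun i hi u' hu l' hl =>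
    max_eq_right (by linarith [(hS i hi).le1 u' l', W2 u' hu l' hl])
  have z' : ∀ i ∈ T, ∀ u' < 4, ∀ l' ≤ E + 4 + g, N' i u' l' = 0 := fun i hi u' hu l' hl =>
    z i hi u' (by omega) l' hl
  have B1 : ∀ i ∈ T, 0 ≤ ∑ s ∈ Z, N i s.1 s.2 := fun i hi => sum_nonneg (fun s _ => (hS i hi).nn _ _)
  have B0 : ∀ i ∈ T, 0 < B i := fun i hi => add_pos_of_nonneg_of_pos (B1 i hi) (by positivity)
  have B2 : ∀ i ∈ T, ∀ u' ≤ u, ∀ l', E ≤ l' → l' ≤ E + 4 + g → N' i u' l' ≤ B i := by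
    intro i hi u' hu l' hl hl'
    rcases le_total u' (4 + g) with h | h
    · rw [z i hi u' h l' hl']; exact (B0 i hi).le
    · have b1 : N i u' l' ≤ ∑ s ∈ Z, N i s.1 s.2 :=
        single_le_sum (f := fun s : ℕ × ℕ => N i s.1 s.2) (a := (u', l')) (fun s _ => (hS i hi).nn _ _)
          (mem_product.2 ⟨mem_Icc.2 ⟨h, hu⟩, mem_Icc.2 ⟨hl, hl'⟩⟩)
      have b2 : (0 : ℝ) < (1 / 2) ^ (4 + g) := by positivity
      refine max_le ?_ (B0 i hi).le
      simp only [hB]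
      linarith [W0 u' l']
  have U1 : ∀ i ∈ T, N' i u l / B i ≤ 1 := fun i hi => (div_le_one (B0 i hi)).2
    ((S' i hi).back h0.le h1.le (z' i hi) (h := R + 1) (by omega)
      (fun d _ => B2 i hi _ (by omega) _ (by omega) (by omega)))
  refine ⟨fun i => N' i u l / B i, Z, fun i hi => ⟨div_nonneg ((S' i hi).nn _ _) (B0 i hi).le, U1 i hi⟩,
    ?_, fun s hs => mem_Icc.1 (mem_product.1 hs).1, ?_, fun i hi => ?_⟩
  · refine (H ι N' ψ B T u E g l S' z' B0 B2 (by omega) (R + 1) l (by omega) le_rfl (by omega) T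
      Subset.rfl u le_rfl 1 (by norm_num) hC ?_).trans (by norm_num)
    rw [hE, pow_add, one_mul, mul_comm]
    exact mul_le_mul_of_nonneg_left r7 (by positivity)
  · rw [hZ, card_product, Nat.card_Icc, Nat.card_Icc, sq]
    exact Nat.mul_le_mul (by omega) (by omega)
  · have b1 : N i u l - W u l ≤ N' i u l := le_max_left _ _
    have b2 : N' i u l = N' i u l / B i * ∑ s ∈ Z, N i s.1 s.2 + N' i u l / B i * (1 / 2) ^ (4 + g) := by
      rw [← mul_add]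
      exact (div_mul_cancel₀ _ (B0 i hi).ne').symm
    have b3 := mul_le_mul_of_nonneg_right (U1 i hi) (show (0 : ℝ) ≤ (1 / 2) ^ (4 + g) by positivity)
    linarith

theorem prod_le_sum_pow {n : ℕ} (hn : 1 ≤ n) (x : Fin n → ℝ) (hx : ∀ j, 0 ≤ x j) :
    ∏ j, x j ≤ ∑ j, x j ^ n := by
  obtain ⟨j0, _, h⟩ := exists_max_image univ x ⟨⟨0, hn⟩, mem_univ _⟩
  refine (prod_le_prod (fun j _ => hx j) h).trans ?_
  rw [prod_const, card_univ, Fintype.card_fin]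
  exact single_le_sum (f := fun j => x j ^ n) (fun j _ => pow_nonneg (hx j) n) (mem_univ j0)

theorem chain (h0 : 0 < q) (hq : q * Real.log 3 < Real.log 2) (hc0 : 0 < c)
    (hc : c ≤ 4 * q * (1 - q) ^ 3) (hc1 : c ≤ 1) :
    ∃ n M : ℕ, 1 ≤ M ∧ ∀ (ι : Type) (N ψ : ι → ℕ → ℕ → ℝ) (T : Finset ι),
      (∀ i ∈ T, Sys q c (N i) (ψ i)) → ∀ (s k : ℕ) (ε : ℝ), 9 ≤ s → 0 ≤ ε →
      (∀ u l, s ≤ u → Conf ψ T u l 1) → (∀ i ∈ T, ∀ u l, s ≤ u → N i u l ≤ ε) →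
      ∀ u l, M * s ≤ u → u ≤ k →
        ∑ i ∈ T, N i u l ≤ ((k : ℝ) ^ 2) ^ n * (n * (12 * ε + T.card * (3 * (1 / 2) ^ s))) := by
  obtain ⟨n0, m0, hn0, hm0, H⟩ := blockG h0 hq hc0 hc hc1
  refine ⟨n0, m0 ^ n0, Nat.one_le_pow _ _ (by omega), fun ι N ψ T hS s k ε hs hε hC hN => ?_⟩
  have key : ∀ b m : ℕ, m + b = n0 → ∀ w : Fin m → ι → ℝ, (∀ j, ∀ i ∈ T, 0 ≤ w j i ∧ w j i ≤ 1) →
      (∀ j, ∑ i ∈ T, w j i ^ n0 ≤ 12) → ∀ u l, m0 ^ b * s ≤ u → u ≤ k →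
      ∑ i ∈ T, (∏ j, w j i) * N i u l
        ≤ ((k : ℝ) ^ 2) ^ b * (n0 * (12 * ε) + b * (T.card * (3 * (1 / 2) ^ s))) := by
    intro b
    induction b with
    | zero =>
      intro m hm w hw hw' u l hu _
      obtain rfl : m = n0 := hm
      rw [pow_zero, one_mul] at hu
      refine (sum_le_sum (fun i hi => mul_le_mul (prod_le_sum_pow hn0 (fun j => w j i)
        (fun j => (hw j i hi).1)) (hN i hi u l hu) ((hS i hi).nn _ _)
        (sum_nonneg (fun j _ => pow_nonneg (hw j i hi).1 _)))).trans ?_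
      rw [← sum_mul, sum_comm]
      have := sum_le_card_nsmul univ _ _ (fun j _ => hw' j)
      rw [card_univ, Fintype.card_fin, nsmul_eq_mul] at this
      have := mul_le_mul_of_nonneg_right this hε
      simp only [pow_zero, Nat.cast_zero]
      linarith
    | succ b ih =>
      intro m hm w hw hw' u l hu hk
      have t1 : m0 ^ b * s ≤ u / m0 := by
        rw [Nat.le_div_iff_mul_le (by omega)]
        refine le_trans (le_of_eq ?_) hu
        ring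
      have t2 : s ≤ u / m0 := (Nat.le_mul_of_pos_left _ (by positivity)).trans t1
      have t3 : s ≤ u := t2.trans (Nat.div_le_self _ _)
      obtain ⟨U, Z, u1, u2, u3, u4, u5⟩ := H ι N ψ T hS u l (hs.trans t2) (hC u l t3)
      have p0 : ∀ i ∈ T, 0 ≤ ∏ j, w j i := fun i hi => prod_nonneg (fun j _ => (hw j i hi).1)
      have p1 : ∀ i ∈ T, ∏ j, w j i ≤ 1 := fun i hi =>
        prod_le_one (fun j _ => (hw j i hi).1) (fun j _ => (hw j i hi).2)
      have e1 : (3 : ℝ) * (1 / 2) ^ (u / m0) ≤ 3 * (1 / 2) ^ s :=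
        mul_le_mul_of_nonneg_left (pow_le_pow_of_le_one (by norm_num) (by norm_num) t2) (by norm_num)
      have s1 : ∀ i ∈ T, (∏ j, w j i) * N i u l ≤
          ∑ z ∈ Z, (∏ j, (Fin.cons U w : Fin (m + 1) → ι → ℝ) j i) * N i z.1 z.2 + 3 * (1 / 2) ^ s := by
        intro i hi
        refine (mul_le_mul_of_nonneg_left (u5 i hi) (p0 i hi)).trans ?_
        rw [mul_add, ← mul_sum, Fin.prod_univ_succ]
        simp only [Fin.cons_zero, Fin.cons_succ]
        have := mul_le_mul (p1 i hi) e1 (by positivity) (by norm_num)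
        linarith
      refine (sum_le_sum s1).trans ?_
      rw [sum_add_distrib, sum_comm, sum_const, nsmul_eq_mul]
      have s2 := sum_le_card_nsmul Z _ _ (fun z hz => ih (m + 1) (by omega) (Fin.cons U w)
        (fun j => Fin.cases u1 hw j) (fun j => Fin.cases u2 hw' j) z.1 z.2
        (t1.trans (u3 z hz).1) ((u3 z hz).2.trans hk))
      rw [nsmul_eq_mul] at s2
      have k1 : (1 : ℝ) ≤ k := by exact_mod_cast (show 1 ≤ k by omega)
      have s3 : (Z.card : ℝ) ≤ (k : ℝ) ^ 2 := by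
        exact_mod_cast u4.trans (Nat.pow_le_pow_left hk 2)
      have s4 := s2.trans (mul_le_mul_of_nonneg_right s3 (by positivity))
      have s5 : (1 : ℝ) ≤ ((k : ℝ) ^ 2) ^ (b + 1) := one_le_pow₀ (one_le_pow₀ k1)
      have s6 := mul_le_mul_of_nonneg_right s5
        (show (0 : ℝ) ≤ T.card * (3 * (1 / 2) ^ s) by positivity)
      push_cast
      rw [pow_succ ((k : ℝ) ^ 2)] at s6 ⊢
      linarith
  intro u l hu hk
  have := key n0 0 (by omega) (fun j => j.elim0) (fun j => j.elim0) (fun j => j.elim0) u l hu hk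
  simp only [univ_eq_empty, prod_empty, one_mul] at this
  exact this.trans (le_of_eq (by ring))

end Pool.Agent.P.MP_d124bf_nt
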