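import Pool.Agent.P.MP_d124bf_nt.Rows

/-!
Families of systems whose arrays at one site lie in a short interval.
-/

namespace Pool.Agent.P.MP_d124bf_nt

open Finset

variable {ι : Type} {q c : ℝ} {N ψ : ι → ℕ → ℕ → ℝ} {T : Finset ι} {u l : ℕ} {δ : ℝ}

def Conf (ψ : ι → ℕ → ℕ → ℝ) (T : Finset ι) (u l : ℕ) (δ : ℝ) : Prop :=
  ∃ x : ι → ℝ, (∀ i ∈ T, Eqv (ψ i u l) (x i)) ∧ Set.InjOn x T ∧ ∀ i ∈ T, ∀ j ∈ T, |x i - x j| ≤ δ

theorem Conf.subset (h : Conf ψ T u l δ) {T' : Finset ι} (hT : T' ⊆ T) : Conf ψ T' u l δ := by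
  obtain ⟨x, h1, h2, h3⟩ := h
  exact ⟨x, fun i hi => h1 i (hT hi), h2.mono (by exact_mod_cast hT),
    fun i hi j hj => h3 i (hT hi) j (hT hj)⟩

theorem Conf.card_le (h : Conf ψ T u l δ) (hS : ∀ i ∈ T, Sys q c (N i) (ψ i)) (hδ : 0 ≤ δ) :
    (T.card : ℝ) ≤ δ * 3 ^ u + 1 := by
  obtain ⟨x, h1, h2, h3⟩ := h
  rcases T.eq_empty_or_nonempty with rfl | hne
  · simp only [card_empty, Nat.cast_zero]; positivity
  have hz : ∀ i ∈ T, ∃ z : ℤ, 3 ^ u * x i = z := by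
    intro i hi
    obtain ⟨z, hz⟩ := ((hS i hi).three_pow 0 l u).symm.trans ((hS i hi).zero l)
    obtain ⟨n, hn⟩ := h1 i hi
    rw [zero_add, zero_add, hn] at hz
    exact ⟨z - 3 ^ u * n, by push_cast; linarith⟩
  choose! Z hZ using hz
  obtain ⟨i0, hi0, hmin⟩ := exists_min_image T x hne
  have p3 : (0 : ℝ) < 3 ^ u := by positivity
  have h4 : T.card ≤ (Icc (Z i0) (Z i0 + ⌊δ * 3 ^ u⌋₊)).card := by
    apply card_le_card_of_injOn Z
    · intro i hi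
      have hi' : i ∈ T := hi
      have a1 := mul_le_mul_of_nonneg_left (hmin i hi') p3.le
      have a2 := mul_le_mul_of_nonneg_left ((le_abs_self _).trans (h3 i hi' i0 hi0)) p3.le
      rw [mul_sub, hZ i hi', hZ i0 hi0] at a2
      rw [hZ i hi', hZ i0 hi0] at a1
      have a3 : Z i0 ≤ Z i := by exact_mod_cast a1
      have a4 : Z i - Z i0 ≤ ⌊δ * 3 ^ u⌋ := Int.le_floor.2 (by push_cast; linarith)
      rw [← Int.natCast_floor_eq_floor (by positivity)] at a4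
      simp only [coe_Icc, Set.mem_Icc]
      exact ⟨a3, by linarith⟩
    · intro i hi j hj hij
      apply h2 hi hj
      apply mul_left_cancel₀ p3.ne'
      rw [hZ i hi, hZ j hj, hij]
  rw [Int.card_Icc, show Z i0 + ⌊δ * 3 ^ u⌋₊ + 1 - Z i0 = ((⌊δ * 3 ^ u⌋₊ + 1 : ℕ) : ℤ) by
    push_cast; ring, Int.toNat_natCast] at h4
  refine (Nat.cast_le.2 h4).trans ?_
  push_cast
  linarith [Nat.floor_le (show 0 ≤ δ * 3 ^ u by positivity)]

theorem Conf.left (h : Conf ψ T u l δ) (hS : ∀ i ∈ T, Sys q c (N i) (ψ i)) {d : ℕ} (hd : d ≤ u) :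
    Conf ψ T (u - d) l (3 ^ d * δ) := by
  obtain ⟨x, h1, h2, h3⟩ := h
  have p3 : (0 : ℝ) < 3 ^ d := by positivity
  refine ⟨fun i => 3 ^ d * x i, fun i hi => ((hS i hi).three_sub hd l).trans ?_,
    fun i hi j hj hij => h2 hi hj (mul_left_cancel₀ p3.ne' hij), fun i hi j hj => ?_⟩
  · simpa using (h1 i hi).mul_pow 3 d
  · rw [← mul_sub, abs_mul, abs_of_pos p3]
    exact mul_le_mul_of_nonneg_left (h3 i hi j hj) p3.le

theorem Conf.up (h : Conf ψ T u l δ) (hS : ∀ i ∈ T, Sys q c (N i) (ψ i)) (t : ℕ) :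
    ∃ f : ι → ℤ, (∀ i ∈ T, f i ∈ Ico (0 : ℤ) (2 ^ t)) ∧
      ∀ k, Conf ψ (T.filter (fun i => f i = k)) u (l + t) (δ / 2 ^ t) := by
  obtain ⟨x, h1, h2, h3⟩ := h
  have hz : ∀ i ∈ T, ∃ n : ℤ, 2 ^ t * ψ i u (l + t) = x i + n := fun i hi =>
    ((hS i hi).two_pow u l t).symm.trans (h1 i hi)
  choose! n hn using hz
  have p2 : (0 : ℝ) < 2 ^ t := by positivity
  refine ⟨fun i => n i % 2 ^ t, fun i _ => mem_Ico.2 ⟨Int.emod_nonneg _ (by positivity),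
    Int.emod_lt_of_pos _ (by positivity)⟩, fun k => ⟨fun i => (x i + k) / 2 ^ t, fun i hi => ?_,
    fun i hi j hj hij => ?_, fun i hi j hj => ?_⟩⟩
  · obtain ⟨a1, a2⟩ := mem_filter.1 hi
    refine ⟨n i / 2 ^ t, ?_⟩
    have a3 : n i = k + 2 ^ t * (n i / 2 ^ t) := by rw [← a2, Int.emod_add_mul_ediv]
    have a4 : (n i : ℝ) = k + 2 ^ t * ((n i / 2 ^ t : ℤ) : ℝ) := by exact_mod_cast a3
    have a5 := hn i a1
    field_simp
    linarith
  · have hi' : i ∈ T := (mem_filter.1 hi).1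
    have hj' : j ∈ T := (mem_filter.1 hj).1
    apply h2 hi' hj'
    have : (x i + k) / 2 ^ t = (x j + k) / 2 ^ t := hij
    rw [div_left_inj' p2.ne'] at this
    linarith
  · rw [← sub_div, abs_div, abs_of_pos p2, show x i + k - (x j + k) = x i - x j by ring]
    exact div_le_div_of_nonneg_right (h3 i (mem_filter.1 hi).1 j (mem_filter.1 hj).1) p2.le

theorem Conf.narrow (h : Conf ψ T u l δ) :
    ∃ f : ι → ℕ, (∀ i ∈ T, f i ∈ range (⌊2 * δ⌋₊ + 1)) ∧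
      ∀ k, Conf ψ (T.filter (fun i => f i = k)) u l (min δ (1 / 2)) := by
  obtain ⟨x, h1, h2, h3⟩ := h
  rcases T.eq_empty_or_nonempty with rfl | hne
  · exact ⟨fun _ => 0, by simp, fun k => ⟨x, by simp, by simp, by simp⟩⟩
  obtain ⟨i0, hi0, hmin⟩ := exists_min_image T x hne
  refine ⟨fun i => ⌊2 * (x i - x i0)⌋₊, fun i hi => ?_, fun k => ⟨x,
    fun i hi => h1 i (mem_filter.1 hi).1, h2.mono (by exact_mod_cast filter_subset _ _),
    fun i hi j hj => ?_⟩⟩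
  · rw [mem_range, Nat.lt_succ_iff]
    exact Nat.floor_le_floor (by linarith [(le_abs_self _).trans (h3 i hi i0 hi0)])
  · obtain ⟨a1, a2⟩ := mem_filter.1 hi
    obtain ⟨b1, b2⟩ := mem_filter.1 hj
    refine le_min (h3 i a1 j b1) ?_
    have c1 := Nat.floor_le (show 0 ≤ 2 * (x i - x i0) by linarith [hmin i a1])
    have c2 := Nat.floor_le (show 0 ≤ 2 * (x j - x i0) by linarith [hmin j b1])
    have c3 := Nat.lt_floor_add_one (2 * (x i - x i0))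
    have c4 := Nat.lt_floor_add_one (2 * (x j - x i0))
    beta_reduce at a2 b2
    rw [a2] at c1 c3
    rw [b2] at c2 c4
    rw [abs_le]
    constructor <;> linarith

theorem Conf.top (h : Conf ψ T u l δ) (hδ : δ ≤ 1 / 2) {v : ι → ℝ} {s : ℕ} {w : ℝ}
    (hv : ∀ i ∈ T, |v i| ≤ 1 / 8 ∧ Eqv (ψ i u l) (v i) ∧ Eqv (ψ i u (l + s)) (v i / 2 ^ s + w)) :
    Conf ψ T u (l + s) (δ / 2 ^ s) := by
  obtain ⟨x, h1, h2, h3⟩ := h
  have p2 : (0 : ℝ) < 2 ^ s := by positivity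
  have key : ∀ i ∈ T, ∀ j ∈ T, v i - v j = x i - x j := by
    intro i hi j hj
    obtain ⟨n, hn⟩ := (hv i hi).2.1.symm.trans (h1 i hi)
    obtain ⟨m, hm⟩ := (hv j hj).2.1.symm.trans (h1 j hj)
    have a1 := abs_le.1 (hv i hi).1
    have a2 := abs_le.1 (hv j hj).1
    have a3 := abs_le.1 (h3 i hi j hj)
    have a4 : |((n - m : ℤ) : ℝ)| < 1 := by
      push_cast
      rw [abs_lt]
      constructor <;> linarith [a1.1, a1.2, a2.1, a2.2, a3.1, a3.2]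
    rw [← Int.cast_abs] at a4
    have a5 : n - m = 0 := Int.abs_lt_one_iff.1 (by exact_mod_cast a4)
    have a6 : (n : ℝ) = m := by exact_mod_cast sub_eq_zero.1 a5
    linarith
  refine ⟨fun i => v i / 2 ^ s + w, fun i hi => (hv i hi).2.2, fun i hi j hj hij => ?_,
    fun i hi j hj => ?_⟩
  · apply h2 hi hj
    have a1 : v i / 2 ^ s + w = v j / 2 ^ s + w := hij
    rw [add_left_inj, div_left_inj' p2.ne'] at a1
    linarith [key i hi j hj]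
  · rw [show v i / 2 ^ s + w - (v j / 2 ^ s + w) = (v i - v j) / 2 ^ s by ring, key i hi j hj,
      abs_div, abs_of_pos p2]
    exact div_le_div_of_nonneg_right (h3 i hi j hj) p2.le

theorem Sys.below_top {N ψ : ℕ → ℕ → ℝ} (S : Sys q c N ψ) {u l r s : ℕ} {v : ℝ}
    (ht : Eqv (ψ u (l + r)) (v / 2 ^ r + 1 / 2)) (hs : s < r) : Eqv (ψ u (l + s)) (v / 2 ^ s) := by
  obtain ⟨y, rfl⟩ : ∃ y, r = s + (y + 1) := ⟨r - s - 1, by omega⟩
  have h2 := S.two_pow u (l + s) (y + 1)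
  rw [add_assoc] at h2
  refine (h2.trans (by simpa using ht.mul_pow 2 (y + 1))).trans ⟨2 ^ y, ?_⟩
  push_cast
  field_simp
  ring

theorem Sys.run {N ψ : ℕ → ℕ → ℝ} (S : Sys q c N ψ) {u : ℕ} (hu : 1 ≤ u) (l : ℕ) :
    ∃ r : ℕ, ∃ v : ℝ, |v| ≤ 3 / 8 ∧ (r ≠ 0 → |v| ≤ 1 / 8) ∧
      Eqv (ψ u (l + r)) (v / 2 ^ r + 1 / 2) := by
  by_cases hw : Far (1 / 8) (ψ u l)
  · refine ⟨0, Int.fract (ψ u l) - 1 / 2, ?_, fun h => absurd rfl h, ⌊ψ u l⌋, by simp⟩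
    have a1 := hw ⌊ψ u l⌋
    have a2 := hw (⌊ψ u l⌋ + 1)
    have a3 := Int.fract_nonneg (ψ u l)
    have a4 := Int.fract_lt_one (ψ u l)
    rw [Int.self_sub_floor, abs_of_nonneg a3] at a1
    push_cast at a2
    rw [← sub_sub, Int.self_sub_floor, abs_of_neg (by linarith)] at a2
    rw [abs_le]
    constructor <;> linarith
  · obtain ⟨r, v, h1, h2, _⟩ := S.exists_top hu hw
    exact ⟨r, v, by linarith, fun _ => h1, h2⟩

theorem fibre_sum {κ : Type} [DecidableEq κ] {f : ι → κ} {K : Finset κ} (hf : ∀ i ∈ T, f i ∈ K)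
    {F : ι → ℝ} {C : ℝ} (h : ∀ k ∈ K, ∑ i ∈ T.filter (fun i => f i = k), F i ≤ C) :
    ∑ i ∈ T, F i ≤ K.card * C := by
  rw [← sum_fiberwise_of_maps_to hf, ← nsmul_eq_mul]
  exact sum_le_card_nsmul _ _ _ h

theorem exists_Q {f : ℕ → ℝ} (hf : ∀ d, 0 ≤ f d) {B : ℝ} (hB : 0 < B) (D n : ℕ) :
    ∃ Q, 0 ≤ Q ∧ (∀ d ≤ D, f d ≤ Q) ∧ (Q / B) ^ n ≤ ∑ d ∈ range (D + 1), (f d / B) ^ n := by
  obtain ⟨d0, h0, h1⟩ := exists_max_image (range (D + 1)) f ⟨0, by simp⟩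
  exact ⟨f d0, hf d0, fun d hd => h1 d (mem_range.2 (by omega)),
    single_le_sum (f := fun d => (f d / B) ^ n) (fun d _ => by have := hf d; positivity) h0⟩

end Pool.Agent.P.MP_d124bf_nt
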