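import Pool.Agent.P.MP_d124bf_nt.Sys

/-!
Quasi-polynomial decay of the abstract system when `3^q < 2`.
-/

namespace Pool.Agent.P.MP_d124bf_nt

variable {q c : ℝ} {N ψ : ℕ → ℕ → ℝ}

/-- a non-white point lies below a level where the array is near one half -/
theorem Sys.exists_top (S : Sys q c N ψ) {u l : ℕ} (hu : 1 ≤ u) (hb : ¬ Far (1 / 8) (ψ u l)) :
    ∃ r : ℕ, ∃ v : ℝ, |v| ≤ 1 / 8 ∧ Eqv (ψ u (l + r)) (v / 2 ^ r + 1 / 2) ∧ 2 ^ r ≤ 3 ^ u := by
  classical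
  simp only [Far, not_forall, not_le] at hb
  obtain ⟨n0, hn0⟩ := hb
  set v := ψ u l - n0 with hv
  have bound : ∀ y : ℕ, Eqv (ψ u (l + y)) (v / 2 ^ y) → (2 : ℝ) ^ y * 8 ≤ 3 ^ u := by
    intro y hy
    have h1 := (S.low u (l + y) hu).of_eqv hy.symm 0
    rw [Int.cast_zero, sub_zero, abs_div, abs_of_pos (show (0 : ℝ) < 2 ^ y by positivity),
      div_le_div_iff₀ (by positivity) (by positivity)] at h1
    have : (0 : ℝ) < 3 ^ u := by positivity
    nlinarith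
  have ex : ∃ y : ℕ, ¬ Eqv (ψ u (l + y)) (v / 2 ^ y) := by
    refine ⟨3 ^ u, fun h => ?_⟩
    have h1 := bound _ h
    have h2 : (3 ^ u : ℕ) < 2 ^ (3 ^ u) := Nat.lt_two_pow_self
    have h3 : ((3 ^ u : ℕ) : ℝ) < ((2 ^ (3 ^ u) : ℕ) : ℝ) := by exact_mod_cast h2
    push_cast at h3
    have : (0 : ℝ) < 2 ^ (3 ^ u) := by positivity
    linarith
  have hne : Nat.find ex ≠ 0 := by
    intro h
    have := Nat.find_spec ex
    rw [h] at this
    exact this ⟨n0, by simp [hv]⟩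
  obtain ⟨r, hr⟩ := Nat.exists_eq_succ_of_ne_zero hne
  have hP : Eqv (ψ u (l + r)) (v / 2 ^ r) := by
    have := Nat.find_min ex (m := r) (by omega)
    simpa using this
  have hN : ¬ Eqv (ψ u (l + (r + 1))) (v / 2 ^ (r + 1)) := by
    have := Nat.find_spec ex
    rwa [hr] at this
  refine ⟨r + 1, v, hn0.le, ?_, ?_⟩
  · obtain ⟨n, hn⟩ := (S.two u (l + r)).symm.trans hP
    rw [add_assoc] at hn
    have e : ψ u (l + (r + 1)) = v / 2 ^ (r + 1) + n / 2 := by
      rw [pow_succ, ← div_div]; linarith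
    rcases Int.even_or_odd' n with ⟨m, rfl | rfl⟩
    · exact absurd ⟨m, by rw [e]; push_cast; ring⟩ hN
    · exact ⟨m, by rw [e]; push_cast; ring⟩
  · have h1 := bound r hP
    have : (2 : ℝ) ^ (r + 1) ≤ 3 ^ u := by
      rw [pow_succ]
      have : (0 : ℝ) < 2 ^ r := by positivity
      linarith
    exact_mod_cast this

/-- a path below a level near one half meets a white point before it passes that level -/
theorem Sys.small (S : Sys q c N ψ) (h0 : 0 ≤ q) (h1 : q ≤ 1) (hc : c ≤ 4 * q * (1 - q) ^ 3)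
    {thr : ℕ} {B : ℝ} (hB : ∀ u' l', thr ≤ u' → N u' l' ≤ B) :
    ∀ (r u l : ℕ) (v : ℝ), |v| ≤ 3 / 8 → Eqv (ψ u (l + r)) (v / 2 ^ r + 1 / 2) → thr + r + 4 ≤ u →
      N u l ≤ (1 - c) * B := by
  intro r
  induction r with
  | zero =>
    intro u l v hv ht hu
    apply S.white h0 h1 hc (by omega) hB
    have := (far_half.add_small hv).mono (show (1 : ℝ) / 8 ≤ 1 / 2 - 3 / 8 by norm_num)
    exact this.of_eqv (ht.of_eq (by simp; ring))
  | succ r ih =>
    intro u l v hv ht hu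
    have hψ : Eqv (ψ u l) v := by
      have h2 := (S.two_pow u l (r + 1)).trans (by simpa using ht.mul_pow 2 (r + 1))
      refine h2.trans ⟨2 ^ r, ?_⟩
      push_cast
      field_simp
      ring
    by_cases hw : 1 / 8 ≤ |v|
    · exact S.white h0 h1 hc (by omega) hB ((far_of_abs hw (by linarith)).of_eqv hψ)
    · rw [not_le] at hw
      obtain ⟨u, rfl⟩ : ∃ u', u = u' + 1 := ⟨u - 1, by omega⟩
      have e : l + (r + 1) = l + 1 + r := by ring
      rw [e] at ht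
      have i1 := ih (u + 1) (l + 1) (v / 2) (by rw [abs_div]; norm_num; linarith)
        (ht.of_eq (by rw [pow_succ]; field_simp)) (by omega)
      have i2 := ih u (l + 1) (3 * v / 2) (by rw [abs_div, abs_mul]; norm_num; linarith)
        (by
          have h3 := (S.three u (l + 1 + r)).trans (by simpa using ht.mul_int 3)
          refine h3.trans ⟨1, ?_⟩
          rw [pow_succ]; push_cast; field_simp; ring) (by omega)
      have := S.unit u l
      have := mul_le_mul_of_nonneg_left i2 h0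
      have := mul_le_mul_of_nonneg_left i1 (sub_nonneg.2 h1)
      linarith

open Classical in
/-- indicator of the periodic test in block `s` -/
noncomputable def ind (R : ℤ) (s D : ℕ) : ℝ :=
  if Far (1 / 4) (3 ^ D * R / 2 ^ (4 + 4 * s)) then 1 else 0

/-- the periodic majorant above a large triangle -/
noncomputable def GG (q c : ℝ) (R : ℤ) : ℕ → ℕ → ℕ → ℝ
  | 0, _, _ => 1
  | t + 1, s, D => (1 - q) ^ 4 * GG q c R t (s + 1) (D + 0)
      + (4 * q * (1 - q) ^ 3 - c * ind R s D) * GG q c R t (s + 1) (D + 1)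
      + 6 * q ^ 2 * (1 - q) ^ 2 * GG q c R t (s + 1) (D + 2)
      + 4 * q ^ 3 * (1 - q) * GG q c R t (s + 1) (D + 3) + q ^ 4 * GG q c R t (s + 1) (D + 4)

theorem GG_realize : True := by have := @GG.eq_def; trivial

def Ls : ℕ → ℕ → List ℕ
  | 0, _ => []
  | t + 1, s => 2 ^ (4 * s + 1) :: Ls t (s + 1)

theorem Ls_realize : True := by have := @Ls.eq_def; trivial

theorem Ls_sum (t s : ℕ) : (Ls t s).sum + 2 ^ (4 * s + 1) ≤ 2 ^ (4 * (s + t) + 1) := by
  induction t generalizing s with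
  | zero => simp [Ls]
  | succ t ih =>
    have := ih (s + 1)
    simp only [Ls, List.sum_cons]
    rw [show s + 1 + t = s + (t + 1) by ring, show 4 * (s + 1) + 1 = 4 * s + 1 + 4 by ring,
      pow_add 2 (4 * s + 1) 4] at this
    omega

theorem Ls_mem (t s M : ℕ) (h : M ∈ Ls t s) : ∃ u, s ≤ u ∧ M = 2 ^ (4 * u + 1) := by
  induction t generalizing s with
  | zero => simp [Ls] at h
  | succ t ih =>
    simp only [Ls, List.mem_cons] at h
    rcases h with h | h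
    · exact ⟨s, le_rfl, h⟩
    · obtain ⟨u, hu, e⟩ := ih _ h
      exact ⟨u, by omega, e⟩

theorem three_pow_two_pow (k : ℕ) : ∃ t : ℤ, (3 : ℤ) ^ (2 ^ (k + 1)) = 1 + 2 ^ (k + 3) * (2 * t + 1) := by
  induction k with
  | zero => exact ⟨0, by norm_num⟩
  | succ k ih =>
    obtain ⟨t, ht⟩ := ih
    refine ⟨t + 2 ^ (k + 1) * (2 * t + 1) ^ 2, ?_⟩
    rw [pow_succ 2 (k + 1), pow_mul, ht]
    ring

theorem ind_cases (R : ℤ) (s D : ℕ) :
    ind R s D = 0 ∨ (ind R s D = 1 ∧ Far (1 / 4) (3 ^ D * R / 2 ^ (4 + 4 * s))) := by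
  unfold ind
  split_ifs with h
  · exact Or.inr ⟨rfl, h⟩
  · exact Or.inl rfl

theorem ind_inv (R : ℤ) {s u : ℕ} (h : s + 1 ≤ u) (D : ℕ) : ind R s (D + 2 ^ (4 * u + 1)) = ind R s D := by
  obtain ⟨t, ht⟩ := three_pow_two_pow (4 * u)
  obtain ⟨w, rfl⟩ : ∃ w, u = s + 1 + w := ⟨u - (s + 1), by omega⟩
  have hR : (3 : ℝ) ^ (2 ^ (4 * (s + 1 + w) + 1)) = 1 + 2 ^ (4 * (s + 1 + w) + 3) * (2 * t + 1) := by
    exact_mod_cast ht
  have e : Eqv ((3 : ℝ) ^ (D + 2 ^ (4 * (s + 1 + w) + 1)) * R / 2 ^ (4 + 4 * s))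
      (3 ^ D * R / 2 ^ (4 + 4 * s)) := by
    refine ⟨3 ^ D * R * 2 ^ (4 * w + 3) * (2 * t + 1), ?_⟩
    rw [pow_add, hR]
    push_cast
    field_simp
    ring
  unfold ind
  congr 1
  exact propext ⟨fun h => h.of_eqv e.symm, fun h => h.of_eqv e⟩

theorem ind_pair (R : ℤ) (hR : Odd R) (s D : ℕ) : 1 ≤ ind R s D + ind R s (D + 2 ^ (4 * s + 1)) := by
  obtain ⟨t, ht⟩ := three_pow_two_pow (4 * s)
  have hT : (3 : ℝ) ^ (2 ^ (4 * s + 1)) = 1 + 2 ^ (4 * s + 3) * (2 * t + 1) := by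
    exact_mod_cast ht
  have hodd : Odd ((3 : ℤ) ^ D * R * (2 * t + 1)) :=
    ((Odd.pow (by decide)).mul hR).mul ⟨t, rfl⟩
  obtain ⟨m, hm⟩ := hodd
  have hm' : (3 : ℝ) ^ D * R * (2 * t + 1) = 2 * m + 1 := by exact_mod_cast hm
  have e : Eqv ((3 : ℝ) ^ (D + 2 ^ (4 * s + 1)) * R / 2 ^ (4 + 4 * s))
      (1 / 2 + 3 ^ D * R / 2 ^ (4 + 4 * s)) := by
    refine ⟨m, ?_⟩
    have : (m : ℝ) = ((3 : ℝ) ^ D * R * (2 * t + 1) - 1) / 2 := by rw [hm']; ring
    rw [pow_add, hT, this]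
    field_simp
    ring
  have n1 : 0 ≤ ind R s (D + 2 ^ (4 * s + 1)) := by unfold ind; split_ifs <;> norm_num
  by_cases h : Far (1 / 4) ((3 : ℝ) ^ D * R / 2 ^ (4 + 4 * s))
  · have : ind R s D = 1 := by unfold ind; rw [if_pos h]
    linarith
  · have h0 : ind R s D = 0 := by unfold ind; rw [if_neg h]
    simp only [Far, not_forall, not_le] at h
    obtain ⟨n, hn⟩ := h
    have h2 := (far_half.add_small hn.le).mono (show (1 : ℝ) / 4 ≤ 1 / 2 - 1 / 4 by norm_num)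
    have h3 : Far (1 / 4) ((3 : ℝ) ^ (D + 2 ^ (4 * s + 1)) * R / 2 ^ (4 + 4 * s)) :=
      h2.of_eqv (e.trans ⟨n, by ring⟩)
    have : ind R s (D + 2 ^ (4 * s + 1)) = 1 := by unfold ind; rw [if_pos h3]
    linarith

theorem GG_bounds (h0 : 0 ≤ q) (h1 : q ≤ 1) (hc0 : 0 ≤ c) (hc : c ≤ 4 * q * (1 - q) ^ 3) (R : ℤ) :
    ∀ t s D, 0 ≤ GG q c R t s D ∧ GG q c R t s D ≤ 1 := by
  have hq : 0 ≤ 1 - q := sub_nonneg.2 h1
  intro t
  induction t with
  | zero => intro s D; simp [GG]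
  | succ t ih =>
    intro s D
    have hi : 0 ≤ c * ind R s D ∧ c * ind R s D ≤ c := by
      rcases ind_cases R s D with h | ⟨h, _⟩ <;> rw [h] <;> simp [hc0]
    have hcw : 0 ≤ 4 * q * (1 - q) ^ 3 - c * ind R s D := by linarith [hi.2]
    simp only [GG]
    have b0 := ih (s + 1) (D + 0)
    have b1 := ih (s + 1) (D + 1)
    have b2 := ih (s + 1) (D + 2)
    have b3 := ih (s + 1) (D + 3)
    have b4 := ih (s + 1) (D + 4)
    constructor
    · have := b0.1; have := b1.1; have := b2.1; have := b3.1; have := b4.1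
      positivity
    · have a0 := mul_le_mul_of_nonneg_left b0.2 (show 0 ≤ (1 - q) ^ 4 by positivity)
      have a1 := mul_le_mul_of_nonneg_left b1.2 hcw
      have a2 := mul_le_mul_of_nonneg_left b2.2 (show 0 ≤ 6 * q ^ 2 * (1 - q) ^ 2 by positivity)
      have a3 := mul_le_mul_of_nonneg_left b3.2 (show 0 ≤ 4 * q ^ 3 * (1 - q) by positivity)
      have a4 := mul_le_mul_of_nonneg_left b4.2 (show 0 ≤ q ^ 4 by positivity)
      have : (1 - q) ^ 4 + 4 * q * (1 - q) ^ 3 + 6 * q ^ 2 * (1 - q) ^ 2 + 4 * q ^ 3 * (1 - q)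
        + q ^ 4 = 1 := by ring
      linarith [hi.1]

theorem GG_av (h0 : 0 ≤ q) (h1 : q ≤ 1) (hc0 : 0 ≤ c) (hc : c ≤ 4 * q * (1 - q) ^ 3) (hc1 : c ≤ 1)
    (R : ℤ) (hR : Odd R) : ∀ t s D, Av (Ls t s) (GG q c R t s) D ≤ (1 - c / 2) ^ t := by
  have hq : 0 ≤ 1 - q := sub_nonneg.2 h1
  intro t
  induction t with
  | zero => intro s D; simp [Ls, Av, GG]
  | succ t ih =>
    intro s D
    have hρ : 0 ≤ (1 - c / 2) ^ t := pow_nonneg (by linarith) _
    have key : ∀ D, Av (Ls t (s + 1)) (GG q c R (t + 1) s) D ≤ (1 - c * ind R s D) * (1 - c / 2) ^ t := by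
      intro D
      have e : GG q c R (t + 1) s = fun D => (1 - q) ^ 4 * GG q c R t (s + 1) (D + 0)
          + (4 * q * (1 - q) ^ 3 - c * ind R s D) * GG q c R t (s + 1) (D + 1)
          + 6 * q ^ 2 * (1 - q) ^ 2 * GG q c R t (s + 1) (D + 2)
          + 4 * q ^ 3 * (1 - q) * GG q c R t (s + 1) (D + 3) + q ^ 4 * GG q c R t (s + 1) (D + 4) := by
        funext D; rw [GG]
      rw [e, Av_add, Av_add, Av_add, Av_add, Av_smul, Av_smul, Av_smul, Av_smul,
        Av_mul _ (fun D => 4 * q * (1 - q) ^ 3 - c * ind R s D) _ (fun M hM i => by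
          obtain ⟨u, hu, rfl⟩ := Ls_mem _ _ _ hM
          simp only [ind_inv R hu]),
        Av_shift, Av_shift, Av_shift, Av_shift, Av_shift]
      have hi : c * ind R s D ≤ c := by
        rcases ind_cases R s D with h | ⟨h, _⟩ <;> rw [h] <;> simp [hc0]
      have a0 := mul_le_mul_of_nonneg_left (ih (s + 1) (D + 0)) (show 0 ≤ (1 - q) ^ 4 by positivity)
      have a1 := mul_le_mul_of_nonneg_left (ih (s + 1) (D + 1))
        (show 0 ≤ 4 * q * (1 - q) ^ 3 - c * ind R s D by linarith)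
      have a2 := mul_le_mul_of_nonneg_left (ih (s + 1) (D + 2))
        (show 0 ≤ 6 * q ^ 2 * (1 - q) ^ 2 by positivity)
      have a3 := mul_le_mul_of_nonneg_left (ih (s + 1) (D + 3))
        (show 0 ≤ 4 * q ^ 3 * (1 - q) by positivity)
      have a4 := mul_le_mul_of_nonneg_left (ih (s + 1) (D + 4)) (show 0 ≤ q ^ 4 by positivity)
      have : (1 - q) ^ 4 * (1 - c / 2) ^ t + (4 * q * (1 - q) ^ 3 - c * ind R s D) * (1 - c / 2) ^ t
          + 6 * q ^ 2 * (1 - q) ^ 2 * (1 - c / 2) ^ t + 4 * q ^ 3 * (1 - q) * (1 - c / 2) ^ t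
          + q ^ 4 * (1 - c / 2) ^ t = (1 - c * ind R s D) * (1 - c / 2) ^ t := by ring
      linarith
    simp only [Ls, Av]
    have k1 := key D
    have k2 := key (D + 2 ^ (4 * s + 1))
    have k3 := mul_le_mul_of_nonneg_left (ind_pair R hR s D) (mul_nonneg hc0 hρ)
    rw [pow_succ (1 - c / 2)]
    nlinarith

/-- above a large triangle the true system is dominated by the periodic one -/
theorem Sys.le_GG (S : Sys q c N ψ) (h0 : 0 ≤ q) (h1 : q ≤ 1) (hc : c ≤ 4 * q * (1 - q) ^ 3)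
    {thr u L n Dm : ℕ} {Q : ℝ} (hQ : ∀ u' l', thr ≤ u' → N u' l' ≤ Q) (hu : thr + Dm ≤ u)
    {R : ℤ} {w : ℝ} (hw : 3 ^ Dm * |w| ≤ 1)
    (hψ : ∀ s < n, Eqv (ψ u (L + 4 * s)) ((w + R) / 2 ^ (4 + 4 * s))) :
    ∀ t s D, s + t = n → D + 4 * t ≤ Dm → N (u - D) (L + 4 * s) ≤ Q * GG q c R t s D := by
  intro t
  induction t with
  | zero => intro s D _ hD; simpa [GG] using hQ _ _ (by omega)
  | succ t ih =>
    intro s D hs hD
    have hb := S.block h0 h1 hc (u := u - D) (l := L + 4 * s) (by omega) (w := ind R s D)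
      (by
        rcases ind_cases R s D with h | ⟨h, hf⟩
        · exact Or.inl h
        · refine Or.inr ⟨h, ?_⟩
          have e1 := (S.three_sub (u := u) (D := D) (by omega) (L + 4 * s)).trans
            (by simpa using (hψ s (by omega)).mul_pow 3 D)
          have hs' : |(3 : ℝ) ^ D * w / 2 ^ (4 + 4 * s)| ≤ 1 / 8 := by
            rw [abs_div, abs_mul, abs_of_pos (show (0 : ℝ) < 3 ^ D by positivity),
              abs_of_pos (show (0 : ℝ) < 2 ^ (4 + 4 * s) by positivity),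
              div_le_iff₀ (by positivity)]
            have h3 : (3 : ℝ) ^ D ≤ 3 ^ Dm := pow_le_pow_right₀ (by norm_num) (by omega)
            have h4 : (2 : ℝ) ^ 4 ≤ 2 ^ (4 + 4 * s) := pow_le_pow_right₀ (by norm_num) (by omega)
            have h5 := mul_le_mul_of_nonneg_right h3 (abs_nonneg w)
            linarith
          have := (hf.add_small hs').mono (show (1 : ℝ) / 8 ≤ 1 / 4 - 1 / 8 by norm_num)
          exact this.of_eqv (e1.of_eq (by ring)))
      (g := fun d => Q * GG q c R t (s + 1) (D + d)) (fun d hd => by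
        have := ih (s + 1) (D + d) (by omega) (by omega)
        rwa [show u - (D + d) = u - D - d by omega, show L + 4 * (s + 1) = L + 4 * s + 4 by ring]
          at this)
    refine hb.trans (le_of_eq ?_)
    rw [GG]
    ring

/-- gain after the exit from a large triangle -/
theorem Sys.big (S : Sys q c N ψ) (h0 : 0 < q) (h1 : q < 1) (hc0 : 0 ≤ c)
    (hc : c ≤ 4 * q * (1 - q) ^ 3) (hc1 : c ≤ 1)
    {thr u l r n D1 : ℕ} {Q v e t : ℝ} (hQ0 : 0 ≤ Q) (hQ : ∀ u' l', thr ≤ u' → N u' l' ≤ Q)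
    (hn : 1 ≤ n) (hu : thr + (D1 + 4 * n) ≤ u) (hv : |v| ≤ 1 / 8)
    (ht : Eqv (ψ u (l + r)) (v / 2 ^ r + 1 / 2)) (hD : (3 : ℝ) ^ (D1 + 4 * n) ≤ 2 ^ r)
    (he0 : 0 < e) (he : 1 ≤ e ^ 2 * ((((r + 3 : ℕ) : ℝ) + 1) * q * (1 - q)))
    (ht0 : 0 < t) (hD1 : ((r + 3 : ℕ) : ℝ) * q + t ≤ D1) :
    N u l ≤ Q * ((1 - c / 2) ^ n + 2 ^ (4 * n + 1) * e + ((r + 3 : ℕ) : ℝ) / t ^ 2) := by
  obtain ⟨m, hm⟩ := (S.two_pow u (l + r) (3 + 4 * n)).symm.trans ht
  set R : ℤ := 2 * m + 1 with hRdef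
  have hR : Odd R := ⟨m, rfl⟩
  set w : ℝ := 2 * v / 2 ^ r with hwdef
  have hw : (3 : ℝ) ^ (D1 + 4 * n) * |w| ≤ 1 := by
    rw [hwdef, abs_div, abs_mul, abs_of_pos (show (0 : ℝ) < 2 ^ r by positivity), ← mul_div_assoc,
      div_le_one (by positivity)]
    have : |(2 : ℝ)| * |v| ≤ 1 := by rw [abs_two]; linarith
    have h3 : (0 : ℝ) ≤ 3 ^ (D1 + 4 * n) := by positivity
    nlinarith
  have hψ : ∀ s < n, Eqv (ψ u (l + r + 3 + 4 * s)) ((w + R) / 2 ^ (4 + 4 * s)) := by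
    intro s hs
    obtain ⟨j, rfl⟩ : ∃ j, n = s + j := ⟨n - s, by omega⟩
    have h2 := S.two_pow u (l + r + 3 + 4 * s) (4 * j)
    rw [show l + r + 3 + 4 * s + 4 * j = l + r + (3 + 4 * (s + j)) by ring] at h2
    refine h2.of_eq ?_
    have e1 : ψ u (l + r + (3 + 4 * (s + j))) = (v / 2 ^ r + 1 / 2 + m) / 2 ^ (3 + 4 * (s + j)) := by
      rw [← hm]; field_simp
    rw [e1, hwdef, hRdef]
    push_cast
    field_simp
    ring
  have hG := S.le_GG h0.le h1.le hc hQ hu hw hψ n 0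
  have hB := GG_bounds h0.le h1.le hc0 hc R n 0
  have hcmp := S.cmp h0.le h1.le (Q := Q)
    (g := fun D => Q * GG q c R n 0 D + Q * (if D1 < D then 1 else 0)) (u := u) (D1 := D1)
    (L := l + r + 3) (by omega) (fun l' => hQ _ _ (by omega))
    (fun D hD => by
      have := hG D (by omega) (by omega)
      rw [if_neg (by omega)]
      simpa using this)
    (fun D hD => by
      rw [if_pos hD]
      have := mul_nonneg hQ0 (hB D).1
      linarith) (r + 3) 0 l (by omega) (by ring)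
  simp only [zero_add, Nat.sub_zero] at hcmp
  rw [Ex_lin] at hcmp
  have a1 := Ex_le_of_Av h0 h1 (r + 3) he0 he (fun i => (hB i).1) (fun i => (hB i).2) (Ls n 0)
    (GG_av h0.le h1.le hc0 hc hc1 R hR n 0)
  have a2 := Ex_cheb h0.le h1.le (r + 3) D1 ht0 hD1
  have a3 : (((Ls n 0).sum : ℕ) : ℝ) ≤ 2 ^ (4 * n + 1) := by
    have := Ls_sum n 0
    rw [zero_add] at this
    have h4 : (Ls n 0).sum ≤ 2 ^ (4 * n + 1) := by omega
    exact_mod_cast h4
  have a4 := mul_le_mul_of_nonneg_right a3 he0.le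
  have a5 : Ex q (r + 3) (GG q c R n 0) ≤ (1 - c / 2) ^ n + 2 ^ (4 * n + 1) * e := by linarith
  have := mul_le_mul_of_nonneg_left a5 hQ0
  have := mul_le_mul_of_nonneg_left a2 hQ0
  linarith

end Pool.Agent.P.MP_d124bf_nt
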