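import Mathlib

/-!
Binomial averages `Ex q h g = E g(Bin(h,q))`, Stein identity, variance, gradient bound,
and averages over lists of shifts.
-/

namespace Pool.Agent.P.MP_d124bf_nt

noncomputable def Ex (q : ℝ) : ℕ → (ℕ → ℝ) → ℝ
  | 0, g => g 0
  | h + 1, g => Ex q h (fun i => q * g (i + 1) + (1 - q) * g i)

theorem Ex_realize : True := by have := @Ex.eq_def; trivial

variable {q : ℝ}

theorem Ex_lin (h : ℕ) (a b : ℝ) (f g : ℕ → ℝ) :
    Ex q h (fun i => a * f i + b * g i) = a * Ex q h f + b * Ex q h g := by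
  induction h generalizing f g with
  | zero => simp [Ex]
  | succ h ih =>
    simp only [Ex]
    rw [← ih]
    congr 1
    funext i
    ring

theorem Ex_const (h : ℕ) (c : ℝ) : Ex q h (fun _ => c) = c := by
  induction h with
  | zero => simp [Ex]
  | succ h ih =>
    simp only [Ex]
    have : (fun _ : ℕ => q * c + (1 - q) * c) = fun _ => c := by funext i; ring
    rw [this, ih]

theorem Ex_succ (h : ℕ) (g : ℕ → ℝ) :
    Ex q (h + 1) g = q * Ex q h (fun i => g (i + 1)) + (1 - q) * Ex q h g := by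
  simp only [Ex]
  exact Ex_lin h q (1 - q) (fun i => g (i + 1)) g

theorem Ex_mono (h0 : 0 ≤ q) (h1 : q ≤ 1) (h : ℕ) {f g : ℕ → ℝ} (hfg : ∀ i, f i ≤ g i) :
    Ex q h f ≤ Ex q h g := by
  induction h generalizing f g with
  | zero => simpa [Ex] using hfg 0
  | succ h ih =>
    simp only [Ex]
    apply ih
    intro i
    have := mul_le_mul_of_nonneg_left (hfg (i + 1)) h0
    have := mul_le_mul_of_nonneg_left (hfg i) (sub_nonneg.2 h1)
    linarith

theorem Ex_four (g : ℕ → ℝ) :
    Ex q 4 g = (1 - q) ^ 4 * g 0 + 4 * q * (1 - q) ^ 3 * g 1 + 6 * q ^ 2 * (1 - q) ^ 2 * g 2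
      + 4 * q ^ 3 * (1 - q) * g 3 + q ^ 4 * g 4 := by
  simp only [Ex]
  ring

theorem Ex_stein (h : ℕ) (g : ℕ → ℝ) :
    Ex q (h + 1) (fun i => ((i : ℝ) - (h + 1) * q) * g i)
      = (h + 1) * q * (1 - q) * Ex q h (fun i => g (i + 1) - g i) := by
  induction h generalizing g with
  | zero => simp [Ex]; ring
  | succ h ih =>
    have e1 : Ex q (h + 1 + 1) (fun i => ((i : ℝ) - ((h + 1 : ℕ) + 1) * q) * g i)
        = Ex q (h + 1) (fun i => 1 * (((i : ℝ) - (h + 1) * q) * (q * g (i + 1) + (1 - q) * g i))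
          + (q * (1 - q)) * (g (i + 1) - g i)) := by
      rw [Ex]
      congr 1
      funext i
      push_cast
      ring
    rw [e1, Ex_lin, ih]
    have e2 : Ex q h (fun i => q * g (i + 1 + 1) + (1 - q) * g (i + 1) - (q * g (i + 1) + (1 - q) * g i))
        = Ex q (h + 1) (fun i => g (i + 1) - g i) := by
      rw [Ex]
      congr 1
      funext i
      ring
    rw [e2]
    push_cast
    ring

theorem Ex_var (h : ℕ) : Ex q h (fun i => ((i : ℝ) - h * q) ^ 2) = h * q * (1 - q) := by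
  cases h with
  | zero => simp [Ex]
  | succ h =>
    have := Ex_stein (q := q) h (fun i => (i : ℝ) - (h + 1) * q)
    have e : (fun i : ℕ => ((i + 1 : ℕ) : ℝ) - (h + 1) * q - ((i : ℝ) - (h + 1) * q)) = fun _ => 1 := by
      funext i; push_cast; ring
    rw [e, Ex_const] at this
    have e2 : (fun i : ℕ => ((i : ℝ) - ((h + 1 : ℕ) : ℝ) * q) ^ 2)
        = fun i : ℕ => ((i : ℝ) - (h + 1) * q) * ((i : ℝ) - (h + 1) * q) := by
      funext i; push_cast; ring
    rw [e2, this]
    push_cast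
    ring

/-- gradient bound: if `1 ≤ e^2 (h+1) q (1-q)` then a unit shift changes the average of a
`[0,1]`-valued function by at most `e`. -/
theorem Ex_grad (h0 : 0 < q) (h1 : q < 1) (h : ℕ) {e : ℝ} (he0 : 0 < e)
    (he : 1 ≤ e ^ 2 * ((h + 1) * q * (1 - q))) {g : ℕ → ℝ} (hg0 : ∀ i, 0 ≤ g i)
    (hg1 : ∀ i, g i ≤ 1) : |Ex q h (fun i => g (i + 1)) - Ex q h g| ≤ e := by
  set V : ℝ := (h + 1) * q * (1 - q) with hV
  have hVpos : 0 < V := by
    have : 0 < 1 - q := by linarith
    positivity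
  have hs := Ex_stein (q := q) h g
  have hd : Ex q h (fun i => g (i + 1) - g i) = Ex q h (fun i => g (i + 1)) - Ex q h g := by
    have := Ex_lin (q := q) h 1 (-1) (fun i => g (i + 1)) g
    simp only [one_mul, neg_mul] at this
    simpa [sub_eq_add_neg] using this
  rw [hd, ← hV] at hs
  have hv := Ex_var (q := q) (h + 1)
  push_cast at hv
  rw [← hV] at hv
  have key : ∀ s : ℝ, s = 1 ∨ s = -1 →
      s * Ex q (h + 1) (fun i => ((i : ℝ) - (h + 1) * q) * g i) ≤ e * V := by
    intro s hsgn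
    have e1 : s * Ex q (h + 1) (fun i => ((i : ℝ) - (h + 1) * q) * g i)
        = Ex q (h + 1) (fun i => s * (((i : ℝ) - (h + 1) * q) * g i) + 0 * g i) := by
      rw [Ex_lin]; ring
    have e2 : Ex q (h + 1) (fun i => (e / 2) * ((i : ℝ) - (h + 1) * q) ^ 2 + (1 / (2 * e)) * 1)
        = e / 2 * V + 1 / (2 * e) := by
      rw [Ex_lin, hv, Ex_const]; ring
    have e3 : 1 / (2 * e) ≤ e / 2 * V := by
      rw [div_le_iff₀ (by positivity)]
      nlinarith
    rw [e1]
    refine le_trans (Ex_mono h0.le h1.le _ (fun i => ?_)) (e2.le.trans (by linarith))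
    set x : ℝ := (i : ℝ) - (h + 1) * q
    have hx : s * (x * g i) ≤ |x| := by
      have h2 : |s * (x * g i)| ≤ |x| := by
        rw [abs_mul, abs_mul, abs_of_nonneg (hg0 i)]
        have : |s| = 1 := by rcases hsgn with rfl | rfl <;> simp
        rw [this, one_mul]
        exact mul_le_of_le_one_right (abs_nonneg _) (hg1 i)
      exact (le_abs_self _).trans h2
    have hy : |x| ≤ e / 2 * x ^ 2 + 1 / (2 * e) * 1 := by
      have h3 : e / 2 * x ^ 2 + 1 / (2 * e) * 1 - |x| = (e * |x| - 1) ^ 2 / (2 * e) := by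
        rw [← sq_abs x]
        field_simp
        ring
      have h4 : 0 ≤ (e * |x| - 1) ^ 2 / (2 * e) := by positivity
      linarith
    linarith
  have k1 := key 1 (Or.inl rfl)
  have k2 := key (-1) (Or.inr rfl)
  rw [hs] at k1 k2
  rw [abs_le]
  constructor <;> nlinarith

theorem Ex_shift (h0 : 0 < q) (h1 : q < 1) (h : ℕ) {e : ℝ} (he0 : 0 < e)
    (he : 1 ≤ e ^ 2 * ((h + 1) * q * (1 - q))) {g : ℕ → ℝ} (hg0 : ∀ i, 0 ≤ g i)
    (hg1 : ∀ i, g i ≤ 1) (M : ℕ) : Ex q h g ≤ Ex q h (fun i => g (i + M)) + M * e := by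
  induction M with
  | zero => simp
  | succ M ih =>
    have := Ex_grad h0 h1 h he0 he (g := fun i => g (i + M)) (fun i => hg0 _) (fun i => hg1 _)
    have e1 : (fun i => g (i + 1 + M)) = fun i => g (i + (M + 1)) := by
      funext i; congr 1; ring
    rw [e1, abs_le] at this
    push_cast
    linarith [this.1]

/-- Chebyshev -/
theorem Ex_cheb (h0 : 0 ≤ q) (h1 : q ≤ 1) (h D : ℕ) {t : ℝ} (ht : 0 < t) (hD : h * q + t ≤ D) :
    Ex q h (fun i => if D < i then 1 else 0) ≤ h / t ^ 2 := by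
  have e1 : Ex q h (fun i => (1 / t ^ 2) * ((i : ℝ) - h * q) ^ 2 + 0 * 0) = h * q * (1 - q) / t ^ 2 := by
    rw [Ex_lin h (1 / t ^ 2) 0 (fun i => ((i : ℝ) - h * q) ^ 2) (fun _ => 0), Ex_var]; ring
  refine le_trans (Ex_mono h0 h1 h (fun i => ?_)) (e1.le.trans ?_)
  · split_ifs with hi
    · have : (D : ℝ) ≤ i := by exact_mod_cast hi.le
      have h2 : t ≤ (i : ℝ) - h * q := by linarith
      have h3 : t ^ 2 ≤ ((i : ℝ) - h * q) ^ 2 := by gcongr
      rw [mul_zero, add_zero, one_div, inv_mul_eq_div, le_div_iff₀ (by positivity)]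
      linarith
    · positivity
  · gcongr
    have : (0 : ℝ) ≤ h := by positivity
    have h2 : q * (1 - q) ≤ 1 := by nlinarith
    nlinarith

/-- average over all subset sums of a list of shifts -/
noncomputable def Av : List ℕ → (ℕ → ℝ) → ℕ → ℝ
  | [], g, D => g D
  | M :: Ms, g, D => (Av Ms g D + Av Ms g (D + M)) / 2

theorem Av_realize : True := by have := @Av.eq_def; trivial

theorem Av_lin (L : List ℕ) (a b : ℝ) (f g : ℕ → ℝ) (D : ℕ) :
    Av L (fun i => a * f i + b * g i) D = a * Av L f D + b * Av L g D := by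
  induction L generalizing D with
  | nil => simp [Av]
  | cons M Ms ih => simp only [Av, ih]; ring

theorem Av_shift (L : List ℕ) (g : ℕ → ℝ) (d D : ℕ) :
    Av L (fun i => g (i + d)) D = Av L g (D + d) := by
  induction L generalizing D with
  | nil => simp [Av]
  | cons M Ms ih =>
    simp only [Av, ih]
    rw [show D + M + d = D + d + M by ring]

theorem Av_mono (L : List ℕ) {f g : ℕ → ℝ} (h : ∀ i, f i ≤ g i) (D : ℕ) : Av L f D ≤ Av L g D := by
  induction L generalizing D with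
  | nil => simpa [Av] using h D
  | cons M Ms ih =>
    simp only [Av]
    linarith [ih D, ih (D + M)]

theorem Av_const (L : List ℕ) (c : ℝ) (D : ℕ) : Av L (fun _ => c) D = c := by
  induction L generalizing D with
  | nil => simp [Av]
  | cons M Ms ih => simp [Av, ih]

theorem Av_mul (L : List ℕ) (f g : ℕ → ℝ) (hf : ∀ M ∈ L, ∀ i, f (i + M) = f i) (D : ℕ) :
    Av L (fun i => f i * g i) D = f D * Av L g D := by
  induction L generalizing D with
  | nil => simp [Av]
  | cons M Ms ih =>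
    have ih' := ih (fun M' hM' => hf M' (List.mem_cons_of_mem _ hM'))
    simp only [Av, ih', hf M List.mem_cons_self]
    ring

theorem Av_cons (M : ℕ) (L : List ℕ) (g : ℕ → ℝ) (D : ℕ) :
    Av (M :: L) g D = Av L (fun i => (g i + g (i + M)) / 2) D := by
  have : (fun i => (g i + g (i + M)) / 2) = fun i => (1 / 2) * g i + (1 / 2) * g (i + M) := by
    funext i; ring
  rw [this, Av_lin, Av_shift, Av]
  ring

theorem le_Av (L : List ℕ) (g : ℕ → ℝ) (x : ℝ) (D : ℕ) (h : ∀ M ≤ L.sum, x ≤ g (D + M)) :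
    x ≤ Av L g D := by
  induction L generalizing D with
  | nil => simpa [Av] using h 0 (by simp)
  | cons M Ms ih =>
    simp only [Av]
    have h1 := ih D (fun M' hM' => h M' (by simp; omega))
    have h2 := ih (D + M) (fun M' hM' => by
      rw [add_assoc]; exact h (M + M') (by simp; omega))
    linarith

theorem Ex_Av (h : ℕ) (L : List ℕ) (g : ℕ → ℝ) (D : ℕ) :
    Av L (fun M => Ex q h (fun i => g (i + M))) D = Ex q h (fun i => Av L g (i + D)) := by
  induction L generalizing D with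
  | nil => simp [Av]
  | cons M Ms ih =>
    simp only [Av, ih]
    have : (fun i => (Av Ms g (i + D) + Av Ms g (i + D + M)) / 2)
        = fun i => (1 / 2) * Av Ms g (i + D) + (1 / 2) * Av Ms g (i + (D + M)) := by
      funext i; rw [add_assoc]; ring
    rw [this, Ex_lin]
    ring

/-- a binomial average is almost invariant under the shift average -/
theorem Ex_le_of_Av (h0 : 0 < q) (h1 : q < 1) (h : ℕ) {e : ℝ} (he0 : 0 < e)
    (he : 1 ≤ e ^ 2 * ((h + 1) * q * (1 - q))) {g : ℕ → ℝ} (hg0 : ∀ i, 0 ≤ g i)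
    (hg1 : ∀ i, g i ≤ 1) (L : List ℕ) {b : ℝ} (hb : ∀ D, Av L g D ≤ b) :
    Ex q h g ≤ b + L.sum * e := by
  have h2 : Ex q h g - L.sum * e ≤ Av L (fun M => Ex q h (fun i => g (i + M))) 0 := by
    apply le_Av
    intro M hM
    have := Ex_shift h0 h1 h he0 he hg0 hg1 M
    have h3 : (M : ℝ) ≤ L.sum := by exact_mod_cast hM
    have h4 := mul_le_mul_of_nonneg_right h3 he0.le
    simp only [zero_add]
    linarith
  rw [Ex_Av] at h2
  have h5 : Ex q h (fun i => Av L g (i + 0)) ≤ Ex q h (fun _ => b) :=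
    Ex_mono h0.le h1.le h (fun i => hb _)
  rw [Ex_const] at h5
  linarith

end Pool.Agent.P.MP_d124bf_nt
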