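import Pool.Agent.P.MP_d124bf_nt.Core

/-!
Polynomial gain in every window of proportional length, and its iteration over scales.
-/

namespace Pool.Agent.P.MP_d124bf_nt

variable {q c : ℝ}

theorem big_gain (h0 : 0 < q) (hq : q * Real.log 3 < Real.log 2) (hc0 : 0 ≤ c)
    (hc : c ≤ 4 * q * (1 - q) ^ 3) (hc1 : c ≤ 1) :
    ∃ K B0 : ℕ, 1 ≤ B0 ∧ ∀ (N ψ : ℕ → ℕ → ℝ), Sys q c N ψ → ∀ (n thr u l r : ℕ) (Q v : ℝ), 1 ≤ n →
      0 ≤ Q → (∀ u' l', thr ≤ u' → N u' l' ≤ Q) → B0 * thr ≤ u → |v| ≤ 1 / 8 →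
      Eqv (ψ u (l + r)) (v / 2 ^ r + 1 / 2) → 2 ^ r ≤ 3 ^ u → K * 16 ^ (4 * n) ≤ r →
      N u l ≤ 3 * (1 - c / 2) ^ n * Q := by
  have l2 : 0 < Real.log 2 := Real.log_pos (by norm_num)
  have l23 : Real.log 2 < Real.log 3 := Real.log_lt_log (by norm_num) (by norm_num)
  have l3 : 0 < Real.log 3 := by linarith
  set α := Real.log 2 / Real.log 3 with hα
  have hα3 : α * Real.log 3 = Real.log 2 := by rw [hα]; field_simp
  have hα1 : α < 1 := by rw [hα, div_lt_one l3]; exact l23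
  have hqα : q < α := by rw [hα, lt_div_iff₀ l3]; exact hq
  have h1 : q < 1 := by linarith
  set δ := (α - q) / 2 with hδ
  have hδ0 : 0 < δ := by rw [hδ]; linarith
  have hδ1 : δ < 1 := by rw [hδ]; linarith
  have hqq : 0 < q * (1 - q) := mul_pos h0 (by linarith)
  obtain ⟨K, hK⟩ := exists_nat_ge (4 / (q * (1 - q)) + 16 / δ ^ 2)
  obtain ⟨B0, hB0⟩ := exists_nat_ge (1 / δ)
  have hK1 : 4 ≤ K * (q * (1 - q)) := by
    rw [← div_le_iff₀ hqq]
    have : 0 ≤ 16 / δ ^ 2 := by positivity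
    linarith
  have hK2 : 16 ≤ K * δ ^ 2 := by
    rw [← div_le_iff₀ (by positivity)]
    have : 0 ≤ 4 / (q * (1 - q)) := by positivity
    linarith
  have hB1 : 1 ≤ B0 * δ := by rwa [← div_le_iff₀ hδ0]
  have hB2 : 1 ≤ B0 := by
    rcases Nat.eq_zero_or_pos B0 with h | h
    · rw [h] at hB1; norm_num at hB1
    · exact h
  refine ⟨K, B0, hB2, fun N ψ S n thr u l r Q v hn hQ0 hQ hu hv ht hr hK => ?_⟩
  set X : ℝ := 16 ^ n with hX
  have hX1 : (n : ℝ) + 1 ≤ X := by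
    have : n + 1 ≤ 16 ^ n := lt_of_lt_of_le Nat.lt_two_pow_self (Nat.pow_le_pow_left (by norm_num) n)
    rw [hX]; exact_mod_cast this
  have hn0 : (0 : ℝ) ≤ n := by positivity
  have hX0 : 1 ≤ X := by linarith
  have hX4 : X ≤ X ^ 4 := le_self_pow₀ hX0 (by norm_num)
  have hrK : K * X ^ 4 ≤ r := by
    have : ((K * 16 ^ (4 * n) : ℕ) : ℝ) ≤ r := by exact_mod_cast hK
    push_cast at this
    rwa [mul_comm 4 n, pow_mul] at this
  have hr1 : 16 * X ^ 4 ≤ r * δ ^ 2 := by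
    have := mul_le_mul_of_nonneg_right hrK (show 0 ≤ δ ^ 2 by positivity)
    have := mul_le_mul_of_nonneg_right hK2 (show 0 ≤ X ^ 4 by positivity)
    nlinarith
  have hr0 : (0 : ℝ) ≤ r := by positivity
  have hr2 : 16 * X ≤ r * δ := by
    have : r * δ ^ 2 ≤ r * δ := by
      apply mul_le_mul_of_nonneg_left _ hr0
      nlinarith
    linarith
  have hr3 : (1 : ℝ) ≤ r := by nlinarith
  have hru : r * α ≤ u := by
    have h2 : (2 : ℝ) ^ r ≤ 3 ^ u := by exact_mod_cast hr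
    have h3 := Real.log_le_log (by positivity) h2
    rw [Real.log_pow, Real.log_pow, ← hα3] at h3
    nlinarith
  set Dm := ⌊(q + δ) * r⌋₊ with hDm
  have hD1 : (Dm : ℝ) ≤ (q + δ) * r := Nat.floor_le (by positivity)
  have hD2 : (q + δ) * r < Dm + 1 := Nat.lt_floor_add_one _
  have hqr : 0 ≤ q * r := by positivity
  have hD3 : 4 * n ≤ Dm := by
    have : ((4 * n : ℕ) : ℝ) ≤ Dm := by push_cast; linarith
    exact_mod_cast this
  obtain ⟨D1, hD4⟩ : ∃ D1, Dm = D1 + 4 * n := ⟨Dm - 4 * n, by omega⟩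
  have hD5 : (Dm : ℝ) = D1 + 4 * n := by rw [hD4]; push_cast; ring
  have hqδ : q + δ = α - δ := by rw [hδ]; ring
  have hα0 : 0 < α := by linarith
  have hu' : thr + (D1 + 4 * n) ≤ u := by
    rw [← hD4]
    have h2 : (B0 : ℝ) * thr ≤ u := by exact_mod_cast hu
    have h3 : (thr : ℝ) ≤ δ * u := by
      have h4 := mul_le_mul_of_nonneg_left h2 hδ0.le
      have h5 := mul_le_mul_of_nonneg_right hB1 (show (0 : ℝ) ≤ thr by positivity)
      nlinarith
    have hu0 : (0 : ℝ) ≤ u := by positivity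
    have h6 : α * Dm ≤ (α - δ) * u := by
      have h7 := mul_le_mul_of_nonneg_left hD1 hα0.le
      have h8 := mul_le_mul_of_nonneg_left hru (show 0 ≤ α - δ by linarith)
      rw [hqδ] at h7
      nlinarith
    have h9 : (Dm : ℝ) ≤ u - δ * u := by
      have : α * Dm ≤ α * (u - δ * u) := by
        have := mul_le_mul_of_nonneg_right hα1.le (show 0 ≤ δ * u by positivity)
        nlinarith
      exact le_of_mul_le_mul_left this hα0
    have : ((thr + Dm : ℕ) : ℝ) ≤ u := by push_cast; linarith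
    exact_mod_cast this
  have hD6 : (3 : ℝ) ^ (D1 + 4 * n) ≤ 2 ^ r := by
    rw [← hD4, ← Real.log_le_log_iff (by positivity) (by positivity), Real.log_pow, Real.log_pow,
      ← hα3]
    have : (Dm : ℝ) ≤ r * α := by
      rw [hqδ] at hD1
      nlinarith
    nlinarith
  have hb := S.big h0 h1 hc0 hc hc1 (e := 1 / (2 * X ^ 2)) (t := δ * r / 2) hQ0 hQ hn hu' hv ht hD6
    (by positivity)
    (by
      push_cast
      have h2 : 4 * X ^ 4 ≤ (r + 3 + 1) * q * (1 - q) := by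
        have := mul_le_mul_of_nonneg_right hrK hqq.le
        have := mul_le_mul_of_nonneg_right hK1 (show 0 ≤ X ^ 4 by positivity)
        nlinarith
      rw [div_pow, one_pow, one_div, inv_mul_eq_div, le_div_iff₀ (by positivity)]
      nlinarith)
    (by positivity)
    (by push_cast; linarith)
  have e1 : (2 : ℝ) ^ (4 * n + 1) * (1 / (2 * X ^ 2)) = 1 / X := by
    have : (2 : ℝ) ^ (4 * n + 1) = 2 * X := by
      rw [hX, pow_succ, pow_mul]; norm_num; ring
    rw [this]; field_simp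
  have e2 : ((r + 3 : ℕ) : ℝ) / (δ * r / 2) ^ 2 ≤ 1 / X := by
    push_cast
    rw [div_le_div_iff₀ (by positivity) (by positivity)]
    have h2 : 16 * X * r ≤ r * δ ^ 2 * r := mul_le_mul_of_nonneg_right (by linarith) hr0
    nlinarith
  have e3 : 1 / X ≤ (1 - c / 2) ^ n := by
    rw [hX, ← one_div_pow]
    exact pow_le_pow_left₀ (by norm_num) (by linarith) n
  rw [e1] at hb
  have := mul_le_mul_of_nonneg_left
    (show (1 - c / 2) ^ n + 1 / X + ((r + 3 : ℕ) : ℝ) / (δ * r / 2) ^ 2 ≤ 3 * (1 - c / 2) ^ n by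
      linarith) hQ0
  linarith

theorem window (h0 : 0 < q) (hq : q * Real.log 3 < Real.log 2) (hc0 : 0 ≤ c)
    (hc : c ≤ 4 * q * (1 - q) ^ 3) (hc1 : c ≤ 1) :
    ∃ K B0 : ℕ, 1 ≤ B0 ∧ ∀ (N ψ : ℕ → ℕ → ℝ), Sys q c N ψ → ∀ (n thr : ℕ) (Q : ℝ), 1 ≤ n →
      0 ≤ Q → (∀ u' l', thr ≤ u' → N u' l' ≤ Q) → ∀ i ≤ n, ∀ u l,
      B0 * thr + i * (K * 16 ^ (4 * n) + 5) ≤ u → N u l ≤ 3 * (1 - c / 2) ^ i * Q := by
  obtain ⟨K, B0, hB0, hbig⟩ := big_gain h0 hq hc0 hc hc1
  have h1 : q ≤ 1 := by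
    have l23 : Real.log 2 < Real.log 3 := Real.log_lt_log (by norm_num) (by norm_num)
    have l2 : 0 < Real.log 2 := Real.log_pos (by norm_num)
    nlinarith
  refine ⟨K, B0, hB0, fun N ψ S n thr Q hn hQ0 hQ i => ?_⟩
  have hthr : thr ≤ B0 * thr := Nat.le_mul_of_pos_left _ hB0
  induction i with
  | zero =>
    intro _ u l hu
    have := hQ u l (by omega)
    simp only [pow_zero]
    linarith
  | succ i ih =>
    intro hi u l hu
    have ih' := ih (by omega)
    rw [add_mul, one_mul, ← add_assoc] at hu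
    set thr' := B0 * thr + i * (K * 16 ^ (4 * n) + 5) with hthr'
    have hρ : 0 ≤ 3 * (1 - c / 2) ^ i * Q := mul_nonneg (mul_nonneg (by norm_num)
      (pow_nonneg (by linarith) _)) hQ0
    have fin : (1 - c) * (3 * (1 - c / 2) ^ i * Q) ≤ 3 * (1 - c / 2) ^ (i + 1) * Q := by
      have := mul_le_mul_of_nonneg_right (show 1 - c ≤ 1 - c / 2 by linarith) hρ
      rw [pow_succ]
      linarith
    by_cases hw : Far (1 / 8) (ψ u l)
    · exact (S.white h0.le h1 hc (thr := thr') (by omega) (fun u' l' h => ih' u' l' h) hw).trans fin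
    · obtain ⟨r, v, hv, ht, hr⟩ := S.exists_top (by omega) hw
      rcases le_total r (K * 16 ^ (4 * n)) with h | h
      · exact (S.small h0.le h1 hc (thr := thr') (fun u' l' h => ih' u' l' h) r u l v (by linarith) ht
          (by omega)).trans fin
      · refine (hbig N ψ S n thr u l r Q v hn hQ0 hQ (by omega) hv ht hr h).trans ?_
        have := pow_le_pow_of_le_one (show 0 ≤ 1 - c / 2 by linarith) (by linarith) hi
        gcongr

theorem scales (h0 : 0 < q) (hq : q * Real.log 3 < Real.log 2) (hc0 : 0 ≤ c)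
    (hc : c ≤ 4 * q * (1 - q) ^ 3) (hc1 : c ≤ 1) :
    ∃ B : ℕ, 2 ≤ B ∧ ∀ (N ψ : ℕ → ℕ → ℝ), Sys q c N ψ → ∀ n u l : ℕ, 1 ≤ n → B ^ n ≤ u →
      N u l ≤ (3 * (1 - c / 2) ^ n) ^ n := by
  obtain ⟨K, B0, hB0, hw⟩ := window h0 hq hc0 hc hc1
  refine ⟨2 * ((K + 5) * 16 ^ 4) * (B0 + 1), by nlinarith, fun N ψ S n u l hn hu => ?_⟩
  set W := n * (K * 16 ^ (4 * n) + 5) with hW
  have hρ : 0 ≤ 3 * (1 - c / 2) ^ n := mul_nonneg (by norm_num) (pow_nonneg (by linarith) _)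
  have key : ∀ i u l, W * (B0 + 1) ^ i ≤ u → N u l ≤ (3 * (1 - c / 2) ^ n) ^ i := by
    intro i
    induction i with
    | zero => intro u l _; simpa using S.le1 u l
    | succ i ih =>
      intro u l hu
      have h2 : W ≤ W * (B0 + 1) ^ i := Nat.le_mul_of_pos_right _ (by positivity)
      have := hw N ψ S n (W * (B0 + 1) ^ i) _ hn (pow_nonneg hρ i) ih n le_rfl u l (by
        rw [pow_succ] at hu
        nlinarith)
      rw [pow_succ]
      linarith
  apply key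
  refine le_trans ?_ hu
  rw [mul_pow, mul_pow]
  apply Nat.mul_le_mul_right
  apply Nat.mul_le_mul Nat.lt_two_pow_self.le
  rw [mul_pow, ← pow_mul]
  have h3 : K + 5 ≤ (K + 5) ^ n := Nat.le_self_pow (by omega) _
  have h4 : 1 ≤ 16 ^ (4 * n) := Nat.one_le_pow _ _ (by norm_num)
  nlinarith

/-- quasi-polynomial decay -/
theorem quasi (h0 : 0 < q) (hq : q * Real.log 3 < Real.log 2) (hc0 : 0 < c)
    (hc : c ≤ 4 * q * (1 - q) ^ 3) (hc1 : c ≤ 1) :
    ∃ γ : ℝ, 0 < γ ∧ ∃ u0 : ℕ, ∀ (N ψ : ℕ → ℕ → ℝ), Sys q c N ψ → ∀ u l : ℕ, u0 ≤ u →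
      N u l ≤ Real.exp (-γ * Real.log u ^ 2) := by
  obtain ⟨B, hB, hs⟩ := scales h0 hq hc0.le hc hc1
  have hB1 : (1 : ℝ) < B := by exact_mod_cast hB
  have lB : 0 < Real.log B := Real.log_pos hB1
  set g := -Real.log (1 - c / 2) with hg
  have hg0 : 0 < g := by
    rw [hg, neg_pos]; exact Real.log_neg (by linarith) (by linarith)
  obtain ⟨n0, hn0⟩ := exists_nat_ge (2 * Real.log 3 / g + 1)
  have l3 : 0 < Real.log 3 := Real.log_pos (by norm_num)
  refine ⟨g / (8 * Real.log B ^ 2), by positivity, B ^ n0, fun N ψ S u l hu => ?_⟩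
  have hu0 : u ≠ 0 := by
    have : 0 < B ^ n0 := by positivity
    omega
  set n := Nat.log B u with hn
  have h1 : n0 ≤ n := Nat.le_log_of_pow_le (by omega) hu
  have h2 : B ^ n ≤ u := Nat.pow_log_le_self B hu0
  have h3 : u < B ^ (n + 1) := Nat.lt_pow_succ_log_self (by omega) u
  have h4 : (n0 : ℝ) ≤ n := by exact_mod_cast h1
  have h5 : 0 ≤ 2 * Real.log 3 / g := by positivity
  have hn1 : (1 : ℝ) ≤ n := by linarith
  have hn1' : 1 ≤ n := by exact_mod_cast hn1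
  refine (hs N ψ S n u l hn1' h2).trans ?_
  have e1 : 3 * (1 - c / 2) ^ n = Real.exp (Real.log 3 - g * n) := by
    rw [Real.exp_sub, Real.exp_log (by norm_num), hg, neg_mul, Real.exp_neg, mul_comm _ (n : ℝ),
      Real.exp_nat_mul, Real.exp_log (by linarith)]
    field_simp
  rw [e1, ← Real.exp_nat_mul, Real.exp_le_exp]
  have h6 : 2 * Real.log 3 ≤ g * n := by
    have : 2 * Real.log 3 / g ≤ n := by linarith
    rw [div_le_iff₀ hg0] at this
    linarith
  have h7 : Real.log u ≤ 2 * n * Real.log B := by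
    have h8 : (u : ℝ) ≤ (B : ℝ) ^ (n + 1) := by exact_mod_cast h3.le
    have h9 := Real.log_le_log (by positivity) h8
    rw [Real.log_pow] at h9
    push_cast at h9
    nlinarith
  have h10 : 0 ≤ Real.log u := Real.log_natCast_nonneg u
  have h11 : Real.log u ^ 2 ≤ (2 * n * Real.log B) ^ 2 := by gcongr
  have h12 : g / (8 * Real.log B ^ 2) * Real.log u ^ 2 ≤ g * n ^ 2 / 2 := by
    refine (mul_le_mul_of_nonneg_left h11 (by positivity)).trans (le_of_eq ?_)
    field_simp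
    ring
  nlinarith

end Pool.Agent.P.MP_d124bf_nt
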