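import Pool.Agent.P.MP_d124bf_nt.Chain
import Pool.Agent.P.MP_d124bf_nt.Window

/-!
The frequencies as a family of systems; the sum of the coefficients and their large values.
-/

namespace Pool.Agent.P.MP_d124bf_nt

open Finset

theorem cop23' (a b : ℕ) : IsCoprime ((2 : ℤ) ^ a) (3 ^ b) := by
  have := Nat.isCoprime_iff_coprime.2 (cop b a).symm
  push_cast at this
  exact this

theorem family {μ : ℝ} (hμ : 1 < μ) (k p : ℕ) :
    ∃ (a : ℕ → ℕ) (N ψ : ℕ → ℕ → ℕ → ℝ), (∀ ξ ∈ Ioo 0 (2 ^ p), 3 ^ a ξ ≤ 2 ^ p ∧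
      Sys μ⁻¹ (μ⁻¹ * (1 - μ⁻¹) ^ 3 * (1 / 250)) (N ξ) (ψ ξ) ∧
        (a ξ ≤ k → ‖coeff μ k p ξ‖ = N ξ (k - a ξ) 0)) ∧
      ∀ b u l : ℕ, 2 ^ p < 3 ^ (b + u) → Conf ψ ((Ioo 0 (2 ^ p)).filter (fun ξ => a ξ = b)) u l 1 := by
  have h0 : 0 < μ⁻¹ := by positivity
  have h1 : μ⁻¹ < 1 := inv_lt_one_of_one_lt₀ hμ
  have p2 : (0 : ℝ) < 2 ^ p := by positivity
  have ex : ∀ ξ ∈ Ioo 0 (2 ^ p), ∃ (a : ℕ) (z n : ℤ), ¬ (3 : ℤ) ∣ z ∧
      3 ^ a * z = ((ξ : ℕ) : ℤ) * 3 ^ k + 2 ^ p * n ∧ |((3 ^ a * z : ℤ) : ℝ) / 2 ^ p| ≤ 1 / 2 := by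
    intro ξ hξ
    obtain ⟨x1, x2⟩ := mem_Ioo.1 hξ
    set n := round ((((ξ : ℤ) * 3 ^ k : ℤ) : ℝ) / 2 ^ p) with hn
    have hη0 : (ξ : ℤ) * 3 ^ k + 2 ^ p * (-n) ≠ 0 := by
      intro h
      have h2 : (2 : ℤ) ^ p ∣ ξ * 3 ^ k := ⟨n, by linarith⟩
      have h3 := Int.le_of_dvd (by exact_mod_cast x1) ((cop23' p k).dvd_of_dvd_mul_right h2)
      have h4 : 2 ^ p ≤ ξ := by exact_mod_cast h3
      exact absurd x2 (not_lt.2 h4)
    obtain ⟨a, z, hz, haz⟩ := WfDvdMonoid.max_power_factor hη0 Int.prime_three.irreducible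
    refine ⟨a, z, -n, hz, haz.symm, ?_⟩
    rw [← haz]
    refine le_trans (le_of_eq ?_) (abs_sub_round ((((ξ : ℤ) * 3 ^ k : ℤ) : ℝ) / 2 ^ p))
    rw [← hn]
    congr 1
    push_cast
    field_simp
    ring
  choose! a z n hz hη hs using ex
  have hb : ∀ ξ ∈ Ioo 0 (2 ^ p), 2 * |3 ^ a ξ * z ξ| ≤ 2 ^ p := by
    intro ξ hξ
    have := hs ξ hξ
    rw [abs_div, abs_of_pos p2, div_le_iff₀ p2, ← Int.cast_abs] at this
    have h2 : ((2 * |3 ^ a ξ * z ξ| : ℤ) : ℝ) ≤ ((2 ^ p : ℤ) : ℝ) := by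
      rw [Int.cast_mul, Int.cast_pow]; norm_num at this ⊢; linarith
    exact_mod_cast h2
  refine ⟨a, fun ξ u l => ‖FF μ⁻¹ (EE (3 ^ a ξ * z ξ) p) (a ξ + u) l‖,
    fun ξ => psi (z ξ) (a ξ) (4 + p), fun ξ hξ => ⟨?_, sys_of h0 h1 _ _ (hz ξ hξ) p _ _
      (fun u l hu hf => caseC hu (hs ξ hξ) hf), fun hk => ?_⟩, fun b u l hp => ?_⟩
  · have b1 := hb ξ hξ
    have b2 : 1 ≤ |z ξ| := Int.one_le_abs (by rintro h; exact hz ξ hξ (h ▸ dvd_zero _))
    rw [abs_mul, abs_of_pos (show (0 : ℤ) < 3 ^ a ξ by positivity)] at b1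
    have b3 : (0 : ℤ) < 3 ^ a ξ := by positivity
    have b4 : (3 : ℤ) ^ a ξ ≤ 2 ^ p := by nlinarith
    exact_mod_cast b4
  · rw [coeff_eq hμ k p ξ _ _ (hη ξ hξ)]
    beta_reduce
    rw [Nat.add_sub_cancel' hk]
  · refine ⟨fun ξ => Int.fract (psi (z ξ) (a ξ) (4 + p) u l), fun ξ _ => ⟨⌊psi (z ξ) (a ξ) (4 + p) u l⌋,
      (Int.fract_add_floor _).symm⟩, fun i hi j hj hij => ?_, fun i _ j _ => ?_⟩
    · obtain ⟨i1, i2⟩ := mem_filter.1 hi
      obtain ⟨j1, j2⟩ := mem_filter.1 hj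
      obtain ⟨m, hm⟩ := Int.fract_eq_fract.1 hij
      have bi := hb i i1
      have bj := hb j j1
      have ei := hη i i1
      have ej := hη j j1
      rw [psi, psi, i2, j2] at hm
      rw [i2] at bi ei
      rw [j2] at bj ej
      have d1 : (3 : ℤ) ^ u ∣ (z i - z j) * mm (b + u) (l + (4 + p)) := by
        refine ⟨m, ?_⟩
        have : (((z i - z j) * mm (b + u) (l + (4 + p)) : ℤ) : ℝ) = ((3 ^ u * m : ℤ) : ℝ) := by
          push_cast
          rw [← hm]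
          field_simp
        exact_mod_cast this
      have d0 : 1 ≤ b + u := by
        rcases Nat.eq_zero_or_pos (b + u) with h | h
        · rw [h, pow_zero] at hp
          exact absurd hp (not_lt.2 (Nat.one_le_two_pow))
        · exact h
      have d2 : (3 : ℤ) ^ u ∣ z i - z j :=
        (((Int.prime_three.coprime_iff_not_dvd).2 (mm_not_dvd d0 _)).pow_left).dvd_of_dvd_mul_right d1
      have d3 : (3 : ℤ) ^ (b + u) ∣ 3 ^ b * z i - 3 ^ b * z j := by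
        rw [← mul_sub, pow_add]
        exact mul_dvd_mul_left _ d2
      have d4 : 3 ^ b * z i - 3 ^ b * z j = 0 := by
        apply Int.eq_zero_of_abs_lt_dvd d3
        have := abs_sub (3 ^ b * z i) (3 ^ b * z j)
        have hp' : (2 : ℤ) ^ p < 3 ^ (b + u) := by exact_mod_cast hp
        linarith
      have d5 : (2 : ℤ) ^ p ∣ ((i : ℤ) - j) * 3 ^ k := ⟨n j - n i, by linarith⟩
      have d6 := (cop23' p k).dvd_of_dvd_mul_right d5
      have d7 : (i : ℤ) - j = 0 := by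
        apply Int.eq_zero_of_abs_lt_dvd d6
        have i3 : (i : ℤ) < 2 ^ p := by exact_mod_cast (mem_Ioo.1 i1).2
        have j3 : (j : ℤ) < 2 ^ p := by exact_mod_cast (mem_Ioo.1 j1).2
        have i4 : (0 : ℤ) ≤ i := Nat.cast_nonneg _
        have j4 : (0 : ℤ) ≤ j := Nat.cast_nonneg _
        rw [abs_lt]
        constructor <;> linarith
      exact_mod_cast sub_eq_zero.1 d7
    · have a1 := Int.fract_nonneg (psi (z i) (a i) (4 + p) u l)
      have a2 := Int.fract_nonneg (psi (z j) (a j) (4 + p) u l)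
      have a3 := Int.fract_lt_one (psi (z i) (a i) (4 + p) u l)
      have a4 := Int.fract_lt_one (psi (z j) (a j) (4 + p) u l)
      rw [abs_le]
      constructor <;> linarith

theorem asymp {γ β : ℝ} (hγ : 0 < γ) (hβ : 0 < β) (A : ℕ) : ∃ k0 : ℕ, ∀ k : ℕ, k0 ≤ k →
    (k : ℝ) ^ A * (12 * Real.exp (-γ * (Real.log k / 2) ^ 2) + 3 * Real.exp (-(β * k)))
      ≤ Real.exp (-(γ / 8) * Real.log k ^ 2) := by
  obtain ⟨k1, hk1⟩ := exists_nat_ge (Real.exp (1 + 8 * (A + 4) / γ + 6 * (γ + A + 4) / β))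
  refine ⟨k1, fun k hk => ?_⟩
  have k3 : (k1 : ℝ) ≤ k := by exact_mod_cast hk
  have k0 : (0 : ℝ) < k := lt_of_lt_of_le (Real.exp_pos _) (hk1.trans k3)
  set L := Real.log k with hL
  have eL : Real.exp L = k := Real.exp_log k0
  have L1 : 1 + 8 * (A + 4) / γ + 6 * (γ + A + 4) / β ≤ L := by
    rw [← Real.exp_le_exp, eL]; linarith
  have g1 : 0 < 8 * (A + 4) / γ := by positivity
  have g2 : 0 < 6 * (γ + A + 4) / β := by positivity
  have L3 : 8 * (A + 4) ≤ L * γ := by rw [← div_le_iff₀ hγ]; linarith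
  have L2 : 6 * (γ + A + 4) ≤ L * β := by rw [← div_le_iff₀ hβ]; linarith
  have L4 : 1 ≤ L := by linarith
  have A0 : (0 : ℝ) ≤ A := Nat.cast_nonneg A
  have e4 : (k : ℝ) ^ A = Real.exp (A * L) := by rw [Real.exp_nat_mul, eL]
  have four : (24 : ℝ) ≤ Real.exp 4 := by
    have := Real.exp_one_gt_d9
    calc (24 : ℝ) ≤ 2.5 ^ 4 := by norm_num
      _ ≤ Real.exp 1 ^ 4 := pow_le_pow_left₀ (by norm_num) (by linarith) 4
      _ = _ := by rw [← Real.exp_nat_mul]; norm_num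
  have b4 : L ^ 3 / 6 ≤ k := by
    have := Real.pow_div_factorial_le_exp L (by linarith) 3
    rw [eL] at this
    simpa [Nat.factorial] using this
  have c2 : L ≤ L ^ 2 := by nlinarith
  have A1 : 24 * ((k : ℝ) ^ A * Real.exp (-γ * (L / 2) ^ 2)) ≤ Real.exp (-(γ / 8) * L ^ 2) := by
    refine (mul_le_mul_of_nonneg_right four (by positivity)).trans ?_
    rw [e4, ← Real.exp_add, ← Real.exp_add, Real.exp_le_exp]
    have a3 := mul_le_mul_of_nonneg_right L3 (show 0 ≤ L by linarith)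
    linarith
  have A2 : 24 * ((k : ℝ) ^ A * Real.exp (-(β * k))) ≤ Real.exp (-(γ / 8) * L ^ 2) := by
    refine (mul_le_mul_of_nonneg_right four (by positivity)).trans ?_
    rw [e4, ← Real.exp_add, ← Real.exp_add, Real.exp_le_exp]
    have a1 := mul_le_mul_of_nonneg_right L2 (show 0 ≤ L ^ 2 by positivity)
    have a2 := mul_le_mul_of_nonneg_left b4 hβ.le
    have a3 := mul_le_mul_of_nonneg_left c2 A0
    have a4 : 0 ≤ γ * L ^ 2 := by positivity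
    linarith
  have := Real.exp_pos (-(γ / 8) * L ^ 2)
  linarith

theorem basics {μ : ℝ} (hμ : Real.logb 2 3 < μ) : 1 < μ ∧ 0 < μ⁻¹ ∧ μ⁻¹ * Real.log 3 < Real.log 2 ∧
    0 < μ⁻¹ * (1 - μ⁻¹) ^ 3 * (1 / 250) ∧ μ⁻¹ * (1 - μ⁻¹) ^ 3 * (1 / 250) ≤ 4 * μ⁻¹ * (1 - μ⁻¹) ^ 3 ∧
    μ⁻¹ * (1 - μ⁻¹) ^ 3 * (1 / 250) ≤ 1 := by
  have l2 : 0 < Real.log 2 := Real.log_pos (by norm_num)
  have l23 : Real.log 2 < Real.log 3 := Real.log_lt_log (by norm_num) (by norm_num)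
  rw [Real.logb, div_lt_iff₀ l2] at hμ
  have hμ1 : 1 < μ := by nlinarith
  have h0 : 0 < μ⁻¹ := by positivity
  have h1 : μ⁻¹ < 1 := inv_lt_one_of_one_lt₀ hμ1
  have hq : μ⁻¹ * Real.log 3 < Real.log 2 := by
    rw [inv_mul_lt_iff₀ (by linarith)]; exact hμ
  have hb : 0 < 1 - μ⁻¹ := by linarith
  have hb3 : (1 - μ⁻¹) ^ 3 ≤ 1 := pow_le_one₀ hb.le (by linarith)
  have hp : 0 < μ⁻¹ * (1 - μ⁻¹) ^ 3 := by positivity
  have hp1 : μ⁻¹ * (1 - μ⁻¹) ^ 3 ≤ 1 := mul_le_one₀ h1.le (by positivity) hb3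
  exact ⟨hμ1, h0, hq, by positivity, by linarith, by linarith⟩

theorem sum_bound {μ : ℝ} (hμ : Real.logb 2 3 < μ) :
    ∃ c₀ : ℝ, 0 < c₀ ∧ ∃ c : ℝ, 0 < c ∧ ∃ k₀ : ℕ, ∀ k p : ℕ, k₀ ≤ k → (p : ℝ) ≤ c₀ * k →
      ∑ ξ ∈ Ioo (0 : ℕ) (2 ^ p), ‖coeff μ k p (ξ : ℤ)‖ ≤ Real.exp (-c * Real.log k ^ 2) := by
  obtain ⟨hμ1, h0, hq, hc0, hc, hc1⟩ := basics hμ
  obtain ⟨γ, hγ, u0, hqu⟩ := quasi h0 hq hc0 hc hc1
  obtain ⟨n, M, hM, H⟩ := chain h0 hq hc0 hc hc1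
  have M0 : (0 : ℝ) < M := by exact_mod_cast hM
  obtain ⟨k1, hk1⟩ := asymp hγ (β := 1 / (8 * M)) (by positivity) (2 * n + 2)
  refine ⟨1 / (8 * M), by positivity, γ / 8, by positivity, k1 + n + 2 * M * (u0 + 2 * M + 9),
    fun k p hk hp => le_trans ?_ (hk1 k (by omega))⟩
  have p1 : 8 * M * p ≤ k := by
    rw [one_div_mul_eq_div, le_div_iff₀ (by positivity)] at hp
    have : ((8 * M * p : ℕ) : ℝ) ≤ k := by push_cast; linarith
    exact_mod_cast this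
  obtain ⟨s, hs⟩ : ∃ s, s = k / (2 * M) := ⟨_, rfl⟩
  have s1 : u0 + 2 * M + 9 ≤ s := by
    rw [hs, Nat.le_div_iff_mul_le (by omega), mul_comm]; omega
  have s2 : 4 * p ≤ s := by
    rw [hs, Nat.le_div_iff_mul_le (by omega)]
    exact le_trans (le_of_eq (by ring)) p1
  have s3 : 2 * M * s ≤ k := by rw [hs]; exact Nat.mul_div_le k _
  have s4 : k < 2 * M * (s + 1) := by rw [hs]; exact Nat.lt_mul_div_succ k (by omega)
  have s5 : k ≤ s ^ 2 := by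
    have : (2 * M + 9) * s ≤ s * s := Nat.mul_le_mul_right _ (by omega)
    nlinarith
  have s6 : k ≤ 4 * M * s := by nlinarith
  have s7 : 8 * p ≤ k := le_trans (by nlinarith) p1
  have s8 : M * s + p ≤ k := by nlinarith
  have s9 : p + 1 ≤ k := by
    have : s ≤ 2 * M * s := Nat.le_mul_of_pos_left _ (by omega)
    omega
  have s10 : n ≤ k := by omega
  have sp : p < s := by omega
  have s0 : 9 ≤ s := by omega
  have su : u0 ≤ s := by omega
  have k0 : (1 : ℝ) ≤ k := by exact_mod_cast (show 1 ≤ k by omega)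
  obtain ⟨a, N, ψ, F1, F2⟩ := family hμ1 k p
  have ap : ∀ ξ ∈ Ioo 0 (2 ^ p), a ξ ≤ p := fun ξ hξ => (Nat.pow_le_pow_iff_right (by norm_num)).1
    ((Nat.pow_le_pow_left (by norm_num : 2 ≤ 3) _).trans (F1 ξ hξ).1)
  have e1 : Real.exp (-γ * Real.log s ^ 2) ≤ Real.exp (-γ * (Real.log k / 2) ^ 2) := by
    have h4 : (k : ℝ) ≤ (s : ℝ) ^ 2 := by exact_mod_cast s5
    have h5 := Real.log_le_log (by linarith) h4
    rw [Real.log_pow, Nat.cast_ofNat] at h5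
    have h6 : (Real.log k / 2) ^ 2 ≤ Real.log s ^ 2 :=
      pow_le_pow_left₀ (by have := Real.log_natCast_nonneg k; positivity) (by linarith) 2
    rw [Real.exp_le_exp]
    nlinarith
  have e2 : (2 : ℝ) ^ p * (3 * (1 / 2) ^ s) ≤ 3 * Real.exp (-(1 / (8 * M) * k)) := by
    have b1 : (2 : ℝ) ^ p * (1 / 2) ^ s = Real.exp ((p - s) * Real.log 2) := by
      rw [sub_mul, Real.exp_sub, Real.exp_nat_mul, Real.exp_nat_mul, Real.exp_log (by norm_num),
        one_div_pow]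
      ring
    have b2 : (4 * p : ℝ) ≤ s := by exact_mod_cast s2
    have b3 : 1 / (8 * M) * (k : ℝ) ≤ s / 2 := by
      rw [one_div_mul_eq_div, div_le_iff₀ (by positivity)]
      have : (k : ℝ) ≤ 4 * M * s := by exact_mod_cast s6
      linarith
    have b4 := Real.log_two_gt_d9
    have b5 : (0 : ℝ) ≤ p := Nat.cast_nonneg p
    rw [mul_left_comm, b1]
    refine mul_le_mul_of_nonneg_left (Real.exp_le_exp.2 ?_) (by norm_num)
    nlinarith
  refine (fibre_sum (f := a) (K := range (p + 1)) (fun ξ hξ => mem_range.2 (Nat.lt_succ_of_le (ap ξ hξ)))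
    (C := ((k : ℝ) ^ 2) ^ n * (k * (12 * Real.exp (-γ * (Real.log k / 2) ^ 2)
      + 3 * Real.exp (-(1 / (8 * M) * k))))) (fun b hb => ?_)).trans ?_
  · have b1 : b ≤ p := Nat.lt_succ_iff.1 (mem_range.1 hb)
    set T := (Ioo (0 : ℕ) (2 ^ p)).filter (fun ξ => a ξ = b) with hT
    have sub : T ⊆ Ioo 0 (2 ^ p) := filter_subset _ _
    have b2 := H ℕ N ψ T (fun i hi => (F1 i (sub hi)).2.1) s k
      (Real.exp (-γ * (Real.log k / 2) ^ 2)) s0 (Real.exp_pos _).le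
      (fun u l hu => F2 b u l (lt_of_lt_of_le (Nat.pow_lt_pow_right (by norm_num) sp)
        ((Nat.pow_le_pow_left (by norm_num) s).trans (Nat.pow_le_pow_right (by norm_num)
          (hu.trans (Nat.le_add_left _ _))))))
      (fun i hi u l hu => by
        refine (hqu _ _ (F1 i (sub hi)).2.1 u l (su.trans hu)).trans (le_trans ?_ e1)
        have a1 : Real.log s ≤ Real.log u :=
          Real.log_le_log (by exact_mod_cast (lt_of_lt_of_le (by norm_num) s0)) (by exact_mod_cast hu)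
        have a2 := pow_le_pow_left₀ (Real.log_natCast_nonneg s) a1 2
        rw [Real.exp_le_exp]
        nlinarith)
      (k - b) 0 (Nat.le_sub_of_add_le ((Nat.add_le_add_left b1 _).trans s8)) (Nat.sub_le _ _)
    have b3 : (T.card : ℝ) ≤ 2 ^ p := by
      have := card_le_card sub
      rw [Nat.card_Ioo] at this
      exact_mod_cast this.trans ((Nat.sub_le _ _).trans (Nat.sub_le _ _))
    refine le_trans (le_of_eq (sum_congr rfl (fun i hi => ?_))) (b2.trans ?_)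
    · have a1 : a i = b := (mem_filter.1 hi).2
      rw [(F1 i (sub hi)).2.2 (a1 ▸ b1.trans ((Nat.le_succ p).trans s9)), a1]
    · have b4 := (mul_le_mul_of_nonneg_right b3 (by positivity)).trans e2
      have b5 : (n : ℝ) ≤ k := by exact_mod_cast s10
      gcongr
  · rw [card_range]
    have b1 : ((p + 1 : ℕ) : ℝ) ≤ k := by exact_mod_cast s9
    refine (mul_le_mul_of_nonneg_right b1 (by positivity)).trans (le_of_eq ?_)
    rw [← pow_mul]
    ring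

theorem large_bound {μ : ℝ} (hμ : Real.logb 2 3 < μ) :
    ∃ c₁ : ℝ, 0 < c₁ ∧ ∃ n k₀ : ℕ, ∀ k p : ℕ, k₀ ≤ k → p ≤ k → ∀ t : ℝ, (2 : ℝ) ^ (-c₁ * k) ≤ t →
      (((Ioo (0 : ℕ) (2 ^ p)).filter (fun ξ : ℕ => t < ‖coeff μ k p (ξ : ℤ)‖)).card : ℝ)
        ≤ ((k : ℝ) ^ 4 / t) ^ n := by
  obtain ⟨hμ1, h0, hq, hc0, hc, hc1⟩ := basics hμ
  obtain ⟨n, m, hn, hm, H⟩ := blockG h0 hq hc0 hc hc1
  have m0 : (0 : ℝ) < m := by exact_mod_cast (show 0 < m by omega)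
  refine ⟨1 / (6 * m), by positivity, n, 30 * m, fun k p hk hp t ht => ?_⟩
  have t0 : 0 < t := lt_of_lt_of_le (by positivity) ht
  have k1 : (60 : ℝ) ≤ k := by exact_mod_cast (show 60 ≤ k by omega)
  have k2 : 1 ≤ k := by omega
  have pk : 2 ^ p < 3 ^ k := lt_of_le_of_lt (Nat.pow_le_pow_right (by norm_num) hp)
    (Nat.pow_lt_pow_left (by norm_num) (by omega))
  obtain ⟨a, N, ψ, F1, F2⟩ := family hμ1 k p
  have ap : ∀ ξ ∈ Ioo 0 (2 ^ p), 3 * a ξ ≤ 2 * k := by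
    intro ξ hξ
    have h3 := (F1 ξ hξ).1.trans (Nat.pow_le_pow_right (by norm_num) hp)
    refine (Nat.pow_le_pow_iff_right (a := 2) (by norm_num)).1 ?_
    calc 2 ^ (3 * a ξ) = 8 ^ a ξ := by rw [pow_mul]; norm_num
      _ ≤ 9 ^ a ξ := Nat.pow_le_pow_left (by norm_num) _
      _ = (3 ^ a ξ) ^ 2 := by rw [← pow_mul, mul_comm, pow_mul]; norm_num
      _ ≤ (2 ^ k) ^ 2 := Nat.pow_le_pow_left h3 2
      _ = 2 ^ (2 * k) := by rw [← pow_mul, mul_comm]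
  set S := (Ioo (0 : ℕ) (2 ^ p)).filter (fun ξ : ℕ => t < ‖coeff μ k p (ξ : ℤ)‖) with hS
  have sub : S ⊆ Ioo 0 (2 ^ p) := filter_subset _ _
  have key : ∑ _ξ ∈ S, (t / (2 * (k : ℝ) ^ 2)) ^ n ≤ ((range (2 * k / 3 + 1)).card : ℝ) * 12 := by
    refine fibre_sum (f := a) (fun ξ hξ => mem_range.2 (by have := ap ξ (sub hξ); omega))
      (fun b hb => ?_)
    have b1 : 3 * b ≤ 2 * k := by have := mem_range.1 hb; omega
    have b2 : b ≤ k := by omega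
    obtain ⟨w, hw⟩ : ∃ w, w = (k - b) / m := ⟨_, rfl⟩
    have w1 : k - b < m * (w + 1) := by rw [hw]; exact Nat.lt_mul_div_succ _ (by omega)
    have w2 : k ≤ 3 * (m * (w + 1)) := by omega
    have w3 : 9 ≤ w := by
      rw [hw, Nat.le_div_iff_mul_le (by omega)]; omega
    have sub' : S.filter (fun ξ => a ξ = b) ⊆ (Ioo (0 : ℕ) (2 ^ p)).filter (fun ξ => a ξ = b) :=
      filter_subset_filter _ sub
    obtain ⟨U, Z, u1, u2, u3, u4, u5⟩ := H ℕ N ψ (S.filter (fun ξ => a ξ = b))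
      (fun i hi => (F1 i (sub (mem_filter.1 hi).1)).2.1) (k - b) 0 (hw ▸ w3)
      ((F2 b (k - b) 0 (by rwa [Nat.add_sub_cancel' b2])).subset sub')
    refine le_trans (sum_le_sum (fun i hi => pow_le_pow_left₀ (by positivity) ?_ n)) u2
    obtain ⟨i1, i2⟩ := mem_filter.1 hi
    have i3 := (mem_filter.1 i1).2
    rw [(F1 i (sub i1)).2.2 (i2 ▸ b2), i2] at i3
    have a1 := u5 i hi
    rw [← hw] at a1
    have a2 : ∑ s ∈ Z, N i s.1 s.2 ≤ (k : ℝ) ^ 2 := by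
      refine (sum_le_card_nsmul _ _ 1 (fun s _ => (F1 i (sub i1)).2.1.le1 _ _)).trans ?_
      rw [nsmul_eq_mul, mul_one]
      exact_mod_cast u4.trans (Nat.pow_le_pow_left (Nat.sub_le _ _) 2)
    have a3 := mul_le_mul_of_nonneg_left a2 (u1 i hi).1
    have a4 : 3 * (1 / 2 : ℝ) ^ w ≤ t / 2 := by
      have c1 : (2 : ℝ) ^ ((3 : ℝ) - w) ≤ t := by
        refine le_trans (Real.rpow_le_rpow_of_exponent_le (by norm_num) ?_) ht
        have c2 : 1 / (6 * m) * (k : ℝ) ≤ (w + 1) / 2 := by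
          rw [one_div_mul_eq_div, div_le_iff₀ (by positivity)]
          have : (k : ℝ) ≤ 3 * (m * (w + 1)) := by exact_mod_cast w2
          linarith
        have c3 : (9 : ℝ) ≤ w := by exact_mod_cast w3
        linarith
      rw [Real.rpow_sub (by norm_num), Real.rpow_natCast, Real.rpow_ofNat] at c1
      rw [one_div_pow]
      have : (0 : ℝ) < 1 / 2 ^ w := by positivity
      have e : (2 : ℝ) ^ 3 / 2 ^ w = 8 * (1 / 2 ^ w) := by ring
      linarith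
    rw [div_le_iff₀ (by positivity)]
    linarith
  rw [sum_const, nsmul_eq_mul, card_range, ← le_div_iff₀ (by positivity)] at key
  refine key.trans ?_
  rw [div_le_iff₀ (by positivity), ← mul_pow]
  have e : (k : ℝ) ^ 4 / t * (t / (2 * k ^ 2)) = k ^ 2 / 2 := by field_simp
  rw [e]
  have b1 : ((2 * k / 3 + 1 : ℕ) : ℝ) ≤ k := by exact_mod_cast (show 2 * k / 3 + 1 ≤ k by omega)
  have b2 : (k : ℝ) * 12 ≤ k ^ 2 / 2 := by nlinarith
  exact ((mul_le_mul_of_nonneg_right b1 (by norm_num)).trans b2).trans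
    (le_self_pow₀ (by nlinarith) (by omega))

end Pool.Agent.P.MP_d124bf_nt
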