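import Pool.Agent.P.MP_d124bf_nt.Conf

/-!
Choice of the parameters of the counting recursion.
-/

namespace Pool.Agent.P.MP_d124bf_nt

open Filter Topology

variable {q c : ℝ}

/-- an exponent `θ` with `E 3^(θ X) < 2^θ` -/
theorem exists_xy (h0 : 0 < q) (hq : q * Real.log 3 < Real.log 2) :
    ∃ x y : ℝ, 1 < x ∧ x ≤ 3 ∧ q * x + 1 - q < y ∧ y ≤ 2 ∧
      (∀ a b : ℕ, 2 ^ a ≤ 3 ^ b → y ^ a ≤ x ^ b) ∧ ∀ a b : ℕ, 3 ^ b ≤ 2 ^ a → x ^ b ≤ y ^ a := by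
  have l2 : 0 < Real.log 2 := Real.log_pos (by norm_num)
  have l3 : 0 < Real.log 3 := Real.log_pos (by norm_num)
  have l3' : Real.log 3 ≤ 2 := by
    have := Real.log_le_sub_one_of_pos (show (0 : ℝ) < 3 by norm_num)
    linarith
  have h1 : q < 1 := by
    have : Real.log 2 < Real.log 3 := Real.log_lt_log (by norm_num) (by norm_num)
    nlinarith
  set g := Real.log 2 - q * Real.log 3 with hg
  have hg0 : 0 < g := by linarith
  have hg1 : g ≤ 1 := by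
    have := Real.log_two_lt_d9
    have := mul_pos h0 l3
    linarith
  set θ := g / 8 with hθ
  have t0 : 0 < θ := by positivity
  have t1 : θ ≤ 1 / 8 := by linarith
  refine ⟨Real.exp (θ * Real.log 3), Real.exp (θ * Real.log 2), Real.one_lt_exp_iff.2 (by positivity),
    ?_, ?_, ?_, fun a b hab => ?_, fun a b hab => ?_⟩
  · rw [← Real.le_log_iff_exp_le (by norm_num)]; nlinarith
  · have a1 := Real.add_one_le_exp (θ * Real.log 2)
    have a2 : |θ * Real.log 3| ≤ 1 := by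
      rw [abs_of_pos (by positivity)]; nlinarith
    have a3 := (abs_le.1 (Real.abs_exp_sub_one_sub_id_le a2)).2
    have a4 : (θ * Real.log 3) ^ 2 ≤ (θ * 2) ^ 2 :=
      pow_le_pow_left₀ (by positivity) (by nlinarith) 2
    have a5 := mul_le_mul_of_nonneg_left (a3.trans a4) h0.le
    have a6 : q * (θ * 2) ^ 2 ≤ (θ * 2) ^ 2 := mul_le_of_le_one_left (by positivity) h1.le
    have a7 : (θ * 2) ^ 2 < θ * g := by rw [show g = 8 * θ by rw [hθ]; ring]; nlinarith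
    have a8 : θ * g = θ * Real.log 2 - q * (θ * Real.log 3) := by rw [hg]; ring
    linarith
  · rw [← Real.le_log_iff_exp_le (by norm_num)]; nlinarith
  · rw [← Real.exp_nat_mul, ← Real.exp_nat_mul, Real.exp_le_exp]
    have h2 : (2 : ℝ) ^ a ≤ 3 ^ b := by exact_mod_cast hab
    have h3 := Real.log_le_log (by positivity) h2
    rw [Real.log_pow, Real.log_pow] at h3
    nlinarith
  · rw [← Real.exp_nat_mul, ← Real.exp_nat_mul, Real.exp_le_exp]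
    have h2 : (3 : ℝ) ^ b ≤ 2 ^ a := by exact_mod_cast hab
    have h3 := Real.log_le_log (by positivity) h2
    rw [Real.log_pow, Real.log_pow] at h3
    nlinarith

theorem small_pow {a : ℝ} (h0 : 0 ≤ a) (h1 : a < 1) {e : ℝ} (he : 0 < e) :
    ∃ n0 : ℕ, ∀ n, n0 ≤ n → a ^ n ≤ e := by
  obtain ⟨n0, h⟩ := exists_pow_lt_of_lt_one he h1
  exact ⟨n0, fun n hn => (pow_le_pow_of_le_one h0 h1.le hn).trans h.le⟩

theorem params (h0 : 0 < q) (h1 : q < 1) (hc0 : 0 < c) (hc1 : c ≤ 1) {x y : ℝ} (hx : 1 < x)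
    (hx3 : x ≤ 3) (hy : q * x + 1 - q < y) (hxy : ∀ a b : ℕ, 2 ^ a ≤ 3 ^ b → y ^ a ≤ x ^ b) (K1 : ℕ) :
    ∃ n0 L0 : ℕ, 1 ≤ n0 ∧ 1 ≤ L0 ∧
      (∀ r < L0, (1 - c) ^ n0 * ((r + 5 : ℕ) * (2 ^ 4 * (8 * 2 ^ (r + 4)))) ≤ 1 / 2 / (r + 1) ^ 2) ∧
      ∀ r, L0 ≤ r → ∃ n D1 : ℕ, ∃ e : ℝ, K1 * (4 * n) ≤ r ∧ 3 ^ (D1 + 4 * n) ≤ 2 ^ r ∧ 0 < e ∧
        1 ≤ e ^ 2 * ((((r + 3 : ℕ) : ℝ) + 1) * q * (1 - q)) ∧
        (2 * ((1 - c / 2) ^ n + 2 ^ (4 * n + 1) * e)) ^ n0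
            * ((D1 + 4 * n + 1 : ℕ) * (2 ^ (3 + 4 * n) * 8))
          + (2 * ((q * x + 1 - q) ^ (r + 3) / x ^ (D1 + 1))) ^ n0
            * ((r + 3 + 4 * n + 1 : ℕ) * (2 ^ (3 + 4 * n) * (8 * 2 ^ (r + 3 + 4 * n))))
          ≤ 1 / 2 / (r + 1) ^ 2 := by
  set a := q * x + 1 - q with ha
  have a1 : 1 ≤ a := by rw [ha]; nlinarith
  have a3 : a ≤ 3 := by rw [ha]; nlinarith
  have y0 : 0 < y := by linarith
  set ϱ := a / y with hϱ
  have r0 : 0 < ϱ := by positivity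
  have r1 : ϱ < 1 := (div_lt_one y0).2 hy
  set σ := (1 + ϱ) / 2 with hσ
  have s0 : 0 < σ := by positivity
  have s1 : σ < 1 := by linarith
  have s2 : ϱ < σ := by linarith
  have hqq : 0 < q * (1 - q) := mul_pos h0 (by linarith)
  obtain ⟨K0, hK0⟩ := exists_nat_ge (4 / (q * (1 - q)))
  obtain ⟨K, hK1, hK2, hK3⟩ : ∃ K : ℕ, K1 ≤ K ∧ 4 ≤ K ∧ 4 ≤ K * (q * (1 - q)) := by
    refine ⟨K0 + K1 + 4, by omega, by omega, ?_⟩
    rw [← div_le_iff₀ hqq]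
    push_cast
    have : (0 : ℝ) ≤ K1 := Nat.cast_nonneg _
    linarith
  obtain ⟨n1, hn1⟩ := small_pow (a := 1 - c / 2) (by linarith) (by linarith) (e := 1 / 8) (by norm_num)
  have hn1' := hn1 (n1 + 1) (by omega)
  obtain ⟨G, hG⟩ : ∃ G : ℕ, G = K * 16 ^ (4 * (n1 + 1)) := ⟨_, rfl⟩
  have G4 : 4 ≤ G := by
    rw [hG]
    exact hK2.trans (Nat.le_mul_of_pos_right _ (by positivity))
  obtain ⟨L1, hL1⟩ : ∃ L1 : ℕ, ∀ r, L1 ≤ r → (r : ℝ) * (ϱ / σ) ^ r ≤ 1 / 54 := by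
    have := tendsto_self_mul_const_pow_of_lt_one (r := ϱ / σ) (by positivity) ((div_lt_one s0).2 s2)
    exact eventually_atTop.1 (this.eventually (ge_mem_nhds (by norm_num)))
  obtain ⟨L0, hL0⟩ : ∃ L0, L0 = G + L1 := ⟨_, rfl⟩
  obtain ⟨m1, hm1⟩ := small_pow (a := 1 - c) (by linarith) (by linarith)
    (e := 1 / ((L0 + 5) ^ 3 * (256 * 2 ^ (L0 + 4)))) (by positivity)
  obtain ⟨m2, hm2⟩ := small_pow (a := 1 / 2) (by norm_num) (by norm_num)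
    (e := 1 / (4096 * (G : ℝ) ^ 8)) (by have : (0 : ℝ) < G := by exact_mod_cast (by omega : 0 < G)
                                        positivity)
  obtain ⟨m3, hm3⟩ := small_pow s0.le s1 (e := 1 / 131072) (by norm_num)
  refine ⟨m1 + m2 + m3 + 1, L0, by omega, by omega, fun r hr => ?_, fun r hr => ?_⟩
  · have b1 := hm1 (m1 + m2 + m3 + 1) (by omega)
    have b2 : (r : ℝ) ≤ L0 := by exact_mod_cast hr.le
    have b3 : (2 : ℝ) ^ (r + 4) ≤ 2 ^ (L0 + 4) := pow_le_pow_right₀ (by norm_num) (by omega)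
    refine (mul_le_mul_of_nonneg_right b1 (by positivity)).trans ?_
    rw [one_div_mul_eq_div, div_le_div_iff₀ (by positivity) (by positivity)]
    push_cast
    calc ((r : ℝ) + 5) * (2 ^ 4 * (8 * 2 ^ (r + 4))) * (r + 1) ^ 2
        ≤ (L0 + 5) * (2 ^ 4 * (8 * 2 ^ (L0 + 4))) * (L0 + 5) ^ 2 := by gcongr; norm_num
      _ = _ := by ring
  obtain ⟨n0, hn0⟩ : ∃ n0, n0 = m1 + m2 + m3 + 1 := ⟨_, rfl⟩
  rw [← hn0]
  have b2 := hm2 n0 (by omega)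
  have b3 := hm3 n0 (by omega)
  have rG : G ≤ r := by omega
  have r4 : 4 ≤ r := by omega
  have b1 := hL1 r (by omega)
  clear hm1 hm2 hm3 hL1 hn1
  obtain ⟨m, hm⟩ : ∃ m, m = Nat.log G r := ⟨_, rfl⟩
  have m1' : 1 ≤ m := by rw [hm]; exact Nat.le_log_of_pow_le (by omega) (by simpa using rG)
  have g1 : G ^ m ≤ r := by rw [hm]; exact Nat.pow_log_le_self G (by omega)
  have g2 : r ≤ G ^ (2 * m) := by
    have := Nat.lt_pow_succ_log_self (b := G) (by omega) r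
    rw [← hm] at this
    exact this.le.trans (Nat.pow_le_pow_right (by omega) (by omega))
  obtain ⟨n, hn⟩ : ∃ n, n = (n1 + 1) * m := ⟨_, rfl⟩
  have g3 : K * 16 ^ (4 * n) ≤ r := by
    refine le_trans ?_ g1
    rw [hG, mul_pow, ← pow_mul, hn, mul_assoc 4]
    exact Nat.mul_le_mul_right _ (Nat.le_self_pow (by omega) K)
  have g4 : 16 ^ (4 * n) ≤ r := (Nat.le_mul_of_pos_left _ (by omega)).trans g3
  have g5 : 4 * n ≤ 16 ^ (4 * n) := (Nat.lt_pow_self (by norm_num)).le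
  have g6 : 4 * n ≤ r := g5.trans g4
  have g7 : 2 ^ (4 * n) ≤ r := (Nat.pow_le_pow_left (by norm_num) _).trans g4
  have g8 : 3 ^ (4 * n) ≤ r := (Nat.pow_le_pow_left (by norm_num) _).trans g4
  have g9 : r ≤ 2 ^ r := Nat.lt_two_pow_self.le
  obtain ⟨Dm, hDm⟩ : ∃ Dm, Dm = Nat.log 3 (2 ^ r) := ⟨_, rfl⟩
  have d1 : 3 ^ Dm ≤ 2 ^ r := by rw [hDm]; exact Nat.pow_log_le_self 3 (by positivity)
  have d2 : 2 ^ r ≤ 3 ^ (Dm + 1) := by
    rw [hDm]; exact (Nat.lt_pow_succ_log_self (by norm_num) _).le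
  have d3 : 4 * n ≤ Dm := by rw [hDm]; exact Nat.le_log_of_pow_le (by norm_num) (g8.trans g9)
  have d4 : Dm ≤ r := (Nat.pow_le_pow_iff_right (by norm_num)).1
    ((Nat.pow_le_pow_left (by norm_num : 2 ≤ 3) Dm).trans d1)
  obtain ⟨D1, rfl⟩ := Nat.exists_eq_add_of_le' d3
  have d5 := hxy _ _ d2
  have k1 : K1 * (4 * n) ≤ r := (Nat.mul_le_mul hK1 g5).trans g3
  set X : ℝ := 16 ^ n with hX
  have X0 : 0 < X := by positivity
  have c3 : (K : ℝ) * X ^ 4 ≤ r := by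
    have : ((K * 16 ^ (4 * n) : ℕ) : ℝ) ≤ r := by exact_mod_cast g3
    push_cast at this
    rwa [mul_comm 4 n, pow_mul] at this
  have c2 : (r : ℝ) ≤ (G : ℝ) ^ (2 * m) := by exact_mod_cast g2
  have c4 : (4 : ℝ) ≤ r := by exact_mod_cast r4
  have c6 : ((4 * n : ℕ) : ℝ) ≤ r := by exact_mod_cast g6
  have c7 : (2 : ℝ) ^ (4 * n) ≤ r := by exact_mod_cast g7
  have c8 : (3 : ℝ) ^ (4 * n) ≤ r := by exact_mod_cast g8
  have c9 : (r : ℝ) ≤ 2 ^ r := by exact_mod_cast g9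
  have c10 : ((D1 + 4 * n : ℕ) : ℝ) ≤ r := by exact_mod_cast d4
  have cG : (1 : ℝ) ≤ G := by exact_mod_cast (by omega : 1 ≤ G)
  have e3 : 3 + 4 * n ≤ 2 * r := by omega
  have e4 : r + 3 + 4 * n ≤ 3 * r := by omega
  have e5 : ((r + 3 + 4 * n + 1 : ℕ) : ℝ) ≤ 4 * r := by
    exact_mod_cast (show r + 3 + 4 * n + 1 ≤ 4 * r by omega)
  have r1' : 1 ≤ r := by omega
  refine ⟨n, D1, 1 / (2 * X ^ 2), k1, d1, by positivity, ?_, ?_⟩
  · clear d1 d2 g1 g2 g3 g4 g5 g7 g8 g9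
    push_cast
    have h2 : 4 * X ^ 4 ≤ (r + 3 + 1) * q * (1 - q) := by
      have := mul_le_mul_of_nonneg_right c3 hqq.le
      have := mul_le_mul_of_nonneg_right hK3 (show 0 ≤ X ^ 4 by positivity)
      nlinarith
    rw [div_pow, one_pow, one_div, inv_mul_eq_div, le_div_iff₀ (by positivity)]
    nlinarith
  clear d1 d2 g1 g2 g3 g4 g5 g7 g8 g9 hDm hm hG
  have T1 : 2 * ((1 - c / 2) ^ n + 2 ^ (4 * n + 1) * (1 / (2 * X ^ 2))) ≤ (1 / 2) ^ m := by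
    have e1 : (2 : ℝ) ^ (4 * n + 1) * (1 / (2 * X ^ 2)) = 1 / X := by
      have : (2 : ℝ) ^ (4 * n + 1) = 2 * X := by
        rw [hX, pow_succ, pow_mul]; norm_num; ring
      rw [this]; field_simp
    have e2 : 1 / X ≤ (1 - c / 2) ^ n := by
      rw [hX, ← one_div_pow]
      exact pow_le_pow_left₀ (by norm_num) (by linarith) n
    have e3 : (1 - c / 2) ^ n ≤ (1 / 8) ^ m := by
      rw [hn, pow_mul]
      exact pow_le_pow_left₀ (pow_nonneg (by linarith) _) hn1' m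
    have e4 : (1 / 8 : ℝ) ^ m = (1 / 4) ^ m * (1 / 2) ^ m := by rw [← mul_pow]; norm_num
    have e5 : (1 / 4 : ℝ) ^ m ≤ 1 / 4 := pow_le_of_le_one (by norm_num) (by norm_num) (by omega)
    have e6 := mul_le_mul_of_nonneg_right e5 (show (0 : ℝ) ≤ (1 / 2) ^ m by positivity)
    rw [e1]
    linarith
  have T2 : 2 * (a ^ (r + 3) / x ^ (D1 + 1)) ≤ σ ^ r := by
    have e1 : a ^ (r + 3) / x ^ (D1 + 1) = a ^ 3 * x ^ (4 * n) * (a ^ r / x ^ (D1 + 4 * n + 1)) := by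
      have : x ≠ 0 := by linarith
      field_simp
      ring
    have e2 : a ^ r / x ^ (D1 + 4 * n + 1) ≤ ϱ ^ r := by
      rw [hϱ, div_pow]
      exact div_le_div_of_nonneg_left (by positivity) (by positivity) d5
    have e3 : a ^ 3 * x ^ (4 * n) ≤ 3 ^ 3 * r :=
      mul_le_mul (pow_le_pow_left₀ (by linarith) a3 3)
        ((pow_le_pow_left₀ (by linarith) hx3 _).trans c8) (by positivity) (by norm_num)
    have e4 := mul_le_mul e3 e2 (by positivity) (by positivity)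
    rw [div_pow, ← mul_div_assoc, div_le_div_iff₀ (by positivity) (by norm_num)] at b1
    rw [e1]
    linarith
  have p0 : 0 ≤ 2 * ((1 - c / 2) ^ n + 2 ^ (4 * n + 1) * (1 / (2 * X ^ 2))) := by
    have : 0 ≤ (1 - c / 2) ^ n := pow_nonneg (by linarith) _
    positivity
  have U1 : (2 * ((1 - c / 2) ^ n + 2 ^ (4 * n + 1) * (1 / (2 * X ^ 2)))) ^ n0
      ≤ 1 / (4096 * (r : ℝ) ^ 4) := by
    refine (pow_le_pow_left₀ p0 T1 n0).trans ?_
    rw [← pow_mul, mul_comm m, pow_mul]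
    refine (pow_le_pow_left₀ (by positivity) b2 m).trans ?_
    rw [one_div_pow, mul_pow]
    apply one_div_le_one_div_of_le (by positivity)
    refine mul_le_mul (le_self_pow₀ (by norm_num) (by omega)) ?_ (by positivity) (by positivity)
    refine (pow_le_pow_left₀ (by positivity) c2 4).trans (le_of_eq ?_)
    rw [← pow_mul, ← pow_mul]; congr 1; ring
  have U2 : (2 * (a ^ (r + 3) / x ^ (D1 + 1))) ^ n0 ≤ 1 / 131072 ^ r := by
    refine (pow_le_pow_left₀ (by positivity) T2 n0).trans ?_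
    rw [← pow_mul, mul_comm r, pow_mul, ← one_div_pow]
    exact pow_le_pow_left₀ (by positivity) b3 r
  have V1 : ((D1 + 4 * n + 1 : ℕ) : ℝ) * (2 ^ (3 + 4 * n) * 8) * (r + 1) ^ 2 ≤ 1024 * (r : ℝ) ^ 4 := by
    have f1 : ((D1 + 4 * n + 1 : ℕ) : ℝ) ≤ 2 * r := by push_cast at c10 ⊢; linarith
    have f2 : (2 : ℝ) ^ (3 + 4 * n) ≤ 8 * r := by rw [pow_add]; norm_num; exact c7
    calc _ ≤ 2 * (r : ℝ) * (8 * r * 8) * (2 * r) ^ 2 := by gcongr; linarith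
      _ = 512 * (r : ℝ) ^ 4 := by ring
      _ ≤ _ := by gcongr; norm_num
  have V2 : ((r + 3 + 4 * n + 1 : ℕ) : ℝ) * (2 ^ (3 + 4 * n) * (8 * 2 ^ (r + 3 + 4 * n))) * (r + 1) ^ 2
      ≤ 131072 ^ r / 4 := by
    have f1 : (2 : ℝ) ^ (3 + 4 * n) ≤ 2 ^ (2 * r) := pow_le_pow_right₀ (by norm_num) e3
    have f2 : (2 : ℝ) ^ (r + 3 + 4 * n) ≤ 2 ^ (3 * r) := pow_le_pow_right₀ (by norm_num) e4
    have f3 : (512 : ℝ) ≤ 512 ^ r := le_self_pow₀ (by norm_num) (by omega)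
    calc _ ≤ 4 * (r : ℝ) * (2 ^ (2 * r) * (8 * 2 ^ (3 * r))) * (2 * r) ^ 2 := by gcongr; linarith
      _ ≤ 4 * (2 : ℝ) ^ r * (2 ^ (2 * r) * (8 * 2 ^ (3 * r))) * (2 * 2 ^ r) ^ 2 := by gcongr
      _ = 512 * (2 ^ 8) ^ r / 4 := by rw [← pow_mul]; ring
      _ ≤ 512 ^ r * (2 ^ 8) ^ r / 4 := by gcongr
      _ = _ := by rw [← mul_pow]; norm_num
  rw [le_div_iff₀ (by positivity), add_mul, mul_assoc, mul_assoc _ _ (((r : ℝ) + 1) ^ 2)]
  have W1 := mul_le_mul U1 V1 (by positivity) (by positivity)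
  have W2 := mul_le_mul U2 V2 (by positivity) (by positivity)
  have e1 : 1 / (4096 * (r : ℝ) ^ 4) * (1024 * (r : ℝ) ^ 4) = 1 / 4 := by field_simp; norm_num
  have e2 : 1 / (131072 : ℝ) ^ r * (131072 ^ r / 4) = 1 / 4 := by field_simp
  linarith

end Pool.Agent.P.MP_d124bf_nt
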