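import Pool.Agent.P.MP_d124bf_nt.RSys

/-!
Gain after the exit from a large triangle through its vertical edge.
-/

namespace Pool.Agent.P.MP_d124bf_nt

variable {q c : ℝ} {S P : ℕ} {Z : ℤ} {N : ℕ → ℕ → ℝ}

open Classical in
noncomputable def per (R : ℤ) (n g l : ℕ) : ℝ :=
  if Far (1 / 6) (2 ^ l * R / 3 ^ (n - g + 1)) then 1 / 2 else 0

theorem wh_per (R : ℤ) (n g l : ℕ) :
    (wh (per R n) g l = 0 ∧ ¬ Far (1 / 6) (2 ^ l * R / 3 ^ (n - g + 1))) ∨
    (wh (per R n) g l = 1 ∧ Far (1 / 6) (2 ^ l * R / 3 ^ (n - g + 1))) := by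
  unfold wh per
  by_cases h : Far (1 / 6) (2 ^ l * R / 3 ^ (n - g + 1))
  · right
    rw [if_pos h, if_pos (far_half.mono (by norm_num))]
    exact ⟨rfl, h⟩
  · left
    rw [if_neg h, if_neg (fun h2 => by have := h2 0; norm_num at this)]
    exact ⟨rfl, h⟩

theorem per_shift (R : ℤ) (j v l : ℕ) : ∃ t : ℤ, ¬ (3 : ℤ) ∣ t ∧
    (2 : ℝ) ^ (l + 2 * 3 ^ v) * R / 3 ^ j = 2 ^ l * R / 3 ^ j + 3 ^ (v + 1) * (2 ^ l * R * t) / 3 ^ j := by
  obtain ⟨t, h3, ht⟩ := two_pow_three_pow v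
  have ht' : (2 : ℝ) ^ (2 * 3 ^ v) = 1 + 3 ^ (v + 1) * t := by exact_mod_cast ht
  refine ⟨t, h3, ?_⟩
  rw [pow_add, ht']
  ring

theorem per_inv (R : ℤ) {n g v : ℕ} (h : n - g ≤ v) (l : ℕ) :
    wh (per R n) g (l + 2 * 3 ^ v) = wh (per R n) g l := by
  obtain ⟨t, _, ht⟩ := per_shift R (n - g + 1) v l
  obtain ⟨y, rfl⟩ := Nat.exists_eq_add_of_le h
  have e : Eqv ((2 : ℝ) ^ (l + 2 * 3 ^ (n - g + y)) * R / 3 ^ (n - g + 1))
      (2 ^ l * R / 3 ^ (n - g + 1)) := ⟨3 ^ y * (2 ^ l * R * t), by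
    rw [ht]; push_cast; field_simp; ring⟩
  rcases wh_per R n g (l + 2 * 3 ^ (n - g + y)) with ⟨a, a'⟩ | ⟨a, a'⟩ <;>
    rcases wh_per R n g l with ⟨b, b'⟩ | ⟨b, b'⟩
  · rw [a, b]
  · exact absurd (b'.of_eqv e) a'
  · exact absurd (a'.of_eqv e.symm) b'
  · rw [a, b]

theorem not_three_dvd {R : ℤ} (hR : ¬ (3 : ℤ) ∣ R) (l : ℕ) : ¬ (3 : ℤ) ∣ 2 ^ l * R := by
  intro h
  rcases Int.prime_three.dvd_or_dvd h with h | h
  · have := Int.prime_three.dvd_of_dvd_pow h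
    norm_num at this
  · exact hR h

theorem per_pair {R : ℤ} (hR : ¬ (3 : ℤ) ∣ R) {n g v : ℕ} (h : n - g = v + 1) (l : ℕ) :
    1 ≤ wh (per R n) g l + wh (per R n) g (l + 2 * 3 ^ v) := by
  obtain ⟨t, h3, ht⟩ := per_shift R (n - g + 1) v l
  rcases wh_per R n g (l + 2 * 3 ^ v) with ⟨a, a'⟩ | ⟨a, a'⟩ <;>
    rcases wh_per R n g l with ⟨b, b'⟩ | ⟨b, b'⟩ <;> try (rw [a, b]; norm_num)
  exfalso
  simp only [Far, not_forall, not_le] at a' b'
  obtain ⟨n1, hn1⟩ := a'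
  obtain ⟨n2, hn2⟩ := b'
  have hd : ¬ (3 : ℤ) ∣ 2 ^ l * R * t := fun h =>
    (Int.prime_three.dvd_or_dvd h).elim (not_three_dvd hR l) h3
  have h4 := far_third hd (n1 - n2)
  have e : (3 : ℝ) ^ (v + 1) * (2 ^ l * R * t) / 3 ^ (n - g + 1) = 2 ^ l * R * t / 3 := by
    rw [h]; field_simp; ring
  rw [e] at ht
  rw [ht] at hn1
  push_cast at h4
  rw [abs_lt] at hn1 hn2
  rw [le_abs] at h4
  rcases h4 with h4 | h4 <;> linarith [hn1.1, hn1.2, hn2.1, hn2.2]

theorem per_last {R : ℤ} (hR : ¬ (3 : ℤ) ∣ R) (n l : ℕ) : wh (per R n) n l = 1 := by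
  rcases wh_per R n n l with ⟨_, a⟩ | ⟨a, _⟩
  · exfalso
    apply a
    have := (far_third (not_three_dvd hR l)).mono (show (1 : ℝ) / 6 ≤ 1 / 3 by norm_num)
    simpa using this
  · exact a

def Lm : ℕ → ℕ → List ℕ
  | 0, _ => []
  | t + 1, s => 2 * 3 ^ s :: Lm t (s + 1)

theorem Lm_realize : True := by have := @Lm.eq_def; trivial

theorem Lm_sum (t s : ℕ) : (Lm t s).sum + 3 ^ s = 3 ^ (s + t) := by
  induction t generalizing s with
  | zero => simp [Lm]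
  | succ t ih =>
    have := ih (s + 1)
    simp only [Lm, List.sum_cons]
    rw [show s + 1 + t = s + (t + 1) by ring, pow_succ] at this
    omega

theorem Lm_mem (t s M : ℕ) (h : M ∈ Lm t s) : ∃ u, s ≤ u ∧ M = 2 * 3 ^ u := by
  induction t generalizing s with
  | zero => simp [Lm] at h
  | succ t ih =>
    simp only [Lm, List.mem_cons] at h
    rcases h with h | h
    · exact ⟨s, le_rfl, h⟩
    · obtain ⟨u, hu, e⟩ := ih _ h
      exact ⟨u, by omega, e⟩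

theorem per_low (h0 : 0 ≤ q) (h1 : q ≤ 1) (hc0 : 0 ≤ c) (hc : c ≤ 4 * q * (1 - q) ^ 3) {σ : ℝ}
    (hσ1 : 1 ≤ σ) (hσ : (1 - q + q * σ) ^ 4 - c / 2 * σ ≤ 1) {R : ℤ} (hR : ¬ (3 : ℤ) ∣ R) (n : ℕ) :
    ∀ T u, u ≤ n → ∀ t s, s + t = n → s ≤ n - u - 1 → ∀ l,
      Av (Lm t s) (G2 q c (per R n) n T u) l ≤ σ ^ 4 / σ ^ u + (1 - q / 2) ^ T * 2 ^ u := by
  have hq : 0 ≤ 1 - q := sub_nonneg.2 h1
  have hβ : 0 ≤ 1 - q / 2 := by linarith
  have hσ0 : 0 < σ := by linarith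
  intro T
  induction T with
  | zero =>
    intro u _ t s _ _ l
    have e : G2 q c (per R n) n 0 u = fun _ => 1 := by funext l; rw [G2]
    rw [e, Av_const, pow_zero, one_mul]
    have : (1 : ℝ) ≤ 2 ^ u := one_le_pow₀ (by norm_num)
    have : 0 ≤ σ ^ 4 / σ ^ u := by positivity
    linarith
  | succ T ih =>
    intro u hn t s hst hs l
    by_cases hu : u < 4
    · have e : G2 q c (per R n) n (T + 1) u = fun _ => 1 := by funext l; rw [G2, if_pos hu]
      rw [e, Av_const]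
      have : 1 ≤ σ ^ 4 / σ ^ u := by
        rw [le_div_iff₀ (by positivity), one_mul]
        exact pow_le_pow_right₀ hσ1 hu.le
      have : 0 ≤ (1 - q / 2) ^ (T + 1) * 2 ^ u := by positivity
      linarith
    obtain ⟨i, rfl⟩ : ∃ i, u = i + 4 := ⟨u - 4, by omega⟩
    set β := σ ^ 4 / σ ^ (i + 3) + (1 - q / 2) ^ T * 2 ^ (i + 3) with hβdef
    have β0 : 0 ≤ β := by positivity
    have co : ∀ x, 0 ≤ 4 * q * (1 - q) ^ 3 - c * wh (per R n) (i + 4) x := fun x => by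
      rcases wh_per R n (i + 4) x with ⟨h, _⟩ | ⟨h, _⟩ <;> rw [h] <;> linarith
    have inner : ∀ t s, s + t = n → s = n - (i + 4) → ∀ l, Av (Lm t s) (fun x =>
        (4 * q * (1 - q) ^ 3 - c * wh (per R n) (i + 4) x) * G2 q c (per R n) n T (i + 3) (x + 4)) l
        ≤ (4 * q * (1 - q) ^ 3 - c * wh (per R n) (i + 4) l) * β := by
      intro t s hst hs l
      rw [Av_mul _ (fun x => 4 * q * (1 - q) ^ 3 - c * wh (per R n) (i + 4) x) _ (fun M hM x => by
        obtain ⟨v, hv, rfl⟩ := Lm_mem _ _ _ hM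
        simp only [per_inv R (hs ▸ hv)]), Av_shift]
      exact mul_le_mul_of_nonneg_left (ih (i + 3) (by omega) t s hst (by omega) (l + 4)) (co l)
    have prod : ∀ t s, s + t = n → s ≤ n - (i + 4) - 1 → ∀ l, Av (Lm t s) (fun x =>
        (4 * q * (1 - q) ^ 3 - c * wh (per R n) (i + 4) x) * G2 q c (per R n) n T (i + 3) (x + 4)) l
        ≤ (4 * q * (1 - q) ^ 3 - c / 2) * β := by
      intro t
      induction t with
      | zero => intro s h1 h2; omega
      | succ t iht =>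
        intro s h1 h2 l
        rcases eq_or_lt_of_le hn with hn' | hn'
        · refine (inner _ s h1 (by omega) l).trans (mul_le_mul_of_nonneg_right ?_ β0)
          rw [hn', per_last hR]
          linarith
        rw [Lm, Av]
        rcases eq_or_lt_of_le h2 with h3 | h3
        · have k1 := inner t (s + 1) (by omega) (by omega) l
          have k2 := inner t (s + 1) (by omega) (by omega) (l + 2 * 3 ^ s)
          have k3 := mul_le_mul_of_nonneg_left (per_pair hR (n := n) (g := i + 4) (v := s) (by omega) l)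
            (mul_nonneg hc0 β0)
          linarith
        · linarith [iht (s + 1) (by omega) (by omega) l, iht (s + 1) (by omega) (by omega) (l + 2 * 3 ^ s)]
    have e : G2 q c (per R n) n (T + 1) (i + 4) = fun x =>
        (1 - q) ^ 4 * G2 q c (per R n) n T (i + 4) (x + 4)
        + (4 * q * (1 - q) ^ 3 - c * wh (per R n) (i + 4) x) * G2 q c (per R n) n T (i + 3) (x + 4)
        + 6 * q ^ 2 * (1 - q) ^ 2 * G2 q c (per R n) n T (i + 2) (x + 4)
        + 4 * q ^ 3 * (1 - q) * G2 q c (per R n) n T (i + 1) (x + 4)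
        + q ^ 4 * G2 q c (per R n) n T i (x + 4) := by
      funext x; rw [G2, if_neg hu, if_pos hn]; rfl
    rw [e, Av_add, Av_add, Av_add, Av_add, Av_smul, Av_smul, Av_smul, Av_smul,
      Av_shift, Av_shift, Av_shift, Av_shift]
    have a0 := mul_le_mul_of_nonneg_left (ih (i + 4) hn t s hst hs (l + 4))
      (show 0 ≤ (1 - q) ^ 4 by positivity)
    have a1 := prod t s hst hs l
    have a2 := mul_le_mul_of_nonneg_left (ih (i + 2) (by omega) t s hst (by omega) (l + 4))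
      (show 0 ≤ 6 * q ^ 2 * (1 - q) ^ 2 by positivity)
    have a3 := mul_le_mul_of_nonneg_left (ih (i + 1) (by omega) t s hst (by omega) (l + 4))
      (show 0 ≤ 4 * q ^ 3 * (1 - q) by positivity)
    have a4 := mul_le_mul_of_nonneg_left (ih i (by omega) t s hst (by omega) (l + 4))
      (show 0 ≤ q ^ 4 by positivity)
    rw [hβdef] at a1
    set A := σ ^ 4 / σ ^ (i + 4) with hA
    set Y := (1 - q / 2) ^ T * 2 ^ i with hY
    have hA0 : 0 ≤ A := by positivity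
    have hY0 : 0 ≤ Y := by positivity
    have f3 : σ ^ 4 / σ ^ (i + 3) = A * σ := by rw [hA]; field_simp; ring
    have f2 : σ ^ 4 / σ ^ (i + 2) = A * σ ^ 2 := by rw [hA]; field_simp; ring
    have f1 : σ ^ 4 / σ ^ (i + 1) = A * σ ^ 3 := by rw [hA]; field_simp; ring
    have f0 : σ ^ 4 / σ ^ i = A * σ ^ 4 := by rw [hA]; field_simp; ring
    have g4 : (1 - q / 2) ^ T * 2 ^ (i + 4) = 16 * Y := by rw [hY]; ring
    have g3 : (1 - q / 2) ^ T * 2 ^ (i + 3) = 8 * Y := by rw [hY]; ring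
    have g2 : (1 - q / 2) ^ T * 2 ^ (i + 2) = 4 * Y := by rw [hY]; ring
    have g1 : (1 - q / 2) ^ T * 2 ^ (i + 1) = 2 * Y := by rw [hY]; ring
    have g5 : (1 - q / 2) ^ (T + 1) * 2 ^ (i + 4) = 16 * Y * (1 - q / 2) := by rw [hY]; ring
    rw [g4] at a0
    rw [f3, g3] at a1
    rw [f2, g2] at a2
    rw [f1, g1] at a3
    rw [f0] at a4
    rw [g5]
    have k1 := mul_le_mul_of_nonneg_left hσ hA0
    have k2 : (1 - q / 2) ^ 4 ≤ 1 - q / 2 := pow_le_of_le_one hβ (by linarith) (by norm_num)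
    have k3 := mul_le_mul_of_nonneg_left k2 (show 0 ≤ 16 * Y by positivity)
    have k4 : 0 ≤ c * Y := by positivity
    have tot : (1 - q) ^ 4 * (A + 16 * Y) + (4 * q * (1 - q) ^ 3 - c / 2) * (A * σ + 8 * Y)
        + 6 * q ^ 2 * (1 - q) ^ 2 * (A * σ ^ 2 + 4 * Y) + 4 * q ^ 3 * (1 - q) * (A * σ ^ 3 + 2 * Y)
        + q ^ 4 * (A * σ ^ 4 + Y)
        = A * ((1 - q + q * σ) ^ 4 - c / 2 * σ) + 16 * Y * (1 - q / 2) ^ 4 - 4 * (c * Y) := by ring
    linarith

theorem per_high (h0 : 0 ≤ q) (h1 : q ≤ 1) (hc0 : 0 ≤ c) (hc : c ≤ 4 * q * (1 - q) ^ 3) {σ : ℝ}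
    (hσ1 : 1 ≤ σ) (hσ : (1 - q + q * σ) ^ 4 - c / 2 * σ ≤ 1) {R : ℤ} (hR : ¬ (3 : ℤ) ∣ R) {n : ℕ}
    (hn : 4 ≤ n) : ∀ T u, n ≤ u → ∀ l,
      Av (Lm n 0) (G2 q c (per R n) n T u) l ≤ σ ^ 4 / σ ^ n + (1 - q / 2) ^ T * 2 ^ u := by
  intro T
  induction T with
  | zero =>
    intro u _ l
    have e : G2 q c (per R n) n 0 u = fun _ => 1 := by funext l; rw [G2]
    rw [e, Av_const, pow_zero, one_mul]
    have : (1 : ℝ) ≤ 2 ^ u := one_le_pow₀ (by norm_num)
    have : 0 ≤ σ ^ 4 / σ ^ n := by positivity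
    linarith
  | succ T ih =>
    intro u hu l
    rcases eq_or_lt_of_le hu with rfl | h
    · exact per_low h0 h1 hc0 hc hσ1 hσ hR n _ n le_rfl n 0 (by omega) (by omega) l
    · obtain ⟨u, rfl⟩ : ∃ u', u = u' + 1 := ⟨u - 1, by omega⟩
      have e : G2 q c (per R n) n (T + 1) (u + 1) = fun l => q * G2 q c (per R n) n T u (l + 1)
          + (1 - q) * G2 q c (per R n) n T (u + 1) (l + 1) := by
        funext l; rw [G2, if_neg (by omega), if_neg (by omega), Nat.add_sub_cancel]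
      rw [e, Av_lin, Av_shift, Av_shift]
      have a0 := mul_le_mul_of_nonneg_left (ih u (by omega) (l + 1)) h0
      have a1 := mul_le_mul_of_nonneg_left (ih (u + 1) hu (l + 1)) (sub_nonneg.2 h1)
      have : q * (σ ^ 4 / σ ^ n + (1 - q / 2) ^ T * 2 ^ u)
          + (1 - q) * (σ ^ 4 / σ ^ n + (1 - q / 2) ^ T * 2 ^ (u + 1))
          = σ ^ 4 / σ ^ n + (1 - q / 2) ^ (T + 1) * 2 ^ (u + 1) := by ring
      linarith

theorem RS.le_G2 (X : RS q c S P Z N) (h0 : 0 < q) (h1 : q < 1) (hc0 : 0 ≤ c)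
    (hc : c ≤ 4 * q * (1 - q) ^ 3) {w0 l n H U : ℕ} {R : ℤ} {w x b Q1 Q2 : ℝ} (hx : 1 ≤ x)
    (hb : x * b = q + (1 - q) * x) (hl : l + H ≤ S) (hw : 2 ^ H * |w| ≤ 1 / 14)
    (hψ : arr Z P w0 l = (w + R) / 3 ^ (n + 1)) (q1 : 0 ≤ Q1) (q2 : 0 ≤ Q2)
    (hQ1 : ∀ g < 4, ∀ l' ≤ H, N (w0 + g) (l + l') ≤ Q1)
    (hQ2 : ∀ g ≤ U, ∀ l' ≤ H, H < l' + 4 → N (w0 + g) (l + l') ≤ Q2) :
    ∀ T g l' m, l' + m = H → m ≤ T → g ≤ U →
      N (w0 + g) (l + l') ≤ Q1 * G2 q c (per R n) n T g l' + Q2 * (x ^ g * b ^ m / b ^ 4) := by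
  have x0 : 0 < x := by linarith
  have hq : 0 < 1 - q := by linarith
  have b0 : 0 < b := by
    have : 0 < x * b := by rw [hb]; positivity
    exact (mul_pos_iff_of_pos_left x0).1 this
  have b1 : b ≤ 1 := by
    have : x * b ≤ x * 1 := by rw [hb]; nlinarith
    exact le_of_mul_le_mul_left this x0
  have stop : ∀ T g l' m, l' + m = H → m < 4 → g ≤ U →
      N (w0 + g) (l + l') ≤ Q1 * G2 q c (per R n) n T g l' + Q2 * (x ^ g * b ^ m / b ^ 4) := by
    intro T g l' m hm hm4 hg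
    have a1 := mul_nonneg q1 (G2_bounds (ψ := per R n) h0.le h1.le hc0 hc n T g l').1
    have a2 : 1 ≤ x ^ g * b ^ m / b ^ 4 := by
      rw [one_le_div (by positivity)]
      exact (pow_le_pow_of_le_one b0.le b1 hm4.le).trans
        (le_mul_of_one_le_left (by positivity) (one_le_pow₀ hx))
    have a3 := mul_le_mul_of_nonneg_left a2 q2
    linarith [hQ2 g hg l' (by omega) (by omega)]
  intro T
  induction T with
  | zero => intro g l' m hm hT hg; exact stop 0 g l' m hm (by omega) hg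
  | succ T ih =>
    intro g l' m hm hT hg
    rcases lt_or_ge m 4 with hm4 | hm4
    · exact stop _ g l' m hm hm4 hg
    rw [G2]
    split_ifs with a a'
    · have : 0 ≤ Q2 * (x ^ g * b ^ m / b ^ 4) := by positivity
      linarith [hQ1 g a l' (by omega)]
    · obtain ⟨m, rfl⟩ : ∃ m', m = m' + 4 := ⟨m - 4, by omega⟩
      obtain ⟨i, rfl⟩ : ∃ i, g = i + 4 := ⟨g - 4, by omega⟩
      have hblk := X.block h0.le h1.le hc (u := w0 + (i + 4)) (l := l + l') (by omega) (by omega)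
        (w := wh (per R n) (i + 4) l') (by
          rcases wh_per R n (i + 4) l' with ⟨h, _⟩ | ⟨h, hf⟩
          · exact Or.inl h
          · refine Or.inr ⟨h, ?_⟩
            obtain ⟨j, rfl⟩ := Nat.exists_eq_add_of_le a'
            rw [Nat.add_sub_cancel_left] at hf
            have hs : |(2 : ℝ) ^ l' * w / 3 ^ (j + 1)| ≤ 1 / 42 := by
              rw [abs_div, abs_mul, abs_of_pos (show (0 : ℝ) < 2 ^ l' by positivity),
                abs_of_pos (show (0 : ℝ) < 3 ^ (j + 1) by positivity), div_le_iff₀ (by positivity)]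
              have h3 : (2 : ℝ) ^ l' ≤ 2 ^ H := pow_le_pow_right₀ (by norm_num) (by omega)
              have h4 : (3 : ℝ) ^ 1 ≤ 3 ^ (j + 1) := pow_le_pow_right₀ (by norm_num) (by omega)
              have h5 := mul_le_mul_of_nonneg_right h3 (abs_nonneg w)
              linarith
            refine ((hf.add_small hs).mono (by norm_num)).of_eqv ((Eqv.refl _).of_eq ?_)
            rw [arr_row, arr_col, hψ]
            field_simp
            ring)
        (g := fun d => Q1 * G2 q c (per R n) n T (i + 4 - d) (l' + 4)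
          + Q2 * (x ^ (i + 4 - d) * b ^ m / b ^ 4)) (fun d hd => by
          have := ih (i + 4 - d) (l' + 4) m (by omega) (by omega) (by omega)
          rwa [← Nat.add_sub_assoc (by omega), ← add_assoc l] at this)
      simp only [show i + 4 - 0 = i + 4 from rfl, show i + 4 - 1 = i + 3 from rfl,
        show i + 4 - 2 = i + 2 from rfl, show i + 4 - 3 = i + 1 from rfl,
        show i + 4 - 4 = i from rfl] at hblk ⊢
      have e : x ^ (i + 4) * b ^ (m + 4) / b ^ 4 = x ^ i * b ^ m / b ^ 4 * (q + (1 - q) * x) ^ 4 := by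
        rw [← hb]; ring
      have k : 0 ≤ c * wh (per R n) (i + 4) l' * (Q2 * (x ^ (i + 3) * b ^ m / b ^ 4)) := by
        rcases wh_per R n (i + 4) l' with ⟨h, _⟩ | ⟨h, _⟩ <;> rw [h] <;> positivity
      rw [e]
      refine hblk.trans (le_trans (le_add_of_nonneg_right k) (le_of_eq ?_))
      ring
    · obtain ⟨m, rfl⟩ : ∃ m', m = m' + 1 := ⟨m - 1, by omega⟩
      obtain ⟨g, rfl⟩ : ∃ g', g = g' + 1 := ⟨g - 1, by omega⟩
      have a0 := X.unit (w0 + g) (l + l') (by omega)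
      have a1 := mul_le_mul_of_nonneg_left (ih g (l' + 1) m (by omega) (by omega) (by omega)) h0.le
      have a2 := mul_le_mul_of_nonneg_left (ih (g + 1) (l' + 1) m (by omega) (by omega) hg) hq.le
      have e : x ^ (g + 1) * b ^ (m + 1) / b ^ 4 = x ^ g * b ^ m / b ^ 4 * (q + (1 - q) * x) := by
        rw [← hb]; ring
      rw [Nat.add_sub_cancel, e, ← add_assoc]
      rw [← add_assoc l] at a1 a2
      rw [← add_assoc w0] at a2
      refine a0.trans ((add_le_add a1 a2).trans (le_of_eq ?_))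
      ring

theorem RS.big (X : RS q c S P Z N) (h0 : 0 < q) (h1 : q < 1) (hc0 : 0 ≤ c)
    (hc : c ≤ 4 * q * (1 - q) ^ 3) {σ : ℝ} (hσ1 : 1 ≤ σ) (hσ : (1 - q + q * σ) ^ 4 - c / 2 * σ ≤ 1)
    {w0 l n H h : ℕ} {d : ℤ} {v x b e Q1 Q2 : ℝ} (hx : 1 ≤ x) (hb : x * b = q + (1 - q) * x)
    (hn : 4 ≤ n) (hl : l + H ≤ S) (hd : ¬ (3 : ℤ) ∣ d) (hv : |v| ≤ 1 / 7)
    (ht : Eqv (arr Z P (w0 + n) l) (v / 3 ^ (h + 1) + d / 3)) (hH : (6 : ℝ) * 2 ^ H ≤ 3 ^ (h + 1))
    (he0 : 0 < e) (he : 1 ≤ e ^ 2 * ((h + 1) * q * (1 - q))) (q1 : 0 ≤ Q1) (q2 : 0 ≤ Q2)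
    (hQ1 : ∀ g < 4, ∀ l' ≤ H, N (w0 + g) (l + l') ≤ Q1)
    (hQ2 : ∀ g ≤ n + (h + 1), ∀ l' ≤ H, H < l' + 4 → N (w0 + g) (l + l') ≤ Q2) :
    N (w0 + (n + (h + 1))) l
      ≤ Q1 * (σ ^ 4 / σ ^ n + 3 ^ n * e) + Q2 * (x ^ (n + (h + 1)) * b ^ H / b ^ 4) := by
  obtain ⟨m, hm⟩ := ht
  set R : ℤ := d + 3 * m with hRdef
  have hR : ¬ (3 : ℤ) ∣ R := fun h => hd ((dvd_add_left (Dvd.intro _ rfl)).1 h)
  have hψ : arr Z P w0 l = (3 * v / 3 ^ (h + 1) + R) / 3 ^ (n + 1) := by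
    rw [arr_col] at hm
    rw [eq_div_iff (by positivity), hRdef, pow_succ 3 n]
    push_cast
    linear_combination 3 * hm
  have hw : (2 : ℝ) ^ H * |3 * v / 3 ^ (h + 1)| ≤ 1 / 14 := by
    rw [abs_div, abs_mul, abs_of_pos (show (0 : ℝ) < 3 ^ (h + 1) by positivity),
      abs_of_pos (show (0 : ℝ) < 3 by norm_num), ← mul_div_assoc, div_le_iff₀ (by positivity)]
    have := mul_le_mul_of_nonneg_left hv (show (0 : ℝ) ≤ 2 ^ H by positivity)
    linarith
  have cmp := X.le_G2 h0 h1 hc0 hc hx hb hl hw hψ q1 q2 hQ1 hQ2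
  set u := n + (h + 1) with hu
  set τ := Q2 * (x ^ u * b ^ H / b ^ 4) with hτ
  have key : ∀ T, N (w0 + u) l ≤ Q1 * (σ ^ 4 / σ ^ n + 3 ^ n * e) + τ + Q1 * 2 ^ u * (1 - q / 2) ^ T := by
    intro T
    have k1 : N (w0 + u) l - τ - Q1 * (3 ^ n * e)
        ≤ Av (Lm n 0) (fun M => Q1 * G2 q c (per R n) n (T + H + h) u M) 0 := by
      apply le_Av
      intro M hM
      have a1 := cmp (T + H + M + h) u 0 H (by omega) (by omega) le_rfl
      have a2 := G2_shift (ψ := per R n) h0 h1 hc0 hc hn (le_refl u) he0 he (T + H) M 0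
      have a3 : (M : ℝ) ≤ 3 ^ n := by
        have := Lm_sum n 0
        rw [zero_add] at this
        exact_mod_cast hM.trans (by omega)
      have a4 := mul_le_mul_of_nonneg_left (mul_le_mul_of_nonneg_right a3 he0.le) q1
      have a5 := mul_le_mul_of_nonneg_left a2 q1
      rw [add_zero] at a1
      linarith
    rw [Av_smul] at k1
    have k2 := mul_le_mul_of_nonneg_left
      (per_high h0.le h1.le hc0 hc hσ1 hσ hR hn (T + H + h) u (by omega) 0) q1
    have k3 : (1 - q / 2) ^ (T + H + h) ≤ (1 - q / 2) ^ T :=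
      pow_le_pow_of_le_one (by linarith) (by linarith) (by omega)
    have := mul_le_mul_of_nonneg_left k3 (show (0 : ℝ) ≤ Q1 * 2 ^ u by positivity)
    linarith
  apply le_of_forall_pos_le_add
  intro ε hε
  obtain ⟨T, hT⟩ := exists_pow_lt_of_lt_one (show 0 < ε / (Q1 * 2 ^ u + 1) by positivity)
    (show 1 - q / 2 < 1 by linarith)
  rw [lt_div_iff₀ (by positivity)] at hT
  have : 0 ≤ (1 - q / 2) ^ T := pow_nonneg (by linarith) _
  linarith [key T]

end Pool.Agent.P.MP_d124bf_nt
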