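import Pool.Agent.P.MP_d124bf_nt.RChain
import Pool.Agent.P.MP_d124bf_nt.Family

/-!
The amplitudes of the walk after a fixed number of steps form a reversed system.
-/

namespace Pool.Agent.P.MP_d124bf_nt

open Finset

noncomputable def PU (q : ℝ) (e : ℕ → ℕ → ℂ) (a : ℕ) : ℕ → ℕ → ℂ
  | 0, u => if u = a then 1 else 0
  | s + 1, 0 => (1 - q) * PU q e a s 0
  | s + 1, u + 1 => q * (e (u + 1) (s + 1) * PU q e a s u) + (1 - q) * PU q e a s (u + 1)

theorem PU_realize : True := by have := @PU.eq_def; trivial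

variable {q : ℝ} {e : ℕ → ℕ → ℂ} {a : ℕ}

theorem PU_low : ∀ s u, u < a → PU q e a s u = 0 := by
  intro s
  induction s with
  | zero => intro u hu; rw [PU, if_neg hu.ne]
  | succ s ih =>
    intro u hu
    cases u with
    | zero => rw [PU, ih 0 hu, mul_zero]
    | succ u => rw [PU, ih u (by omega), ih (u + 1) hu]; simp

theorem PU_high : ∀ s u, a + s < u → PU q e a s u = 0 := by
  intro s
  induction s with
  | zero => intro u hu; rw [PU, if_neg (by omega)]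
  | succ s ih =>
    intro u hu
    obtain ⟨u, rfl⟩ : ∃ u', u = u' + 1 := ⟨u - 1, by omega⟩
    rw [PU, ih u (by omega), ih (u + 1) (by omega)]; simp

theorem PU_step (h0 : 0 < q) (h1 : q < 1) (hE : ∀ j s, ‖e j s‖ = 1) (s u : ℕ) :
    ‖PU q e a (s + 1) (u + 1)‖ ≤ q * ‖PU q e a s u‖ + (1 - q) * ‖PU q e a s (u + 1)‖ := by
  rw [PU]
  refine (norm_add_le _ _).trans (le_of_eq ?_)
  rw [norm_mul, norm_mul, norm_mul, hE, one_mul, Complex.norm_real, Real.norm_of_nonneg h0.le,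
    show (1 : ℂ) - q = ((1 - q : ℝ) : ℂ) by push_cast; ring, Complex.norm_real,
    Real.norm_of_nonneg (by linarith)]

theorem PU_norm (h0 : 0 < q) (h1 : q < 1) (hE : ∀ j s, ‖e j s‖ = 1) (ha : 0 < a) :
    ∀ s u, ‖PU q e a s u‖ ≤ 1 := by
  intro s
  induction s with
  | zero => intro u; rw [PU]; split_ifs <;> simp
  | succ s ih =>
    intro u
    cases u with
    | zero => rw [PU_low _ _ ha]; simp
    | succ u =>
      have a1 := mul_le_mul_of_nonneg_left (ih u) h0.le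
      have a2 := mul_le_mul_of_nonneg_left (ih (u + 1)) (sub_nonneg.2 h1.le)
      linarith [PU_step (a := a) h0 h1 hE s u]

theorem PU_four (h0 : 0 < q) (h1 : q < 1) (hE : ∀ j s, ‖e j s‖ = 1) (i s : ℕ) {g : ℝ}
    (hg : ‖e (i + 4) (s + 1) + e (i + 4) (s + 2) + e (i + 4) (s + 3) + e (i + 4) (s + 4)‖ ≤ 4 - g) :
    ‖PU q e a (s + 4) (i + 4)‖ ≤ Ex q 4 (fun d => ‖PU q e a s (i + 4 - d)‖)
      - q * (1 - q) ^ 3 * g * ‖PU q e a s (i + 3)‖ := by
  have r : ∀ s u, PU q e a (s + 1) (u + 1)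
      = q * (e (u + 1) (s + 1) * PU q e a s u) + (1 - q) * PU q e a s (u + 1) := fun s u => by rw [PU]
  have hq : 0 ≤ 1 - q := by linarith
  have e0 : PU q e a (s + 4) (i + 4) = (((1 - q) ^ 4 : ℝ) : ℂ) * PU q e a s (i + 4)
      + ((q * (1 - q) ^ 3 : ℝ) : ℂ) * ((e (i + 4) (s + 1) + e (i + 4) (s + 2) + e (i + 4) (s + 3)
        + e (i + 4) (s + 4)) * PU q e a s (i + 3))
      + ((q ^ 2 * (1 - q) ^ 2 : ℝ) : ℂ) * ((e (i + 3) (s + 1) * e (i + 4) (s + 2)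
        + e (i + 3) (s + 1) * e (i + 4) (s + 3) + e (i + 3) (s + 1) * e (i + 4) (s + 4)
        + e (i + 3) (s + 2) * e (i + 4) (s + 3) + e (i + 3) (s + 2) * e (i + 4) (s + 4)
        + e (i + 3) (s + 3) * e (i + 4) (s + 4)) * PU q e a s (i + 2))
      + ((q ^ 3 * (1 - q) : ℝ) : ℂ) * ((e (i + 2) (s + 1) * e (i + 3) (s + 2) * e (i + 4) (s + 3)
        + e (i + 2) (s + 1) * e (i + 3) (s + 2) * e (i + 4) (s + 4)
        + e (i + 2) (s + 1) * e (i + 3) (s + 3) * e (i + 4) (s + 4)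
        + e (i + 2) (s + 2) * e (i + 3) (s + 3) * e (i + 4) (s + 4)) * PU q e a s (i + 1))
      + ((q ^ 4 : ℝ) : ℂ) * ((e (i + 1) (s + 1) * e (i + 2) (s + 2) * e (i + 3) (s + 3)
        * e (i + 4) (s + 4)) * PU q e a s i) := by
    rw [r (s + 3) (i + 3), r (s + 2) (i + 2), r (s + 2) (i + 3), r (s + 1) (i + 1), r (s + 1) (i + 2),
      r (s + 1) (i + 3), r s i, r s (i + 1), r s (i + 2), r s (i + 3)]
    push_cast
    simp only [add_assoc, Nat.reduceAdd]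
    ring
  have nm : ∀ (a : ℝ) (S x : ℂ) (b : ℝ), 0 ≤ a → ‖S‖ ≤ b → ‖(a : ℂ) * (S * x)‖ ≤ a * b * ‖x‖ := by
    intro a S x b ha hS
    rw [norm_mul, norm_mul, Complex.norm_real, Real.norm_of_nonneg ha, mul_assoc]
    gcongr
  have n2 : ∀ a b c d, ‖e a b * e c d‖ ≤ 1 := fun a b c d => by rw [norm_mul, hE, hE, one_mul]
  have n3 : ∀ a b c d f g, ‖e a b * e c d * e f g‖ ≤ 1 := fun a b c d f g => by
    rw [norm_mul, norm_mul, hE, hE, hE]; norm_num
  have n4 : ∀ a b c d f g h j, ‖e a b * e c d * e f g * e h j‖ ≤ 1 := fun a b c d f g h j => by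
    rw [norm_mul, norm_mul, norm_mul, hE, hE, hE, hE]; norm_num
  have n0 : ‖(((1 - q) ^ 4 : ℝ) : ℂ) * PU q e a s (i + 4)‖ ≤ (1 - q) ^ 4 * ‖PU q e a s (i + 4)‖ := by
    rw [norm_mul, Complex.norm_real, Real.norm_of_nonneg (by positivity)]
  rw [e0, Ex_four]
  refine (norm_add_le_of_le (norm_add_le_of_le (norm_add_le_of_le (norm_add_le_of_le n0
    (nm _ _ _ _ (by positivity) hg))
    (nm _ _ _ _ (by positivity) (norm_add_le_of_le (norm_add_le_of_le (norm_add_le_of_le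
      (norm_add_le_of_le (norm_add_le_of_le (n2 ..) (n2 ..)) (n2 ..)) (n2 ..)) (n2 ..)) (n2 ..))))
    (nm _ _ _ _ (by positivity) (norm_add_le_of_le (norm_add_le_of_le (norm_add_le_of_le
      (n3 ..) (n3 ..)) (n3 ..)) (n3 ..))))
    (nm _ _ _ _ (by positivity) (n4 ..))).trans (le_of_eq ?_)
  rw [show i + 4 - 0 = i + 4 from rfl, show i + 4 - 1 = i + 3 from rfl,
    show i + 4 - 2 = i + 2 from rfl, show i + 4 - 3 = i + 1 from rfl, show i + 4 - 4 = i from rfl]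
  ring

theorem FF_split {E : ℕ → ℕ → ℂ} (h0 : 0 < q) (h1 : q < 1) (hE : ∀ j s, ‖E j s‖ = 1) (k a : ℕ) :
    ∀ s ≤ k, FF q E k 0 = ∑ d ∈ range (s + 1),
      PU q (fun u => E (k + 1 + (a + 1) - u)) (a + 1) s (a + 1 + d) * FF q E (k - d) s := by
  intro s
  induction s with
  | zero => intro _; simp [PU]
  | succ s ih =>
    intro hs
    set G := PU q (fun u => E (k + 1 + (a + 1) - u)) (a + 1) with hG
    have e1 : ∑ d ∈ range (s + 1), G s (a + 1 + (d + 1)) * FF q E (k - (d + 1)) (s + 1)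
        + G s (a + 1 + 0) * FF q E (k - 0) (s + 1)
        = ∑ d ∈ range (s + 1), G s (a + 1 + d) * FF q E (k - d) (s + 1) := by
      rw [← sum_range_succ' (fun d => G s (a + 1 + d) * FF q E (k - d) (s + 1)), sum_range_succ,
        hG, PU_high s (a + 1 + (s + 1)) (by omega), zero_mul, add_zero]
    have e2 : G (s + 1) (a + 1 + 0) = (1 - q) * G s (a + 1 + 0) := by
      rw [hG, add_zero, PU, PU_low s a (by omega)]; ring
    have e3 : ∀ d ∈ range (s + 1), G (s + 1) (a + 1 + (d + 1)) * FF q E (k - (d + 1)) (s + 1)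
        = G s (a + 1 + d) * FF q E (k - d) s - (1 - q) * (G s (a + 1 + d) * FF q E (k - d) (s + 1))
          + (1 - q) * (G s (a + 1 + (d + 1)) * FF q E (k - (d + 1)) (s + 1)) := by
      intro d hd
      have := mem_range.1 hd
      have e4 := FF_rec h0 h1 hE (k - (d + 1)) s
      rw [show k - (d + 1) + 1 = k - d by omega] at e4
      rw [e4, hG, show a + 1 + (d + 1) = a + 1 + d + 1 from rfl, PU, show k + 1 + (a + 1) - (a + 1 + d + 1) = k - d by omega]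
      ring
    rw [ih (by omega), sum_range_succ' _ (s + 1), sum_congr rfl e3, sum_add_distrib, sum_sub_distrib,
      ← mul_sum, ← mul_sum, e2, ← e1]
    ring

theorem rr_odd (i s : ℕ) : Odd (rr i (s + 1) : ℤ) := by
  have h1 : (2 : ℤ) ∣ 3 ^ i * rr i (s + 1) + 1 := by
    exact_mod_cast (dvd_pow_self 2 (by omega)).trans (rr_dvd i (s + 1))
  rw [← Int.not_even_iff_odd]
  rintro ⟨t, ht⟩
  rw [ht, ← two_mul, mul_left_comm] at h1
  omega

theorem arr_psi (z : ℤ) {v p S u l i : ℕ} (hv : v ≤ p) (hl : l + 4 ≤ S) :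
    Eqv (psi (2 ^ v * z) 0 (4 + p) i (S - l - 4)) (arr (z * rr (u + i) (S + p)) (S + p - v) u l
      + ((2 ^ v * z : ℤ) : ℝ) / 2 ^ p / (3 ^ i * 2 ^ (S - l))) := by
  obtain ⟨s, rfl⟩ : ∃ s, S = l + (s + 4) := ⟨S - l - 4, by omega⟩
  obtain ⟨w, rfl⟩ := Nat.exists_eq_add_of_le hv
  rw [show l + (s + 4) - l - 4 = s by omega, show l + (s + 4) - l = s + 4 by omega,
    show l + (s + 4) + (v + w) - v = l + (s + 4) + w by omega, psi, zero_add]
  have h1 : (2 : ℤ) ^ (s + (4 + (v + w))) ∣ 3 ^ (u + i) * rr (u + i) (l + (s + 4) + (v + w)) + 1 := by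
    exact_mod_cast (pow_dvd_pow 2 (by omega)).trans (rr_dvd (u + i) _)
  have h2 : (2 : ℤ) ^ (s + (4 + (v + w))) ∣ 3 ^ i * rr i (s + (4 + (v + w))) + 1 := by
    exact_mod_cast rr_dvd i _
  have h3 : (2 : ℤ) ^ (s + (4 + (v + w))) ∣ ((rr i (s + (4 + (v + w))) : ℤ)
      - 3 ^ u * rr (u + i) (l + (s + 4) + (v + w))) * 3 ^ i := by
    refine (dvd_sub h2 h1).trans (dvd_of_eq ?_)
    ring
  obtain ⟨n, hn⟩ := (cop23' _ i).dvd_of_dvd_mul_right h3
  have h4 : (2 : ℝ) ^ (s + (4 + (v + w))) * mm i (s + (4 + (v + w)))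
      = 3 ^ i * rr i (s + (4 + (v + w))) + 1 := by exact_mod_cast mm_spec i _
  have h5 : (rr i (s + (4 + (v + w))) : ℝ) = 3 ^ u * rr (u + i) (l + (s + 4) + (v + w))
      + 2 ^ (s + (4 + (v + w))) * n := by
    have : (((rr i (s + (4 + (v + w))) : ℤ) - 3 ^ u * rr (u + i) (l + (s + 4) + (v + w)) : ℤ) : ℝ)
      = ((2 ^ (s + (4 + (v + w))) * n : ℤ) : ℝ) := by rw [hn]
    push_cast at this
    linarith
  have h6 : (mm i (s + (4 + (v + w))) : ℝ) = (3 ^ i * (3 ^ u * rr (u + i) (l + (s + 4) + (v + w))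
      + 2 ^ (s + (4 + (v + w))) * n) + 1) / 2 ^ (s + (4 + (v + w))) := by
    rw [← h5, ← h4]; field_simp
  refine ⟨2 ^ v * z * n, ?_⟩
  rw [h6, arr]
  push_cast
  field_simp
  ring

theorem rs_of (h0 : 0 < q) (h1 : q < 1) {z : ℤ} (hz : Odd z) {v p S k : ℕ} (hv : v < p) (hS : S ≤ k)
    (hη : |((2 ^ v * z : ℤ) : ℝ) / 2 ^ p| ≤ 1 / 2) {a : ℕ} (ha : 2 * (S + p) + 4 ≤ a) :
    RS q (q * (1 - q) ^ 3 * (1 / 250)) S (S + p - v) (z * rr (k + 1 + a) (S + p))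
      (fun u l => ‖PU q (fun u => EE (2 ^ v * z) p (k + 1 + a - u)) a (S - l) u‖) := by
  have hE : ∀ j s, ‖(fun u => EE (2 ^ v * z) p (k + 1 + a - u)) j s‖ = 1 := fun j s => ee_norm _
  refine ⟨fun u l => norm_nonneg _, fun u l => PU_norm h0 h1 hE (by omega) _ _, fun u l hl => ?_,
    fun u l hu hl hf => ?_, hz.mul ?_, by omega, fun u hu l => ?_⟩
  · rw [show S - l = S - (l + 1) + 1 by omega]
    exact PU_step h0 h1 hE _ _
  · obtain ⟨i, rfl⟩ : ∃ i, u = i + 4 := ⟨u - 4, by omega⟩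
    rcases lt_or_ge (k + a) (i + 4) with h | h
    · rw [PU_high (S - l) (i + 4) (by omega), norm_zero, Ex_four]
      have hq : 0 ≤ 1 - q := by linarith
      have := fun d => norm_nonneg (PU q (fun u => EE (2 ^ v * z) p (k + 1 + a - u)) a (S - (l + 4)) d)
      have a0 := mul_nonneg (show 0 ≤ (1 - q) ^ 4 by positivity) (this (i + 4 - 0))
      have a1 := mul_nonneg (show 0 ≤ q * (1 - q) ^ 3 by positivity) (this (i + 4 - 1))
      have a2 := mul_nonneg (show 0 ≤ 6 * q ^ 2 * (1 - q) ^ 2 by positivity) (this (i + 4 - 2))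
      have a3 := mul_nonneg (show 0 ≤ 4 * q ^ 3 * (1 - q) by positivity) (this (i + 4 - 3))
      have a4 := mul_nonneg (show 0 ≤ q ^ 4 by positivity) (this (i + 4 - 4))
      linarith
    obtain ⟨j, hj⟩ : ∃ j, k + 1 + a = i + 4 + j := ⟨k + 1 + a - (i + 4), by omega⟩
    have b1 := arr_psi z (u := i + 4) (i := j) hv.le hl
    have b2 : |((2 ^ v * z : ℤ) : ℝ) / 2 ^ p / (3 ^ j * 2 ^ (S - l))| ≤ 1 / 56 := by
      rw [abs_div _ (_ * _), abs_of_pos (show (0 : ℝ) < 3 ^ j * 2 ^ (S - l) by positivity),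
        div_le_iff₀ (by positivity)]
      have c1 : (3 : ℝ) ^ 1 ≤ 3 ^ j := pow_le_pow_right₀ (by norm_num) (by omega)
      have c2 : (2 : ℝ) ^ 4 ≤ 2 ^ (S - l) := pow_le_pow_right₀ (by norm_num) (by omega)
      have := mul_le_mul c1 c2 (by positivity) (by positivity)
      linarith
    rw [hj] at hf
    have b3 := ((hf.add_small b2).mono (show (1 : ℝ) / 8 ≤ 1 / 7 - 1 / 56 by norm_num)).of_eqv b1
    have b4 := caseC (a := 0) (z := 2 ^ v * z) (p := p) (u := j) (l := S - l - 4) (by omega)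
      (by rwa [pow_zero, one_mul]) b3
    have := PU_four (a := a) h0 h1 hE i (S - l - 4) (g := 1 / 250) (by
      simp only [EE, show k + 1 + a - (i + 4) = j by omega]
      exact four_phase (by simpa only [dl, add_assoc, pow_zero, one_mul, zero_add] using b4))
    rw [show S - l - 4 + 4 = S - l by omega, Nat.sub_sub] at this
    exact this
  · obtain ⟨t, ht⟩ : ∃ t, S + p = t + 1 := ⟨S + p - 1, by omega⟩
    rw [ht]
    exact rr_odd _ _
  · rw [PU_low _ _ (by omega), norm_zero]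

theorem familyR {μ : ℝ} (hμ : 1 < μ) (k p S : ℕ) (hS : S ≤ k) :
    ∃ (v : ℕ → ℕ) (Z : ℕ → ℤ) (N : ℕ → ℕ → ℕ → ℝ) (a : ℕ), (∀ ξ ∈ Ioo 0 (2 ^ p), v ξ < p ∧
      RS μ⁻¹ (μ⁻¹ * (1 - μ⁻¹) ^ 3 * (1 / 250)) S (S + p - v ξ) (Z ξ) (N ξ) ∧
        ‖coeff μ k p ξ‖ ≤ ∑ d ∈ range (S + 1), N ξ (a + d) 0) ∧
      ∀ b u l : ℕ, l ≤ S → Conf (fun ξ => arr (Z ξ) (S + p - b))
        ((Ioo 0 (2 ^ p)).filter (fun ξ => v ξ = b)) u l 1 := by
  have h0 : 0 < μ⁻¹ := by positivity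
  have h1 : μ⁻¹ < 1 := inv_lt_one_of_one_lt₀ hμ
  have p2 : (0 : ℝ) < 2 ^ p := by positivity
  have ex : ∀ ξ ∈ Ioo 0 (2 ^ p), ∃ (v : ℕ) (z n : ℤ), Odd z ∧ v < p ∧
      2 ^ v * z = ((ξ : ℕ) : ℤ) * 3 ^ k + 2 ^ p * n ∧ |((2 ^ v * z : ℤ) : ℝ) / 2 ^ p| ≤ 1 / 2 := by
    intro ξ hξ
    obtain ⟨x1, x2⟩ := mem_Ioo.1 hξ
    set n := round ((((ξ : ℤ) * 3 ^ k : ℤ) : ℝ) / 2 ^ p) with hn
    have nd : ¬ (2 : ℤ) ^ p ∣ (ξ : ℤ) * 3 ^ k + 2 ^ p * (-n) := by
      intro h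
      have h2 : (2 : ℤ) ^ p ∣ ξ * 3 ^ k := (dvd_add_left (Dvd.intro _ rfl)).1 h
      have h3 := Int.le_of_dvd (by exact_mod_cast x1) ((cop23' p k).dvd_of_dvd_mul_right h2)
      have h4 : 2 ^ p ≤ ξ := by exact_mod_cast h3
      exact absurd x2 (not_lt.2 h4)
    have hη0 : (ξ : ℤ) * 3 ^ k + 2 ^ p * (-n) ≠ 0 := fun h => nd (h ▸ dvd_zero _)
    obtain ⟨a, z, hz, haz⟩ := WfDvdMonoid.max_power_factor hη0 Int.prime_two.irreducible
    refine ⟨a, z, -n, Int.not_even_iff_odd.1 (fun h => hz h.two_dvd), ?_, haz.symm, ?_⟩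
    · by_contra h
      exact nd (haz ▸ (pow_dvd_pow 2 (not_lt.1 h)).mul_right z)
    rw [← haz]
    refine le_trans (le_of_eq ?_) (abs_sub_round ((((ξ : ℤ) * 3 ^ k : ℤ) : ℝ) / 2 ^ p))
    rw [← hn]
    congr 1
    push_cast
    field_simp
    ring
  choose! v z n hz hv hη hs using ex
  obtain ⟨a, ha⟩ : ∃ a, a = 2 * (S + p) + 4 := ⟨_, rfl⟩
  refine ⟨v, fun ξ => z ξ * rr (k + 1 + (a + 1)) (S + p),
    fun ξ u l => ‖PU μ⁻¹ (fun u => EE (2 ^ v ξ * z ξ) p (k + 1 + (a + 1) - u)) (a + 1) (S - l) u‖, a + 1,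
    fun ξ hξ => ⟨hv ξ hξ, rs_of h0 h1 (hz ξ hξ) (hv ξ hξ) hS (hs ξ hξ) (by omega), ?_⟩,
    fun b u l hl => ?_⟩
  · have hE : ∀ j s, ‖EE (2 ^ v ξ * z ξ) p j s‖ = 1 := fun j s => ee_norm _
    rw [coeff_eq hμ k p ξ _ _ (hη ξ hξ), FF_split h0 h1 hE k a S hS]
    refine (norm_sum_le _ _).trans (sum_le_sum (fun d _ => ?_))
    rw [norm_mul]
    exact mul_le_of_le_one_right (norm_nonneg _) (FF_norm h0 h1 hE _ _)
  · set r : ℤ := ((rr (k + 1 + (a + 1)) (S + p) : ℕ) : ℤ) with hr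
    refine ⟨fun ξ => Int.fract (arr (z ξ * r) (S + p - b) u l), fun ξ _ => ⟨⌊arr (z ξ * r) (S + p - b) u l⌋,
      (Int.fract_add_floor _).symm⟩, fun i hi j hj hij => ?_, fun i _ j _ => ?_⟩
    · obtain ⟨i1, i2⟩ := mem_filter.1 hi
      obtain ⟨j1, j2⟩ := mem_filter.1 hj
      obtain ⟨m, hm⟩ := Int.fract_eq_fract.1 hij
      have vb : b < p := i2 ▸ hv i i1
      have ei := hη i i1
      have ej := hη j j1
      rw [i2] at ei
      rw [j2] at ej
      have ai := arr_int (z i * r) u (show l ≤ S + p - b by omega)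
      have aj := arr_int (z j * r) u (show l ≤ S + p - b by omega)
      have d1 : (2 : ℤ) ^ (S + p - b - l) ∣ (z i - z j) * (r * 3 ^ u) := by
        refine ⟨m, ?_⟩
        have : (((z i - z j) * (r * 3 ^ u) : ℤ) : ℝ) = ((2 ^ (S + p - b - l) * m : ℤ) : ℝ) := by
          rw [Int.cast_mul _ m, ← hm, mul_sub]
          push_cast at ai aj ⊢
          linarith
        exact_mod_cast this
      have d0 : Odd (r * 3 ^ u) := by
        obtain ⟨t, ht⟩ : ∃ t, S + p = t + 1 := ⟨S + p - 1, by omega⟩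
        rw [hr, ht]
        exact (rr_odd _ _).mul (Odd.pow (by decide))
      have d2 : (2 : ℤ) ^ (p - b) ∣ z i - z j :=
        (((Int.prime_two.coprime_iff_not_dvd).2 (fun h => Int.not_even_iff_odd.2 d0
          (even_iff_two_dvd.2 h))).pow_left).dvd_of_dvd_mul_right ((pow_dvd_pow 2 (by omega)).trans d1)
      have d3 : (2 : ℤ) ^ p ∣ 2 ^ b * z i - 2 ^ b * z j := by
        rw [← mul_sub]
        refine (dvd_of_eq ?_).trans (mul_dvd_mul_left _ d2)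
        rw [← pow_add]; congr 1; omega
      have d5 : (2 : ℤ) ^ p ∣ ((i : ℤ) - j) * 3 ^ k := by
        obtain ⟨t, ht⟩ := d3
        exact ⟨t + n j - n i, by linarith⟩
      have d6 := (cop23' p k).dvd_of_dvd_mul_right d5
      have d7 : (i : ℤ) - j = 0 := by
        apply Int.eq_zero_of_abs_lt_dvd d6
        have i3 : (i : ℤ) < 2 ^ p := by exact_mod_cast (mem_Ioo.1 i1).2
        have j3 : (j : ℤ) < 2 ^ p := by exact_mod_cast (mem_Ioo.1 j1).2
        have i4 : (0 : ℤ) ≤ i := Nat.cast_nonneg _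
        have j4 : (0 : ℤ) ≤ j := Nat.cast_nonneg _
        rw [abs_lt]
        constructor <;> linarith
      exact_mod_cast sub_eq_zero.1 d7
    · have a1 := Int.fract_nonneg (arr (z i * r) (S + p - b) u l)
      have a2 := Int.fract_nonneg (arr (z j * r) (S + p - b) u l)
      have a3 := Int.fract_lt_one (arr (z i * r) (S + p - b) u l)
      have a4 := Int.fract_lt_one (arr (z j * r) (S + p - b) u l)
      rw [abs_le]
      constructor <;> linarith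

end Pool.Agent.P.MP_d124bf_nt
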