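import Pool.Agent.P.MP_d124bf_nt.RRec
import Pool.Agent.P.MP_d124bf_nt.Chain

/-!
One block for a family of reversed systems, and the chain of blocks.
-/

namespace Pool.Agent.P.MP_d124bf_nt

open Finset

variable {q c : ℝ}

theorem RS.le0 {S P : ℕ} {Z : ℤ} {N : ℕ → ℕ → ℝ} (X : RS q c S P Z N) (h0 : 0 ≤ q) (h1 : q ≤ 1)
    {E F R l0 : ℕ} {B : ℝ} (hR : R ≤ S) (hEF : E ≤ F) (hz : ∀ u, E ≤ u → ∀ l, R ≤ l → N u l ≤ B)
    (hB : ∀ u, E ≤ u → u ≤ F → ∀ l, l0 ≤ l → N u l ≤ B) :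
    ∀ h u l, R ≤ l + h → E ≤ u → l0 ≤ l → N u l ≤ B := by
  intro h
  induction h with
  | zero => intro u l hl hu _; exact hz u hu l hl
  | succ h ih =>
    intro u l hl hu hl0
    rcases le_or_gt R l with h2 | h2
    · exact hz u hu l h2
    rcases le_or_gt u F with h3 | h3
    · exact hB u hu h3 l hl0
    obtain ⟨u, rfl⟩ : ∃ u', u = u' + 1 := ⟨u - 1, by omega⟩
    have a0 := X.unit u l (by omega)
    have a1 := mul_le_mul_of_nonneg_left (ih u (l + 1) (by omega) (by omega) (by omega)) h0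
    have a2 := mul_le_mul_of_nonneg_left (ih (u + 1) (l + 1) (by omega) hu (by omega))
      (sub_nonneg.2 h1)
    linarith

theorem blockR (h0 : 0 < q) (h1 : q < 1) (hq : Real.log 2 < q * Real.log 3) (hc0 : 0 < c)
    (hc : c ≤ 4 * q * (1 - q) ^ 3) (hc1 : c ≤ 1) :
    ∃ n0 m0 m1 T1 : ℕ, 1 ≤ n0 ∧ 2 ≤ m0 ∧ 1 ≤ T1 ∧ ∀ (ι : Type) (Z : ι → ℤ) (N : ι → ℕ → ℕ → ℝ)
      (T : Finset ι) (S P : ℕ), S ≤ P → (∀ i ∈ T, RS q c S P (Z i) (N i)) → ∀ u l a : ℕ, l + a = P →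
      m1 * (P - S) + T1 ≤ a / m0 → Conf (fun i => arr (Z i) P) T u l 1 →
      ∃ U : ι → ℝ, ∃ A : Finset (ℕ × ℕ), (∀ i ∈ T, 0 ≤ U i ∧ U i ≤ 1) ∧ ∑ i ∈ T, U i ^ n0 ≤ 12 ∧
        (∀ s ∈ A, s.2 + a / m0 ≤ P) ∧ A.card ≤ a ^ 2 ∧
        ∀ i ∈ T, N i u l ≤ U i * ∑ s ∈ A, N i s.1 s.2 + 4 * (1 / 2) ^ (a / m0) := by
  obtain ⟨x, y, b, hx, hx3, y0, y2, b0, b1, hb, hyb, hxy⟩ := exists_xb h0 h1 hq
  have x0 : 0 < x := by linarith
  obtain ⟨m2, hm2⟩ := small_pow (a := y * b) (by positivity) hyb (e := b / 6) (by positivity)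
  obtain ⟨m0, hm0⟩ : ∃ m0, m0 = m2 + 2 := ⟨_, rfl⟩
  have hm := hm2 m0 (by omega)
  have m2' : 2 ≤ m0 := by omega
  obtain ⟨n0, T1, m, hn0, H⟩ := flatR h0 h1 hq hc0 hc hc1 (2 * m0) (by omega)
  refine ⟨n0, m0, m + 1, T1 + 1, hn0, m2', by omega, fun ι Z N T S P hSP hS u l a ha ht hC => ?_⟩
  obtain ⟨t, htu⟩ : ∃ t, t = a / m0 := ⟨_, rfl⟩
  rw [← htu] at ht ⊢
  rcases lt_or_ge u (2 * P + 4) with hu | hu
  · refine ⟨fun _ => 0, ∅, fun i _ => by norm_num, ?_, by simp, by simp, fun i hi => ?_⟩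
    · rw [sum_eq_zero (fun i _ => zero_pow (by omega))]; norm_num
    · rw [(hS i hi).pad u hu l]; positivity
  have u1 : m0 * t ≤ a := by rw [htu]; exact Nat.mul_div_le a m0
  have u2 : a < m0 * (t + 1) := by rw [htu]; exact Nat.lt_mul_div_succ a (by omega)
  have u3 : 2 * t ≤ a := (Nat.mul_le_mul_right t m2').trans u1
  have u4 : a ≤ 2 * m0 * t := by
    have : m0 * (t + 1) ≤ m0 * (2 * t) := Nat.mul_le_mul_left _ (by omega)
    nlinarith
  have u5 : P - S ≤ (m + 1) * (P - S) := Nat.le_mul_of_pos_left _ (by omega)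
  obtain ⟨n, r2, r3, r4⟩ : ∃ n : ℕ, 2 ^ a ≤ 3 ^ (n + 1) ∧ 3 ^ n ≤ 2 ^ a ∧ n + 1 ≤ a := by
    have c1 : 3 ^ Nat.log 3 (2 ^ a) ≤ 2 ^ a := Nat.pow_log_le_self 3 (by positivity)
    have c2 : 2 ^ a < 3 ^ (Nat.log 3 (2 ^ a) + 1) := Nat.lt_pow_succ_log_self (by norm_num) _
    refine ⟨Nat.log 3 (2 ^ a), c2.le, c1, ?_⟩
    refine (Nat.pow_lt_pow_iff_right (a := 3) (by norm_num)).1 (lt_of_le_of_lt c1 ?_)
    exact Nat.pow_lt_pow_left (by norm_num) (by omega)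
  have r6 := hxy _ _ r3
  have r7 : (2 : ℝ) ^ a ≤ 3 ^ (n + 1) := by exact_mod_cast r2
  clear r2 r3 hxy
  obtain ⟨E, rfl⟩ : ∃ E, u = E + t + (n + 1) := ⟨u - (n + 1) - t, by omega⟩
  obtain ⟨e, rfl⟩ : ∃ e, a = e + t := ⟨a - t, by omega⟩
  obtain ⟨R, hR⟩ : ∃ R, R = l + e := ⟨_, rfl⟩
  set W : ℕ → ℕ → ℝ := fun u' l' => x ^ u' * b ^ R / (x ^ E * b ^ l') with hW
  have W0 : ∀ u' l', 0 ≤ W u' l' := fun u' l' => by simp only [hW]; positivity
  have W1 : ∀ u' l', W (u' + 1) l' = q * W u' (l' + 1) + (1 - q) * W (u' + 1) (l' + 1) := by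
    intro u' l'
    simp only [hW, pow_succ]
    field_simp
    linarith
  have W2 : ∀ u', E ≤ u' → ∀ l', R ≤ l' → 1 ≤ W u' l' := by
    intro u' hu l' hl
    simp only [hW]
    rw [one_le_div (by positivity)]
    exact mul_le_mul (pow_le_pow_right₀ hx.le hu) (pow_le_pow_of_le_one b0.le b1 hl) (by positivity)
      (by positivity)
  have W3 : W (E + t + (n + 1)) l ≤ 3 * (1 / 2) ^ t := by
    have e1 : W (E + t + (n + 1)) l = x * (x ^ t * ((x ^ n / y ^ (e + t)) * ((y * b) ^ (e + t) / b ^ t))) := by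
      simp only [hW]
      rw [hR, mul_pow]
      field_simp
      ring
    have e2 : x ^ t ≤ 3 ^ t := pow_le_pow_left₀ x0.le hx3 _
    have e3 : (y * b) ^ (e + t) / b ^ t ≤ (1 / 6) ^ t := by
      rw [div_le_iff₀ (by positivity), ← mul_pow]
      refine (pow_le_pow_of_le_one (by positivity) hyb.le u1).trans ?_
      rw [pow_mul]
      exact pow_le_pow_left₀ (by positivity) (by linarith) _
    have e4 : x ^ n / y ^ (e + t) ≤ 1 := (div_le_one (by positivity)).2 r6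
    rw [e1]
    refine (mul_le_mul hx3 (mul_le_mul e2 (mul_le_mul e4 e3 (by positivity) (by positivity))
      (by positivity) (by positivity)) (by positivity) (by positivity)).trans (le_of_eq ?_)
    rw [one_mul, ← mul_pow]
    norm_num
  set A := Icc E (E + t) ×ˢ Icc l R with hA
  set N' : ι → ℕ → ℕ → ℝ := fun i u l => max (N i u l - W u l) 0 with hN'
  set B : ι → ℝ := fun i => ∑ s ∈ A, N i s.1 s.2 + (1 / 2) ^ t with hB
  have S' : ∀ i ∈ T, RS q c S P (Z i) (N' i) := fun i hi => (hS i hi).trunc h0.le h1.le hc W0 W1 hc0.le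
  have z : ∀ i ∈ T, ∀ u', E ≤ u' → ∀ l', R ≤ l' → N' i u' l' = 0 := fun i hi u' hu l' hl =>
    max_eq_right (by linarith [(hS i hi).le1 u' l', W2 u' hu l' hl])
  have B1 : ∀ i ∈ T, 0 ≤ ∑ s ∈ A, N i s.1 s.2 := fun i hi => sum_nonneg (fun s _ => (hS i hi).nn _ _)
  have B0 : ∀ i ∈ T, 0 < B i := fun i hi => add_pos_of_nonneg_of_pos (B1 i hi) (by positivity)
  have B2 : ∀ i ∈ T, ∀ u', E ≤ u' → u' ≤ E + t → ∀ l', l ≤ l' → N' i u' l' ≤ B i := by
    intro i hi u' hu hu' l' hl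
    rcases le_total R l' with h | h
    · rw [z i hi u' hu l' h]; exact (B0 i hi).le
    · have c1 : N i u' l' ≤ ∑ s ∈ A, N i s.1 s.2 :=
        single_le_sum (f := fun s : ℕ × ℕ => N i s.1 s.2) (a := (u', l')) (fun s _ => (hS i hi).nn _ _)
          (mem_product.2 ⟨mem_Icc.2 ⟨hu, hu'⟩, mem_Icc.2 ⟨hl, h⟩⟩)
      have c2 : (0 : ℝ) < (1 / 2) ^ t := by positivity
      refine max_le ?_ (B0 i hi).le
      simp only [hB]
      linarith [W0 u' l']
  have U1 : ∀ i ∈ T, N' i (E + t + (n + 1)) l / B i ≤ 1 := fun i hi => (div_le_one (B0 i hi)).2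
    ((S' i hi).le0 h0.le h1.le (R := R) (by omega) (Nat.le_add_right E t)
      (fun u' hu l' hl => (z i hi u' hu l' hl).trans_le (B0 i hi).le) (B2 i hi) R _ _ (by omega)
      (by omega) le_rfl)
  refine ⟨fun i => N' i (E + t + (n + 1)) l / B i, A,
    fun i hi => ⟨div_nonneg ((S' i hi).nn _ _) (B0 i hi).le, U1 i hi⟩,
    ?_, fun s hs => ?_, ?_, fun i hi => ?_⟩
  · refine (H ι Z N' B T S P (E + t + (n + 1)) E t l R S' z B0 B2 (by omega) (by omega) (by omega) hSP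
      (by omega) (E + t + (n + 1) + R) _ l (by omega) (by omega) le_rfl le_rfl T
      Subset.rfl 1 (by norm_num) hC ?_).trans (by norm_num)
    rw [← ha, pow_add 2 l, pow_add 3 (E + t)]
    have := mul_le_mul_of_nonneg_left r7 (show (0 : ℝ) ≤ 2 ^ l * 3 ^ (E + t) by positivity)
    linarith
  · have := (mem_Icc.1 (mem_product.1 hs).2).2
    omega
  · rw [hA, card_product, Nat.card_Icc, Nat.card_Icc, sq]
    exact Nat.mul_le_mul (by omega) (by omega)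
  · have c1 : N i (E + t + (n + 1)) l - W (E + t + (n + 1)) l ≤ N' i (E + t + (n + 1)) l :=
      le_max_left _ _
    have c2 : N' i (E + t + (n + 1)) l = N' i (E + t + (n + 1)) l / B i * ∑ s ∈ A, N i s.1 s.2
        + N' i (E + t + (n + 1)) l / B i * (1 / 2) ^ t := by
      rw [← mul_add]
      exact (div_mul_cancel₀ _ (B0 i hi).ne').symm
    have c3 := mul_le_mul_of_nonneg_right (U1 i hi) (show (0 : ℝ) ≤ (1 / 2) ^ t by positivity)
    linarith

theorem chainR (h0 : 0 < q) (h1 : q < 1) (hq : Real.log 2 < q * Real.log 3) (hc0 : 0 < c)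
    (hc : c ≤ 4 * q * (1 - q) ^ 3) (hc1 : c ≤ 1) :
    ∃ n M m1 T1 : ℕ, 1 ≤ M ∧ ∀ (ι : Type) (Z : ι → ℤ) (N : ι → ℕ → ℕ → ℝ) (T : Finset ι) (S P : ℕ),
      S ≤ P → (∀ i ∈ T, RS q c S P (Z i) (N i)) → ∀ (s : ℕ) (ε : ℝ), m1 * (P - S) + T1 ≤ s → 0 ≤ ε →
      (∀ u l, l + s ≤ P → Conf (fun i => arr (Z i) P) T u l 1) →
      (∀ i ∈ T, ∀ u l, l + s ≤ P → N i u l ≤ ε) → ∀ u l, l + M * s ≤ P →
        ∑ i ∈ T, N i u l ≤ ((P : ℝ) ^ 2) ^ n * (n * (12 * ε + T.card * (4 * (1 / 2) ^ s))) := by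
  obtain ⟨n0, m0, m1, T1, hn0, hm0, hT1, H⟩ := blockR h0 h1 hq hc0 hc hc1
  refine ⟨n0, m0 ^ n0, m1, T1, Nat.one_le_pow _ _ (by omega),
    fun ι Z N T S P hSP hS s ε hs hε hC hN => ?_⟩
  have key : ∀ b m : ℕ, m + b = n0 → ∀ w : Fin m → ι → ℝ, (∀ j, ∀ i ∈ T, 0 ≤ w j i ∧ w j i ≤ 1) →
      (∀ j, ∑ i ∈ T, w j i ^ n0 ≤ 12) → ∀ u l, l + m0 ^ b * s ≤ P →
      ∑ i ∈ T, (∏ j, w j i) * N i u l
        ≤ ((P : ℝ) ^ 2) ^ b * (n0 * (12 * ε) + b * (T.card * (4 * (1 / 2) ^ s))) := by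
    intro b
    induction b with
    | zero =>
      intro m hm w hw hw' u l hu
      obtain rfl : m = n0 := hm
      rw [pow_zero, one_mul] at hu
      refine (sum_le_sum (fun i hi => mul_le_mul (prod_le_sum_pow hn0 (fun j => w j i)
        (fun j => (hw j i hi).1)) (hN i hi u l hu) ((hS i hi).nn _ _)
        (sum_nonneg (fun j _ => pow_nonneg (hw j i hi).1 _)))).trans ?_
      rw [← sum_mul, sum_comm]
      have := sum_le_card_nsmul univ _ _ (fun j _ => hw' j)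
      rw [card_univ, Fintype.card_fin, nsmul_eq_mul] at this
      have := mul_le_mul_of_nonneg_right this hε
      simp only [pow_zero, Nat.cast_zero]
      linarith
    | succ b ih =>
      intro m hm w hw hw' u l hu
      obtain ⟨a, ha⟩ : ∃ a, l + a = P := ⟨P - l, by omega⟩
      have t1 : m0 ^ b * s ≤ a / m0 := by
        rw [Nat.le_div_iff_mul_le (by omega)]
        refine le_trans (le_of_eq ?_) (show m0 ^ (b + 1) * s ≤ a by omega)
        ring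
      have t2 : s ≤ a / m0 := (Nat.le_mul_of_pos_left _ (by positivity)).trans t1
      have t3 : s ≤ a := t2.trans (Nat.div_le_self _ _)
      obtain ⟨U, A, u1, u2, u3, u4, u5⟩ := H ι Z N T S P hSP hS u l a ha (hs.trans t2)
        (hC u l (by omega))
      have p0 : ∀ i ∈ T, 0 ≤ ∏ j, w j i := fun i hi => prod_nonneg (fun j _ => (hw j i hi).1)
      have p1 : ∀ i ∈ T, ∏ j, w j i ≤ 1 := fun i hi =>
        prod_le_one (fun j _ => (hw j i hi).1) (fun j _ => (hw j i hi).2)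
      have e1 : (4 : ℝ) * (1 / 2) ^ (a / m0) ≤ 4 * (1 / 2) ^ s :=
        mul_le_mul_of_nonneg_left (pow_le_pow_of_le_one (by norm_num) (by norm_num) t2) (by norm_num)
      have s1 : ∀ i ∈ T, (∏ j, w j i) * N i u l ≤
          ∑ z ∈ A, (∏ j, (Fin.cons U w : Fin (m + 1) → ι → ℝ) j i) * N i z.1 z.2 + 4 * (1 / 2) ^ s := by
        intro i hi
        refine (mul_le_mul_of_nonneg_left (u5 i hi) (p0 i hi)).trans ?_
        rw [mul_add, ← mul_sum, Fin.prod_univ_succ]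
        simp only [Fin.cons_zero, Fin.cons_succ]
        have := mul_le_mul (p1 i hi) e1 (by positivity) (by norm_num)
        linarith
      refine (sum_le_sum s1).trans ?_
      rw [sum_add_distrib, sum_comm, sum_const, nsmul_eq_mul]
      have s2 := sum_le_card_nsmul A _ _ (fun z hz => ih (m + 1) (by omega) (Fin.cons U w)
        (fun j => Fin.cases u1 hw j) (fun j => Fin.cases u2 hw' j) z.1 z.2
        (by have := u3 z hz; omega))
      rw [nsmul_eq_mul] at s2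
      have k1 : (1 : ℝ) ≤ P := by exact_mod_cast (show 1 ≤ P by omega)
      have s3 : (A.card : ℝ) ≤ (P : ℝ) ^ 2 := by
        exact_mod_cast u4.trans (Nat.pow_le_pow_left (by omega) 2)
      have s4 := s2.trans (mul_le_mul_of_nonneg_right s3 (by positivity))
      have s5 : (1 : ℝ) ≤ ((P : ℝ) ^ 2) ^ (b + 1) := one_le_pow₀ (one_le_pow₀ k1)
      have s6 := mul_le_mul_of_nonneg_right s5
        (show (0 : ℝ) ≤ T.card * (4 * (1 / 2) ^ s) by positivity)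
      push_cast
      rw [pow_succ ((P : ℝ) ^ 2)] at s6 ⊢
      linarith
  intro u l hu
  have := key n0 0 (by omega) (fun j => j.elim0) (fun j => j.elim0) (fun j => j.elim0) u l hu
  simp only [univ_eq_empty, prod_empty, one_mul] at this
  exact this.trans (le_of_eq (by ring))

end Pool.Agent.P.MP_d124bf_nt
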