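import Pool.Agent.P.MP_d124bf_nt.RBridge

/-!
The sum of the coefficients for a small mean, and the two ranges of the mean together.
-/

namespace Pool.Agent.P.MP_d124bf_nt

open Finset

theorem asympR {γ β : ℝ} (hγ : 0 < γ) (hβ : 0 < β) (A : ℕ) : ∃ k0 : ℕ, ∀ k : ℕ, k0 ≤ k → ∀ D : ℝ,
    2 * (A + 4) / γ ≤ D → D ≤ Real.log k →
    (k : ℝ) ^ A * (12 * Real.exp (-γ * Real.log k * D) + 4 * Real.exp (-(β * k)))
      ≤ Real.exp (-(γ / 2) * Real.log k * D) := by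
  obtain ⟨k1, hk1⟩ := exists_nat_ge (Real.exp (1 + 6 * (γ + A + 4) / β))
  refine ⟨k1, fun k hk D hD hD' => ?_⟩
  have k3 : (k1 : ℝ) ≤ k := by exact_mod_cast hk
  have k0 : (0 : ℝ) < k := lt_of_lt_of_le (Real.exp_pos _) (hk1.trans k3)
  set L := Real.log k with hL
  have eL : Real.exp L = k := Real.exp_log k0
  have L1 : 1 + 6 * (γ + A + 4) / β ≤ L := by
    rw [← Real.exp_le_exp, eL]; linarith
  have g2 : 0 < 6 * (γ + A + 4) / β := by positivity
  have L3 : 2 * (A + 4) ≤ D * γ := by rwa [← div_le_iff₀ hγ]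
  have L2 : 6 * (γ + A + 4) ≤ L * β := by rw [← div_le_iff₀ hβ]; linarith
  have L4 : 1 ≤ L := by linarith
  have A0 : (0 : ℝ) ≤ A := Nat.cast_nonneg A
  have e4 : (k : ℝ) ^ A = Real.exp (A * L) := by rw [Real.exp_nat_mul, eL]
  have four : (24 : ℝ) ≤ Real.exp 4 := by
    have := Real.exp_one_gt_d9
    calc (24 : ℝ) ≤ 2.5 ^ 4 := by norm_num
      _ ≤ Real.exp 1 ^ 4 := pow_le_pow_left₀ (by norm_num) (by linarith) 4
      _ = _ := by rw [← Real.exp_nat_mul]; norm_num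
  have b4 : L ^ 3 / 6 ≤ k := by
    have := Real.pow_div_factorial_le_exp L (by linarith) 3
    rw [eL] at this
    simpa [Nat.factorial] using this
  have c2 : L ≤ L ^ 2 := by nlinarith
  have A1 : 24 * ((k : ℝ) ^ A * Real.exp (-γ * L * D)) ≤ Real.exp (-(γ / 2) * L * D) := by
    refine (mul_le_mul_of_nonneg_right four (by positivity)).trans ?_
    rw [e4, ← Real.exp_add, ← Real.exp_add, Real.exp_le_exp]
    have a3 := mul_le_mul_of_nonneg_right L3 (show 0 ≤ L by linarith)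
    linarith
  have A2 : 24 * ((k : ℝ) ^ A * Real.exp (-(β * k))) ≤ Real.exp (-(γ / 2) * L * D) := by
    refine (mul_le_mul_of_nonneg_right four (by positivity)).trans ?_
    rw [e4, ← Real.exp_add, ← Real.exp_add, Real.exp_le_exp]
    have a1 := mul_le_mul_of_nonneg_right L2 (show 0 ≤ L ^ 2 by positivity)
    have a2 := mul_le_mul_of_nonneg_left b4 hβ.le
    have a3 := mul_le_mul_of_nonneg_left c2 A0
    have a4 : 0 ≤ γ * L ^ 2 := by positivity
    have a5 := mul_le_mul_of_nonneg_left hD' (show 0 ≤ γ * L by positivity)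
    linarith
  have := Real.exp_pos (-(γ / 2) * L * D)
  linarith

theorem quasiR {q c : ℝ} (h0 : 0 < q) (h1 : q < 1) (hq : Real.log 2 < q * Real.log 3) (hc0 : 0 < c)
    (hc : c ≤ 4 * q * (1 - q) ^ 3) (hc1 : c ≤ 1) (M : ℕ) (hM : 1 ≤ M) :
    ∃ γ : ℝ, 0 < γ ∧ ∃ K k0 : ℕ, ∀ k p s : ℕ, k0 ≤ k → 1 ≤ p → K * p ≤ k → K ≤ Real.log (k / p) →
      k ≤ M * s → ∀ (S P : ℕ) (Z : ℤ) (N : ℕ → ℕ → ℝ), RS q c S P Z N → P ≤ S + p → ∀ u l, l + s ≤ P →
        N u l ≤ Real.exp (-γ * Real.log k * Real.log (k / p)) := by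
  obtain ⟨m, W, hm, H⟩ := scalesR h0 h1 hq hc0 hc hc1
  set σ : ℝ := 1 + c / 30 with hσ
  have g0 : 0 < Real.log σ := Real.log_pos (by rw [hσ]; linarith)
  have σ0 : 0 < σ := by rw [hσ]; linarith
  set g := Real.log σ with hg
  have lm : 0 < Real.log m := Real.log_pos (by exact_mod_cast hm)
  have lB : 0 < Real.log 26244 := Real.log_pos (by norm_num)
  obtain ⟨n1, hn1⟩ := exists_nat_ge (4 + 36 / g)
  obtain ⟨C, hC⟩ : ∃ C, C = M ^ 2 * (2 + 2 * W ^ 2) := ⟨_, rfl⟩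
  have C0 : 1 ≤ C := by rw [hC]; exact Nat.mul_pos (by positivity) (by omega)
  refine ⟨g / (2 * Real.log 26244) / (4 * Real.log m), by positivity, 2 * (C * m ^ 2), 26244 ^ n1,
    fun k p s hk hp hK hD hs S P Z N X hP u l hl => ?_⟩
  have k0 : 1 ≤ k := (Nat.one_le_pow _ _ (by norm_num)).trans hk
  obtain ⟨n, hn⟩ : ∃ n, n = Nat.log 26244 k := ⟨_, rfl⟩
  have n0 : n1 ≤ n := hn ▸ Nat.le_log_of_pow_le (by norm_num) hk
  have n2 : 26244 ^ n ≤ k := hn ▸ Nat.pow_log_le_self _ (by omega)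
  have n3 : k < 26244 ^ (n + 1) := hn ▸ Nat.lt_pow_succ_log_self (by norm_num) _
  have n4 : 4 + 36 / g ≤ n := hn1.trans (by exact_mod_cast n0)
  have n5 : 0 < 36 / g := by positivity
  have n6 : 4 ≤ n := by exact_mod_cast (show ((4 : ℕ) : ℝ) ≤ n by push_cast; linarith)
  obtain ⟨V, hV⟩ : ∃ V, V = n * (W * 81 ^ n) := ⟨_, rfl⟩
  have m1 : 1 ≤ m ^ 2 := Nat.one_le_pow _ _ (by omega)
  have c1 : C ≤ 2 * (C * m ^ 2) := by nlinarith
  have pk : p ≤ k := le_trans (Nat.le_mul_of_pos_left _ (by omega)) hK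
  have v1 : V ^ 2 ≤ W ^ 2 * k := by
    have a1 : V ≤ W * 162 ^ n := by
      rw [hV, show 162 = 2 * 81 by norm_num, mul_pow, mul_left_comm]
      exact Nat.mul_le_mul_left _ (Nat.mul_le_mul_right _ Nat.lt_two_pow_self.le)
    refine (Nat.pow_le_pow_left a1 2).trans ?_
    rw [mul_pow, ← pow_mul, mul_comm n, pow_mul]
    exact Nat.mul_le_mul_left _ n2
  have v2 : (M * (p + V)) ^ 2 ≤ C * (p * k) := by
    have a1 : (p + V) ^ 2 ≤ 2 * p ^ 2 + 2 * V ^ 2 := by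
      zify
      nlinarith [sq_nonneg ((p : ℤ) - V)]
    have a2 : p ^ 2 ≤ p * k := by rw [sq]; exact Nat.mul_le_mul_left _ pk
    have a3 : W ^ 2 * k ≤ W ^ 2 * (p * k) := Nat.mul_le_mul_left _ (Nat.le_mul_of_pos_left _ hp)
    rw [mul_pow, hC, mul_assoc]
    refine Nat.mul_le_mul_left _ ?_
    rw [add_mul, mul_assoc 2 (W ^ 2)]
    omega
  have v3 : p + V ≤ s := by
    refine Nat.le_of_mul_le_mul_left (le_trans ?_ hs) hM
    refine (Nat.pow_le_pow_iff_left (n := 2) (by norm_num)).1 (v2.trans ?_)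
    rw [sq, ← mul_assoc]
    exact Nat.mul_le_mul_right _ ((Nat.mul_le_mul_right _ c1).trans hK)
  obtain ⟨j, hj⟩ : ∃ j, j = Nat.log m (s / (p + V)) := ⟨_, rfl⟩
  have j1 : (p + V) * m ^ j ≤ s := by
    have a1 : m ^ j ≤ s / (p + V) := hj ▸ Nat.pow_log_le_self _ (Nat.div_pos v3 (by omega)).ne'
    exact (Nat.mul_le_mul_left _ a1).trans (Nat.mul_div_le _ _)
  have j2 : s < m ^ (j + 1) * (p + V) := by
    rw [← Nat.div_lt_iff_lt_mul (by omega), hj]
    exact Nat.lt_pow_succ_log_self (by omega) _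
  have j3 : k ≤ C * m ^ 2 * m ^ (2 * j) * p := by
    refine Nat.le_of_mul_le_mul_right (c := k) ?_ k0
    have a1 : k ≤ m ^ (j + 1) * (M * (p + V)) := by
      rw [mul_left_comm]
      exact hs.trans (Nat.mul_le_mul_left _ j2.le)
    have a2 := Nat.pow_le_pow_left a1 2
    rw [mul_pow] at a2
    rw [← sq]
    refine a2.trans ((Nat.mul_le_mul_left _ v2).trans (le_of_eq ?_))
    ring
  have p0 : (0 : ℝ) < p := by exact_mod_cast hp
  have k1 : (1 : ℝ) ≤ k := by exact_mod_cast k0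
  have j4 : Real.log (k / p) ≤ 4 * Real.log m * j := by
    have a0 : (0 : ℝ) < (C * m ^ 2 : ℕ) := by exact_mod_cast (show 0 < C * m ^ 2 by omega)
    have a1 : (k : ℝ) / p ≤ (C * m ^ 2 : ℕ) * (m : ℝ) ^ (2 * j) := by
      rw [div_le_iff₀ p0]; exact_mod_cast j3
    have a2 := Real.log_le_log (by positivity) a1
    rw [Real.log_mul a0.ne' (by positivity), Real.log_pow] at a2
    have a3 := Real.log_le_sub_one_of_pos a0
    rw [Nat.cast_mul 2] at hD a2
    push_cast at hD a2 a3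
    linarith
  have e1 : 18 / σ ^ n ≤ Real.exp (-(g / (2 * Real.log 26244) * Real.log k)) := by
    have a1 : σ ^ n = Real.exp (n * g) := by rw [Real.exp_nat_mul, hg, Real.exp_log σ0]
    have a2 : Real.log k ≤ (n + 1) * Real.log 26244 := by
      have : (k : ℝ) ≤ 26244 ^ (n + 1) := by exact_mod_cast n3.le
      have := Real.log_le_log (by linarith) this
      rwa [Real.log_pow, Nat.cast_add_one] at this
    have a3 : g / (2 * Real.log 26244) * Real.log k ≤ g / 2 * (n + 1) := by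
      refine (mul_le_mul_of_nonneg_left a2 (by positivity)).trans (le_of_eq ?_)
      field_simp
    have a4 : 36 ≤ (n - 4) * g := by rw [← div_le_iff₀ g0]; linarith
    rw [a1, div_le_iff₀ (Real.exp_pos _), ← Real.exp_add]
    refine le_trans ?_ (Real.add_one_le_exp _)
    nlinarith
  refine (H S P Z N X n (p + V) n6 (by omega) (by omega) j u l (by omega)).trans
    ((pow_le_pow_left₀ (by positivity) e1 j).trans ?_)
  rw [← Real.exp_nat_mul, Real.exp_le_exp]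
  have a1 : 0 ≤ g / (2 * Real.log 26244) / (4 * Real.log m) * Real.log k :=
    mul_nonneg (by positivity) (Real.log_nonneg k1)
  have a2 := mul_le_mul_of_nonneg_left j4 a1
  have a3 : g / (2 * Real.log 26244) / (4 * Real.log m) * Real.log k * (4 * Real.log m * j)
      = j * (g / (2 * Real.log 26244) * Real.log k) := by field_simp
  linarith

theorem sum_boundR {μ : ℝ} (hμ1 : 1 < μ) (hμ : μ < Real.logb 2 3) :
    ∃ c₀ : ℝ, 0 < c₀ ∧ ∃ c : ℝ, 0 < c ∧ ∃ k₀ : ℕ, ∀ k p : ℕ, k₀ ≤ k → 1 ≤ p → (p : ℝ) ≤ c₀ * k →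
      ∑ ξ ∈ Ioo (0 : ℕ) (2 ^ p), ‖coeff μ k p (ξ : ℤ)‖
        ≤ Real.exp (-c * Real.log k * Real.log (k / p)) := by
  have l2 : 0 < Real.log 2 := Real.log_pos (by norm_num)
  rw [Real.logb, lt_div_iff₀ l2] at hμ
  have h0 : 0 < μ⁻¹ := by positivity
  have h1 : μ⁻¹ < 1 := inv_lt_one_of_one_lt₀ hμ1
  have hq : Real.log 2 < μ⁻¹ * Real.log 3 := by
    rw [lt_inv_mul_iff₀ (by linarith)]; exact hμ
  have hb : 0 < 1 - μ⁻¹ := by linarith
  have hb3 : (1 - μ⁻¹) ^ 3 ≤ 1 := pow_le_one₀ hb.le (by linarith)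
  have hp0 : 0 < μ⁻¹ * (1 - μ⁻¹) ^ 3 := by positivity
  have hp1 : μ⁻¹ * (1 - μ⁻¹) ^ 3 ≤ 1 := mul_le_one₀ h1.le (by positivity) hb3
  have hc0 : 0 < μ⁻¹ * (1 - μ⁻¹) ^ 3 * (1 / 250) := by positivity
  have hc : μ⁻¹ * (1 - μ⁻¹) ^ 3 * (1 / 250) ≤ 4 * μ⁻¹ * (1 - μ⁻¹) ^ 3 := by linarith
  have hc1 : μ⁻¹ * (1 - μ⁻¹) ^ 3 * (1 / 250) ≤ 1 := by linarith
  obtain ⟨n, M, m1, T1, hM, H⟩ := chainR h0 h1 hq hc0 hc hc1
  obtain ⟨γ, hγ, K, k0, hqu⟩ := quasiR h0 h1 hq hc0 hc hc1 (2 * M) (by omega)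
  have M0 : (0 : ℝ) < M := by exact_mod_cast hM
  obtain ⟨k1, hk1⟩ := asympR hγ (β := 1 / (4 * M)) (by positivity) (4 * n + 4)
  obtain ⟨K1, hK1⟩ : ∃ K1, K1 = K + M * (m1 + T1 + 4) := ⟨_, rfl⟩
  set D0 : ℝ := K1 + 2 * (((4 * n + 4 : ℕ) : ℝ) + 4) / γ with hD0
  refine ⟨Real.exp (-D0), Real.exp_pos _, γ / 2, by positivity, k0 + k1 + n + 2,
    fun k p hk hp' hp => ?_⟩
  have p0 : (1 : ℝ) ≤ p := by exact_mod_cast hp'
  have kk : (2 : ℝ) ≤ k := by exact_mod_cast (show 2 ≤ k by omega)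
  have d0 : 0 < 2 * (((4 * n + 4 : ℕ) : ℝ) + 4) / γ := by positivity
  have d1 : Real.exp D0 ≤ k / p := by
    rw [Real.exp_neg, inv_mul_eq_div, le_div_iff₀ (Real.exp_pos _)] at hp
    rw [le_div_iff₀ (by linarith)]
    linarith
  have d2 : D0 ≤ Real.log (k / p) := by
    rwa [Real.le_log_iff_exp_le (by positivity)]
  have d3 : K1 * p ≤ k := by
    have a1 : (K1 : ℝ) ≤ k / p := by linarith [Real.add_one_le_exp D0]
    rw [le_div_iff₀ (by linarith)] at a1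
    exact_mod_cast a1
  have d4 : Real.log (k / p) ≤ Real.log k :=
    Real.log_le_log (by positivity) (div_le_self (by linarith) p0)
  have d5 : (K : ℝ) ≤ Real.log (k / p) := by
    have : (K : ℝ) ≤ K1 := by exact_mod_cast (show K ≤ K1 by omega)
    linarith
  have K0 : (0 : ℝ) ≤ K1 := Nat.cast_nonneg _
  refine le_trans ?_ (hk1 k (by omega) _ (by linarith) d4)
  obtain ⟨s, hs⟩ : ∃ s, s = k / M := ⟨_, rfl⟩
  have s1 : (m1 + T1 + 4) * p ≤ s := by
    rw [hs, Nat.le_div_iff_mul_le (by omega)]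
    refine le_trans ?_ d3
    rw [hK1, add_mul K]
    exact le_trans (le_of_eq (by ring)) (Nat.le_add_left _ _)
  have s0 : T1 ≤ T1 * p := Nat.le_mul_of_pos_right _ hp'
  rw [add_mul, add_mul] at s1
  have s3 : M * s ≤ k := by rw [hs]; exact Nat.mul_div_le k _
  have s4 : k < M * (s + 1) := by rw [hs]; exact Nat.lt_mul_div_succ k (by omega)
  have s6 : k ≤ 2 * M * s := by
    have : M * (s + 1) ≤ M * (2 * s) := Nat.mul_le_mul_left _ (by omega)
    nlinarith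
  have s7 : s ≤ k := hs ▸ Nat.div_le_self _ _
  obtain ⟨v, Z, N, a, F1, F2⟩ := familyR hμ1 k p k le_rfl
  have e2 : (2 : ℝ) ^ p * (4 * (1 / 2) ^ s) ≤ 4 * Real.exp (-(1 / (4 * M) * k)) := by
    have b1 : (2 : ℝ) ^ p * (1 / 2) ^ s = Real.exp ((p - s) * Real.log 2) := by
      rw [sub_mul, Real.exp_sub, Real.exp_nat_mul, Real.exp_nat_mul, Real.exp_log (by norm_num),
        one_div_pow]
      ring
    have b2 : (4 * p : ℝ) ≤ s := by exact_mod_cast (show 4 * p ≤ s by omega)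
    have b3 : 1 / (4 * M) * (k : ℝ) ≤ s / 2 := by
      rw [one_div_mul_eq_div, div_le_iff₀ (by positivity)]
      have : (k : ℝ) ≤ 2 * M * s := by exact_mod_cast s6
      linarith
    have b4 := Real.log_two_gt_d9
    rw [mul_left_comm, b1]
    refine mul_le_mul_of_nonneg_left (Real.exp_le_exp.2 ?_) (by norm_num)
    nlinarith
  refine (fibre_sum (f := v) (K := range p) (fun ξ hξ => mem_range.2 (F1 ξ hξ).1)
    (C := (k : ℝ) ^ 2 * ((((k : ℝ) ^ 2) ^ 2) ^ n * (k * (12 * Real.exp (-γ * Real.log k * Real.log (k / p))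
      + 4 * Real.exp (-(1 / (4 * M) * k)))))) (fun b hb => ?_)).trans ?_
  · have b1 : b < p := mem_range.1 hb
    set T := (Ioo (0 : ℕ) (2 ^ p)).filter (fun ξ => v ξ = b) with hT
    have sub : T ⊆ Ioo 0 (2 ^ p) := filter_subset _ _
    have X : ∀ i ∈ T, RS μ⁻¹ (μ⁻¹ * (1 - μ⁻¹) ^ 3 * (1 / 250)) k (k + p - b) (Z i) (N i) :=
      fun i hi => (mem_filter.1 hi).2 ▸ (F1 i (sub hi)).2.1
    have b0 : m1 * (k + p - b - k) ≤ m1 * p := Nat.mul_le_mul_left _ (by omega)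
    have b2 := fun u => H ℕ Z N T k (k + p - b) (by omega) X s
      (Real.exp (-γ * Real.log k * Real.log (k / p))) (by omega) (Real.exp_pos _).le
      (fun u l hu => F2 b u l (by omega))
      (fun i hi u l hu => hqu k p s (by omega) hp' ((Nat.mul_le_mul_right _ (by omega)).trans d3) d5 s6
        _ _ _ _ (X i hi) (by omega) u l hu) u 0 (by omega)
    have b3 : (T.card : ℝ) ≤ 2 ^ p := by
      have := card_le_card sub
      rw [Nat.card_Ioo] at this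
      exact_mod_cast this.trans ((Nat.sub_le _ _).trans (Nat.sub_le _ _))
    refine (sum_le_sum (fun i hi => (F1 i (sub hi)).2.2)).trans ?_
    rw [sum_comm]
    refine (sum_le_card_nsmul _ _ _ (fun d _ => b2 (a + d))).trans ?_
    rw [card_range, nsmul_eq_mul]
    have b4 := (mul_le_mul_of_nonneg_right b3 (by positivity)).trans e2
    have b5 : (n : ℝ) ≤ k := by exact_mod_cast (show n ≤ k by omega)
    have b6 : ((k + 1 : ℕ) : ℝ) ≤ (k : ℝ) ^ 2 := by push_cast; nlinarith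
    have b7 : ((k + p - b : ℕ) : ℝ) ≤ (k : ℝ) ^ 2 := by
      have : ((k + p - b : ℕ) : ℝ) ≤ ((2 * k : ℕ) : ℝ) := Nat.cast_le.2 (by omega)
      push_cast at this ⊢
      nlinarith
    gcongr
  · rw [card_range]
    have b1 : (p : ℝ) ≤ k := by exact_mod_cast (show p ≤ k by omega)
    refine (mul_le_mul_of_nonneg_right b1 (by positivity)).trans (le_of_eq ?_)
    rw [← pow_mul, ← pow_mul]
    ring

theorem sum_both {μ : ℝ} (hμ : 1 < μ) (hne : μ ≠ Real.logb 2 3) :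
    ∃ c₀ : ℝ, 0 < c₀ ∧ ∃ c : ℝ, 0 < c ∧ ∃ k₀ : ℕ, ∀ k p : ℕ, k₀ ≤ k → 1 ≤ p → (p : ℝ) ≤ c₀ * k →
      ∑ ξ ∈ Ioo (0 : ℕ) (2 ^ p), ‖coeff μ k p (ξ : ℤ)‖
        ≤ Real.exp (-c * Real.log k * Real.log (k / p)) := by
  rcases lt_or_gt_of_ne hne with h | h
  · exact sum_boundR hμ h
  · obtain ⟨c₀, h0, c, hc, k₀, H⟩ := sum_bound h
    refine ⟨c₀, h0, c, hc, k₀ + 1, fun k p hk hp' hp => (H k p (by omega) hp).trans ?_⟩
    have p0 : (1 : ℝ) ≤ p := by exact_mod_cast hp'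
    have k1 : (1 : ℝ) ≤ k := by exact_mod_cast (show 1 ≤ k by omega)
    have a1 : Real.log (k / p) ≤ Real.log k :=
      Real.log_le_log (by positivity) (div_le_self (by linarith) p0)
    have a2 := mul_le_mul_of_nonneg_left a1 (mul_nonneg hc.le (Real.log_nonneg k1))
    rw [Real.exp_le_exp]
    linarith

end Pool.Agent.P.MP_d124bf_nt
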