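import Pool.Agent.P.MP_d124bf_nt.RBig
import Pool.Agent.P.MP_d124bf_nt.Params

/-!
Parameters for the reversed system, and its decay over a chain of scales.
-/

namespace Pool.Agent.P.MP_d124bf_nt

variable {q c : ℝ}

theorem exists_xb (h0 : 0 < q) (h1 : q < 1) (hq : Real.log 2 < q * Real.log 3) :
    ∃ x y b : ℝ, 1 < x ∧ x ≤ 3 ∧ 0 < y ∧ y ≤ 2 ∧ 0 < b ∧ b ≤ 1 ∧ x * b = q + (1 - q) * x ∧ y * b < 1 ∧
      ∀ a e : ℕ, 3 ^ e ≤ 2 ^ a → x ^ e ≤ y ^ a := by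
  have l2 : 0 < Real.log 2 := Real.log_pos (by norm_num)
  have l3 : 0 < Real.log 3 := Real.log_pos (by norm_num)
  have l3' : Real.log 3 ≤ 2 := by
    have := Real.log_le_sub_one_of_pos (show (0 : ℝ) < 3 by norm_num)
    linarith
  set g := q * Real.log 3 - Real.log 2 with hg
  have hg0 : 0 < g := by linarith
  have hg1 : g ≤ 2 := by nlinarith
  set θ := g / 16 with hθ
  have t0 : 0 < θ := by positivity
  have t1 : θ ≤ 1 / 8 := by linarith
  have e1 : Real.exp (-(θ * Real.log 3)) ≤ 1 := Real.exp_le_one_iff.2 (by nlinarith)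
  have e0 := Real.exp_pos (-(θ * Real.log 3))
  refine ⟨Real.exp (θ * Real.log 3), Real.exp (θ * Real.log 2), q * Real.exp (-(θ * Real.log 3)) + 1 - q,
    Real.one_lt_exp_iff.2 (by positivity), ?_, Real.exp_pos _, ?_, by nlinarith, by nlinarith, ?_, ?_,
    fun a b hab => ?_⟩
  · rw [← Real.le_log_iff_exp_le (by norm_num)]; nlinarith
  · rw [← Real.le_log_iff_exp_le (by norm_num)]; nlinarith
  · rw [Real.exp_neg]; field_simp; ring
  · have a1 := Real.add_one_le_exp (-(θ * Real.log 2))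
    have a2 : |-(θ * Real.log 3)| ≤ 1 := by
      rw [abs_neg, abs_of_pos (by positivity)]; nlinarith
    have a3 := (abs_le.1 (Real.abs_exp_sub_one_sub_id_le a2)).2
    have a4 : (-(θ * Real.log 3)) ^ 2 ≤ (θ * 2) ^ 2 := by
      rw [neg_sq]
      exact pow_le_pow_left₀ (by positivity) (by nlinarith) 2
    have a5 := mul_le_mul_of_nonneg_left (a3.trans a4) h0.le
    have a6 : q * (θ * 2) ^ 2 ≤ (θ * 2) ^ 2 := mul_le_of_le_one_left (by positivity) h1.le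
    have a7 : (θ * 2) ^ 2 < θ * g := by rw [show g = 16 * θ by rw [hθ]; ring]; nlinarith
    have a8 : θ * g = q * (θ * Real.log 3) - θ * Real.log 2 := by rw [hg]; ring
    have a9 : q * Real.exp (-(θ * Real.log 3)) + 1 - q < Real.exp (-(θ * Real.log 2)) := by linarith
    have := mul_lt_mul_of_pos_left a9 (Real.exp_pos (θ * Real.log 2))
    rwa [← Real.exp_add, add_neg_cancel, Real.exp_zero] at this
  · rw [← Real.exp_nat_mul, ← Real.exp_nat_mul, Real.exp_le_exp]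
    have h2 : (3 : ℝ) ^ b ≤ 2 ^ a := by exact_mod_cast hab
    have h3 := Real.log_le_log (by positivity) h2
    rw [Real.log_pow, Real.log_pow] at h3
    nlinarith

theorem bigR (h0 : 0 < q) (h1 : q < 1) (hq : Real.log 2 < q * Real.log 3) (hc0 : 0 < c)
    (hc : c ≤ 4 * q * (1 - q) ^ 3) (hc1 : c ≤ 1) :
    ∃ m K : ℕ, 1 ≤ m ∧ 1 ≤ K ∧ ∀ n r : ℕ, 4 ≤ n → K * 81 ^ n ≤ r → n ≤ r / (2 * (m + 1)) ∧
      ∃ H : ℕ, 4 ≤ H ∧ H ≤ 2 * r ∧ 2 ^ H ≤ 3 ^ r ∧ (∀ P', 3 ^ r ≤ 2 ^ P' → (m + 1) * H ≤ m * P') ∧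
        ∀ (S P : ℕ) (Z : ℤ) (N : ℕ → ℕ → ℝ), RS q c S P Z N → ∀ (w0 l : ℕ) (d : ℤ) (v Q1 Q2 : ℝ),
          l + H ≤ S → ¬ (3 : ℤ) ∣ d → |v| ≤ 1 / 7 → Eqv (arr Z P (w0 + n) l) (v / 3 ^ r + d / 3) →
          0 ≤ Q1 → 0 ≤ Q2 → (∀ g < 4, ∀ l' ≤ H, N (w0 + g) (l + l') ≤ Q1) →
          (∀ g ≤ n + r, ∀ l' ≤ H, H < l' + 4 → N (w0 + g) (l + l') ≤ Q2) →
          N (w0 + (n + r)) l ≤ Q1 * (17 / (1 + c / 30) ^ n) + Q2 * ((1 / 2) ^ (r / (2 * (m + 1))) / 2) := by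
  obtain ⟨x, y, b, hx, hx3, y0, y2, b0, b1, hb, hyb, hxy⟩ := exists_xb h0 h1 hq
  set σ : ℝ := 1 + c / 30 with hσdef
  have hσ1 : 1 < σ := by rw [hσdef]; linarith
  have hσ2 : σ ≤ 2 := by rw [hσdef]; linarith
  have hσ : (1 - q + q * σ) ^ 4 - c / 2 * σ ≤ 1 := by
    have a1 : 1 - q + q * σ ≤ 1 + c / 30 := by rw [hσdef]; nlinarith
    have a0 : 0 ≤ 1 - q + q * σ := by nlinarith
    have a2 : (1 - q + q * σ) ^ 4 ≤ (1 + c / 30) ^ 4 := pow_le_pow_left₀ a0 a1 4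
    have a3 : (1 + c / 30) ^ 4 ≤ 1 + c / 2 := by
      have b2 : c ^ 2 ≤ c := pow_le_of_le_one hc0.le hc1 (by norm_num)
      have b3 : c ^ 3 ≤ c := pow_le_of_le_one hc0.le hc1 (by norm_num)
      have b4 : c ^ 4 ≤ c := pow_le_of_le_one hc0.le hc1 (by norm_num)
      have : (1 + c / 30) ^ 4 = 1 + 4 * c / 30 + 6 * c ^ 2 / 900 + 4 * c ^ 3 / 27000 + c ^ 4 / 810000 := by
        ring
      linarith
    nlinarith
  set ϱ := y * b with hϱ
  have r0 : 0 < ϱ := by positivity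
  obtain ⟨m1, hm1⟩ := small_pow r0.le hyb (e := 1 / 6) (by norm_num)
  obtain ⟨m, hm⟩ : ∃ m, m = m1 + 1 := ⟨_, rfl⟩
  have hm' := hm1 m (by omega)
  have m0 : 1 ≤ m := by omega
  have hqq : 0 < q * (1 - q) := mul_pos h0 (by linarith)
  set C := 18 / (ϱ ^ 2 * b ^ 4) with hC
  have C0 : 0 < C := by positivity
  obtain ⟨K, hK⟩ := exists_nat_ge (2 * C + 1 / (q * (1 - q)) + 1)
  have p1 : 0 < 1 / (q * (1 - q)) := by positivity
  have K1 : 1 ≤ K := by exact_mod_cast (show (1 : ℝ) ≤ K by linarith)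
  have K2 : 2 * C ≤ K := by linarith
  have K3 : 1 ≤ K * (q * (1 - q)) := by rw [← div_le_iff₀ hqq]; linarith
  refine ⟨m, 2 * (m + 1) * K, m0, Nat.mul_pos (by omega) K1, fun n r hn hr => ?_⟩
  obtain ⟨t', ht'⟩ : ∃ t', t' = r / (2 * (m + 1)) := ⟨_, rfl⟩
  obtain ⟨t, ht⟩ : ∃ t, t = r / (m + 1) := ⟨_, rfl⟩
  rw [← ht']
  have a1 : K * 81 ^ n ≤ t' := by
    rw [ht', Nat.le_div_iff_mul_le (by omega)]
    exact le_trans (le_of_eq (by ring)) hr
  have a2 : 2 * t' ≤ t := by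
    rw [ht, Nat.le_div_iff_mul_le (by omega), ht']
    exact le_trans (le_of_eq (by ring)) (Nat.div_mul_le_self r _)
  have a3 : (m + 1) * t ≤ r := by rw [ht]; exact Nat.mul_div_le r _
  have a4 : r < (m + 1) * (t + 1) := by rw [ht]; exact Nat.lt_mul_div_succ r (by omega)
  have a5 : n ≤ t' := ((Nat.lt_pow_self (by norm_num)).le.trans
    (Nat.le_mul_of_pos_left (81 ^ n) K1)).trans a1
  have a6 : t ≤ m * t := Nat.le_mul_of_pos_left _ m0
  have a7 : K * 81 ^ n ≤ r := a1.trans (by nlinarith)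
  have a1' : (K : ℝ) * 81 ^ n ≤ t' := by exact_mod_cast a1
  have a7' : (K : ℝ) * 81 ^ n ≤ r := by exact_mod_cast a7
  clear a1 a7 hr ht ht' hm1
  obtain ⟨r', rfl⟩ : ∃ r', r = r' + t + 2 := ⟨r - t - 2, by rw [add_mul] at a3; omega⟩
  have b2 : m * t ≤ r' + 2 := by rw [add_mul] at a3; omega
  have b3 : (m + 1) * r' ≤ m * (r' + t + 2) := by nlinarith
  obtain ⟨H, c1, c2, c3, c4⟩ : ∃ H, 2 ^ H ≤ 3 ^ r' ∧ 3 ^ r' ≤ 2 ^ (H + 1) ∧ r' ≤ H ∧ H ≤ 2 * r' := by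
    have d1 : 2 ^ Nat.log 2 (3 ^ r') ≤ 3 ^ r' := Nat.pow_log_le_self 2 (by positivity)
    refine ⟨Nat.log 2 (3 ^ r'), d1, (Nat.lt_pow_succ_log_self (by norm_num) _).le,
      Nat.le_log_of_pow_le (by norm_num) (Nat.pow_le_pow_left (by norm_num) _), ?_⟩
    refine (Nat.pow_le_pow_iff_right (a := 2) (by norm_num)).1 (d1.trans ?_)
    rw [pow_mul]
    exact Nat.pow_le_pow_left (by norm_num) _
  have c5 := hxy _ _ c2
  have c6 : (2 : ℝ) ^ H ≤ 3 ^ r' := by exact_mod_cast c1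
  have c7 : 4 ≤ H := by omega
  have c8 : H ≤ 2 * (r' + t + 2) := by omega
  have c9 : m * t ≤ H + 2 := by omega
  refine ⟨a5, H, c7, c8, c1.trans (Nat.pow_le_pow_right (by norm_num) (by
    rw [add_assoc]; exact Nat.le_add_right _ _)), fun P' hP => ?_, ?_⟩
  · refine (Nat.pow_le_pow_iff_right (a := 2) (by norm_num)).1 ?_
    calc 2 ^ ((m + 1) * H) = (2 ^ H) ^ (m + 1) := by rw [← pow_mul, mul_comm]
      _ ≤ (3 ^ r') ^ (m + 1) := Nat.pow_le_pow_left c1 _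
      _ = 3 ^ ((m + 1) * r') := by rw [← pow_mul, mul_comm]
      _ ≤ 3 ^ (m * (r' + t + 2)) := Nat.pow_le_pow_right (by norm_num) b3
      _ = (3 ^ (r' + t + 2)) ^ m := by rw [← pow_mul, mul_comm]
      _ ≤ (2 ^ P') ^ m := Nat.pow_le_pow_left hP _
      _ = _ := by rw [← pow_mul, mul_comm]
  clear c1 c2
  intro S P Z N X w0 l d v Q1 Q2 hl hd hv ht q1 q2 hQ1 hQ2
  have hbig := X.big h0 h1 hc0.le hc hσ1.le hσ (h := r' + t + 1) (e := 1 / 9 ^ n) hx.le hb hn hl hd hv ht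
    (by
      have : (3 : ℝ) ^ r' * 1 * 9 ≤ 3 ^ r' * 3 ^ t * 9 := by
        gcongr; exact one_le_pow₀ (by norm_num)
      have e : (3 : ℝ) ^ (r' + t + 1 + 1) = 3 ^ r' * 3 ^ t * 9 := by ring
      have : (0 : ℝ) < 3 ^ r' := by positivity
      linarith) (by positivity) (by
      have a2 : ((1 : ℝ) / 9 ^ n) ^ 2 = 1 / 81 ^ n := by
        rw [div_pow, one_pow, ← pow_mul, mul_comm, pow_mul]; norm_num
      rw [a2, one_div, inv_mul_eq_div, le_div_iff₀ (by positivity)]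
      have a3 := mul_le_mul_of_nonneg_right a7' hqq.le
      have a4 := mul_le_mul_of_nonneg_right K3 (show (0 : ℝ) ≤ 81 ^ n by positivity)
      push_cast at a3 ⊢
      linarith) q1 q2 hQ1 hQ2
  refine hbig.trans (add_le_add (mul_le_mul_of_nonneg_left ?_ q1) (mul_le_mul_of_nonneg_left ?_ q2))
  · have a1 : (3 : ℝ) ^ n * (1 / 9 ^ n) ≤ 1 / σ ^ n := by
      rw [← one_div_pow, ← one_div_pow, ← mul_pow]
      apply pow_le_pow_left₀ (by norm_num)
      rw [le_div_iff₀ (by linarith)]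
      linarith
    have a2 : σ ^ 4 / σ ^ n ≤ 16 / σ ^ n := by
      gcongr
      calc σ ^ 4 ≤ 2 ^ 4 := pow_le_pow_left₀ (by linarith) hσ2 4
        _ = 16 := by norm_num
    have : 17 / σ ^ n = 16 / σ ^ n + 1 / σ ^ n := by ring
    linarith
  · have x0 : 0 < x := by linarith
    have e1 : x ^ (n + (r' + t + 1 + 1)) * b ^ H / b ^ 4 = x ^ (n + t + 2) * (x ^ r' * b ^ H) / b ^ 4 := by
      ring
    have e2 : x ^ r' * b ^ H ≤ 2 * ((1 / 6) ^ t / ϱ ^ 2) := by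
      have f1 : x ^ r' * b ^ H ≤ y ^ (H + 1) * b ^ H := mul_le_mul_of_nonneg_right c5 (by positivity)
      have f2 : y ^ (H + 1) * b ^ H = y * (ϱ ^ (H + 2) / ϱ ^ 2) := by
        rw [hϱ]; field_simp; ring
      have f3 : ϱ ^ (H + 2) ≤ (1 / 6) ^ t := by
        refine (pow_le_pow_of_le_one r0.le hyb.le c9).trans ?_
        rw [pow_mul]
        exact pow_le_pow_left₀ (by positivity) hm' t
      rw [f2] at f1
      refine f1.trans ?_
      gcongr
    have e3 : x ^ (n + t + 2) ≤ 3 ^ (n + t + 2) := pow_le_pow_left₀ x0.le hx3 _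
    have e4 : (3 : ℝ) ^ (n + t + 2) * (2 * ((1 / 6) ^ t / ϱ ^ 2)) / b ^ 4 = C * 3 ^ n * (1 / 2) ^ t := by
      have : (1 / 2 : ℝ) ^ t = 3 ^ t * (1 / 6) ^ t := by rw [← mul_pow]; norm_num
      rw [this, hC]; field_simp; ring
    have e5 : (1 / 2 : ℝ) ^ t ≤ (1 / 2) ^ t' * (1 / 2) ^ t' := by
      rw [← pow_add, ← two_mul]
      exact pow_le_pow_of_le_one (by norm_num) (by norm_num) a2
    have e6 : C * 3 ^ n * (1 / 2) ^ t' ≤ 1 / 2 := by
      have f1 : (t' : ℝ) ≤ 2 ^ t' := by exact_mod_cast Nat.lt_two_pow_self.le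
      have f2 : (3 : ℝ) ^ n ≤ 81 ^ n := pow_le_pow_left₀ (by norm_num) (by norm_num) n
      have f3 := mul_le_mul K2 f2 (by positivity) (by positivity)
      rw [one_div_pow, mul_one_div, div_le_iff₀ (by positivity)]
      linarith
    rw [e1]
    calc _ ≤ (3 : ℝ) ^ (n + t + 2) * (2 * ((1 / 6) ^ t / ϱ ^ 2)) / b ^ 4 := by gcongr
      _ ≤ C * 3 ^ n * ((1 / 2) ^ t' * (1 / 2) ^ t') := by rw [e4]; gcongr
      _ = C * 3 ^ n * (1 / 2) ^ t' * (1 / 2) ^ t' := by ring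
      _ ≤ 1 / 2 * (1 / 2) ^ t' := by gcongr
      _ = _ := by ring

theorem short_gain (h0 : 0 < q) (h1 : q < 1) (hc0 : 0 ≤ c) : ∃ T0 : ℕ, ∀ r L : ℕ, r < L →
    1 - c + c * (2 ^ r * (1 - q / 2) ^ (T0 * L)) ≤ 1 - c / 2 := by
  obtain ⟨T0, hT⟩ := small_pow (a := 1 - q / 2) (by linarith) (by linarith) (e := 1 / 2) (by norm_num)
  refine ⟨T0, fun r L hr => ?_⟩
  have a1 : (1 - q / 2) ^ (T0 * L) ≤ (1 / 2) ^ (r + 1) := by
    rw [pow_mul]
    exact (pow_le_pow_left₀ (pow_nonneg (by linarith) _) (hT T0 le_rfl) L).trans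
      (pow_le_pow_of_le_one (by norm_num) (by norm_num) hr)
  have a2 := mul_le_mul_of_nonneg_left a1 (show (0 : ℝ) ≤ 2 ^ r by positivity)
  have a3 : (2 : ℝ) ^ r * (1 / 2) ^ (r + 1) = 1 / 2 := by
    rw [pow_succ, ← mul_assoc, ← mul_pow]; norm_num
  have := mul_le_mul_of_nonneg_left (a2.trans a3.le) hc0
  linarith

theorem scalesR (h0 : 0 < q) (h1 : q < 1) (hq : Real.log 2 < q * Real.log 3) (hc0 : 0 < c)
    (hc : c ≤ 4 * q * (1 - q) ^ 3) (hc1 : c ≤ 1) :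
    ∃ m W : ℕ, 2 ≤ m ∧ ∀ (S P : ℕ) (Z : ℤ) (N : ℕ → ℕ → ℝ), RS q c S P Z N → ∀ n Y : ℕ, 4 ≤ n →
      P ≤ S + Y → n * (W * 81 ^ n) ≤ Y → ∀ j u l, l + Y * m ^ j ≤ P →
        N u l ≤ (18 / (1 + c / 30) ^ n) ^ j := by
  obtain ⟨m, K, hm, hK, hbig⟩ := bigR h0 h1 hq hc0 hc hc1
  obtain ⟨T0, hT0⟩ := short_gain h0 h1 hc0.le
  set σ : ℝ := 1 + c / 30 with hσ
  have σ1 : 1 ≤ σ := by rw [hσ]; linarith
  have σ2 : σ ≤ 2 := by rw [hσ]; linarith
  have σ3 : (1 - c / 2) * σ ≤ 1 := by rw [hσ]; nlinarith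
  refine ⟨m + 2, T0 * K + 4, by omega, fun S P Z N X n Y hn hP hY => ?_⟩
  obtain ⟨L, hL⟩ : ∃ L, L = K * 81 ^ n := ⟨_, rfl⟩
  obtain ⟨W, hW⟩ : ∃ W, W = (T0 * K + 4) * 81 ^ n := ⟨_, rfl⟩
  rw [← hW] at hY
  have w1 : T0 * L + 4 ≤ W := by
    have : 1 ≤ 81 ^ n := Nat.one_le_pow _ _ (by norm_num)
    rw [hL, hW]; nlinarith
  have hbig' := fun r (hr : L ≤ r) => hbig n r hn (hL ▸ hr)
  clear hL hW hbig
  have window : ∀ (thr : ℕ) (Q : ℝ), 0 ≤ Q → P ≤ S + thr → (∀ u l, l + thr ≤ P → N u l ≤ Q) →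
      ∀ i ≤ n, ∀ u l, l + ((m + 1) * thr + i * W) ≤ P → N u l ≤ 18 / σ ^ i * Q := by
    intro thr Q hQ0 hthr hQ i
    have t1 : thr ≤ (m + 1) * thr := Nat.le_mul_of_pos_left _ (by omega)
    induction i with
    | zero =>
      intro _ u l hl
      have := hQ u l (by omega)
      simp only [pow_zero]
      linarith
    | succ i ih =>
      intro hi u l hl
      rw [add_mul i, one_mul] at hl
      rcases lt_or_ge u (2 * P + 4) with hu | hu
      · rw [X.pad u hu l]; positivity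
      obtain ⟨r, u0, v, d, rfl, hd, hv, hv', ht, hr⟩ := arr_run X.odd (u := u) (l := l) (P := P)
        (by omega) (by omega)
      rcases lt_or_ge r L with hrL | hrL
      · clear hr
        refine (X.small h0.le h1.le hc0.le hc hc1 (T0 * L) r u0 l v d hd (by linarith) (fun _ => hv) ht
          (by omega) (fun e _ => ih (by omega) _ _ (by omega))).trans ?_
        refine (mul_le_mul_of_nonneg_right (hT0 r L hrL) (by positivity)).trans ?_
        have e : (1 - c / 2) * (18 / σ ^ i * Q) = (1 - c / 2) * σ * (18 / σ ^ (i + 1) * Q) := by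
          field_simp; ring
        rw [e]
        exact mul_le_of_le_one_left (by positivity) σ3
      · obtain ⟨b1, H, b2, b3, b4, b5, b6⟩ := hbig' r hrL
        have c1 := b5 _ hr
        have c2 : r ≤ P - l := (Nat.pow_le_pow_iff_right (by norm_num)).1
          ((Nat.pow_le_pow_left (by norm_num : 2 ≤ 3) r).trans hr)
        have c3 : n ≤ r := b1.trans (Nat.div_le_self _ _)
        clear hr b4 b5
        have c4 : l + H + thr ≤ P := by
          have : (m + 1) * (H + thr) ≤ (m + 1) * (P - l) := by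
            rw [mul_add, add_mul m 1 (P - l)]; omega
          have := Nat.le_of_mul_le_mul_left this (by omega)
          omega
        obtain ⟨w0, rfl⟩ : ∃ w0, u0 = w0 + n := ⟨u0 - n, by omega⟩
        rw [add_assoc]
        refine (b6 S P Z N X w0 l d v Q Q (by omega) hd (hv' (by omega)) ht hQ0 hQ0
          (fun g _ l' hl' => hQ _ _ (by omega)) (fun g _ l' hl' _ => hQ _ _ (by omega))).trans ?_
        have d1 : (1 / 2 : ℝ) ^ (r / (2 * (m + 1))) ≤ 1 / σ ^ n := by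
          refine (pow_le_pow_of_le_one (by norm_num) (by norm_num) b1).trans ?_
          rw [← one_div_pow]
          exact pow_le_pow_left₀ (by norm_num) (one_div_le_one_div_of_le (by linarith) σ2) n
        have d2 : 18 / σ ^ n ≤ 18 / σ ^ (i + 1) :=
          div_le_div_of_nonneg_left (by norm_num) (by positivity) (pow_le_pow_right₀ σ1 hi)
        have d3 : 18 / σ ^ n = 17 / σ ^ n + 1 / σ ^ n := by ring
        have d4 : (0 : ℝ) ≤ (1 / 2) ^ (r / (2 * (m + 1))) := by positivity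
        rw [← mul_add, mul_comm]
        exact mul_le_mul_of_nonneg_right (by linarith) hQ0
  intro j
  induction j with
  | zero => intro u l _; simpa using X.le1 u l
  | succ j ih =>
    intro u l hl
    have h2 : Y ≤ Y * (m + 2) ^ j := Nat.le_mul_of_pos_right _ (by positivity)
    have h3 : Y * (m + 2) ^ (j + 1) = (m + 1) * (Y * (m + 2) ^ j) + Y * (m + 2) ^ j := by ring
    have := window (Y * (m + 2) ^ j) _ (by positivity) (by omega) ih n le_rfl u l (by omega)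
    rw [pow_succ]
    linarith

end Pool.Agent.P.MP_d124bf_nt
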