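import Pool.Agent.P.MP_d124bf_nt.Params

/-!
The counting recursion: a high power of the block majorant is summable over the family.
-/

namespace Pool.Agent.P.MP_d124bf_nt

open Finset

variable {q c : ℝ}

theorem inv_sq_sum (n : ℕ) :
    ∑ k ∈ range (n + 1), (1 / 2 / ((k : ℝ) + 1) ^ 2 : ℝ) ≤ 1 - 1 / 2 / ((n : ℝ) + 1) := by
  induction n with
  | zero => norm_num
  | succ n ih =>
    rw [sum_range_succ]
    push_cast
    have : 1 / 2 / ((n : ℝ) + 1 + 1) ^ 2 ≤ 1 / 2 / (n + 1) - 1 / 2 / (n + 1 + 1) := by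
      rw [div_sub_div _ _ (by positivity) (by positivity), div_le_div_iff₀ (by positivity) (by positivity)]
      have : (0 : ℝ) ≤ n := Nat.cast_nonneg n
      nlinarith
    linarith

theorem pow3_le {d s : ℕ} (h : d ≤ s) : 4 * ((3 : ℝ) ^ d / 2 ^ s + 1) ≤ 8 * 2 ^ s := by
  have a1 : (3 : ℝ) ^ d ≤ 2 ^ s * 2 ^ s := by
    rw [← mul_pow]
    exact (pow_le_pow_right₀ (by norm_num) h).trans (pow_le_pow_left₀ (by norm_num) (by norm_num) s)
  have a2 : (1 : ℝ) ≤ 2 ^ s := one_le_pow₀ (by norm_num)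
  have a3 : (3 : ℝ) ^ d / 2 ^ s ≤ 2 ^ s := by rwa [div_le_iff₀ (by positivity)]
  linarith

theorem flat (h0 : 0 < q) (h1 : q < 1) (hc0 : 0 < c) (hc : c ≤ 4 * q * (1 - q) ^ 3) (hc1 : c ≤ 1)
    {x y : ℝ} (hx : 1 < x) (hx3 : x ≤ 3) (hy : q * x + 1 - q < y)
    (hxy : ∀ a b : ℕ, 2 ^ a ≤ 3 ^ b → y ^ a ≤ x ^ b) (K1 : ℕ) (hK1 : 1 ≤ K1) :
    ∃ n0 : ℕ, 1 ≤ n0 ∧ ∀ (ι : Type) (N ψ : ι → ℕ → ℕ → ℝ) (B : ι → ℝ) (T0 : Finset ι) (J E g l0 : ℕ),
      (∀ i ∈ T0, Sys q c (N i) (ψ i)) → (∀ i ∈ T0, ∀ u < 4, ∀ l ≤ E + 4 + g, N i u l = 0) →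
      (∀ i ∈ T0, 0 < B i) → (∀ i ∈ T0, ∀ u ≤ J, ∀ l, E ≤ l → l ≤ E + 4 + g → N i u l ≤ B i) →
      E ≤ l0 + K1 * g → ∀ h l, E ≤ l + h → l0 ≤ l → l ≤ E + 4 + g → ∀ T ⊆ T0, ∀ u ≤ J, ∀ δ : ℝ,
        0 ≤ δ → Conf ψ T u l δ → δ * 3 ^ u * 2 ^ l ≤ 2 ^ E →
        ∑ i ∈ T, (N i u l / B i) ^ n0 ≤ 4 * (2 * δ + 1) := by
  classical
  obtain ⟨n0, L0, hn0, hL0, hshort, hlong⟩ := params h0 h1 hc0 hc1 hx hx3 hy hxy K1
  refine ⟨n0, hn0, fun ι N ψ B T0 J E g l0 hS hZ hB0 hB hE => ?_⟩
  have le1 : ∀ i ∈ T0, ∀ u ≤ J, ∀ l ≤ E + 4 + g, (N i u l / B i) ^ n0 ≤ 1 := by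
    intro i hi u hu l hl
    refine pow_le_one₀ (div_nonneg ((hS i hi).nn _ _) (hB0 i hi).le) ((div_le_one (hB0 i hi)).2 ?_)
    rcases le_total E l with h | h
    · exact hB i hi u hu l h hl
    · obtain ⟨t, rfl⟩ := Nat.exists_eq_add_of_le h
      exact (hS i hi).back h0.le h1.le (hZ i hi) (h := t) (by omega)
        (fun d _ => hB i hi _ (by omega) _ le_rfl (by omega))
  have count : ∀ T ⊆ T0, ∀ u ≤ J, ∀ l ≤ E + 4 + g, ∀ (l' : ℕ) (δ : ℝ), 0 ≤ δ → Conf ψ T u l' δ →
      δ * 3 ^ u ≤ 1 → ∑ i ∈ T, (N i u l / B i) ^ n0 ≤ 2 := by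
    intro T hT u hu l hl l' δ hδ hC h3
    refine (sum_le_card_nsmul _ _ _ (fun i hi => le1 i (hT hi) u hu l hl)).trans ?_
    have := hC.card_le (fun i hi => hS i (hT hi)) hδ
    rw [nsmul_eq_mul]
    linarith
  have widen : ∀ l, (∀ T ⊆ T0, ∀ u ≤ J, ∀ δ : ℝ, 0 ≤ δ → δ ≤ 1 / 2 → Conf ψ T u l δ →
      δ * 3 ^ u * 2 ^ l ≤ 2 ^ E → ∑ i ∈ T, (N i u l / B i) ^ n0 ≤ 4) →
      ∀ T ⊆ T0, ∀ u ≤ J, ∀ δ : ℝ, 0 ≤ δ → Conf ψ T u l δ → δ * 3 ^ u * 2 ^ l ≤ 2 ^ E →
        ∑ i ∈ T, (N i u l / B i) ^ n0 ≤ 4 * (2 * δ + 1) := by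
    intro l H T hT u hu δ hδ hC h3
    obtain ⟨f, hf, hf'⟩ := hC.narrow
    refine (fibre_sum hf (C := 4) (fun k _ => H _ ((filter_subset _ _).trans hT) u hu _
      (le_min hδ (by norm_num)) (min_le_right _ _) (hf' k) (le_trans ?_ h3))).trans ?_
    · gcongr
      exact min_le_left _ _
    · rw [card_range]
      push_cast
      linarith [Nat.floor_le (show 0 ≤ 2 * δ by positivity)]
  have base : ∀ l, E ≤ l → l ≤ E + 4 + g → ∀ T ⊆ T0, ∀ u ≤ J, ∀ δ : ℝ, 0 ≤ δ → Conf ψ T u l δ →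
      δ * 3 ^ u * 2 ^ l ≤ 2 ^ E → ∑ i ∈ T, (N i u l / B i) ^ n0 ≤ 4 * (2 * δ + 1) := by
    intro l hl hl' T hT u hu δ hδ hC h3
    have a1 : (2 : ℝ) ^ E ≤ 1 * 2 ^ l := by rw [one_mul]; exact pow_le_pow_right₀ (by norm_num) hl
    have := count T hT u hu l hl' l δ hδ hC (le_of_mul_le_mul_right (h3.trans a1) (by positivity))
    linarith
  intro h
  induction h with
  | zero => intro l hl _ hl'; exact base l hl hl'
  | succ h ih =>
    intro l hl hl0 hl'
    rcases le_or_gt E l with hEl | hEl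
    · exact base l hEl hl'
    refine widen l (fun T hT u hu δ hδ hδ' hC h3 => ?_)
    have hST : ∀ i ∈ T, Sys q c (N i) (ψ i) := fun i hi => hS i (hT hi)
    rcases lt_or_ge u 4 with hu4 | hu4
    · rw [sum_eq_zero (fun i hi => by rw [hZ i (hT hi) u hu4 l hl', zero_div, zero_pow (by omega)])]
      norm_num
    have land : ∀ T' ⊆ T, ∀ r t d : ℕ, 1 ≤ t → l + r + t ≤ E + 4 + g →
        Conf ψ T' u (l + r) (δ / 2 ^ r) → ∑ i ∈ T', (N i (u - d) (l + r + t) / B i) ^ n0
          ≤ 2 ^ t * (4 * (3 ^ d / 2 ^ (r + t) + 1)) := by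
      intro T' hT' r t d ht hrow hC'
      obtain ⟨f, hf, hf'⟩ := hC'.up (fun i hi => hST i (hT' hi)) t
      have hd : min d u ≤ u := min_le_right _ _
      rw [show u - d = u - min d u by omega]
      refine (fibre_sum hf (C := 4 * (3 ^ d / 2 ^ (r + t) + 1)) (fun k _ => ?_)).trans
        (le_of_eq (by rw [Int.card_Ico, sub_zero, show (2 : ℤ) ^ t = ((2 ^ t : ℕ) : ℤ) by push_cast; rfl,
          Int.toNat_natCast]; push_cast; rfl))
      have hsub : T'.filter (fun i => f i = k) ⊆ T := (filter_subset _ _).trans hT'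
      refine (ih (l + r + t) (by omega) (by omega) hrow _ (hsub.trans hT) _ (by omega) _
        (by positivity) ((hf' k).left (fun i hi => hST i (hsub hi)) hd) (le_trans (le_of_eq ?_) h3)).trans ?_
      · have e : (3 : ℝ) ^ u = 3 ^ min d u * 3 ^ (u - min d u) := by
          rw [← pow_add]; congr 1; omega
        rw [e, pow_add, pow_add]
        field_simp
      · have a1 : (3 : ℝ) ^ min d u ≤ 3 ^ d := pow_le_pow_right₀ (by norm_num) (min_le_left _ _)
        have a2 : 2 * ((3 : ℝ) ^ min d u * (δ / 2 ^ r / 2 ^ t))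
            = 3 ^ min d u * (2 * δ) / 2 ^ (r + t) := by rw [pow_add]; field_simp
        have a3 : (3 : ℝ) ^ min d u * (2 * δ) ≤ 3 ^ d * 1 :=
          mul_le_mul a1 (by linarith) (by positivity) (by positivity)
        rw [a2]
        rw [mul_one] at a3
        gcongr
    have hrun : ∀ i ∈ T, ∃ r : ℕ, ∃ v : ℝ, |v| ≤ 3 / 8 ∧ (r ≠ 0 → |v| ≤ 1 / 8) ∧
      Eqv (ψ i u (l + r)) (v / 2 ^ r + 1 / 2) := fun i hi => (hST i hi).run (by omega) l
    choose! r v hv1 hv2 hv3 using hrun
    obtain ⟨H, rfl⟩ := Nat.exists_eq_add_of_le hEl.le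
    rw [← sum_fiberwise_of_maps_to (g := fun i => min (r i) (H + 1)) (t := range (H + 1 + 1))
      (fun i _ => mem_range.2 (by omega)), sum_range_succ]
    have term : ∑ i ∈ T.filter (fun i => min (r i) (H + 1) = H + 1), (N i u l / B i) ^ n0 ≤ 2 := by
      refine count _ ((filter_subset _ _).trans hT) u hu l hl' (l + H) (δ / 2 ^ H) (by positivity)
        ((hC.subset (filter_subset _ _)).top hδ' (v := v) (w := 0) (fun i hi => ?_)) ?_
      · obtain ⟨a1, a2⟩ := mem_filter.1 hi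
        have a3 : H < r i := by omega
        refine ⟨hv2 i a1 (by omega), ?_, ?_⟩
        · simpa using (hST i a1).below_top (s := 0) (hv3 i a1) (by omega)
        · simpa using (hST i a1).below_top (hv3 i a1) a3
      · rw [pow_add, mul_comm ((2 : ℝ) ^ l)] at h3
        have := le_of_mul_le_mul_right h3 (by positivity)
        rw [div_mul_eq_mul_div, div_le_one (by positivity)]
        exact this
    have cls : ∀ k ∈ range (H + 1), ∑ i ∈ T.filter (fun i => min (r i) (H + 1) = k),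
        (N i u l / B i) ^ n0 ≤ 1 / 2 / ((k : ℝ) + 1) ^ 2 := by
      intro k hk
      rw [mem_range] at hk
      set T' := T.filter (fun i => min (r i) (H + 1) = k) with hT'
      have sub : T' ⊆ T := filter_subset _ _
      have rk : ∀ i ∈ T', r i = k := fun i hi => by
        have := (mem_filter.1 hi).2
        omega
      have hC' : Conf ψ T' u (l + k) (δ / 2 ^ k) := by
        rcases Nat.eq_zero_or_pos k with rfl | hk0
        · simpa using hC.subset sub
        · refine (hC.subset sub).top hδ' (v := v) (w := 1 / 2) (fun i hi => ?_)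
          have a1 := sub hi
          have a2 := rk i hi
          refine ⟨hv2 i a1 (by omega), ?_, a2 ▸ hv3 i a1⟩
          simpa using (hST i a1).below_top (s := 0) (hv3 i a1) (by omega)
      rcases lt_or_ge k L0 with hkL | hkL
      · refine le_trans ?_ (hshort k hkL)
        have s1 : ∀ i ∈ T', (N i u l / B i) ^ n0 ≤ (1 - c) ^ n0 *
            ∑ d ∈ range (k + 4 + 1), (N i (u - d) (l + k + 4) / B i) ^ n0 := by
          intro i hi
          have a1 := sub hi
          have b0 := hB0 i (hT a1)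
          obtain ⟨Q, q0, q1, q2⟩ := exists_Q (f := fun d => N i (u - d) (l + k + 4))
            (fun d => (hST i a1).nn _ _) b0 (k + 4) n0
          have a2 := (hST i a1).small' h0.le h1.le hc hc1 (hZ i (hT a1)) k u l (v i) (hv1 i a1)
            (rk i hi ▸ hv3 i a1) (by omega) q1
          refine le_trans ?_ (mul_le_mul_of_nonneg_left q2 (pow_nonneg (by linarith) _))
          rw [← mul_pow, ← mul_div_assoc]
          exact pow_le_pow_left₀ (div_nonneg ((hST i a1).nn _ _) b0.le)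
            (div_le_div_of_nonneg_right a2 b0.le) _
        refine (sum_le_sum s1).trans ?_
        rw [← mul_sum, sum_comm]
        refine mul_le_mul_of_nonneg_left ?_ (pow_nonneg (by linarith) _)
        refine (sum_le_card_nsmul _ _ (2 ^ 4 * (8 * 2 ^ (k + 4))) (fun d hd => ?_)).trans
          (le_of_eq (by rw [card_range, nsmul_eq_mul]))
        exact (land T' sub k 4 d (by norm_num) (by omega) hC').trans
          (mul_le_mul_of_nonneg_left (pow3_le (by have := mem_range.1 hd; omega)) (by positivity))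
      · obtain ⟨n, D1, e, p1, p2, p3, p4, p5⟩ := hlong k hkL
        refine le_trans ?_ p5
        have hng : 4 * n ≤ g := Nat.le_of_mul_le_mul_left (p1.trans (by omega)) hK1
        have p2' : (3 : ℝ) ^ (D1 + 4 * n) ≤ 2 ^ k := by exact_mod_cast p2
        clear p2 p5
        set g1 := (1 - c / 2) ^ n + 2 ^ (4 * n + 1) * e with hg1
        set g2 := (q * x + 1 - q) ^ (k + 3) / x ^ (D1 + 1) with hg2
        have g10 : 0 ≤ g1 := add_nonneg (pow_nonneg (by linarith) _) (by positivity)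
        have g20 : 0 ≤ g2 := div_nonneg (pow_nonneg (by nlinarith) _) (by positivity)
        have s1 : ∀ i ∈ T', (N i u l / B i) ^ n0 ≤ (2 * g1) ^ n0 *
            ∑ d ∈ range (D1 + 4 * n + 1), (N i (u - d) (l + k + (3 + 4 * n)) / B i) ^ n0
            + (2 * g2) ^ n0 *
            ∑ d ∈ range (k + 3 + 4 * n + 1), (N i (u - d) (l + k + (3 + 4 * n)) / B i) ^ n0 := by
          intro i hi
          have a1 := sub hi
          have b0 := hB0 i (hT a1)
          rw [← add_assoc (l + k)]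
          obtain ⟨Q1, q0, q1, q2⟩ := exists_Q (f := fun d => N i (u - d) (l + k + 3 + 4 * n))
            (fun d => (hST i a1).nn _ _) b0 (D1 + 4 * n) n0
          obtain ⟨Q2, q3, q4, q5⟩ := exists_Q (f := fun d => N i (u - d) (l + k + 3 + 4 * n))
            (fun d => (hST i a1).nn _ _) b0 (k + 3 + 4 * n) n0
          have a2 := (hST i a1).big' h0 h1 hc0.le hc hc1 (hZ i (hT a1)) (by omega) q1 q4
            (hv2 i a1 (by rw [rk i hi]; omega)) (rk i hi ▸ hv3 i a1) p2' p3 p4 hx.le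
          have a3 : N i u l / B i ≤ g1 * (Q1 / B i) + g2 * (Q2 / B i) :=
            (div_le_div_of_nonneg_right a2 b0.le).trans (le_of_eq (by ring))
          refine (pow_le_pow_left₀ (div_nonneg ((hST i a1).nn _ _) b0.le) a3 n0).trans ?_
          refine (add_pow_le (by positivity) (by positivity) n0).trans ?_
          refine le_trans ?_ (add_le_add (mul_le_mul_of_nonneg_left q2 (by positivity))
            (mul_le_mul_of_nonneg_left q5 (by positivity)))
          refine (mul_le_mul_of_nonneg_right (pow_le_pow_right₀ (by norm_num) (Nat.sub_le n0 1))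
            (by positivity)).trans (le_of_eq ?_)
          simp only [mul_pow]
          ring
        refine (sum_le_sum s1).trans ?_
        rw [sum_add_distrib, ← mul_sum, ← mul_sum, sum_comm, sum_comm (s := T')]
        refine add_le_add (mul_le_mul_of_nonneg_left ?_ (by positivity))
          (mul_le_mul_of_nonneg_left ?_ (by positivity))
        · refine (sum_le_card_nsmul _ _ (2 ^ (3 + 4 * n) * 8) (fun d hd => ?_)).trans
            (le_of_eq (by rw [card_range, nsmul_eq_mul]))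
          refine (land T' sub k _ d (by omega) (by omega) hC').trans
            (mul_le_mul_of_nonneg_left ?_ (by positivity))
          have a1 : (3 : ℝ) ^ d ≤ 2 ^ (k + (3 + 4 * n)) :=
            ((pow_le_pow_right₀ (by norm_num) (by have := mem_range.1 hd; omega)).trans p2').trans
              (pow_le_pow_right₀ (by norm_num) (by omega))
          have := (div_le_one (by positivity)).2 a1
          linarith
        · refine (sum_le_card_nsmul _ _ (2 ^ (3 + 4 * n) * (8 * 2 ^ (k + 3 + 4 * n)))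
            (fun d hd => ?_)).trans (le_of_eq (by rw [card_range, nsmul_eq_mul]))
          refine (land T' sub k _ d (by omega) (by omega) hC').trans
            (mul_le_mul_of_nonneg_left ?_ (by positivity))
          rw [← add_assoc]
          exact pow3_le (by have := mem_range.1 hd; omega)
    have s2 := (sum_le_sum cls).trans (inv_sq_sum H)
    have : 0 ≤ 1 / 2 / ((H : ℝ) + 1) := by positivity
    linarith

end Pool.Agent.P.MP_d124bf_nt
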