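import Pool.Agent.P.MP_d124bf_nt.RPar
import Pool.Agent.P.MP_d124bf_nt.Rec

/-!
The counting recursion for the reversed system.
-/

namespace Pool.Agent.P.MP_d124bf_nt

open Finset

variable {q c : ℝ}

section conf

variable {ι : Type} {Z : ι → ℤ} {T : Finset ι} {P u l : ℕ} {δ : ℝ}

theorem cardR (h : Conf (fun i => arr (Z i) P) T u l δ) (hl : l ≤ P) (hδ : 0 ≤ δ) :
    (T.card : ℝ) ≤ δ * 2 ^ (P - l) + 1 := by
  obtain ⟨x, h1, h2, h3⟩ := h
  rcases T.eq_empty_or_nonempty with rfl | hne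
  · simp only [card_empty, Nat.cast_zero]; positivity
  have hz : ∀ i ∈ T, ∃ z : ℤ, 2 ^ (P - l) * x i = z := by
    intro i hi
    have hz := arr_int (Z i) u hl
    obtain ⟨n, hn⟩ := h1 i hi
    beta_reduce at hn
    rw [hn] at hz
    exact ⟨Z i * 3 ^ u - 2 ^ (P - l) * n, by rw [Int.cast_sub, ← hz]; push_cast; ring⟩
  choose! Y hY using hz
  obtain ⟨i0, hi0, hmin⟩ := exists_min_image T x hne
  have p3 : (0 : ℝ) < 2 ^ (P - l) := by positivity
  have h4 : T.card ≤ (Icc (Y i0) (Y i0 + ⌊δ * 2 ^ (P - l)⌋₊)).card := by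
    apply card_le_card_of_injOn Y
    · intro i hi
      have hi' : i ∈ T := hi
      have a1 := mul_le_mul_of_nonneg_left (hmin i hi') p3.le
      have a2 := mul_le_mul_of_nonneg_left ((le_abs_self _).trans (h3 i hi' i0 hi0)) p3.le
      rw [mul_sub, hY i hi', hY i0 hi0] at a2
      rw [hY i hi', hY i0 hi0] at a1
      have a3 : Y i0 ≤ Y i := by exact_mod_cast a1
      have a4 : Y i - Y i0 ≤ ⌊δ * 2 ^ (P - l)⌋ := Int.le_floor.2 (by push_cast; linarith)
      rw [← Int.natCast_floor_eq_floor (by positivity)] at a4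
      simp only [coe_Icc, Set.mem_Icc]
      exact ⟨a3, by linarith⟩
    · intro i hi j hj hij
      apply h2 hi hj
      apply mul_left_cancel₀ p3.ne'
      rw [hY i hi, hY j hj, hij]
  rw [Int.card_Icc, show Y i0 + ⌊δ * 2 ^ (P - l)⌋₊ + 1 - Y i0 = ((⌊δ * 2 ^ (P - l)⌋₊ + 1 : ℕ) : ℤ) by
    push_cast; ring, Int.toNat_natCast] at h4
  refine (Nat.cast_le.2 h4).trans ?_
  push_cast
  linarith [Nat.floor_le (show 0 ≤ δ * 2 ^ (P - l) by positivity)]

theorem moveR (h : Conf (fun i => arr (Z i) P) T u l δ) (e t : ℕ) :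
    Conf (fun i => arr (Z i) P) T (u + e) (l + t) (3 ^ e * 2 ^ t * δ) := by
  obtain ⟨x, h1, h2, h3⟩ := h
  have p3 : (0 : ℝ) < 3 ^ e * 2 ^ t := by positivity
  refine ⟨fun i => 3 ^ e * 2 ^ t * x i, fun i hi => ?_,
    fun i hi j hj hij => h2 hi hj (mul_left_cancel₀ p3.ne' hij), fun i hi j hj => ?_⟩
  · have := (h1 i hi).mul_int (3 ^ e * 2 ^ t)
    push_cast at this
    beta_reduce
    rwa [arr_col, arr_row, ← mul_assoc]
  · rw [← mul_sub, abs_mul, abs_of_pos p3]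
    exact mul_le_mul_of_nonneg_left (h3 i hi j hj) p3.le

theorem splitR {t : ℕ} (h : Conf (fun i => arr (Z i) P) T (u + t) l δ) :
    ∃ f : ι → ℤ, (∀ i ∈ T, f i ∈ Ico (0 : ℤ) (3 ^ t)) ∧
      ∀ k, Conf (fun i => arr (Z i) P) (T.filter (fun i => f i = k)) u l (δ / 3 ^ t) := by
  obtain ⟨x, h1, h2, h3⟩ := h
  have hz : ∀ i ∈ T, ∃ n : ℤ, 3 ^ t * arr (Z i) P u l = x i + n := fun i hi => by
    rw [← arr_col]; exact h1 i hi
  choose! n hn using hz
  have p2 : (0 : ℝ) < 3 ^ t := by positivity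
  refine ⟨fun i => n i % 3 ^ t, fun i _ => mem_Ico.2 ⟨Int.emod_nonneg _ (by positivity),
    Int.emod_lt_of_pos _ (by positivity)⟩, fun k => ⟨fun i => (x i + k) / 3 ^ t, fun i hi => ?_,
    fun i hi j hj hij => ?_, fun i hi j hj => ?_⟩⟩
  · obtain ⟨a1, a2⟩ := mem_filter.1 hi
    refine ⟨n i / 3 ^ t, ?_⟩
    have a3 : n i = k + 3 ^ t * (n i / 3 ^ t) := by rw [← a2, Int.emod_add_mul_ediv]
    have a4 : (n i : ℝ) = k + 3 ^ t * ((n i / 3 ^ t : ℤ) : ℝ) := by exact_mod_cast a3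
    have a5 := hn i a1
    field_simp
    linarith
  · have hi' : i ∈ T := (mem_filter.1 hi).1
    have hj' : j ∈ T := (mem_filter.1 hj).1
    apply h2 hi' hj'
    have : (x i + k) / 3 ^ t = (x j + k) / 3 ^ t := hij
    rw [div_left_inj' p2.ne'] at this
    linarith
  · rw [← sub_div, abs_div, abs_of_pos p2, show x i + k - (x j + k) = x i - x j by ring]
    exact div_le_div_of_nonneg_right (h3 i (mem_filter.1 hi).1 j (mem_filter.1 hj).1) p2.le

theorem topR {ψ : ι → ℕ → ℕ → ℝ} (h : Conf ψ T u l δ) (hδ : δ ≤ 1 / 2) {v : ι → ℝ} {u' s : ℕ}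
    (hv : ∀ i ∈ T, |v i| ≤ 1 / 7 ∧ Eqv (ψ i u l) (v i) ∧ Eqv (ψ i u' l) (v i / 3 ^ s)) :
    Conf ψ T u' l (δ / 3 ^ s) := by
  obtain ⟨x, h1, h2, h3⟩ := h
  have p2 : (0 : ℝ) < 3 ^ s := by positivity
  have key : ∀ i ∈ T, ∀ j ∈ T, v i - v j = x i - x j := by
    intro i hi j hj
    obtain ⟨n, hn⟩ := (hv i hi).2.1.symm.trans (h1 i hi)
    obtain ⟨m, hm⟩ := (hv j hj).2.1.symm.trans (h1 j hj)
    have a1 := abs_le.1 (hv i hi).1
    have a2 := abs_le.1 (hv j hj).1
    have a3 := abs_le.1 (h3 i hi j hj)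
    have a4 : |((n - m : ℤ) : ℝ)| < 1 := by
      push_cast
      rw [abs_lt]
      constructor <;> linarith [a1.1, a1.2, a2.1, a2.2, a3.1, a3.2]
    rw [← Int.cast_abs] at a4
    have a5 : n - m = 0 := Int.abs_lt_one_iff.1 (by exact_mod_cast a4)
    have a6 : (n : ℝ) = m := by exact_mod_cast sub_eq_zero.1 a5
    linarith
  refine ⟨fun i => v i / 3 ^ s, fun i hi => (hv i hi).2.2, fun i hi j hj hij => ?_,
    fun i hi j hj => ?_⟩
  · apply h2 hi hj
    have a1 : v i / 3 ^ s = v j / 3 ^ s := hij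
    rw [div_left_inj' p2.ne'] at a1
    linarith [key i hi j hj]
  · rw [← sub_div, key i hi j hj, abs_div, abs_of_pos p2]
    exact div_le_div_of_nonneg_right (h3 i hi j hj) p2.le

end conf

theorem exists_Q' {κ : Type} {f : κ → ℝ} (hf : ∀ d, 0 ≤ f d) {B : ℝ} (hB : 0 < B) (s : Finset κ)
    (n : ℕ) (hn : 1 ≤ n) :
    ∃ Q, 0 ≤ Q ∧ (∀ d ∈ s, f d ≤ Q) ∧ (Q / B) ^ n ≤ ∑ d ∈ s, (f d / B) ^ n := by
  rcases s.eq_empty_or_nonempty with rfl | hne
  · exact ⟨0, le_rfl, by simp, by simp [zero_pow (show n ≠ 0 by omega)]⟩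
  obtain ⟨d0, h0, h1⟩ := exists_max_image s f hne
  exact ⟨f d0, hf d0, h1,
    single_le_sum (f := fun d => (f d / B) ^ n) (fun d _ => by have := hf d; positivity) h0⟩

theorem paramsR (hc0 : 0 < c) (hc1 : c ≤ 1) (m K K1 T0 : ℕ) (hK : 1 ≤ K) :
    ∃ n0 L0 : ℕ, 1 ≤ n0 ∧ 1 ≤ L0 ∧
      (1 - c / 2) ^ n0 * ((T0 * L0 + 4 + 1 : ℕ) * (3 ^ (T0 * L0 + 4) * (8 * 2 ^ (T0 * L0 + 4)))) ≤ 1 / 2 ∧
      ∀ r, L0 ≤ r → ∃ n : ℕ, 4 ≤ n ∧ K * 81 ^ n ≤ r ∧ K1 * n ≤ r ∧ ∀ H ≤ 2 * r,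
        (2 * (17 / (1 + c / 30) ^ n)) ^ n0 * ((4 * (H + 1) : ℕ) * (3 ^ (n + 1) * 8))
          + (2 * ((1 / 2) ^ (r / (2 * (m + 1))) / 2)) ^ n0
            * (((n + r + 1) * 4 : ℕ) * (3 ^ (n + 1) * (8 * 2 ^ H))) ≤ (1 / 2 / (r + 1) ^ 2 : ℝ) := by
  set σ : ℝ := 1 + c / 30 with hσ
  have σ1 : 1 < σ := by rw [hσ]; linarith
  obtain ⟨n1, hn1⟩ := small_pow (a := 1 / σ) (by positivity) ((div_lt_one (by linarith)).2 σ1)
    (e := 1 / 68) (by norm_num)
  have hn1' := hn1 (n1 + 4) (by omega)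
  obtain ⟨G, hG⟩ : ∃ G : ℕ, G = (K + K1) * 81 ^ (n1 + 4) := ⟨_, rfl⟩
  have G4 : 4 ≤ G := by
    have a1 : n1 + 4 ≤ 81 ^ (n1 + 4) := (Nat.lt_pow_self (by norm_num)).le
    have a2 : 81 ^ (n1 + 4) ≤ (K + K1) * 81 ^ (n1 + 4) := Nat.le_mul_of_pos_left _ (by omega)
    rw [hG]
    exact le_trans (Nat.le_add_left 4 n1) (a1.trans a2)
  obtain ⟨L0, hL0⟩ : ∃ L0, L0 = G + 2 * (m + 1) := ⟨_, rfl⟩
  obtain ⟨m1, hm1⟩ := small_pow (a := 1 - c / 2) (by linarith) (by linarith)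
    (e := 1 / 2 / ((T0 * L0 + 4 + 1 : ℕ) * (3 ^ (T0 * L0 + 4) * (8 * 2 ^ (T0 * L0 + 4))))) (by positivity)
  obtain ⟨m2, hm2⟩ := small_pow (a := 1 / 2) (by norm_num) (by norm_num)
    (e := 1 / (4608 * (G : ℝ) ^ 8)) (by have : (0 : ℝ) < G := by exact_mod_cast (by omega : 0 < G)
                                        positivity)
  obtain ⟨m3, hm3⟩ := small_pow (a := 1 / 2) (by norm_num) (by norm_num)
    (e := (1 / 294912) ^ (4 * (m + 1))) (by positivity)
  refine ⟨m1 + m2 + m3 + 1, L0, by omega, by omega, ?_, fun r hr => ?_⟩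
  · have b1 := hm1 (m1 + m2 + m3 + 1) (by omega)
    rwa [le_div_iff₀ (by positivity)] at b1
  obtain ⟨n0, hn0⟩ : ∃ n0, n0 = m1 + m2 + m3 + 1 := ⟨_, rfl⟩
  rw [← hn0]
  have b2 := hm2 n0 (by omega)
  have b3 := hm3 n0 (by omega)
  have rG : G ≤ r := by omega
  have r4 : 4 ≤ r := by omega
  have rm : 2 * (m + 1) ≤ r := by omega
  clear hm1 hm2 hm3 hn1
  obtain ⟨j, hj⟩ : ∃ j, j = Nat.log G r := ⟨_, rfl⟩
  have j1 : 1 ≤ j := by rw [hj]; exact Nat.le_log_of_pow_le (by omega) (by simpa using rG)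
  have g1 : G ^ j ≤ r := by rw [hj]; exact Nat.pow_log_le_self G (by omega)
  have g2 : r ≤ G ^ (2 * j) := by
    have := Nat.lt_pow_succ_log_self (b := G) (by omega) r
    rw [← hj] at this
    exact this.le.trans (Nat.pow_le_pow_right (by omega) (by omega))
  obtain ⟨n, hn⟩ : ∃ n, n = (n1 + 4) * j := ⟨_, rfl⟩
  have n4 : 4 ≤ n := by rw [hn]; nlinarith
  have g3 : (K + K1) * 81 ^ n ≤ r := by
    refine le_trans ?_ g1
    rw [hG, mul_pow, ← pow_mul, hn]
    exact Nat.mul_le_mul_right _ (Nat.le_self_pow (by omega) _)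
  have g4 : K * 81 ^ n ≤ r := (Nat.mul_le_mul_right _ (Nat.le_add_right K K1)).trans g3
  have g5 : n ≤ 81 ^ n := (Nat.lt_pow_self (by norm_num)).le
  have g6 : K1 * n ≤ r := (Nat.mul_le_mul (Nat.le_add_left K1 K) g5).trans g3
  have g7 : 81 ^ n ≤ r := (Nat.le_mul_of_pos_left _ hK).trans g4
  have g8 : 3 ^ n ≤ r := (Nat.pow_le_pow_left (by norm_num) _).trans g7
  have c1 : (n : ℝ) ≤ r := by exact_mod_cast g5.trans g7
  have c2 : (r : ℝ) ≤ (G : ℝ) ^ (2 * j) := by exact_mod_cast g2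
  have c4 : (4 : ℝ) ≤ r := by exact_mod_cast r4
  have c8 : (3 : ℝ) ^ n ≤ r := by exact_mod_cast g8
  have c9 : (r : ℝ) ≤ 2 ^ r := by exact_mod_cast Nat.lt_two_pow_self.le
  obtain ⟨t, ht⟩ : ∃ t, t = r / (2 * (m + 1)) := ⟨_, rfl⟩
  have t1 : r ≤ 4 * (m + 1) * t := by
    have a1 : r < 2 * (m + 1) * (t + 1) := by rw [ht]; exact Nat.lt_mul_div_succ r (by omega)
    have a2 : 1 ≤ t := by rw [ht, Nat.le_div_iff_mul_le (by omega)]; omega
    nlinarith
  rw [← ht]
  refine ⟨n, n4, g4, g6, fun H hH => ?_⟩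
  clear g1 g2 g3 g4 g5 g7 g8 hj hG ht
  have c5 : (H : ℝ) ≤ 2 * r := by exact_mod_cast hH
  have T1 : 2 * (17 / σ ^ n) ≤ (1 / 2) ^ j := by
    have e3 : (1 / σ) ^ n ≤ (1 / 68) ^ j := by
      rw [hn, pow_mul]
      exact pow_le_pow_left₀ (by positivity) hn1' j
    have e4 : (1 / 68 : ℝ) ^ j = (1 / 34) ^ j * (1 / 2) ^ j := by rw [← mul_pow]; norm_num
    have e5 : (1 / 34 : ℝ) ^ j ≤ 1 / 34 := pow_le_of_le_one (by norm_num) (by norm_num) (by omega)
    have e6 := mul_le_mul_of_nonneg_right e5 (show (0 : ℝ) ≤ (1 / 2) ^ j by positivity)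
    rw [one_div_pow] at e3
    have e7 : 17 / σ ^ n = 17 * (1 / σ ^ n) := by ring
    linarith
  have U1 : (2 * (17 / σ ^ n)) ^ n0 ≤ 1 / (4608 * (r : ℝ) ^ 4) := by
    refine (pow_le_pow_left₀ (by positivity) T1 n0).trans ?_
    rw [← pow_mul, mul_comm j, pow_mul]
    refine (pow_le_pow_left₀ (by positivity) b2 j).trans ?_
    rw [one_div_pow, mul_pow]
    apply one_div_le_one_div_of_le (by positivity)
    refine mul_le_mul (le_self_pow₀ (by norm_num) (by omega)) ?_ (by positivity) (by positivity)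
    refine (pow_le_pow_left₀ (by positivity) c2 4).trans (le_of_eq ?_)
    rw [← pow_mul, ← pow_mul]; congr 1; ring
  have U2 : (2 * ((1 / 2 : ℝ) ^ t / 2)) ^ n0 ≤ 1 / 294912 ^ r := by
    rw [mul_div_cancel₀ _ (by norm_num), ← pow_mul, mul_comm t, pow_mul, ← one_div_pow]
    refine (pow_le_pow_left₀ (by positivity) b3 t).trans ?_
    rw [← pow_mul]
    exact pow_le_pow_of_le_one (by norm_num) (by norm_num) t1
  have f2 : (3 : ℝ) ^ (n + 1) ≤ 3 * r := by rw [pow_succ]; linarith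
  have V1 : ((4 * (H + 1) : ℕ) : ℝ) * (3 ^ (n + 1) * 8) * (r + 1) ^ 2 ≤ 1152 * (r : ℝ) ^ 4 := by
    have f1 : ((4 * (H + 1) : ℕ) : ℝ) ≤ 12 * r := by push_cast; linarith
    calc _ ≤ 12 * (r : ℝ) * (3 * r * 8) * (2 * r) ^ 2 := by gcongr; linarith
      _ = _ := by ring
  have V2 : (((n + r + 1) * 4 : ℕ) : ℝ) * (3 ^ (n + 1) * (8 * 2 ^ H)) * (r + 1) ^ 2 ≤ 294912 ^ r / 4 := by
    have f1 : (((n + r + 1) * 4 : ℕ) : ℝ) ≤ 12 * r := by push_cast; linarith
    have f3 : (2 : ℝ) ^ H ≤ 2 ^ (2 * r) := pow_le_pow_right₀ (by norm_num) hH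
    have f4 : (4608 : ℝ) ≤ 4608 ^ r := le_self_pow₀ (by norm_num) (by omega)
    calc _ ≤ 12 * (r : ℝ) * (3 * r * (8 * 2 ^ (2 * r))) * (2 * r) ^ 2 := by gcongr; linarith
      _ ≤ 12 * (2 : ℝ) ^ r * (3 * 2 ^ r * (8 * 2 ^ (2 * r))) * (2 * 2 ^ r) ^ 2 := by gcongr
      _ = 4608 * (2 ^ 6) ^ r / 4 := by rw [← pow_mul]; ring
      _ ≤ 4608 ^ r * (2 ^ 6) ^ r / 4 := by gcongr
      _ = _ := by rw [← mul_pow]; norm_num
  rw [le_div_iff₀ (by positivity), add_mul, mul_assoc, mul_assoc _ _ (((r : ℝ) + 1) ^ 2)]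
  have W1 := mul_le_mul U1 V1 (by positivity) (by positivity)
  have W2 := mul_le_mul U2 V2 (by positivity) (by positivity)
  have e1 : 1 / (4608 * (r : ℝ) ^ 4) * (1152 * (r : ℝ) ^ 4) = 1 / 4 := by field_simp; norm_num
  have e2 : 1 / (294912 : ℝ) ^ r * (294912 ^ r / 4) = 1 / 4 := by field_simp
  linarith

theorem flatR (h0 : 0 < q) (h1 : q < 1) (hq : Real.log 2 < q * Real.log 3) (hc0 : 0 < c)
    (hc : c ≤ 4 * q * (1 - q) ^ 3) (hc1 : c ≤ 1) (K1 : ℕ) (hK1 : 1 ≤ K1) :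
    ∃ n0 T1 m : ℕ, 1 ≤ n0 ∧ ∀ (ι : Type) (Z : ι → ℤ) (N : ι → ℕ → ℕ → ℝ) (B : ι → ℝ) (T0 : Finset ι)
      (S P J E g l0 R : ℕ), (∀ i ∈ T0, RS q c S P (Z i) (N i)) →
      (∀ i ∈ T0, ∀ u, E ≤ u → ∀ l, R ≤ l → N i u l = 0) → (∀ i ∈ T0, 0 < B i) →
      (∀ i ∈ T0, ∀ u, E ≤ u → u ≤ E + g → ∀ l, l0 ≤ l → N i u l ≤ B i) →
      J ≤ E + g + K1 * g → T1 ≤ g → R + T1 ≤ S → S ≤ P → R + (m + 1) * (P - S) ≤ P →
      ∀ h u l, u + R ≤ h + l → E ≤ u → u ≤ J → l0 ≤ l → ∀ T ⊆ T0, ∀ δ : ℝ, 0 ≤ δ →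
        Conf (fun i => arr (Z i) P) T u l δ → δ * 2 ^ P * 3 ^ (E + g) ≤ 3 ^ u * 2 ^ l →
        ∑ i ∈ T, (N i u l / B i) ^ n0 ≤ 4 * (2 * δ + 1) := by
  classical
  obtain ⟨m, K, hm, hK, hbig⟩ := bigR h0 h1 hq hc0 hc hc1
  obtain ⟨T2, hT2⟩ := short_gain h0 h1 hc0.le
  obtain ⟨n0, L0, hn0, hL0, hshort, hlong⟩ := paramsR hc0 hc1 m K K1 T2 hK
  refine ⟨n0, T2 * L0 + 4, m, hn0, fun ι Z N B T0 S P J E g l0 R hS hZ hB0 hB hJ hg hR hSP hRP => ?_⟩
  obtain ⟨T3, hT3⟩ : ∃ T3, T3 = T2 * L0 := ⟨_, rfl⟩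
  rw [← hT3] at hshort hg hR
  have hT2' : ∀ r < L0, 1 - c + c * (2 ^ r * (1 - q / 2) ^ T3) ≤ 1 - c / 2 := fun r hr =>
    hT3 ▸ hT2 r L0 hr
  clear hT2 hT3
  have le0 : ∀ i ∈ T0, ∀ h u l, R ≤ l + h → E ≤ u → l0 ≤ l → N i u l ≤ B i := by
    intro i hi h
    induction h with
    | zero => intro u l hl hu _; rw [hZ i hi u hu l hl]; exact (hB0 i hi).le
    | succ h ih =>
      intro u l hl hu hl0
      rcases le_or_gt R l with h2 | h2
      · rw [hZ i hi u hu l h2]; exact (hB0 i hi).le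
      rcases le_or_gt u (E + g) with h3 | h3
      · exact hB i hi u hu h3 l hl0
      obtain ⟨u, rfl⟩ : ∃ u', u = u' + 1 := ⟨u - 1, by omega⟩
      have a0 := (hS i hi).unit u l (by omega)
      have a1 := mul_le_mul_of_nonneg_left (ih u (l + 1) (by omega) (by omega) (by omega)) h0.le
      have a2 := mul_le_mul_of_nonneg_left (ih (u + 1) (l + 1) (by omega) hu (by omega))
        (sub_nonneg.2 h1.le)
      linarith
  have count : ∀ T ⊆ T0, ∀ u l, E ≤ u → l0 ≤ l → l ≤ P → ∀ (u' : ℕ) (δ : ℝ), 0 ≤ δ →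
      Conf (fun i => arr (Z i) P) T u' l δ → δ * 2 ^ P ≤ 2 ^ l →
      ∑ i ∈ T, (N i u l / B i) ^ n0 ≤ 2 := by
    intro T hT u l hu hl hl' u' δ hδ hC h3
    refine (sum_le_card_nsmul _ _ 1 (fun i hi => pow_le_one₀ (div_nonneg ((hS i (hT hi)).nn _ _)
      (hB0 i (hT hi)).le) ((div_le_one (hB0 i (hT hi))).2
        (le0 i (hT hi) R u l (by omega) hu hl)))).trans ?_
    have a1 := cardR hC hl' hδ
    obtain ⟨t, rfl⟩ := Nat.exists_eq_add_of_le hl'
    rw [Nat.add_sub_cancel_left] at a1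
    have a2 : δ * 2 ^ t * 2 ^ l ≤ 1 * 2 ^ l := by rw [pow_add] at h3; linarith
    have := le_of_mul_le_mul_right a2 (by positivity)
    rw [nsmul_eq_mul]
    linarith
  have zero : ∀ u l, E ≤ u → R ≤ l → ∀ T ⊆ T0, ∑ i ∈ T, (N i u l / B i) ^ n0 = 0 := fun u l hu hl T hT =>
    sum_eq_zero (fun i hi => by rw [hZ i (hT hi) u hu l hl, zero_div, zero_pow (by omega)])
  intro h
  induction h with
  | zero =>
    intro u l hl hu _ _ T hT δ hδ _ _
    rw [zero u l hu (by omega) T hT]; positivity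
  | succ h ih =>
    intro u l hl hu huJ hl0 T' hT' δ' hδ0 hC' h3'
    rcases le_or_gt R l with hRl | hRl
    · rw [zero u l hu hRl T' hT']; positivity
    rcases le_or_gt u (E + g) with hEu | hEu
    · have a1 : (3 : ℝ) ^ u * 2 ^ l ≤ 2 ^ l * 3 ^ (E + g) := by
        rw [mul_comm]
        exact mul_le_mul_of_nonneg_left (pow_le_pow_right₀ (by norm_num) hEu) (by positivity)
      have := count T' hT' u l hu hl0 (by omega) u δ' hδ0 hC'
        (le_of_mul_le_mul_right (h3'.trans a1) (by positivity))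
      linarith
    suffices H : ∀ T ⊆ T0, ∀ δ : ℝ, 0 ≤ δ → δ ≤ 1 / 2 → Conf (fun i => arr (Z i) P) T u l δ →
        δ * 2 ^ P * 3 ^ (E + g) ≤ 3 ^ u * 2 ^ l → ∑ i ∈ T, (N i u l / B i) ^ n0 ≤ 4 by
      obtain ⟨f, hf, hf'⟩ := hC'.narrow
      refine (fibre_sum hf (C := 4) (fun k _ => H _ ((filter_subset _ _).trans hT') _
        (le_min hδ0 (by norm_num)) (min_le_right _ _) (hf' k) (le_trans ?_ h3'))).trans ?_
      · gcongr
        exact min_le_left _ _
      · rw [card_range]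
        push_cast
        linarith [Nat.floor_le (show 0 ≤ 2 * δ' by positivity)]
    clear hC' h3' hT' hδ0 T' δ'
    intro T hT δ hδ hδ' hC h3
    have hST : ∀ i ∈ T, RS q c S P (Z i) (N i) := fun i hi => hS i (hT hi)
    rcases lt_or_ge u (2 * P + 4) with hu4 | hu4
    · rw [sum_eq_zero (fun i hi => by rw [(hST i hi).pad u hu4 l, zero_div, zero_pow (by omega)])]
      norm_num
    have land : ∀ T' ⊆ T, ∀ w t s a b : ℕ, w + t + s = u → E ≤ w → w + a ≤ u → w + a + 1 ≤ u + b →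
        Conf (fun i => arr (Z i) P) T' (w + t) l (δ / 3 ^ s) →
        ∑ i ∈ T', (N i (w + a) (l + b) / B i) ^ n0 ≤ 3 ^ t * (4 * (3 ^ a * 2 ^ b / 3 ^ (t + s) + 1)) := by
      intro T' hT' w t s a b e1 e2 e3 e4 hC'
      obtain ⟨f, hf, hf'⟩ := splitR hC'
      refine (fibre_sum hf (C := 4 * (3 ^ a * 2 ^ b / 3 ^ (t + s) + 1)) (fun k _ => ?_)).trans
        (le_of_eq (by rw [Int.card_Ico, sub_zero, show (3 : ℤ) ^ t = ((3 ^ t : ℕ) : ℤ) by push_cast; rfl,
          Int.toNat_natCast]; push_cast; rfl))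
      refine (ih (w + a) (l + b) (by omega) (by omega) (by omega) (by omega) _
        (((filter_subset _ _).trans hT').trans hT) _ (by positivity) (moveR (hf' k) a b) ?_).trans ?_
      · rw [← e1] at h3
        have := mul_le_mul_of_nonneg_left h3 (show (0 : ℝ) ≤ 3 ^ a * 2 ^ b / 3 ^ s / 3 ^ t by positivity)
        refine le_trans (le_of_eq (by ring)) (this.trans (le_of_eq ?_))
        simp only [pow_add]
        field_simp
      · have a2 : 2 * ((3 : ℝ) ^ a * 2 ^ b * (δ / 3 ^ s / 3 ^ t))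
            = 3 ^ a * 2 ^ b * (2 * δ) / 3 ^ (t + s) := by rw [pow_add]; field_simp
        have a3 : (3 : ℝ) ^ a * 2 ^ b * (2 * δ) ≤ 3 ^ a * 2 ^ b :=
          mul_le_of_le_one_right (by positivity) (by linarith)
        rw [a2]
        gcongr
    have hrun := fun i (hi : i ∈ T) => arr_run (hST i hi).odd (u := u) (l := l) (P := P)
      (by omega) (by omega)
    choose! r u0 v d hu0 hd hv1 hv2 hv3 hv4 using hrun
    have ins : ∀ i ∈ T, ∀ s < r i, Eqv (arr (Z i) P (u - s) l) (v i / 3 ^ s) := fun i hi s hs => by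
      have := arr_inside (hv3 i hi) hs
      rwa [← hu0 i hi] at this
    obtain ⟨Hc, hHc⟩ : ∃ Hc, u = E + g + Hc := ⟨u - (E + g), by omega⟩
    rw [← sum_fiberwise_of_maps_to (g := fun i => if r i < L0 then 0 else min (r i) (Hc + 1))
      (t := range (Hc + 1 + 1)) (fun i _ => mem_range.2 (by split_ifs <;> omega)), sum_range_succ]
    have term : ∑ i ∈ T.filter (fun i => (if r i < L0 then 0 else min (r i) (Hc + 1)) = Hc + 1),
        (N i u l / B i) ^ n0 ≤ 2 := by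
      refine count _ ((filter_subset _ _).trans hT) u l hu hl0 (by omega) (u - Hc) (δ / 3 ^ Hc)
        (by positivity) (topR (hC.subset (filter_subset _ _)) hδ' (v := v) (fun i hi => ?_)) ?_
      · obtain ⟨a1, a2⟩ := mem_filter.1 hi
        have a3 : Hc < r i := by split_ifs at a2 <;> omega
        exact ⟨hv2 i a1 (by omega), by simpa using ins i a1 0 (by omega), ins i a1 Hc a3⟩
      · rw [hHc, pow_add 3 (E + g)] at h3
        have a1 : δ * 2 ^ P * 3 ^ (E + g) ≤ 2 ^ l * 3 ^ Hc * 3 ^ (E + g) := by linarith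
        have := le_of_mul_le_mul_right a1 (by positivity)
        rwa [div_mul_eq_mul_div, div_le_iff₀ (by positivity)]
    have cls : ∀ k ∈ range (Hc + 1), ∑ i ∈ T.filter
        (fun i => (if r i < L0 then 0 else min (r i) (Hc + 1)) = k),
        (N i u l / B i) ^ n0 ≤ 1 / 2 / ((k : ℝ) + 1) ^ 2 := by
      intro k hk
      rw [mem_range] at hk
      set T' := T.filter (fun i => (if r i < L0 then 0 else min (r i) (Hc + 1)) = k) with hT'
      have sub : T' ⊆ T := filter_subset _ _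
      rcases Nat.eq_zero_or_pos k with rfl | hk0
      · have rk : ∀ i ∈ T', r i < L0 := fun i hi => by
          have := (mem_filter.1 hi).2
          split_ifs at this <;> omega
        refine le_trans ?_ (hshort.trans (by norm_num))
        have s1 : ∀ i ∈ T', (N i u l / B i) ^ n0 ≤ (1 - c / 2) ^ n0 *
            ∑ e ∈ range (T3 + 4 + 1), (N i (u - e) (l + (T3 + 4)) / B i) ^ n0 := by
          intro i hi
          have a1 := sub hi
          have b0 := hB0 i (hT a1)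
          obtain ⟨Q, q0, q1, q2⟩ := exists_Q (f := fun e => N i (u - e) (l + (T3 + 4)))
            (fun e => (hST i a1).nn _ _) b0 (T3 + 4) n0
          have a2 := (hST i a1).small h0.le h1.le hc0.le hc hc1 T3 (r i) (u0 i) l (v i) (d i) (hd i a1)
            (by linarith [hv1 i a1]) (fun _ => hv1 i a1) (hv3 i a1) (by omega) (hu0 i a1 ▸ q1)
          rw [← hu0 i a1] at a2
          have a3 := a2.trans (mul_le_mul_of_nonneg_right (hT2' _ (rk i hi)) q0)
          refine le_trans ?_ (mul_le_mul_of_nonneg_left q2 (pow_nonneg (by linarith) _))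
          rw [← mul_pow, ← mul_div_assoc]
          exact pow_le_pow_left₀ (div_nonneg ((hST i a1).nn _ _) b0.le)
            (div_le_div_of_nonneg_right a3 b0.le) _
        refine (sum_le_sum s1).trans ?_
        rw [← mul_sum, sum_comm]
        refine mul_le_mul_of_nonneg_left ?_ (pow_nonneg (by linarith) _)
        refine (sum_le_card_nsmul _ _ (3 ^ (T3 + 4) * (8 * 2 ^ (T3 + 4))) (fun e he => ?_)).trans
          (le_of_eq (by rw [card_range, nsmul_eq_mul]))
        have he' := mem_range.1 he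
        refine (land T' sub (u - e) e 0 0 (T3 + 4) (by omega) (by omega) (by omega) (by omega) (by
          rw [show u - e + e = u by omega]
          simpa using hC.subset sub)).trans ?_
        have a1 : (3 : ℝ) ^ 0 * 2 ^ (T3 + 4) / 3 ^ (e + 0) ≤ 2 ^ (T3 + 4) := by
          rw [pow_zero, one_mul]
          exact div_le_self (by positivity) (one_le_pow₀ (by norm_num))
        have a2 : (1 : ℝ) ≤ 2 ^ (T3 + 4) := one_le_pow₀ (by norm_num)
        exact mul_le_mul (pow_le_pow_right₀ (by norm_num) (by omega)) (by linarith) (by positivity)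
          (by positivity)
      rcases lt_or_ge k L0 with hkL | hkL
      · rw [sum_eq_zero (fun i hi => by
          have := (mem_filter.1 hi).2
          split_ifs at this <;> omega)]
        positivity
      have rk : ∀ i ∈ T', r i = k := fun i hi => by
        have := (mem_filter.1 hi).2
        split_ifs at this <;> omega
      obtain ⟨n, p1, p2, p3, p4⟩ := hlong k hkL
      obtain ⟨-, H, b2, b3, b4, b5, b6⟩ := hbig n k p1 p2
      refine le_trans ?_ (p4 H b3)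
      have hng : n ≤ g := Nat.le_of_mul_le_mul_left (p3.trans (by omega)) hK1
      have b4' : (2 : ℝ) ^ H ≤ 3 ^ k := by exact_mod_cast b4
      clear p2 p4 b4
      obtain ⟨w0, hw0⟩ : ∃ w0, u = w0 + (n + k) := ⟨u - (n + k), by omega⟩
      obtain ⟨k', rfl⟩ : ∃ k', k = k' + 1 := ⟨k - 1, by omega⟩
      have hC' : Conf (fun i => arr (Z i) P) T' (w0 + (n + 1)) l (δ / 3 ^ k') := by
        refine topR (hC.subset sub) hδ' (v := v) (fun i hi => ?_)
        have a1 := sub hi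
        have a2 := rk i hi
        refine ⟨hv2 i a1 (by omega), by simpa using ins i a1 0 (by omega), ?_⟩
        have := ins i a1 k' (by omega)
        rwa [show u - k' = w0 + (n + 1) by omega] at this
      set g1 : ℝ := 17 / (1 + c / 30) ^ n with hg1
      set g2 : ℝ := (1 / 2) ^ ((k' + 1) / (2 * (m + 1))) / 2 with hg2
      have g10 : 0 ≤ g1 := by positivity
      have g20 : 0 ≤ g2 := by positivity
      have s1 : ∀ i ∈ T', (N i u l / B i) ^ n0 ≤ (2 * g1) ^ n0 *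
          ∑ z ∈ range 4 ×ˢ range (H + 1), (N i (w0 + z.1) (l + z.2) / B i) ^ n0
          + (2 * g2) ^ n0 * ∑ z ∈ range (n + (k' + 1) + 1) ×ˢ Icc (H - 3) H,
            (N i (w0 + z.1) (l + z.2) / B i) ^ n0 := by
        intro i hi
        have a1 := sub hi
        have b0 := hB0 i (hT a1)
        obtain ⟨Q1, q0, q1, q2⟩ := exists_Q' (f := fun z : ℕ × ℕ => N i (w0 + z.1) (l + z.2))
          (fun d => (hST i a1).nn _ _) b0 (range 4 ×ˢ range (H + 1)) n0 hn0
        obtain ⟨Q2, q3, q4, q5⟩ := exists_Q' (f := fun z : ℕ × ℕ => N i (w0 + z.1) (l + z.2))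
          (fun d => (hST i a1).nn _ _) b0 (range (n + (k' + 1) + 1) ×ˢ Icc (H - 3) H) n0 hn0
        have c1 := b5 _ (rk i hi ▸ hv4 i a1)
        have c2 : l + H ≤ S := by
          have : (m + 1) * (H + (P - S)) ≤ (m + 1) * (P - l) := by
            rw [mul_add, add_mul m 1 (P - l)]; omega
          have := Nat.le_of_mul_le_mul_left this (by omega)
          omega
        have c3 : u0 i = w0 + n := by have := hu0 i a1; have := rk i hi; omega
        have a2 := b6 S P _ _ (hST i a1) w0 l (d i) (v i) Q1 Q2 c2 (hd i a1)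
          (hv2 i a1 (by rw [rk i hi]; omega)) (by rw [← c3, ← rk i hi]; exact hv3 i a1) q0 q3
          (fun a ha b hb => q1 (a, b) (mem_product.2 ⟨mem_range.2 ha, mem_range.2 (by omega)⟩))
          (fun a ha b hb hb' => q4 (a, b) (mem_product.2 ⟨mem_range.2 (by omega),
            mem_Icc.2 ⟨by omega, hb⟩⟩))
        rw [← hw0] at a2
        have a3 : N i u l / B i ≤ g1 * (Q1 / B i) + g2 * (Q2 / B i) :=
          (div_le_div_of_nonneg_right a2 b0.le).trans (le_of_eq (by ring))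
        refine (pow_le_pow_left₀ (div_nonneg ((hST i a1).nn _ _) b0.le) a3 n0).trans ?_
        refine (add_pow_le (by positivity) (by positivity) n0).trans ?_
        refine le_trans ?_ (add_le_add (mul_le_mul_of_nonneg_left q2 (by positivity))
          (mul_le_mul_of_nonneg_left q5 (by positivity)))
        refine (mul_le_mul_of_nonneg_right (pow_le_pow_right₀ (by norm_num) (Nat.sub_le n0 1))
          (by positivity)).trans (le_of_eq ?_)
        simp only [mul_pow]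
        ring
      refine (sum_le_sum s1).trans ?_
      rw [sum_add_distrib, ← mul_sum, ← mul_sum, sum_comm, sum_comm (s := T')]
      refine add_le_add (mul_le_mul_of_nonneg_left ?_ (by positivity))
        (mul_le_mul_of_nonneg_left ?_ (by positivity))
      · refine (sum_le_card_nsmul _ _ (3 ^ (n + 1) * 8) (fun z hz => ?_)).trans
          (le_of_eq (by rw [card_product, card_range, card_range, nsmul_eq_mul]))
        have z1 := mem_range.1 (mem_product.1 hz).1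
        have z2 := mem_range.1 (mem_product.1 hz).2
        refine (land T' sub w0 (n + 1) k' z.1 z.2 (by omega) (by omega) (by omega) (by omega) hC').trans
          (mul_le_mul_of_nonneg_left ?_ (by positivity))
        have a1 : (3 : ℝ) ^ z.1 * 2 ^ z.2 ≤ 3 ^ (n + 1 + k') := by
          rw [add_assoc, pow_add 3 n, add_comm 1 k']
          exact mul_le_mul (pow_le_pow_right₀ (by norm_num) (by omega))
            ((pow_le_pow_right₀ (by norm_num) (by omega)).trans b4') (by positivity) (by positivity)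
        have := (div_le_one (by positivity)).2 a1
        linarith
      · refine (sum_le_card_nsmul _ _ (3 ^ (n + 1) * (8 * 2 ^ H)) (fun z hz => ?_)).trans
          (le_of_eq (by rw [card_product, card_range, Nat.card_Icc, nsmul_eq_mul,
            show H + 1 - (H - 3) = 4 by omega]))
        have z1 := mem_range.1 (mem_product.1 hz).1
        have z2 := mem_Icc.1 (mem_product.1 hz).2
        refine (land T' sub w0 (n + 1) k' z.1 z.2 (by omega) (by omega) (by omega) (by omega) hC').trans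
          (mul_le_mul_of_nonneg_left ?_ (by positivity))
        have a1 : (3 : ℝ) ^ z.1 * 2 ^ z.2 / 3 ^ (n + 1 + k') ≤ 2 ^ H := by
          rw [div_le_iff₀ (by positivity), mul_comm]
          exact mul_le_mul (pow_le_pow_right₀ (by norm_num) z2.2)
            (pow_le_pow_right₀ (by norm_num) (by omega)) (by positivity) (by positivity)
        have a2 : (1 : ℝ) ≤ 2 ^ H := one_le_pow₀ (by norm_num)
        linarith
    have s2 := (sum_le_sum cls).trans (inv_sq_sum Hc)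
    have : 0 ≤ 1 / 2 / ((Hc : ℝ) + 1) := by positivity
    linarith

end Pool.Agent.P.MP_d124bf_nt
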