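import Pool.Agent.P.MP_d124bf_nt.Conf
import Pool.Agent.P.MP_d124bf_nt.Core2

/-!
The time-reversed system: the array is multiplied by two at each step and divided by three at
each jump.
-/

namespace Pool.Agent.P.MP_d124bf_nt

noncomputable def arr (Z : ℤ) (P u l : ℕ) : ℝ := Z * 3 ^ u * 2 ^ l / 2 ^ P

theorem arr_col (Z : ℤ) (P u l d : ℕ) : arr Z P (u + d) l = 3 ^ d * arr Z P u l := by
  rw [arr, arr]; ring

theorem arr_row (Z : ℤ) (P u l t : ℕ) : arr Z P u (l + t) = 2 ^ t * arr Z P u l := by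
  rw [arr, arr]; ring

theorem arr_int (Z : ℤ) {P l : ℕ} (u : ℕ) (h : l ≤ P) :
    2 ^ (P - l) * arr Z P u l = ((Z * 3 ^ u : ℤ) : ℝ) := by
  obtain ⟨t, rfl⟩ := Nat.exists_eq_add_of_le h
  rw [arr, Nat.add_sub_cancel_left]
  push_cast
  field_simp
  ring

theorem arr_low {Z : ℤ} (hZ : Odd Z) {P u l : ℕ} (h : l < P) {v : ℝ} (hv : Eqv (arr Z P u l) v) :
    1 ≤ 2 ^ (P - l) * |v| := by
  obtain ⟨n, hn⟩ := hv
  have h1 := arr_int Z u h.le
  obtain ⟨t, ht⟩ : ∃ t, P - l = t + 1 := ⟨P - l - 1, by omega⟩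
  have h2 : Z * 3 ^ u - 2 ^ (P - l) * n ≠ 0 := by
    have a1 : Odd (Z * 3 ^ u) := hZ.mul (Odd.pow (by decide))
    have a2 : Even (2 ^ (P - l) * n) := by rw [ht, pow_succ]; exact ⟨2 ^ t * n, by ring⟩
    intro h3
    rw [sub_eq_zero] at h3
    exact (Int.not_even_iff_odd.2 a1) (h3 ▸ a2)
  have h3 : (1 : ℝ) ≤ |((Z * 3 ^ u - 2 ^ (P - l) * n : ℤ) : ℝ)| := by
    rw [← Int.cast_abs]; exact_mod_cast Int.one_le_abs h2
  have h4 : ((Z * 3 ^ u - 2 ^ (P - l) * n : ℤ) : ℝ) = 2 ^ (P - l) * v := by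
    rw [Int.cast_sub, ← h1, hn]; push_cast; ring
  rwa [h4, abs_mul, abs_of_pos (show (0 : ℝ) < 2 ^ (P - l) by positivity)] at h3

structure RS (q c : ℝ) (S P : ℕ) (Z : ℤ) (N : ℕ → ℕ → ℝ) : Prop where
  nn : ∀ u l, 0 ≤ N u l
  le1 : ∀ u l, N u l ≤ 1
  unit : ∀ u l, l + 1 ≤ S → N (u + 1) l ≤ q * N u (l + 1) + (1 - q) * N (u + 1) (l + 1)
  gain : ∀ u l, 4 ≤ u → l + 4 ≤ S → Far (1 / 7) (arr Z P u l) →
    N u l ≤ Ex q 4 (fun d => N (u - d) (l + 4)) - c * N (u - 1) (l + 4)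
  odd : Odd Z
  le : S ≤ P
  pad : ∀ u < 2 * P + 4, ∀ l, N u l = 0

variable {q c : ℝ} {S P : ℕ} {Z : ℤ} {N : ℕ → ℕ → ℝ}

theorem RS.walk (X : RS q c S P Z N) (h0 : 0 ≤ q) (h1 : q ≤ 1) :
    ∀ h u l, l + h ≤ S → N u l ≤ Ex q h (fun D => N (u - D) (l + h)) := by
  intro h
  induction h with
  | zero => intro u l _; simp [Ex]
  | succ h ih =>
    intro u l hu
    rcases Nat.eq_zero_or_pos u with rfl | hu0
    · rw [X.pad 0 (by omega) l, ← Ex_const (q := q) (h + 1) 0]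
      exact Ex_mono h0 h1 _ (fun i => X.nn _ _)
    obtain ⟨u, rfl⟩ : ∃ u', u = u' + 1 := ⟨u - 1, by omega⟩
    have h2 := X.unit u l (by omega)
    have i1 := ih u (l + 1) (by omega)
    have i2 := ih (u + 1) (l + 1) (by omega)
    rw [Ex_succ]
    have e2 : (fun i => N (u + 1 - (i + 1)) (l + (h + 1))) = fun i => N (u - i) (l + 1 + h) := by
      funext i; congr 1 <;> omega
    have e3 : l + (h + 1) = l + 1 + h := by ring
    rw [e2, e3]
    have := mul_le_mul_of_nonneg_left i1 h0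
    have := mul_le_mul_of_nonneg_left i2 (sub_nonneg.2 h1)
    linarith

theorem RS.back (X : RS q c S P Z N) (h0 : 0 ≤ q) (h1 : q ≤ 1) {h u l : ℕ} (hl : l + h ≤ S) {Q : ℝ}
    (hQ : ∀ d ≤ h, N (u - d) (l + h) ≤ Q) : N u l ≤ Q := by
  refine (X.walk h0 h1 h u l hl).trans ?_
  rw [← Ex_const (q := q) h Q]
  exact Ex_mono' h0 h1 h hQ

theorem RS.block (X : RS q c S P Z N) (h0 : 0 ≤ q) (h1 : q ≤ 1) (hc : c ≤ 4 * q * (1 - q) ^ 3)
    {u l : ℕ} (hu : 4 ≤ u) (hl : l + 4 ≤ S) {w : ℝ}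
    (hw : w = 0 ∨ (w = 1 ∧ Far (1 / 7) (arr Z P u l))) {g : ℕ → ℝ}
    (hg : ∀ d ≤ 4, N (u - d) (l + 4) ≤ g d) :
    N u l ≤ (1 - q) ^ 4 * g 0 + (4 * q * (1 - q) ^ 3 - c * w) * g 1 + 6 * q ^ 2 * (1 - q) ^ 2 * g 2
      + 4 * q ^ 3 * (1 - q) * g 3 + q ^ 4 * g 4 := by
  have hq : 0 ≤ 1 - q := sub_nonneg.2 h1
  have key : N u l ≤ Ex q 4 (fun d => N (u - d) (l + 4)) - c * w * N (u - 1) (l + 4) := by
    rcases hw with rfl | ⟨rfl, hw⟩
    · simpa using X.walk h0 h1 4 u l hl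
    · simpa using X.gain u l hu hl hw
  have hcw : 0 ≤ 4 * q * (1 - q) ^ 3 - c * w := by
    have : 0 ≤ 4 * q * (1 - q) ^ 3 := by positivity
    rcases hw with rfl | ⟨rfl, _⟩ <;> linarith
  rw [Ex_four] at key
  have a0 := mul_le_mul_of_nonneg_left (hg 0 (by omega)) (show 0 ≤ (1 - q) ^ 4 by positivity)
  have a1 := mul_le_mul_of_nonneg_left (hg 1 (by omega)) hcw
  have a2 := mul_le_mul_of_nonneg_left (hg 2 (by omega))
    (show 0 ≤ 6 * q ^ 2 * (1 - q) ^ 2 by positivity)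
  have a3 := mul_le_mul_of_nonneg_left (hg 3 (by omega))
    (show 0 ≤ 4 * q ^ 3 * (1 - q) by positivity)
  have a4 := mul_le_mul_of_nonneg_left (hg 4 (by omega)) (show 0 ≤ q ^ 4 by positivity)
  linarith

theorem RS.white (X : RS q c S P Z N) (h0 : 0 ≤ q) (h1 : q ≤ 1) (hc : c ≤ 4 * q * (1 - q) ^ 3)
    (hc1 : c ≤ 1) {h u l : ℕ} (hl : l + (h + 4) ≤ S) {Q : ℝ}
    (hQ : ∀ d ≤ h + 4, N (u - d) (l + (h + 4)) ≤ Q) (hw : Far (1 / 7) (arr Z P u l)) :
    N u l ≤ (1 - c) * Q := by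
  rcases lt_or_ge u 4 with hu | hu
  · rw [X.pad u (by omega) l]
    exact mul_nonneg (by linarith) ((X.nn _ _).trans (hQ 0 (by omega)))
  have := X.block h0 h1 hc (u := u) (l := l) hu (by omega) (w := 1) (Or.inr ⟨rfl, hw⟩)
    (g := fun _ => Q) (fun d hd => X.back h0 h1 (h := h) (by omega) (fun e he => by
      have := hQ (d + e) (by omega)
      rwa [← Nat.sub_sub, show l + (h + 4) = l + 4 + h by ring] at this))
  refine this.trans (le_of_eq ?_)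
  ring

theorem RS.trunc (X : RS q c S P Z N) (h0 : 0 ≤ q) (h1 : q ≤ 1) (hc : c ≤ 4 * q * (1 - q) ^ 3)
    {T : ℕ → ℕ → ℝ} (hT0 : ∀ u l, 0 ≤ T u l)
    (hT : ∀ u l, T (u + 1) l = q * T u (l + 1) + (1 - q) * T (u + 1) (l + 1)) (hc0 : 0 ≤ c) :
    RS q c S P Z (fun u l => max (N u l - T u l) 0) := by
  have hq : 0 ≤ 1 - q := sub_nonneg.2 h1
  have m0 : ∀ u l, 0 ≤ max (N u l - T u l) 0 := fun u l => le_max_right _ _
  have m1 : ∀ u l, N u l ≤ max (N u l - T u l) 0 + T u l := fun u l => by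
    have := le_max_left (N u l - T u l) 0
    linarith
  refine ⟨m0, fun u l => max_le (by linarith [X.le1 u l, hT0 u l]) (by norm_num), fun u l hl => ?_,
    fun u l hu hl hw => ?_, X.odd, X.le,
    fun u hu l => max_eq_right (by linarith [X.pad u hu l, hT0 u l])⟩
  · have a1 := mul_le_mul_of_nonneg_left (m1 u (l + 1)) h0
    have a2 := mul_le_mul_of_nonneg_left (m1 (u + 1) (l + 1)) hq
    have a3 := mul_nonneg h0 (m0 u (l + 1))
    have a4 := mul_nonneg hq (m0 (u + 1) (l + 1))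
    exact max_le (by linarith [X.unit u l hl, hT u l]) (by linarith)
  · have hb := X.block h0 h1 hc hu hl (w := 1) (Or.inr ⟨rfl, hw⟩)
      (g := fun d => max (N (u - d) (l + 4) - T (u - d) (l + 4)) 0 + T (u - d) (l + 4))
      (fun d _ => m1 _ _)
    obtain ⟨i, rfl⟩ : ∃ i, u = i + 4 := ⟨u - 4, by omega⟩
    have e : T (i + 4) l = (1 - q) ^ 4 * T (i + 4) (l + 4) + 4 * q * (1 - q) ^ 3 * T (i + 3) (l + 4)
        + 6 * q ^ 2 * (1 - q) ^ 2 * T (i + 2) (l + 4) + 4 * q ^ 3 * (1 - q) * T (i + 1) (l + 4)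
        + q ^ 4 * T i (l + 4) := by
      rw [hT (i + 3) l, hT (i + 2) (l + 1), hT (i + 3) (l + 1), hT (i + 1) (l + 1 + 1),
        hT (i + 2) (l + 1 + 1), hT (i + 3) (l + 1 + 1), hT i (l + 1 + 1 + 1),
        hT (i + 1) (l + 1 + 1 + 1), hT (i + 2) (l + 1 + 1 + 1), hT (i + 3) (l + 1 + 1 + 1)]
      simp only [add_assoc, Nat.reduceAdd]
      ring
    rw [Ex_four]
    simp only [show i + 4 - 0 = i + 4 from rfl, show i + 4 - 1 = i + 3 from rfl,
      show i + 4 - 2 = i + 2 from rfl, show i + 4 - 3 = i + 1 from rfl,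
      show i + 4 - 4 = i from rfl] at hb ⊢
    have a0 := mul_nonneg (show 0 ≤ (1 - q) ^ 4 by positivity) (m0 (i + 4) (l + 4))
    have a1 := mul_nonneg (sub_nonneg.2 hc) (m0 (i + 3) (l + 4))
    have a2 := mul_nonneg (show 0 ≤ 6 * q ^ 2 * (1 - q) ^ 2 by positivity) (m0 (i + 2) (l + 4))
    have a3 := mul_nonneg (show 0 ≤ 4 * q ^ 3 * (1 - q) by positivity) (m0 (i + 1) (l + 4))
    have a4 := mul_nonneg (show 0 ≤ q ^ 4 by positivity) (m0 i (l + 4))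
    have a5 := mul_nonneg hc0 (hT0 (i + 3) (l + 4))
    exact max_le (by linarith) (by linarith)

theorem far_third {d : ℤ} (hd : ¬ (3 : ℤ) ∣ d) : Far (1 / 3) ((d : ℝ) / 3) := by
  intro n
  have h1 : d - 3 * n ≠ 0 := fun h => hd ⟨n, by linarith⟩
  have h2 : (1 : ℝ) ≤ |((d - 3 * n : ℤ) : ℝ)| := by
    rw [← Int.cast_abs]; exact_mod_cast Int.one_le_abs h1
  have e : (d : ℝ) / 3 - n = ((d - 3 * n : ℤ) : ℝ) / 3 := by push_cast; ring
  rw [e, abs_div, abs_of_pos (show (0 : ℝ) < 3 by norm_num)]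
  gcongr

theorem arr_inside {u0 l r s : ℕ} {v : ℝ} {d : ℤ} (ht : Eqv (arr Z P u0 l) (v / 3 ^ r + d / 3))
    (hs : s < r) : Eqv (arr Z P (u0 + r - s) l) (v / 3 ^ s) := by
  obtain ⟨y, rfl⟩ : ∃ y, r = s + (y + 1) := ⟨r - s - 1, by omega⟩
  rw [show u0 + (s + (y + 1)) - s = u0 + (y + 1) by omega, arr_col]
  refine Eqv.trans (by simpa using ht.mul_pow 3 (y + 1)) ⟨3 ^ y * d, ?_⟩
  push_cast
  field_simp
  ring

theorem arr_run (hZ : Odd Z) {u l : ℕ} (hu : P ≤ u) (hl : l < P) :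
    ∃ (r u0 : ℕ) (v : ℝ) (d : ℤ), u = u0 + r ∧ ¬ (3 : ℤ) ∣ d ∧ |v| ≤ 4 / 21 ∧ (r ≠ 0 → |v| ≤ 1 / 7) ∧
      Eqv (arr Z P u0 l) (v / 3 ^ r + d / 3) ∧ 3 ^ r ≤ 2 ^ (P - l) := by
  classical
  by_cases hw : Far (1 / 7) (arr Z P u l)
  · have a1 := hw ⌊arr Z P u l⌋
    have a2 := hw (⌊arr Z P u l⌋ + 1)
    have a3 := Int.fract_nonneg (arr Z P u l)
    have a4 := Int.fract_lt_one (arr Z P u l)
    rw [Int.self_sub_floor, abs_of_nonneg a3] at a1
    push_cast at a2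
    rw [← sub_sub, Int.self_sub_floor, abs_of_neg (by linarith)] at a2
    rcases le_total (Int.fract (arr Z P u l)) (1 / 2) with h | h
    · refine ⟨0, u, Int.fract (arr Z P u l) - 1 / 3, 1, rfl, by norm_num, ?_, fun h => absurd rfl h,
        ⟨⌊arr Z P u l⌋, by simp⟩, Nat.one_le_two_pow⟩
      rw [abs_le]; constructor <;> linarith
    · refine ⟨0, u, Int.fract (arr Z P u l) - 2 / 3, 2, rfl, by norm_num, ?_, fun h => absurd rfl h,
        ⟨⌊arr Z P u l⌋, by simp⟩, Nat.one_le_two_pow⟩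
      rw [abs_le]; constructor <;> linarith
  simp only [Far, not_forall, not_le] at hw
  obtain ⟨n0, hn0⟩ := hw
  set v := arr Z P u l - n0 with hv
  have bound : ∀ y : ℕ, Eqv (arr Z P (u - y) l) (v / 3 ^ y) → (3 : ℝ) ^ y * 7 ≤ 2 ^ (P - l) := by
    intro y hy
    have h1 := arr_low hZ hl hy
    rw [abs_div, abs_of_pos (show (0 : ℝ) < 3 ^ y by positivity), ← mul_div_assoc,
      le_div_iff₀ (by positivity)] at h1
    have : (0 : ℝ) < 2 ^ (P - l) := by positivity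
    nlinarith
  have hP : ¬ Eqv (arr Z P (u - P) l) (v / 3 ^ P) := by
    intro h
    have h1 := bound _ h
    have h2 : (2 : ℝ) ^ (P - l) ≤ 3 ^ P := (pow_le_pow_right₀ (by norm_num) (Nat.sub_le _ _)).trans
      (pow_le_pow_left₀ (by norm_num) (by norm_num) P)
    have : (0 : ℝ) < 3 ^ P := by positivity
    linarith
  have ex : ∃ y : ℕ, ¬ Eqv (arr Z P (u - y) l) (v / 3 ^ y) := ⟨P, hP⟩
  have hne : Nat.find ex ≠ 0 := by
    intro h
    have := Nat.find_spec ex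
    rw [h] at this
    exact this ⟨n0, by simp [hv]⟩
  obtain ⟨r, hr⟩ := Nat.exists_eq_succ_of_ne_zero hne
  have hrP : r + 1 ≤ P := by
    have := Nat.find_min' ex hP
    omega
  have h1 : Eqv (arr Z P (u - r) l) (v / 3 ^ r) := by
    have := Nat.find_min ex (m := r) (by omega)
    simpa using this
  have hN : ¬ Eqv (arr Z P (u - (r + 1)) l) (v / 3 ^ (r + 1)) := by
    have := Nat.find_spec ex
    rwa [hr] at this
  have h2 := bound r h1
  obtain ⟨n, hn⟩ := h1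
  rw [show u - r = u - (r + 1) + 1 by omega, arr_col, pow_one] at hn
  have e : arr Z P (u - (r + 1)) l = v / 3 ^ (r + 1) + n / 3 := by
    rw [pow_succ, ← div_div]; linarith
  refine ⟨r + 1, u - (r + 1), v, n, by omega, ?_, by linarith, fun _ => hn0.le, ⟨0, by simp [e]⟩, ?_⟩
  · rintro ⟨m, rfl⟩
    exact hN ⟨m, by rw [e]; push_cast; ring⟩
  · have : (3 : ℝ) ^ (r + 1) ≤ 2 ^ (P - l) := by
      rw [pow_succ]
      have : (0 : ℝ) < 3 ^ r := by positivity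
      linarith
    exact_mod_cast this

theorem RS.small (X : RS q c S P Z N) (h0 : 0 ≤ q) (h1 : q ≤ 1) (hc0 : 0 ≤ c)
    (hc : c ≤ 4 * q * (1 - q) ^ 3) (hc1 : c ≤ 1) {Q : ℝ} :
    ∀ (T r u0 l : ℕ) (v : ℝ) (d : ℤ), ¬ (3 : ℤ) ∣ d → |v| ≤ 2 / 7 → (r = 0 → |v| ≤ 4 / 21) →
      Eqv (arr Z P u0 l) (v / 3 ^ r + d / 3) → l + (T + 4) ≤ S →
      (∀ e ≤ T + 4, N (u0 + r - e) (l + (T + 4)) ≤ Q) →
      N (u0 + r) l ≤ (1 - c + c * (2 ^ r * (1 - q / 2) ^ T)) * Q := by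
  intro T
  induction T with
  | zero =>
    intro r u0 l v d _ _ _ _ hl hQ
    have q0 : 0 ≤ Q := (X.nn _ _).trans (hQ 0 (by omega))
    have a1 : (1 : ℝ) ≤ 2 ^ r := one_le_pow₀ (by norm_num)
    have a2 := mul_le_mul_of_nonneg_left a1 (mul_nonneg hc0 q0)
    have := X.back h0 h1 hl hQ
    rw [pow_zero]
    linarith
  | succ T ih =>
    intro r u0 l v d hd hv hv0 ht hl hQ
    have q0 : 0 ≤ Q := (X.nn _ _).trans (hQ 0 (by omega))
    have fin : Far (1 / 7) (arr Z P (u0 + r) l) →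
        N (u0 + r) l ≤ (1 - c + c * (2 ^ r * (1 - q / 2) ^ (T + 1))) * Q := by
      intro hw
      have a1 := X.white h0 h1 hc hc1 hl hQ hw
      have a2 : 0 ≤ c * (2 ^ r * (1 - q / 2) ^ (T + 1)) * Q :=
        mul_nonneg (mul_nonneg hc0 (mul_nonneg (by positivity) (pow_nonneg (by linarith) _))) q0
      linarith
    rcases Nat.eq_zero_or_pos r with rfl | hr
    · apply fin
      have := ((far_third hd).add_small (hv0 rfl)).mono (show (1 : ℝ) / 7 ≤ 1 / 3 - 4 / 21 by norm_num)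
      exact this.of_eqv (ht.of_eq (by simp; ring))
    have hψ : Eqv (arr Z P (u0 + r) l) v := by simpa using arr_inside (s := 0) ht hr
    by_cases hw : 1 / 7 ≤ |v|
    · exact fin ((far_of_abs hw (by linarith)).of_eqv hψ)
    rw [not_le] at hw
    obtain ⟨r, rfl⟩ : ∃ r', r = r' + 1 := ⟨r - 1, by omega⟩
    have e' : l + (T + 1 + 4) = l + 1 + (T + 4) := by ring
    rw [e'] at hQ hl
    have hd2 : ¬ (3 : ℤ) ∣ 2 * d := fun h => hd (by omega)
    have t2 : Eqv (arr Z P u0 (l + 1)) (2 * (v / 3 ^ (r + 1) + d / 3)) := by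
      rw [arr_row, pow_one]
      simpa using ht.mul_int 2
    have i1 := ih (r + 1) u0 (l + 1) (2 * v) (2 * d) hd2 (by rw [abs_mul, abs_two]; linarith)
      (fun h => absurd h (by omega)) (t2.of_eq (by push_cast; ring)) hl (fun e he => hQ e (by omega))
    have i2 := ih r u0 (l + 1) (2 * v / 3) (2 * d) hd2
      (by rw [abs_div, abs_mul, abs_two]; norm_num; linarith)
      (fun _ => by rw [abs_div, abs_mul, abs_two]; norm_num; linarith)
      (t2.of_eq (by rw [pow_succ]; push_cast; field_simp)) hl (fun e he => by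
        have := hQ (e + 1) (by omega)
        rwa [← add_assoc, Nat.add_sub_add_right] at this)
    have a0 := X.unit (u0 + r) l (by omega)
    have a1 := mul_le_mul_of_nonneg_left i2 h0
    have a2 := mul_le_mul_of_nonneg_left i1 (sub_nonneg.2 h1)
    rw [← add_assoc] at a2 ⊢
    refine a0.trans ((add_le_add a1 a2).trans (le_of_eq ?_))
    ring

end Pool.Agent.P.MP_d124bf_nt
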