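import Pool.Agent.P.MP_d124bf_nt.Bridge
import Pool.Agent.P.MP_d124bf_nt.Core

/-!
The gain lemmas with a fixed final row, for systems that vanish on the first columns.
-/

namespace Pool.Agent.P.MP_d124bf_nt

theorem caseC {z : ℤ} {a p u l : ℕ} (hu : 1 ≤ u) (hη : |((3 ^ a * z : ℤ) : ℝ) / 2 ^ p| ≤ 1 / 2)
    (hw : Far (1 / 8) (psi z a (4 + p) u l)) :
    Far (1 / 30) (dl (3 ^ a * z) p (a + u) (l + 1)) ∨ Far (1 / 30) (dl (3 ^ a * z) p (a + u) (l + 2)) ∨
      Far (1 / 30) (dl (3 ^ a * z) p (a + u) (l + 3)) := by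
  rcases le_total |((3 ^ a * z : ℤ) : ℝ) / 2 ^ p| (1 / 10) with h | h
  · exact Or.inr (Or.inr (caseB hu h hw))
  by_cases hθ : Far (1 / 8) (psi 1 0 4 (a + u) l)
  · exact caseA (by omega) (far_of_abs h hη) hθ
  right; right
  set j := a + u with hj
  have t3 := theta_step (j := j) (l + 3)
  have t0 := theta_abs (j := j) (by omega) (l + 3) (l + 3)
  set lam : ℝ := ((3 ^ a * z : ℤ) : ℝ) / 2 ^ p with hlam
  have t4 : |(mm j (l + 3 + 1) : ℝ) / 3 ^ j - digit (l + 3) j| ≤ 1 / 8 := by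
    simp only [Far, not_forall, not_le] at hθ
    obtain ⟨n, hn⟩ := hθ
    simp only [psi, zero_add, Int.cast_one, one_mul] at hn
    have h1 : |(mm j (l + 3 + 1) : ℝ) / 3 ^ j - digit (l + 3) j| < 1 / 2 := by
      rw [t3, abs_div, abs_two]; linarith
    have h2 : |((n - (digit (l + 3) j : ℤ) : ℤ) : ℝ)| < 1 := by
      push_cast
      rw [show l + 4 = l + 3 + 1 from rfl] at hn
      rw [abs_lt] at h1 hn ⊢
      constructor <;> linarith [h1.1, h1.2, hn.1, hn.2]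
    have h3 : n - (digit (l + 3) j : ℤ) = 0 := by
      rw [← Int.cast_abs] at h2
      exact Int.abs_lt_one_iff.1 (by exact_mod_cast h2)
    have h4 : (n : ℝ) = digit (l + 3) j := by exact_mod_cast sub_eq_zero.1 h3
    rw [← h4]
    exact hn.le
  have hs : |-(lam * ((mm j (l + 3 + 1) : ℝ) / 3 ^ j - digit (l + 3) j))| ≤ 1 / 16 := by
    rw [abs_neg, abs_mul]
    have := mul_le_mul hη t4 (abs_nonneg _) (by norm_num)
    linarith
  refine ((hw.add_small hs).mono (by norm_num)).of_eqv ⟨-(3 ^ a * z * digit (l + 3 + p) j), ?_⟩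
  have e1 : (3 : ℝ) ^ j * DD p j (l + 3) = 2 ^ p * (mm j (l + 3 + p) : ℝ) - mm j (l + 3) := by
    exact_mod_cast DD_spec p j (l + 3)
  have e2 : (3 : ℝ) ^ j * DD p j (l + 3 + 1)
      = 2 ^ p * (mm j (l + 3 + 1 + p) : ℝ) - mm j (l + 3 + 1) := by
    exact_mod_cast DD_spec p j (l + 3 + 1)
  have e3 : (mm j (l + 3) : ℝ) + 3 ^ j * digit (l + 3) j = 2 * mm j (l + 3 + 1) := by
    exact_mod_cast mm_succ j (l + 3)
  have e4 : (mm j (l + 3 + p) : ℝ) + 3 ^ j * digit (l + 3 + p) j = 2 * mm j (l + 3 + p + 1) := by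
    exact_mod_cast mm_succ j (l + 3 + p)
  rw [show l + 3 + 1 + p = l + 3 + p + 1 by ring] at e2
  have f1 : (DD p j (l + 3) : ℝ) = (2 ^ p * (mm j (l + 3 + p) : ℝ) - mm j (l + 3)) / 3 ^ j := by
    rw [← e1]; field_simp
  have f2 : (DD p j (l + 3 + 1) : ℝ)
      = (2 ^ p * (mm j (l + 3 + p + 1) : ℝ) - mm j (l + 3 + 1)) / 3 ^ j := by
    rw [← e2]; field_simp
  have f3 : (mm j (l + 3) : ℝ) = 2 * mm j (l + 3 + 1) - 3 ^ j * digit (l + 3) j := by linarith
  have f4 : (mm j (l + 3 + p) : ℝ) = 2 * mm j (l + 3 + p + 1) - 3 ^ j * digit (l + 3 + p) j := by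
    linarith
  rw [dl, psi, ← hj, show l + (4 + p) = l + 3 + p + 1 by ring, f1, f2, f3, f4, hlam]
  have h3 : (3 : ℝ) ^ j = 3 ^ a * 3 ^ u := by rw [hj, pow_add]
  rw [h3]
  push_cast
  field_simp
  ring

variable {q c : ℝ} {N ψ : ℕ → ℕ → ℝ}

theorem Ex_mono' (h0 : 0 ≤ q) (h1 : q ≤ 1) (h : ℕ) {f g : ℕ → ℝ} (hfg : ∀ i ≤ h, f i ≤ g i) :
    Ex q h f ≤ Ex q h g := by
  induction h generalizing f g with
  | zero => simpa [Ex] using hfg 0 le_rfl
  | succ h ih =>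
    simp only [Ex]
    apply ih
    intro i hi
    have := mul_le_mul_of_nonneg_left (hfg (i + 1) (by omega)) h0
    have := mul_le_mul_of_nonneg_left (hfg i (by omega)) (sub_nonneg.2 h1)
    linarith

theorem Ex_pow (h : ℕ) (x A : ℝ) : Ex q h (fun i => A * x ^ i) = A * (q * x + 1 - q) ^ h := by
  induction h generalizing A with
  | zero => simp [Ex]
  | succ h ih =>
    rw [Ex_succ]
    have : (fun i => A * x ^ (i + 1)) = fun i => (A * x) * x ^ i := by funext i; ring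
    rw [this, ih, ih]
    ring

theorem Ex_tail (h0 : 0 ≤ q) (h1 : q ≤ 1) (h D : ℕ) {x : ℝ} (hx : 1 ≤ x) :
    Ex q h (fun i => if D < i then 1 else 0) ≤ (q * x + 1 - q) ^ h / x ^ (D + 1) := by
  have hx0 : 0 < x ^ (D + 1) := by positivity
  refine (Ex_mono h0 h1 h (g := fun i => (x ^ (D + 1))⁻¹ * x ^ i) (fun i => ?_)).trans
    (le_of_eq (by rw [Ex_pow]; ring))
  split_ifs with hi
  · rw [inv_mul_eq_div, le_div_iff₀ hx0, one_mul]
    exact pow_le_pow_right₀ hx hi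
  · positivity

/-- subtracting a harmonic function keeps the system -/
theorem Sys.trunc (S : Sys q c N ψ) (h0 : 0 ≤ q) (h1 : q ≤ 1) (hc : c ≤ 4 * q * (1 - q) ^ 3)
    {T : ℕ → ℕ → ℝ} (hT0 : ∀ u l, 0 ≤ T u l)
    (hT : ∀ u l, T (u + 1) l = q * T u (l + 1) + (1 - q) * T (u + 1) (l + 1)) (hc0 : 0 ≤ c) :
    Sys q c (fun u l => max (N u l - T u l) 0) ψ := by
  have hq : 0 ≤ 1 - q := sub_nonneg.2 h1
  have m0 : ∀ u l, 0 ≤ max (N u l - T u l) 0 := fun u l => le_max_right _ _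
  have m1 : ∀ u l, N u l ≤ max (N u l - T u l) 0 + T u l := fun u l => by
    have := le_max_left (N u l - T u l) 0
    linarith
  refine ⟨m0, fun u l => max_le (by linarith [S.le1 u l, hT0 u l]) (by norm_num), fun u l => ?_,
    fun u l hu hw => ?_, S.two, S.three, S.low, S.zero⟩
  · have a1 := mul_le_mul_of_nonneg_left (m1 u (l + 1)) h0
    have a2 := mul_le_mul_of_nonneg_left (m1 (u + 1) (l + 1)) hq
    have a3 := mul_nonneg h0 (m0 u (l + 1))
    have a4 := mul_nonneg hq (m0 (u + 1) (l + 1))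
    exact max_le (by linarith [S.unit u l, hT u l]) (by linarith)
  · have hb := S.block h0 h1 hc hu (w := 1) (Or.inr ⟨rfl, hw⟩)
      (g := fun d => max (N (u - d) (l + 4) - T (u - d) (l + 4)) 0 + T (u - d) (l + 4))
      (fun d _ => m1 _ _)
    obtain ⟨i, rfl⟩ : ∃ i, u = i + 4 := ⟨u - 4, by omega⟩
    have e : T (i + 4) l = (1 - q) ^ 4 * T (i + 4) (l + 4) + 4 * q * (1 - q) ^ 3 * T (i + 3) (l + 4)
        + 6 * q ^ 2 * (1 - q) ^ 2 * T (i + 2) (l + 4) + 4 * q ^ 3 * (1 - q) * T (i + 1) (l + 4)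
        + q ^ 4 * T i (l + 4) := by
      rw [hT (i + 3) l, hT (i + 2) (l + 1), hT (i + 3) (l + 1), hT (i + 1) (l + 1 + 1),
        hT (i + 2) (l + 1 + 1), hT (i + 3) (l + 1 + 1), hT i (l + 1 + 1 + 1),
        hT (i + 1) (l + 1 + 1 + 1), hT (i + 2) (l + 1 + 1 + 1), hT (i + 3) (l + 1 + 1 + 1)]
      simp only [add_assoc, Nat.reduceAdd]
      ring
    rw [Ex_four]
    simp only [show i + 4 - 0 = i + 4 from rfl, show i + 4 - 1 = i + 3 from rfl,
      show i + 4 - 2 = i + 2 from rfl, show i + 4 - 3 = i + 1 from rfl,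
      show i + 4 - 4 = i from rfl] at hb ⊢
    have a0 := mul_nonneg (show 0 ≤ (1 - q) ^ 4 by positivity) (m0 (i + 4) (l + 4))
    have a1 := mul_nonneg (sub_nonneg.2 hc) (m0 (i + 3) (l + 4))
    have a2 := mul_nonneg (show 0 ≤ 6 * q ^ 2 * (1 - q) ^ 2 by positivity) (m0 (i + 2) (l + 4))
    have a3 := mul_nonneg (show 0 ≤ 4 * q ^ 3 * (1 - q) by positivity) (m0 (i + 1) (l + 4))
    have a4 := mul_nonneg (show 0 ≤ q ^ 4 by positivity) (m0 i (l + 4))
    have a5 := mul_nonneg hc0 (hT0 (i + 3) (l + 4))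
    exact max_le (by linarith) (by linarith)

theorem Sys.walk0 (S : Sys q c N ψ) (h0 : 0 ≤ q) (h1 : q ≤ 1) {F : ℕ}
    (hZ : ∀ u < 4, ∀ l ≤ F, N u l = 0) :
    ∀ h u l, l + h ≤ F → N u l ≤ Ex q h (fun D => N (u - D) (l + h)) := by
  intro h
  induction h with
  | zero => intro u l _; simp [Ex]
  | succ h ih =>
    intro u l hu
    rcases Nat.eq_zero_or_pos u with rfl | hu0
    · rw [hZ 0 (by norm_num) l (by omega), ← Ex_const (q := q) (h + 1) 0]
      exact Ex_mono h0 h1 _ (fun i => S.nn _ _)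
    obtain ⟨u, rfl⟩ : ∃ u', u = u' + 1 := ⟨u - 1, by omega⟩
    have h2 := S.unit u l
    have i1 := ih u (l + 1) (by omega)
    have i2 := ih (u + 1) (l + 1) (by omega)
    rw [Ex_succ]
    have e2 : (fun i => N (u + 1 - (i + 1)) (l + (h + 1))) = fun i => N (u - i) (l + 1 + h) := by
      funext i; congr 1 <;> omega
    have e3 : l + (h + 1) = l + 1 + h := by ring
    rw [e2, e3]
    have := mul_le_mul_of_nonneg_left i1 h0
    have := mul_le_mul_of_nonneg_left i2 (sub_nonneg.2 h1)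
    linarith

theorem Sys.back (S : Sys q c N ψ) (h0 : 0 ≤ q) (h1 : q ≤ 1) {F : ℕ}
    (hZ : ∀ u < 4, ∀ l ≤ F, N u l = 0) {h u l : ℕ} (hl : l + h ≤ F) {Q : ℝ}
    (hQ : ∀ d ≤ h, N (u - d) (l + h) ≤ Q) : N u l ≤ Q := by
  refine (S.walk0 h0 h1 hZ h u l hl).trans ?_
  rw [← Ex_const (q := q) h Q]
  exact Ex_mono' h0 h1 h hQ

theorem Sys.white' (S : Sys q c N ψ) (h0 : 0 ≤ q) (h1 : q ≤ 1) (hc : c ≤ 4 * q * (1 - q) ^ 3)
    (hc1 : c ≤ 1) {F : ℕ} (hZ : ∀ u < 4, ∀ l ≤ F, N u l = 0) {h u l : ℕ} (hl : l + (h + 4) ≤ F) {Q : ℝ}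
    (hQ : ∀ d ≤ h + 4, N (u - d) (l + (h + 4)) ≤ Q) (hw : Far (1 / 8) (ψ u l)) :
    N u l ≤ (1 - c) * Q := by
  rcases lt_or_ge u 4 with hu | hu
  · rw [hZ u hu l (by omega)]
    exact mul_nonneg (by linarith) ((S.nn _ _).trans (hQ 0 (by omega)))
  have := S.block h0 h1 hc (u := u) (l := l) hu (w := 1) (Or.inr ⟨rfl, hw⟩)
    (g := fun _ => Q) (fun d hd => S.back h0 h1 hZ (h := h) (by omega) (fun e he => by
      have := hQ (d + e) (by omega)
      rwa [← Nat.sub_sub, show l + (h + 4) = l + 4 + h by ring] at this))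
  refine this.trans (le_of_eq ?_)
  ring

theorem Sys.small' (S : Sys q c N ψ) (h0 : 0 ≤ q) (h1 : q ≤ 1) (hc : c ≤ 4 * q * (1 - q) ^ 3)
    (hc1 : c ≤ 1) {F : ℕ} (hZ : ∀ u < 4, ∀ l ≤ F, N u l = 0) {Q : ℝ} :
    ∀ (r u l : ℕ) (v : ℝ), |v| ≤ 3 / 8 → Eqv (ψ u (l + r)) (v / 2 ^ r + 1 / 2) → l + (r + 4) ≤ F →
      (∀ d ≤ r + 4, N (u - d) (l + (r + 4)) ≤ Q) → N u l ≤ (1 - c) * Q := by
  intro r
  induction r with
  | zero =>
    intro u l v hv ht hl hQ
    apply S.white' h0 h1 hc hc1 hZ hl hQ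
    have := (far_half.add_small hv).mono (show (1 : ℝ) / 8 ≤ 1 / 2 - 3 / 8 by norm_num)
    exact this.of_eqv (ht.of_eq (by simp; ring))
  | succ r ih =>
    intro u l v hv ht hl hQ
    have hψ : Eqv (ψ u l) v := by
      have h2 := (S.two_pow u l (r + 1)).trans (by simpa using ht.mul_pow 2 (r + 1))
      refine h2.trans ⟨2 ^ r, ?_⟩
      push_cast
      field_simp
      ring
    by_cases hw : 1 / 8 ≤ |v|
    · exact S.white' h0 h1 hc hc1 hZ hl hQ ((far_of_abs hw (by linarith)).of_eqv hψ)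
    · rw [not_le] at hw
      rcases Nat.eq_zero_or_pos u with rfl | hu0
      · rw [hZ 0 (by norm_num) l (by omega)]
        exact mul_nonneg (by linarith) ((S.nn _ _).trans (hQ 0 (by omega)))
      obtain ⟨u, rfl⟩ : ∃ u', u = u' + 1 := ⟨u - 1, by omega⟩
      have e : l + (r + 1) = l + 1 + r := by ring
      have e' : l + (r + 1 + 4) = l + 1 + (r + 4) := by ring
      rw [e] at ht
      rw [e'] at hQ hl
      have i1 := ih (u + 1) (l + 1) (v / 2) (by rw [abs_div]; norm_num; linarith)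
        (ht.of_eq (by rw [pow_succ]; field_simp)) hl (fun d hd => hQ d (by omega))
      have i2 := ih u (l + 1) (3 * v / 2) (by rw [abs_div, abs_mul]; norm_num; linarith)
        (by
          have h3 := (S.three u (l + 1 + r)).trans (by simpa using ht.mul_int 3)
          refine h3.trans ⟨1, ?_⟩
          rw [pow_succ]; push_cast; field_simp; ring) hl (fun d hd => by
            have := hQ (d + 1) (by omega)
            rwa [Nat.add_sub_add_right] at this)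
      have := S.unit u l
      have := mul_le_mul_of_nonneg_left i2 h0
      have := mul_le_mul_of_nonneg_left i1 (sub_nonneg.2 h1)
      linarith

theorem Sys.le_GG' (S : Sys q c N ψ) (h0 : 0 ≤ q) (h1 : q ≤ 1) (hc0 : 0 ≤ c)
    (hc : c ≤ 4 * q * (1 - q) ^ 3) {F : ℕ} (hZ : ∀ u < 4, ∀ l ≤ F, N u l = 0)
    {u L n Dm : ℕ} {Q : ℝ} (hL : L + 4 * n ≤ F) (hQ : ∀ d ≤ Dm, N (u - d) (L + 4 * n) ≤ Q)
    {R : ℤ} {w : ℝ} (hw : 3 ^ Dm * |w| ≤ 1)
    (hψ : ∀ s < n, Eqv (ψ u (L + 4 * s)) ((w + R) / 2 ^ (4 + 4 * s))) :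
    ∀ t s D, s + t = n → D + 4 * t ≤ Dm → N (u - D) (L + 4 * s) ≤ Q * GG q c R t s D := by
  intro t
  induction t with
  | zero =>
    intro s D hs hD
    obtain rfl : s = n := by omega
    simpa [GG] using hQ D (by omega)
  | succ t ih =>
    intro s D hs hD
    rcases lt_or_ge (u - D) 4 with hu | hu
    · rw [hZ _ hu _ (by omega)]
      exact mul_nonneg ((S.nn _ _).trans (hQ 0 (by omega))) (GG_bounds h0 h1 hc0 hc R _ _ _).1
    have hb := S.block h0 h1 hc (u := u - D) (l := L + 4 * s) hu (w := ind R s D)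
      (by
        rcases ind_cases R s D with h | ⟨h, hf⟩
        · exact Or.inl h
        · refine Or.inr ⟨h, ?_⟩
          have e1 := (S.three_sub (u := u) (D := D) (by omega) (L + 4 * s)).trans
            (by simpa using (hψ s (by omega)).mul_pow 3 D)
          have hs' : |(3 : ℝ) ^ D * w / 2 ^ (4 + 4 * s)| ≤ 1 / 8 := by
            rw [abs_div, abs_mul, abs_of_pos (show (0 : ℝ) < 3 ^ D by positivity),
              abs_of_pos (show (0 : ℝ) < 2 ^ (4 + 4 * s) by positivity),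
              div_le_iff₀ (by positivity)]
            have h3 : (3 : ℝ) ^ D ≤ 3 ^ Dm := pow_le_pow_right₀ (by norm_num) (by omega)
            have h4 : (2 : ℝ) ^ 4 ≤ 2 ^ (4 + 4 * s) := pow_le_pow_right₀ (by norm_num) (by omega)
            have h5 := mul_le_mul_of_nonneg_right h3 (abs_nonneg w)
            linarith
          have := (hf.add_small hs').mono (show (1 : ℝ) / 8 ≤ 1 / 4 - 1 / 8 by norm_num)
          exact this.of_eqv (e1.of_eq (by ring)))
      (g := fun d => Q * GG q c R t (s + 1) (D + d)) (fun d hd => by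
        have := ih (s + 1) (D + d) (by omega) (by omega)
        rwa [show u - (D + d) = u - D - d by omega, show L + 4 * (s + 1) = L + 4 * s + 4 by ring]
          at this)
    refine hb.trans (le_of_eq ?_)
    rw [GG]
    ring

theorem Sys.big' (S : Sys q c N ψ) (h0 : 0 < q) (h1 : q < 1) (hc0 : 0 ≤ c)
    (hc : c ≤ 4 * q * (1 - q) ^ 3) (hc1 : c ≤ 1) {F : ℕ} (hZ : ∀ u < 4, ∀ l ≤ F, N u l = 0)
    {u l r n D1 : ℕ} {Q1 Q2 v e x : ℝ} (hL : l + r + 3 + 4 * n ≤ F)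
    (hQ1 : ∀ d ≤ D1 + 4 * n, N (u - d) (l + r + 3 + 4 * n) ≤ Q1)
    (hQ2 : ∀ d ≤ r + 3 + 4 * n, N (u - d) (l + r + 3 + 4 * n) ≤ Q2) (hv : |v| ≤ 1 / 8)
    (ht : Eqv (ψ u (l + r)) (v / 2 ^ r + 1 / 2)) (hD : (3 : ℝ) ^ (D1 + 4 * n) ≤ 2 ^ r)
    (he0 : 0 < e) (he : 1 ≤ e ^ 2 * ((((r + 3 : ℕ) : ℝ) + 1) * q * (1 - q))) (hx : 1 ≤ x) :
    N u l ≤ Q1 * ((1 - c / 2) ^ n + 2 ^ (4 * n + 1) * e)
      + Q2 * ((q * x + 1 - q) ^ (r + 3) / x ^ (D1 + 1)) := by
  obtain ⟨m, hm⟩ := (S.two_pow u (l + r) (3 + 4 * n)).symm.trans ht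
  set R : ℤ := 2 * m + 1 with hRdef
  have hR : Odd R := ⟨m, rfl⟩
  set w : ℝ := 2 * v / 2 ^ r with hwdef
  have hw : (3 : ℝ) ^ (D1 + 4 * n) * |w| ≤ 1 := by
    rw [hwdef, abs_div, abs_mul, abs_of_pos (show (0 : ℝ) < 2 ^ r by positivity), ← mul_div_assoc,
      div_le_one (by positivity)]
    have : |(2 : ℝ)| * |v| ≤ 1 := by rw [abs_two]; linarith
    have h3 : (0 : ℝ) ≤ 3 ^ (D1 + 4 * n) := by positivity
    nlinarith
  have hψ : ∀ s < n, Eqv (ψ u (l + r + 3 + 4 * s)) ((w + R) / 2 ^ (4 + 4 * s)) := by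
    intro s hs
    obtain ⟨j, rfl⟩ : ∃ j, n = s + j := ⟨n - s, by omega⟩
    have h2 := S.two_pow u (l + r + 3 + 4 * s) (4 * j)
    rw [show l + r + 3 + 4 * s + 4 * j = l + r + (3 + 4 * (s + j)) by ring] at h2
    refine h2.of_eq ?_
    have e1 : ψ u (l + r + (3 + 4 * (s + j))) = (v / 2 ^ r + 1 / 2 + m) / 2 ^ (3 + 4 * (s + j)) := by
      rw [← hm]; field_simp
    rw [e1, hwdef, hRdef]
    push_cast
    field_simp
    ring
  have hG := S.le_GG' h0.le h1.le hc0 hc hZ hL hQ1 hw hψ n 0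
  have hB := GG_bounds h0.le h1.le hc0 hc R n 0
  have q1 : 0 ≤ Q1 := (S.nn _ _).trans (hQ1 0 (by omega))
  have q2 : 0 ≤ Q2 := (S.nn _ _).trans (hQ2 0 (by omega))
  have hcmp := (S.walk0 h0.le h1.le hZ (r + 3) u l (by omega)).trans (Ex_mono' h0.le h1.le (r + 3)
    (g := fun D => Q1 * GG q c R n 0 D + Q2 * (if D1 < D then 1 else 0)) (fun D hD => by
      split_ifs with h
      · have a1 := mul_nonneg q1 (hB D).1
        have a2 : N (u - D) (l + (r + 3)) ≤ Q2 :=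
          S.back h0.le h1.le hZ (h := 4 * n) (by omega) (fun d hd => by
            have := hQ2 (D + d) (by omega)
            rwa [← Nat.sub_sub, add_assoc l r 3] at this)
        linarith
      · have := hG D (by omega) (by omega)
        simpa [add_assoc] using this))
  rw [Ex_lin] at hcmp
  have a1 := Ex_le_of_Av h0 h1 (r + 3) he0 he (fun i => (hB i).1) (fun i => (hB i).2) (Ls n 0)
    (GG_av h0.le h1.le hc0 hc hc1 R hR n 0)
  have a2 := Ex_tail h0.le h1.le (r + 3) D1 hx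
  have a3 : (((Ls n 0).sum : ℕ) : ℝ) ≤ 2 ^ (4 * n + 1) := by
    have := Ls_sum n 0
    rw [zero_add] at this
    have h4 : (Ls n 0).sum ≤ 2 ^ (4 * n + 1) := by omega
    exact_mod_cast h4
  have a4 := mul_le_mul_of_nonneg_right a3 he0.le
  have a5 : Ex q (r + 3) (GG q c R n 0) ≤ (1 - c / 2) ^ n + 2 ^ (4 * n + 1) * e := by linarith
  have := mul_le_mul_of_nonneg_left a5 q1
  have := mul_le_mul_of_nonneg_left a2 q2
  linarith

end Pool.Agent.P.MP_d124bf_nt
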